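import Pool.Agent.H12.TN.Defs

/-!
MB (Moebius maps of the disc).  Pure computation, `c = 1 - conj b * x ≠ 0` because `‖conj b * x‖ < 1`.
`mob_norm`: `‖c‖² - ‖x - b‖² = (1 - ‖b‖²)(1 - ‖x‖²)`.
`mob_dist`: `mob u b x - mob u b y = u (1 - ‖b‖²) (x - y) / ((1 - conj b x) (1 - conj b y))`.
`mob_pd`: the same for `1 - conj (mob x) * mob y = (1 - ‖b‖²)(1 - conj x y) / (conj (1 - conj b x) (1 - conj b y))`.
`mob_log`: on the unit circle `z⁻¹ = conj z`, `mob u b z / z = u (1 - b conj z) / (1 - conj b z)`, and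
`1 - b conj z`, `1 - conj b z` are in the slit plane (real part positive): use `Complex.log`.
`mob_comp_inv`: `mob (conj u) (-u b)` is the inverse.
-/

namespace TN
open Metric Set Filter Topology DS

theorem MB_norm_lt {b x : ℂ} (hb : ‖b‖ < 1) (hx : ‖x‖ ≤ 1) : ‖(starRingEnd ℂ) b * x‖ < 1 := by
  rw [norm_mul, RCLike.norm_conj]
  calc ‖b‖ * ‖x‖ ≤ ‖b‖ * 1 := mul_le_mul_of_nonneg_left hx (norm_nonneg _)
    _ < 1 := by linarith

theorem den_ne {b x : ℂ} (hb : ‖b‖ < 1) (hx : ‖x‖ ≤ 1) : 1 - (starRingEnd ℂ) b * x ≠ 0 := by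
  intro h
  have h1 := MB_norm_lt hb hx
  rw [← sub_eq_zero.1 h, norm_one] at h1
  exact lt_irrefl _ h1

theorem den_re {b x : ℂ} (hb : ‖b‖ < 1) (hx : ‖x‖ ≤ 1) : 0 < (1 - (starRingEnd ℂ) b * x).re := by
  rw [Complex.sub_re, Complex.one_re]
  have h1 := MB_norm_lt hb hx
  have h2 := Complex.re_le_norm ((starRingEnd ℂ) b * x)
  linarith

theorem MB_key (b x : ℂ) : ‖1 - (starRingEnd ℂ) b * x‖ ^ 2 - ‖x - b‖ ^ 2 =
    (1 - ‖b‖ ^ 2) * (1 - ‖x‖ ^ 2) := by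
  simp only [Complex.sq_norm, Complex.normSq_apply, Complex.sub_re, Complex.sub_im, Complex.mul_re,
    Complex.mul_im, Complex.conj_re, Complex.conj_im, Complex.one_re, Complex.one_im]
  ring

theorem mob_norm {u b x : ℂ} (hu : ‖u‖ = 1) (hb : ‖b‖ < 1) (hx : ‖x‖ ≤ 1) :
    1 - ‖mob u b x‖ ^ 2 = (1 - ‖b‖ ^ 2) * (1 - ‖x‖ ^ 2) / ‖1 - (starRingEnd ℂ) b * x‖ ^ 2 := by
  have h0 : ‖1 - (starRingEnd ℂ) b * x‖ ≠ 0 := norm_ne_zero_iff.2 (den_ne hb hx)
  rw [← MB_key, mob, norm_div, norm_mul, hu, one_mul, div_pow, sub_div, div_self (pow_ne_zero 2 h0)]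

theorem mob_sub {u b x y : ℂ} (hb : ‖b‖ < 1) (hx : ‖x‖ ≤ 1) (hy : ‖y‖ ≤ 1) :
    mob u b x - mob u b y = u * (1 - (starRingEnd ℂ) b * b) * (x - y) /
      ((1 - (starRingEnd ℂ) b * x) * (1 - (starRingEnd ℂ) b * y)) := by
  have h1 := den_ne hb hx
  have h2 := den_ne hb hy
  rw [mob, mob, div_sub_div _ _ h1 h2]
  congr 1
  ring

theorem MB_norm_bb {b : ℂ} (hb : ‖b‖ < 1) : ‖1 - (starRingEnd ℂ) b * b‖ = 1 - ‖b‖ ^ 2 := by
  have h1 : 1 - (starRingEnd ℂ) b * b = ((1 - ‖b‖ ^ 2 : ℝ) : ℂ) := by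
    rw [Complex.conj_mul']
    push_cast
    rfl
  rw [h1, Complex.norm_real, Real.norm_eq_abs, abs_of_pos]
  nlinarith [norm_nonneg b]

theorem MB_bb_ne {b : ℂ} (hb : ‖b‖ < 1) : 1 - (starRingEnd ℂ) b * b ≠ 0 := den_ne hb hb.le

theorem mob_dist {u b x y : ℂ} (hu : ‖u‖ = 1) (hb : ‖b‖ < 1) (hx : ‖x‖ ≤ 1) (hy : ‖y‖ ≤ 1) :
    dist (mob u b x) (mob u b y) = (1 - ‖b‖ ^ 2) * dist x y /
      (‖1 - (starRingEnd ℂ) b * x‖ * ‖1 - (starRingEnd ℂ) b * y‖) := by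
  rw [dist_eq_norm, mob_sub hb hx hy, norm_div, norm_mul, norm_mul, norm_mul, hu, one_mul,
    MB_norm_bb hb, dist_eq_norm]

theorem mob_ball {u b x : ℂ} (hu : ‖u‖ = 1) (hb : ‖b‖ < 1) (hx : ‖x‖ < 1) : ‖mob u b x‖ < 1 := by
  have h1 := mob_norm hu hb hx.le
  have h2 : 0 < (1 - ‖b‖ ^ 2) * (1 - ‖x‖ ^ 2) / ‖1 - (starRingEnd ℂ) b * x‖ ^ 2 := by
    have h3 : 0 < ‖1 - (starRingEnd ℂ) b * x‖ := norm_pos_iff.2 (den_ne hb hx.le)
    have h4 : 0 < 1 - ‖b‖ ^ 2 := by nlinarith [norm_nonneg b]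
    have h5 : 0 < 1 - ‖x‖ ^ 2 := by nlinarith [norm_nonneg x]
    positivity
  have h3 : ‖mob u b x‖ ^ 2 < 1 := by linarith
  nlinarith [norm_nonneg (mob u b x)]

theorem mob_sphere {u b x : ℂ} (hu : ‖u‖ = 1) (hb : ‖b‖ < 1) (hx : ‖x‖ = 1) : ‖mob u b x‖ = 1 := by
  have h1 := mob_norm hu hb hx.le
  rw [hx] at h1
  have h2 : ‖mob u b x‖ ^ 2 = 1 := by
    have : (1 - ‖b‖ ^ 2) * (1 - (1:ℝ) ^ 2) / ‖1 - (starRingEnd ℂ) b * x‖ ^ 2 = 0 := by simp
    linarith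
  nlinarith [norm_nonneg (mob u b x)]

theorem mob_closedBall {u b x : ℂ} (hu : ‖u‖ = 1) (hb : ‖b‖ < 1) (hx : ‖x‖ ≤ 1) :
    ‖mob u b x‖ ≤ 1 := by
  rcases hx.lt_or_eq with h | h
  · exact (mob_ball hu hb h).le
  · exact (mob_sphere hu hb h).le

theorem mob_hasDerivAt {u b x : ℂ} (hb : ‖b‖ < 1) (hx : ‖x‖ ≤ 1) :
    HasDerivAt (mob u b) (mobD u b x) x := by
  have h0 := den_ne hb hx
  have h1 : HasDerivAt (fun x : ℂ => u * (x - b)) u x := by
    simpa using ((hasDerivAt_id x).sub_const b).const_mul u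
  have h2 : HasDerivAt (fun x : ℂ => 1 - (starRingEnd ℂ) b * x) (-(starRingEnd ℂ) b) x := by
    simpa using ((hasDerivAt_id x).const_mul ((starRingEnd ℂ) b)).const_sub 1
  have h3 := h1.div h2 h0
  refine h3.congr_deriv ?_
  rw [mobD]
  congr 1
  ring

theorem mob_cont {u b : ℂ} (hb : ‖b‖ < 1) : ContinuousOn (mob u b) (closedBall 0 1) :=
  fun x hx => (mob_hasDerivAt hb (by simpa using hx)).continuousAt.continuousWithinAt

theorem mobD_norm {u b x : ℂ} (hu : ‖u‖ = 1) (hb : ‖b‖ < 1) :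
    ‖mobD u b x‖ = (1 - ‖b‖ ^ 2) / ‖1 - (starRingEnd ℂ) b * x‖ ^ 2 := by
  rw [mobD, norm_div, norm_mul, hu, one_mul, MB_norm_bb hb, norm_pow]

theorem MB_u_ne {u : ℂ} (hu : ‖u‖ = 1) : u ≠ 0 := by
  intro h
  rw [h, norm_zero] at hu
  exact zero_ne_one hu

theorem mobD_ne {u b x : ℂ} (hu : ‖u‖ = 1) (hb : ‖b‖ < 1) (hx : ‖x‖ ≤ 1) : mobD u b x ≠ 0 := by
  rw [mobD]
  exact div_ne_zero (mul_ne_zero (MB_u_ne hu) (MB_bb_ne hb)) (pow_ne_zero _ (den_ne hb hx))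

/-- invariance of the hyperbolic metric -/
theorem mob_conf {u b x : ℂ} (hu : ‖u‖ = 1) (hb : ‖b‖ < 1) (hx : ‖x‖ ≤ 1) :
    1 - ‖mob u b x‖ ^ 2 = ‖mobD u b x‖ * (1 - ‖x‖ ^ 2) := by
  rw [mob_norm hu hb hx, mobD_norm hu hb]
  ring

theorem MB_uu {u : ℂ} (hu : ‖u‖ = 1) : (starRingEnd ℂ) u * u = 1 := by
  rw [Complex.conj_mul', hu]
  norm_num

theorem mob_pd {u b x y : ℂ} (hu : ‖u‖ = 1) (hb : ‖b‖ < 1) (hx : ‖x‖ ≤ 1) (hy : ‖y‖ < 1) :
    pd (mob u b x) (mob u b y) = pd x y := by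
  have h1 := den_ne hb hx
  have h2 := den_ne hb hy.le
  have h1' : 1 - b * (starRingEnd ℂ) x ≠ 0 := by
    intro h
    apply h1
    have := congrArg (starRingEnd ℂ) h
    simpa using this
  have hxy : 1 - (starRingEnd ℂ) x * y ≠ 0 := by
    intro h
    have h3 : ‖(starRingEnd ℂ) x * y‖ < 1 := by
      rw [norm_mul, RCLike.norm_conj]
      calc ‖x‖ * ‖y‖ ≤ 1 * ‖y‖ := mul_le_mul_of_nonneg_right hx (norm_nonneg _)
        _ < 1 := by linarith
    rw [← sub_eq_zero.1 h, norm_one] at h3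
    exact lt_irrefl _ h3
  have hk : 1 - (starRingEnd ℂ) (mob u b x) * mob u b y =
      (1 - (starRingEnd ℂ) b * b) * (1 - (starRingEnd ℂ) x * y) /
        ((1 - b * (starRingEnd ℂ) x) * (1 - (starRingEnd ℂ) b * y)) := by
    have huu := MB_uu hu
    rw [mob, mob]
    simp only [map_div₀, map_mul, map_sub, map_one, Complex.conj_conj]
    rw [div_mul_div_comm, eq_div_iff (mul_ne_zero h1' h2), sub_mul, div_mul_cancel₀ _
      (mul_ne_zero h1' h2)]
    linear_combination (-(((starRingEnd ℂ) x - (starRingEnd ℂ) b) * (y - b))) * huu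
  rw [pd, pd, mob_sub hb hx hy.le, hk]
  have e1 : ‖(1 - (starRingEnd ℂ) b * x)‖ = ‖(1 - b * (starRingEnd ℂ) x)‖ := by
    rw [← RCLike.norm_conj (1 - (starRingEnd ℂ) b * x)]
    simp
  simp only [norm_div, norm_mul, hu, one_mul]
  rw [e1]
  have n1 : ‖1 - (starRingEnd ℂ) b * b‖ ≠ 0 := norm_ne_zero_iff.2 (MB_bb_ne hb)
  have n2 : ‖1 - b * (starRingEnd ℂ) x‖ ≠ 0 := norm_ne_zero_iff.2 h1'
  have n3 : ‖1 - (starRingEnd ℂ) b * y‖ ≠ 0 := norm_ne_zero_iff.2 h2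
  have n4 : ‖1 - (starRingEnd ℂ) x * y‖ ≠ 0 := norm_ne_zero_iff.2 hxy
  field_simp

theorem pd_symm (x y : ℂ) : pd x y = pd y x := by
  rw [pd, pd, norm_sub_rev x y, ← RCLike.norm_conj (1 - (starRingEnd ℂ) x * y)]
  congr 2
  simp [mul_comm]

theorem MB_pd_eq (x y : ℂ) : pd x y = ‖mob 1 x y‖ := by
  rw [pd, mob, norm_div, one_mul, norm_sub_rev]

/-- `pd x y < 1` in the disc -/
theorem pd_lt {x y : ℂ} (hx : ‖x‖ < 1) (hy : ‖y‖ < 1) : pd x y < 1 := by
  rw [MB_pd_eq]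
  exact mob_ball norm_one hx hy

/-- a bound for the norm of `y` in terms of `‖x‖` and `pd x y` -/
theorem norm_le_of_pd {ρ r : ℝ} (hρ : ρ < 1) (hr : r < 1) :
    ∃ s : ℝ, s < 1 ∧ ∀ x y : ℂ, ‖x‖ ≤ ρ → ‖y‖ < 1 → pd x y ≤ r → ‖y‖ ≤ s := by
  by_cases h : 0 ≤ r ∧ 0 ≤ ρ
  · obtain ⟨hr0, hρ0⟩ := h
    refine ⟨Real.sqrt (1 - (1 - r ^ 2) * (1 - ρ) ^ 2), ?_, fun x y hx hy hp => ?_⟩
    · rw [Real.sqrt_lt' one_pos]
      have h1 : 0 < (1 - r ^ 2) * (1 - ρ) ^ 2 := by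
        have h2 : 0 < 1 - r ^ 2 := by nlinarith
        have h3 : 0 < 1 - ρ := by linarith
        positivity
      linarith
    · refine Real.le_sqrt_of_sq_le ?_
      have hx1 : ‖x‖ < 1 := lt_of_le_of_lt hx hρ
      have h1 := mob_norm (u := 1) (x := y) norm_one hx1 hy.le
      rw [← MB_pd_eq] at h1
      have hc : 0 < ‖1 - (starRingEnd ℂ) x * y‖ := norm_pos_iff.2 (den_ne hx1 hy.le)
      have hc2 : 1 - ρ ≤ ‖1 - (starRingEnd ℂ) x * y‖ := by
        have h2 : ‖(1:ℂ)‖ - ‖(starRingEnd ℂ) x * y‖ ≤ ‖1 - (starRingEnd ℂ) x * y‖ :=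
          norm_sub_norm_le _ _
        rw [norm_one, norm_mul, RCLike.norm_conj] at h2
        have h3 : ‖x‖ * ‖y‖ ≤ ρ * 1 := mul_le_mul hx hy.le (norm_nonneg _) hρ0
        linarith
      rw [eq_div_iff (by positivity)] at h1
      have hp0 : 0 ≤ pd x y := by unfold pd; positivity
      have h2 : 1 - r ^ 2 ≤ 1 - pd x y ^ 2 := by nlinarith
      have h3 : (1 - r ^ 2) * (1 - ρ) ^ 2 ≤ (1 - pd x y ^ 2) * ‖1 - (starRingEnd ℂ) x * y‖ ^ 2 :=
        mul_le_mul h2 (pow_le_pow_left₀ (by linarith) hc2 2) (by positivity)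
          (by nlinarith)
      have h4 : (1 - ‖x‖ ^ 2) * (1 - ‖y‖ ^ 2) ≤ 1 - ‖y‖ ^ 2 := by
        have : 0 ≤ 1 - ‖y‖ ^ 2 := by nlinarith [norm_nonneg y]
        nlinarith [mul_nonneg (sq_nonneg ‖x‖) this]
      linarith
  · refine ⟨0, one_pos, fun x y hx hy hp => ?_⟩
    exfalso
    apply h
    refine ⟨le_trans ?_ hp, (norm_nonneg x).trans hx⟩
    unfold pd
    positivity

theorem mob_log {u b : ℂ} (hu : ‖u‖ = 1) (hb : ‖b‖ < 1) :
    HasLog (fun z => mob u b z / z) (sphere 0 1) := by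
  have hr : ∀ z ∈ sphere (0:ℂ) 1, 0 < (1 - b * (starRingEnd ℂ) z).re := by
    intro z hz
    have h1 := den_re (b := (starRingEnd ℂ) b) (x := (starRingEnd ℂ) z)
      (by rw [RCLike.norm_conj]; exact hb) (by rw [RCLike.norm_conj]; exact (mem_sphere_zero_iff_norm.1 hz).le)
    simpa using h1
  have hl : ∀ z ∈ sphere (0:ℂ) 1, 0 < (1 - (starRingEnd ℂ) b * z).re := fun z hz =>
    den_re hb (mem_sphere_zero_iff_norm.1 hz).le
  refine ⟨fun z => Complex.log u + Complex.log (1 - b * (starRingEnd ℂ) z) -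
    Complex.log (1 - (starRingEnd ℂ) b * z), ?_, ?_⟩
  · refine (continuousOn_const.add (ContinuousOn.clog ?_ ?_)).sub (ContinuousOn.clog ?_ ?_)
    · exact (continuous_const.sub (continuous_const.mul Complex.continuous_conj)).continuousOn
    · intro z hz
      exact Or.inl (hr z hz)
    · exact (continuous_const.sub (continuous_const.mul continuous_id)).continuousOn
    · intro z hz
      exact Or.inl (hl z hz)
  · intro z hz
    have hz1 : ‖z‖ = 1 := mem_sphere_zero_iff_norm.1 hz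
    have hz0 : z ≠ 0 := MB_u_ne hz1
    have hzz := MB_uu hz1
    have n1 : 1 - b * (starRingEnd ℂ) z ≠ 0 := fun h => by
      have := hr z hz
      rw [h] at this
      simp at this
    have n2 : 1 - (starRingEnd ℂ) b * z ≠ 0 := den_ne hb hz1.le
    simp only
    rw [Complex.exp_sub, Complex.exp_add, Complex.exp_log (MB_u_ne hu), Complex.exp_log n1,
      Complex.exp_log n2, mob, div_div, div_eq_div_iff (mul_ne_zero n2 hz0) n2]
    linear_combination ((u * b) * (1 - (starRingEnd ℂ) b * z)) * hzz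

theorem mob_comp_inv {u b x : ℂ} (hu : ‖u‖ = 1) (hb : ‖b‖ < 1) (hx : ‖x‖ ≤ 1) :
    mob ((starRingEnd ℂ) u) (-(u * b)) (mob u b x) = x ∧
      mob u b (mob ((starRingEnd ℂ) u) (-(u * b)) x) = x := by
  have hub : ‖-(u * b)‖ < 1 := by rw [norm_neg, norm_mul, hu, one_mul]; exact hb
  have hu' : ‖(starRingEnd ℂ) u‖ = 1 := by rw [RCLike.norm_conj]; exact hu
  have huu := MB_uu hu
  have n0 := MB_bb_ne hb
  constructor
  · have n1 := den_ne hub (mob_closedBall hu hb hx)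
    have n2 := den_ne hb hx
    have e1 : (1 - (starRingEnd ℂ) (-(u * b)) * mob u b x) * (1 - (starRingEnd ℂ) b * x) =
        1 - (starRingEnd ℂ) b * b := by
      rw [mob]
      simp only [map_neg, map_mul]
      rw [sub_mul, mul_div_assoc', div_mul_cancel₀ _ n2]
      linear_combination ((starRingEnd ℂ) b * (x - b)) * huu
    have e2 : (mob u b x - -(u * b)) * (1 - (starRingEnd ℂ) b * x) =
        u * x * (1 - (starRingEnd ℂ) b * b) := by
      rw [mob, sub_mul, div_mul_cancel₀ _ n2]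
      ring
    conv_lhs => rw [mob]
    rw [div_eq_iff n1]
    apply mul_right_cancel₀ n2
    linear_combination (starRingEnd ℂ) u * e2 - x * e1 + (x * (1 - (starRingEnd ℂ) b * b)) * huu
  · have n1 := den_ne hb (mob_closedBall hu' hub hx)
    have n2 := den_ne hub hx
    have e1 : (1 - (starRingEnd ℂ) b * mob ((starRingEnd ℂ) u) (-(u * b)) x) *
        (1 - (starRingEnd ℂ) (-(u * b)) * x) = 1 - (starRingEnd ℂ) b * b := by
      rw [mob, sub_mul, mul_div_assoc', div_mul_cancel₀ _ n2]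
      simp only [map_neg, map_mul]
      linear_combination (-((starRingEnd ℂ) b * b)) * huu
    have e2 : (mob ((starRingEnd ℂ) u) (-(u * b)) x - b) * (1 - (starRingEnd ℂ) (-(u * b)) * x) =
        (starRingEnd ℂ) u * x * (1 - (starRingEnd ℂ) b * b) := by
      rw [mob, sub_mul, div_mul_cancel₀ _ n2]
      simp only [map_neg, map_mul]
      linear_combination b * huu
    conv_lhs => rw [mob]
    rw [div_eq_iff n1]
    apply mul_right_cancel₀ n2
    linear_combination u * e2 - x * e1 + (x * (1 - (starRingEnd ℂ) b * b)) * huu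

/-- the radial retraction onto the closed disc -/
noncomputable def rr (z : ℂ) : ℂ := z / (max 1 ‖z‖ : ℝ)

theorem MB_max_pos (z : ℂ) : (0:ℝ) < max 1 ‖z‖ := lt_of_lt_of_le one_pos (le_max_left _ _)

theorem rr_cont : Continuous rr := by
  unfold rr
  refine Continuous.div continuous_id (Complex.continuous_ofReal.comp
    (continuous_const.max continuous_norm)) fun z => ?_
  exact Complex.ofReal_ne_zero.2 (MB_max_pos z).ne'

theorem rr_mem (z : ℂ) : rr z ∈ closedBall (0:ℂ) 1 := by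
  rw [mem_closedBall_zero_iff, rr, norm_div, Complex.norm_real, Real.norm_eq_abs,
    abs_of_pos (MB_max_pos z), div_le_one (MB_max_pos z)]
  exact le_max_right _ _

theorem rr_id {z : ℂ} (hz : ‖z‖ ≤ 1) : rr z = z := by
  rw [rr, max_eq_left hz]
  simp

theorem MB_proj (z y : ℂ) (hy : ‖y‖ ≤ 1) :
    (z.re - (rr z).re) * (y.re - (rr z).re) + (z.im - (rr z).im) * (y.im - (rr z).im) ≤ 0 := by
  by_cases h : ‖z‖ ≤ 1
  · rw [rr_id h]
    simp
  · push Not at h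
    have hz0 : (0:ℝ) < ‖z‖ := by linarith
    have hre : (rr z).re = z.re / ‖z‖ := by
      rw [rr, max_eq_right h.le, Complex.div_ofReal_re]
    have him : (rr z).im = z.im / ‖z‖ := by
      rw [rr, max_eq_right h.le, Complex.div_ofReal_im]
    set a := (rr z).re with ha
    set c := (rr z).im with hc
    have e1 : z.re = ‖z‖ * a := by rw [hre]; field_simp
    have e2 : z.im = ‖z‖ * c := by rw [him]; field_simp
    have hn : a ^ 2 + c ^ 2 = 1 := by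
      have h1 : ‖z‖ ^ 2 = z.re ^ 2 + z.im ^ 2 := by
        rw [Complex.sq_norm, Complex.normSq_apply]
        ring
      rw [hre, him, div_pow, div_pow, ← add_div, ← h1]
      field_simp
    have hyy : y.re ^ 2 + y.im ^ 2 ≤ 1 := by
      have h1 : ‖y‖ ^ 2 = y.re ^ 2 + y.im ^ 2 := by
        rw [Complex.sq_norm, Complex.normSq_apply]
        ring
      rw [← h1]
      nlinarith [norm_nonneg y]
    rw [e1, e2]
    have h2 : a * y.re + c * y.im ≤ 1 := by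
      nlinarith [sq_nonneg (a - y.re), sq_nonneg (c - y.im)]
    have h3 : (‖z‖ * a - a) * (y.re - a) + (‖z‖ * c - c) * (y.im - c) =
        (‖z‖ - 1) * ((a * y.re + c * y.im) - (a ^ 2 + c ^ 2)) := by ring
    rw [h3, hn]
    exact mul_nonpos_of_nonneg_of_nonpos (by linarith) (by linarith)

theorem rr_lip (z w : ℂ) : dist (rr z) (rr w) ≤ dist z w := by
  have h1 := MB_proj z (rr w) (mem_closedBall_zero_iff.1 (rr_mem w))
  have h2 := MB_proj w (rr z) (mem_closedBall_zero_iff.1 (rr_mem z))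
  rw [dist_eq_norm, dist_eq_norm]
  have e1 : ‖rr z - rr w‖ ^ 2 = ((rr z).re - (rr w).re) ^ 2 + ((rr z).im - (rr w).im) ^ 2 := by
    rw [Complex.sq_norm, Complex.normSq_apply, Complex.sub_re, Complex.sub_im]
    ring
  have e2 : ‖z - w‖ ^ 2 = (z.re - w.re) ^ 2 + (z.im - w.im) ^ 2 := by
    rw [Complex.sq_norm, Complex.normSq_apply, Complex.sub_re, Complex.sub_im]
    ring
  refine (sq_le_sq₀ (norm_nonneg _) (norm_nonneg _)).1 ?_
  rw [e1, e2]
  nlinarith [sq_nonneg ((z.re - w.re) - ((rr z).re - (rr w).re)),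
    sq_nonneg ((z.im - w.im) - ((rr z).im - (rr w).im))]

end TN
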