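import Pool.Agent.H12.TN.FC

/-!
FN (homeomorphisms normalising the group).  Elementary.
`Norm.comp`: for `orient`: `e.H (e'.H z) / z = (e.H w / w) * (e'.H z / z)`, `w = e'.H z`, on the circle; the logarithm is
`L (e'.H z) + L' z`.  `Norm.lmul`: `orient` by `mob_log` in the same way.  `Norm.inv`: `equi` by applying `e.H`; `orient`: for `w = e.Hi z`,
`w / z = (e.H w / w)⁻¹`, logarithm `- L (e.Hi z)`.
`Norm.lim_iff`: if `act (g n) 0 → ξ` then `act (θ (g n)) (H 0) = H (act (g n) 0) → H ξ`; use `lim_of_seq` with `x = H 0`; the converse with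
the inverse.
`iter`: `(e.iter n).H = e.H^[n+1]`.
-/

namespace TN
open Metric Set Filter Topology DS

variable {Γ : Type} [Group Γ] (F : Fuchs Γ)

/-- the power `e ^ (n + 1)` -/
def Elt.iter (e : Elt Γ) : ℕ → Elt Γ
  | 0 => e
  | n + 1 => (e.iter n).comp e

theorem Elt.iter_H (e : Elt Γ) (n : ℕ) : (e.iter n).H = e.H^[n + 1] := by
  induction n with
  | zero => rfl
  | succ n ih =>
    rw [Function.iterate_succ, ← ih]
    rfl

theorem Elt.iter_mem {F : Fuchs Γ} {𝓗 : Set (Elt Γ)} (hF : Fam F 𝓗) {e : Elt Γ} (he : e ∈ 𝓗)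
    (n : ℕ) : e.iter n ∈ 𝓗 := by
  induction n with
  | zero => exact he
  | succ n ih => exact hF.comp _ ih _ he

theorem Elt.iter_theta (e : Elt Γ) {g : Γ} (h : e.θ g = g) (n : ℕ) : (e.iter n).θ g = g := by
  induction n with
  | zero => exact h
  | succ n ih =>
    show (e.iter n).θ (e.θ g) = g
    rw [h, ih]

variable {F}

theorem FN_mapC {H : ℂ → ℂ} (hB : MapsTo H (ball 0 1) (ball 0 1))
    (hS : MapsTo H (sphere 0 1) (sphere 0 1)) : MapsTo H (closedBall 0 1) (closedBall 0 1) := by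
  rw [← ball_union_sphere]
  rintro x (hx | hx)
  · exact Or.inl (hB hx)
  · exact Or.inr (hS hx)

theorem FN_ne {w : ℂ} (hw : w ∈ sphere (0:ℂ) 1) : w ≠ 0 := by
  rintro rfl
  simp at hw

theorem Norm.comp {e e' : Elt Γ} (h : Norm F e) (h' : Norm F e') : Norm F (e.comp e') where
  cont := h.cont.comp h'.cont (FN_mapC h'.mapB h'.mapS)
  conti := h'.conti.comp h.conti (FN_mapC h.mapBi h.mapSi)
  mapB := h.mapB.comp h'.mapB
  mapBi := h'.mapBi.comp h.mapBi
  mapS := h.mapS.comp h'.mapS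
  mapSi := h'.mapSi.comp h.mapSi
  left := by
    intro x hx
    show e'.Hi (e.Hi (e.H (e'.H x))) = x
    rw [h.left _ (FN_mapC h'.mapB h'.mapS hx), h'.left x hx]
  right := by
    intro x hx
    show e.H (e'.H (e'.Hi (e.Hi x))) = x
    rw [h'.right _ (FN_mapC h.mapBi h.mapSi hx), h.right x hx]
  equi := by
    intro g x hx
    show e.H (e'.H (F.act g x)) = F.act (e.θ (e'.θ g)) (e.H (e'.H x))
    rw [h'.equi g x hx, h.equi _ _ (FN_mapC h'.mapB h'.mapS hx)]
  orient := by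
    obtain ⟨L, hL, hL2⟩ := h.orient
    obtain ⟨L', hL', hL2'⟩ := h'.orient
    refine ⟨fun z => L (e'.H z) + L' z,
      (hL.comp (h'.cont.mono sphere_subset_closedBall) h'.mapS).add hL', fun z hz => ?_⟩
    have h1 := hL2 (e'.H z) (h'.mapS hz)
    have h2 := hL2' z hz
    have h3 := FN_ne (h'.mapS hz)
    have h4 := FN_ne hz
    show e.H (e'.H z) / z = Complex.exp (L (e'.H z) + L' z)
    rw [Complex.exp_add, ← h1, ← h2]
    field_simp

theorem FN_act (F : Fuchs Γ) (c : Γ) : Norm F ⟨F.act c, F.act c⁻¹, MulAut.conj c⟩ where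
  cont := act_cont F c
  conti := act_cont F c⁻¹
  mapB := fun x hx => mem_ball_zero_iff.2 (act_lt F c (mem_ball_zero_iff.1 hx))
  mapBi := fun x hx => mem_ball_zero_iff.2 (act_lt F c⁻¹ (mem_ball_zero_iff.1 hx))
  mapS := fun x hx => mem_sphere_zero_iff_norm.2 (act_eq F c (mem_sphere_zero_iff_norm.1 hx))
  mapSi := fun x hx => mem_sphere_zero_iff_norm.2 (act_eq F c⁻¹ (mem_sphere_zero_iff_norm.1 hx))
  left := fun x hx => act_inv_act F c (mem_closedBall_zero_iff.1 hx)
  right := fun x hx => act_act_inv F c (mem_closedBall_zero_iff.1 hx)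
  equi := by
    intro g x hx
    have hx' := mem_closedBall_zero_iff.1 hx
    show F.act c (F.act g x) = F.act (c * g * c⁻¹) (F.act c x)
    rw [act_mul F _ _ (act_le F c hx'), act_inv_act F c hx', act_mul F _ _ hx']
  orient := mob_log (F.hu c) (F.hb c)

theorem Norm.lmul {e : Elt Γ} (h : Norm F e) (c : Γ) : Norm F (e.lmul F c) :=
  (FN_act F c).comp h

theorem Norm.inv {e : Elt Γ} (h : Norm F e) : Norm F e.inv where
  cont := h.conti
  conti := h.cont
  mapB := h.mapBi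
  mapBi := h.mapB
  mapS := h.mapSi
  mapSi := h.mapS
  left := h.right
  right := h.left
  equi := by
    intro g x hx
    show e.Hi (F.act g x) = F.act (e.θ.symm g) (e.Hi x)
    have hx' := mem_closedBall_zero_iff.1 hx
    have h1 : e.Hi x ∈ closedBall (0:ℂ) 1 := FN_mapC h.mapBi h.mapSi hx
    have h2 : F.act (e.θ.symm g) (e.Hi x) ∈ closedBall (0:ℂ) 1 :=
      mem_closedBall_zero_iff.2 (act_le F _ (mem_closedBall_zero_iff.1 h1))
    have h3 := h.equi (e.θ.symm g) (e.Hi x) h1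
    rw [h.right x hx, MulEquiv.apply_symm_apply] at h3
    rw [← h3, h.left _ h2]
  orient := by
    obtain ⟨L, hL, hL2⟩ := h.orient
    refine ⟨fun z => -L (e.Hi z),
      (hL.comp (h.conti.mono sphere_subset_closedBall) h.mapSi).neg, fun z hz => ?_⟩
    have h1 : e.H (e.Hi z) / e.Hi z = Complex.exp (L (e.Hi z)) := hL2 (e.Hi z) (h.mapSi hz)
    have h3 := FN_ne (h.mapSi hz)
    have h4 := FN_ne hz
    rw [h.right z (sphere_subset_closedBall hz)] at h1
    show e.Hi z / z = Complex.exp (-L (e.Hi z))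
    rw [Complex.exp_neg, ← h1, inv_div]

theorem Norm.iter {e : Elt Γ} (h : Norm F e) (n : ℕ) : Norm F (e.iter n) := by
  induction n with
  | zero => exact h
  | succ n ih => exact ih.comp h

theorem Norm.mapC {e : Elt Γ} (h : Norm F e) : MapsTo e.H (closedBall 0 1) (closedBall 0 1) :=
  FN_mapC h.mapB h.mapS

theorem Norm.mapCi {e : Elt Γ} (h : Norm F e) : MapsTo e.Hi (closedBall 0 1) (closedBall 0 1) :=
  FN_mapC h.mapBi h.mapSi

theorem Norm.inj {e : Elt Γ} (h : Norm F e) : InjOn e.H (closedBall 0 1) := by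
  intro x hx y hy hxy
  rw [← h.left x hx, ← h.left y hy, hxy]

theorem FN_lim {e : Elt Γ} (h : Norm F e) {ξ : ℂ} (hξ : ξ ∈ F.lim) : e.H ξ ∈ F.lim := by
  obtain ⟨x, hx, hlim⟩ := mem_closure_iff_seq_limit.1 hξ.2
  choose g hg using hx
  have h1 : ξ ∈ closedBall (0:ℂ) 1 := by simpa using hξ.1.le
  have h2 : Tendsto (fun n => e.H (x n)) atTop (𝓝 (e.H ξ)) := by
    refine (h.cont ξ h1).tendsto.comp (tendsto_nhdsWithin_iff.2 ⟨hlim, Eventually.of_forall fun n => ?_⟩)
    rw [← hg n]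
    exact mem_closedBall_zero_iff.2 (act_le F _ (by simp))
  have h3 : Tendsto (fun n => F.act (e.θ (g n)) (e.H 0)) atTop (𝓝 (e.H ξ)) := by
    refine h2.congr fun n => ?_
    rw [← hg n]
    exact h.equi (g n) 0 (by simp)
  have h4 : ‖e.H ξ‖ = 1 := by
    have := h.mapS (show ξ ∈ sphere (0:ℂ) 1 by simpa using hξ.1)
    simpa using this
  have h5 : ‖e.H 0‖ < 1 := by
    have := h.mapB (show (0:ℂ) ∈ ball (0:ℂ) 1 by simp)
    simpa using this
  exact lim_of_seq F h5 h4 h3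

theorem Norm.lim_iff {e : Elt Γ} (h : Norm F e) {ξ : ℂ} (hξ : ‖ξ‖ = 1) :
    e.H ξ ∈ F.lim ↔ ξ ∈ F.lim := by
  refine ⟨fun h1 => ?_, FN_lim h⟩
  have h2 := FN_lim h.inv h1
  have h3 : e.inv.H (e.H ξ) = ξ := h.left ξ (by simpa using hξ.le)
  rwa [h3] at h2

theorem Norm.equi_inv {e : Elt Γ} (h : Norm F e) (g : Γ) {x : ℂ} (hx : x ∈ closedBall (0:ℂ) 1) :
    e.Hi (F.act g x) = F.act (e.θ.symm g) (e.Hi x) :=
  h.inv.equi g x hx

theorem Elt.inv_cen (e : Elt Γ) : e.inv.cen = e.cen := by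
  ext g
  show e.θ.symm g = g ↔ e.θ g = g
  constructor
  · intro h
    rw [← h, MulEquiv.apply_symm_apply, h]
  · intro h
    rw [← h, MulEquiv.symm_apply_apply, h]

end TN
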