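import Pool.Agent.H12.TN.FB

/-!
FC (hyperbolic elements).  For `g ≠ 1` let `p ≠ q` be its two fixed points on the circle (`Fuchs.hyp`).
Powers: `g ^ n ≠ 1` for `n ≠ 0`.  Compute with the cross ratio coordinate `y = (x - q) / (x - p)`: by `mob_sub`,
`(act g x - q) / (act g x - p) = lam * (x - q) / (x - p)` with `lam = (1 - conj b p) / (1 - conj b q)`, for all `x` in the
closed disc, `x ≠ p`.  `‖lam‖ ≠ 1`: otherwise take `x` in the open disc; `(x - q)/(x - p)` lies for `x` in the closed disc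
in a closed half plane bounded by a line through `0` (real multiple of a fixed unit `v` on the circle), which is mapped to itself by the multiplication by
`lam`, so `lam` is real positive, `lam = 1` if `‖lam‖ = 1`, and then `act g x = x`, contradiction to `free`.
(Another way: `lam` real because it maps the line `{y | x on the circle}` to itself, positive because it preserves the half plane.)
So `lam > 0` real, `lam ≠ 1`.  If `lam > 1` then `(act (g^n) x - q)/(act (g^n) x - p) = lam^n (x-q)/(x-p) → ∞` for `x ≠ q`, so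
`act (g ^ n) x → p`: `AR g p q`.  If `lam < 1`: `AR g q p`.
`AR.inv`: the coordinate with `lam⁻¹`.  Uniqueness: `act (g^n) x → p` for `x = 0` determines `p`; inverse determines `q`.
`AR.conj`, `AR.norm`: transport the limits by the homeomorphism (`act h`, resp. `e.H`): `act ((h g h⁻¹)^n) x =
act h (act (g^n) (act h⁻¹ x))`; for `e`: `act (θ g ^ n) x = e.H (act (g^n) (e.Hi x))`.
`AR.fixed`: a fixed point `x` on the closed disc with `x ≠ q` has `act (g^n) x = x → p`, so `x = p`.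
`AR.lim`: `act (g^n) 0 → p`.  `inf_order`: `act (g ^ n) 0` tends to `p` of norm one while `‖act (g^n) 0‖ < 1`.
-/

namespace TN
open Metric Set Filter Topology DS

variable {Γ : Type} [Group Γ] {F : Fuchs Γ}

/-- the multiplier at two fixed points is real and positive -/
private lemma FC_step (F : Fuchs Γ) {g : Γ} (hg : g ≠ 1) {p q : ℂ} (hp : ‖p‖ = 1) (hq : ‖q‖ = 1)
    (hne : p ≠ q) (hfp : F.act g p = p) (hfq : F.act g q = q) :
    ∃ lam : ℝ, 0 < lam ∧ lam ≠ 1 ∧ ∀ y : ℂ, ‖y‖ ≤ 1 →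
      (F.act g y - q) * (y - p) = lam * (y - q) * (F.act g y - p) := by
  set b := F.b g with hb
  set u := F.u g with hu
  have hb1 : ‖b‖ < 1 := F.hb g
  have hu1 : ‖u‖ = 1 := F.hu g
  set z := 1 - (starRingEnd ℂ) b * p with hz
  set w := 1 - (starRingEnd ℂ) b * q with hw
  have hzre : 0 < z.re := den_re hb1 hp.le
  have hwre : 0 < w.re := den_re hb1 hq.le
  have hz0 : z ≠ 0 := den_ne hb1 hp.le
  have hw0 : w ≠ 0 := den_ne hb1 hq.le
  have hu0 : u ≠ 0 := by intro h; rw [h] at hu1; simp at hu1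
  have key : ∀ s : ℂ, ‖s‖ = 1 → F.act g s = s →
      u * (starRingEnd ℂ) (1 - (starRingEnd ℂ) b * s) = 1 - (starRingEnd ℂ) b * s := by
    intro s hs hfs
    have hs0 : s ≠ 0 := by intro h; rw [h] at hs; simp at hs
    have hss : s * (starRingEnd ℂ) s = 1 := by
      rw [Complex.mul_conj, Complex.normSq_eq_norm_sq, hs]; simp
    have hd : 1 - (starRingEnd ℂ) b * s ≠ 0 := den_ne hb1 hs.le
    have h1 : u * (s - b) / (1 - (starRingEnd ℂ) b * s) = s := hfs
    rw [div_eq_iff hd] at h1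
    have h2 : s * (u * (starRingEnd ℂ) (1 - (starRingEnd ℂ) b * s)) =
        s * (1 - (starRingEnd ℂ) b * s) := by
      rw [← h1, map_sub, map_mul, Complex.conj_conj, map_one]
      linear_combination (-u * b) * hss
    exact mul_left_cancel₀ hs0 h2
  have hkz := key p hp hfp
  have hkw := key q hq hfq
  rw [← hz] at hkz
  rw [← hw] at hkw
  have hcross : z * (starRingEnd ℂ) w = (starRingEnd ℂ) z * w := by
    have : u * (z * (starRingEnd ℂ) w) = u * ((starRingEnd ℂ) z * w) := by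
      calc u * (z * (starRingEnd ℂ) w) = z * (u * (starRingEnd ℂ) w) := by ring
        _ = z * w := by rw [hkw]
        _ = (u * (starRingEnd ℂ) z) * w := by rw [hkz]
        _ = u * ((starRingEnd ℂ) z * w) := by ring
    exact mul_left_cancel₀ hu0 this
  have him : z.im * w.re = z.re * w.im := by
    have h3 := congrArg Complex.im hcross
    simp only [Complex.mul_im, Complex.conj_re, Complex.conj_im] at h3
    linarith
  set lam : ℝ := z.re / w.re with hlam
  have hzl : z = lam * w := by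
    apply Complex.ext
    · rw [Complex.re_ofReal_mul, hlam]; field_simp
    · rw [Complex.im_ofReal_mul, hlam]; field_simp; linarith
  refine ⟨lam, by positivity, ?_, ?_⟩
  · intro h1
    rw [h1, Complex.ofReal_one, one_mul, hz, hw] at hzl
    have h2 : (starRingEnd ℂ) b * (p - q) = 0 := by linear_combination -hzl
    rcases mul_eq_zero.1 h2 with h3 | h3
    · have hb0 : b = 0 := by simpa using h3
      have := F.free g hg 0 (by simp)
      apply this
      rw [← hb, hb0]
      simp [mob]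
    · exact hne (sub_eq_zero.1 h3)
  · intro y hy
    have hyd : 1 - (starRingEnd ℂ) b * y ≠ 0 := den_ne hb1 hy
    have e1 : F.act g y - q = u * (1 - (starRingEnd ℂ) b * b) * (y - q) /
        ((1 - (starRingEnd ℂ) b * y) * w) := by
      rw [← mob_sub hb1 hy hq.le]
      change F.act g y - q = F.act g y - F.act g q
      rw [hfq]
    have e2 : F.act g y - p = u * (1 - (starRingEnd ℂ) b * b) * (y - p) /
        ((1 - (starRingEnd ℂ) b * y) * z) := by
      rw [← mob_sub hb1 hy hp.le]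
      change F.act g y - p = F.act g y - F.act g p
      rw [hfp]
    have hlam0 : (lam : ℂ) ≠ 0 := by
      rw [hlam]
      exact_mod_cast (div_pos hzre hwre).ne'
    rw [e1, e2, hzl]
    field_simp

private lemma FC_fix (F : Fuchs Γ) {g : Γ} {p : ℂ} (hp : ‖p‖ ≤ 1) (hfp : F.act g p = p) (n : ℕ) :
    F.act (g ^ n) p = p := by
  induction n with
  | zero => rw [pow_zero]; exact act_one F hp
  | succ n ih => rw [pow_succ', act_mul F _ _ hp, ih, hfp]

private lemma FC_pow (F : Fuchs Γ) {g : Γ} {p q : ℂ} (hp : ‖p‖ = 1) (hfp : F.act g p = p)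
    {lam : ℝ} (h : ∀ y : ℂ, ‖y‖ ≤ 1 →
      (F.act g y - q) * (y - p) = lam * (y - q) * (F.act g y - p)) (n : ℕ) {x : ℂ}
    (hx : ‖x‖ ≤ 1) :
    (F.act (g ^ n) x - q) * (x - p) = (lam : ℂ) ^ n * (x - q) * (F.act (g ^ n) x - p) := by
  by_cases hxp : x = p
  · rw [hxp, FC_fix F hp.le hfp n]; ring
  induction n with
  | zero => rw [pow_zero, act_one F hx]; ring
  | succ n ih =>
    rw [pow_succ', act_mul F _ _ hx]
    have hy : ‖F.act (g ^ n) x‖ ≤ 1 := act_le F _ hx
    have h1 := h _ hy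
    have hyp : F.act (g ^ n) x - p ≠ 0 := by
      intro h2
      apply hxp
      apply act_inj F (g ^ n) (by simpa using hx) (by simpa using hp.le)
      rw [FC_fix F hp.le hfp n]
      exact sub_eq_zero.1 h2
    apply mul_left_cancel₀ hyp
    rw [pow_succ']
    linear_combination (x - p) * h1 + (lam : ℂ) * (F.act g (F.act (g ^ n) x) - p) * ih

private lemma FC_bd (F : Fuchs Γ) {g : Γ} {p q : ℂ} (hp : ‖p‖ = 1) (hq : ‖q‖ = 1) {lam : ℝ}
    (hlam : 0 < lam) {n : ℕ} {x : ℂ} (hx : ‖x‖ ≤ 1)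
    (h : (F.act (g ^ n) x - q) * (x - p) = (lam : ℂ) ^ n * (x - q) * (F.act (g ^ n) x - p)) :
    ‖F.act (g ^ n) x - p‖ * (lam ^ n * ‖x - q‖) ≤ 4 := by
  have h1 := congrArg norm h
  rw [norm_mul, norm_mul, norm_mul, norm_pow, Complex.norm_real, Real.norm_eq_abs,
    abs_of_pos hlam] at h1
  have h2 : ‖F.act (g ^ n) x - q‖ ≤ 2 := by
    have := norm_sub_le (F.act (g ^ n) x) q
    have := act_le F (g ^ n) hx
    linarith
  have h3 : ‖x - p‖ ≤ 2 := by
    have := norm_sub_le x p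
    linarith
  calc ‖F.act (g ^ n) x - p‖ * (lam ^ n * ‖x - q‖) = ‖F.act (g ^ n) x - q‖ * ‖x - p‖ := by
        rw [h1]; ring
    _ ≤ 2 * 2 := mul_le_mul h2 h3 (norm_nonneg _) (by norm_num)
    _ = 4 := by norm_num

private lemma FC_tend {a : ℕ → ℂ} {p : ℂ} {lam c : ℝ} (hlam : 1 < lam) (hc : 0 < c)
    (h : ∀ n, ‖a n - p‖ * (lam ^ n * c) ≤ 4) : Tendsto a atTop (𝓝 p) := by
  rw [tendsto_iff_norm_sub_tendsto_zero]
  have hlim : Tendsto (fun n : ℕ => 4 / c * (lam⁻¹) ^ n) atTop (𝓝 0) := by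
    have h1 := tendsto_pow_atTop_nhds_zero_of_lt_one (inv_nonneg.2 (by linarith : (0:ℝ) ≤ lam))
      (inv_lt_one_of_one_lt₀ hlam)
    have := h1.const_mul (4 / c)
    simpa using this
  refine squeeze_zero (fun n => norm_nonneg _) (fun n => ?_) hlim
  have hl : 0 < lam ^ n := by positivity
  have h2 := h n
  rw [inv_pow, ← div_eq_mul_inv, div_div, le_div_iff₀ (by positivity)]
  calc ‖a n - p‖ * (c * lam ^ n) = ‖a n - p‖ * (lam ^ n * c) := by ring
    _ ≤ 4 := h2

private lemma FC_AR (F : Fuchs Γ) {g : Γ} {p q : ℂ} (hp : ‖p‖ = 1) (hq : ‖q‖ = 1) (hne : p ≠ q)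
    (hfp : F.act g p = p) (hfq : F.act g q = q) {lam : ℝ} (hlam : 1 < lam)
    (h : ∀ y : ℂ, ‖y‖ ≤ 1 → (F.act g y - q) * (y - p) = lam * (y - q) * (F.act g y - p)) :
    F.AR g p q where
  np := hp
  nq := hq
  ne := hne
  fp := hfp
  fq := hfq
  att := by
    intro x hx hxq
    have hx' : ‖x‖ ≤ 1 := by simpa using hx
    refine FC_tend hlam (norm_pos_iff.2 (sub_ne_zero.2 hxq)) fun n => ?_
    exact FC_bd F hp hq (by linarith) hx' (FC_pow F hp hfp h n hx')

/-- the formula for the inverse multiplier -/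
private lemma FC_swap (F : Fuchs Γ) {g : Γ} {p q : ℂ} {lam : ℝ} (hlam : 0 < lam)
    (h : ∀ y : ℂ, ‖y‖ ≤ 1 → (F.act g y - q) * (y - p) = lam * (y - q) * (F.act g y - p)) :
    ∀ y : ℂ, ‖y‖ ≤ 1 → (F.act g y - p) * (y - q) = (lam⁻¹ : ℝ) * (y - p) * (F.act g y - q) := by
  intro y hy
  have h1 := h y hy
  have hl : (lam : ℂ) ≠ 0 := by exact_mod_cast hlam.ne'
  push_cast
  field_simp
  linear_combination -h1

theorem exists_AR (F : Fuchs Γ) {g : Γ} (hg : g ≠ 1) : ∃ p q, F.AR g p q := by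
  obtain ⟨p, q, hp, hq, hne, hfp, hfq⟩ := F.hyp g hg
  obtain ⟨lam, hlam, hlam1, h⟩ := FC_step F hg hp hq hne hfp hfq
  rcases lt_or_gt_of_ne hlam1 with h1 | h1
  · exact ⟨q, p, FC_AR F hq hp hne.symm hfq hfp ((one_lt_inv₀ hlam).2 h1) (FC_swap F hlam h)⟩
  · exact ⟨p, q, FC_AR F hp hq hne hfp hfq h1 h⟩

private lemma FC_q0 {q : ℂ} (hq : ‖q‖ = 1) : (0 : ℂ) ≠ q := by
  rintro rfl; simp at hq

theorem AR.ne_one {g : Γ} {p q : ℂ} (h : F.AR g p q) : g ≠ 1 := by
  rintro rfl
  have h1 := h.att 0 (by simp) (FC_q0 h.nq)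
  have h2 : (fun n : ℕ => F.act ((1 : Γ) ^ n) 0) = fun _ => 0 := by
    funext n; rw [one_pow, act_one F (by simp)]
  rw [h2] at h1
  have h3 := tendsto_nhds_unique h1 tendsto_const_nhds
  exact FC_q0 h.np h3.symm

private lemma FC_lam {g : Γ} {p q : ℂ} (h : F.AR g p q) : ∃ lam : ℝ, 1 < lam ∧
    ∀ y : ℂ, ‖y‖ ≤ 1 → (F.act g y - q) * (y - p) = lam * (y - q) * (F.act g y - p) := by
  obtain ⟨lam, hlam, hlam1, h1⟩ := FC_step F (AR.ne_one h) h.np h.nq h.ne h.fp h.fq
  rcases lt_or_gt_of_ne hlam1 with h2 | h2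
  · exfalso
    have h3 := FC_AR F h.nq h.np h.ne.symm h.fq h.fp ((one_lt_inv₀ hlam).2 h2) (FC_swap F hlam h1)
    exact h.ne (tendsto_nhds_unique (h.att 0 (by simp) (FC_q0 h.nq))
      (h3.att 0 (by simp) (FC_q0 h.np)))
  · exact ⟨lam, h2, h1⟩

theorem AR.inv {g : Γ} {p q : ℂ} (h : F.AR g p q) : F.AR g⁻¹ q p where
  np := h.nq
  nq := h.np
  ne := h.ne.symm
  fp := by
    have := act_inv_act F g h.nq.le
    rwa [h.fq] at this
  fq := by
    have := act_inv_act F g h.np.le
    rwa [h.fp] at this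
  att := by
    intro x hx hxp
    obtain ⟨lam, hlam, h1⟩ := FC_lam h
    have hx' : ‖x‖ ≤ 1 := by simpa using hx
    refine FC_tend hlam (norm_pos_iff.2 (sub_ne_zero.2 hxp)) fun n => ?_
    set y := F.act (g⁻¹ ^ n) x with hy
    have hy1 : ‖y‖ ≤ 1 := act_le F _ hx'
    have hxy : F.act (g ^ n) y = x := by
      rw [hy, inv_pow]; exact act_act_inv F (g ^ n) hx'
    have h2 := FC_pow F h.np h.fp h1 n hy1
    rw [hxy] at h2
    have h3 := congrArg norm h2
    rw [norm_mul, norm_mul, norm_mul, norm_pow, Complex.norm_real, Real.norm_eq_abs,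
      abs_of_pos (by linarith : 0 < lam)] at h3
    have h4 : ‖x - q‖ ≤ 2 := by
      have := norm_sub_le x q
      have := h.nq
      linarith
    have h5 : ‖y - p‖ ≤ 2 := by
      have := norm_sub_le y p
      have := h.np
      linarith
    calc ‖y - q‖ * (lam ^ n * ‖x - p‖) = ‖x - q‖ * ‖y - p‖ := by rw [h3]; ring
      _ ≤ 2 * 2 := mul_le_mul h4 h5 (norm_nonneg _) (by norm_num)
      _ = 4 := by norm_num

theorem AR.unique {g : Γ} {p q p' q' : ℂ} (h : F.AR g p q) (h' : F.AR g p' q') : p = p' ∧ q = q' := by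
  have key : ∀ {g : Γ} {p q p' q' : ℂ}, F.AR g p q → F.AR g p' q' → p = p' := by
    intro g p q p' q' h h'
    exact tendsto_nhds_unique (h.att 0 (by simp) (FC_q0 h.nq)) (h'.att 0 (by simp) (FC_q0 h'.nq))
  exact ⟨key h h', key (AR.inv h) (AR.inv h')⟩

theorem AR.fixed {g : Γ} {p q x : ℂ} (h : F.AR g p q) (hx : ‖x‖ ≤ 1) (hf : F.act g x = x) :
    x = p ∨ x = q := by
  by_cases hxq : x = q
  · exact Or.inr hxq
  · left
    have h1 := h.att x (by simpa using hx) hxq
    have h2 : (fun n : ℕ => F.act (g ^ n) x) = fun _ => x := by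
      funext n; exact FC_fix F hx hf n
    rw [h2] at h1
    exact tendsto_nhds_unique tendsto_const_nhds h1

theorem AR.conj {g : Γ} {p q : ℂ} (h : F.AR g p q) (a : Γ) :
    F.AR (a * g * a⁻¹) (F.act a p) (F.act a q) := by
  have hact : ∀ (k : Γ) (x : ℂ), ‖x‖ ≤ 1 →
      F.act (a * k * a⁻¹) x = F.act a (F.act k (F.act a⁻¹ x)) := by
    intro k x hx
    rw [act_mul F _ _ hx, act_mul F _ _ (act_le F _ hx)]
  refine ⟨act_eq F a h.np, act_eq F a h.nq, ?_, ?_, ?_, ?_⟩
  · intro h1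
    exact h.ne (act_inj F a (by simpa using h.np.le) (by simpa using h.nq.le) h1)
  · rw [hact _ _ (act_le F a h.np.le), act_inv_act F a h.np.le, h.fp]
  · rw [hact _ _ (act_le F a h.nq.le), act_inv_act F a h.nq.le, h.fq]
  · intro x hx hxq
    have hx' : ‖x‖ ≤ 1 := by simpa using hx
    have hy : ‖F.act a⁻¹ x‖ ≤ 1 := act_le F _ hx'
    have hyq : F.act a⁻¹ x ≠ q := by
      intro h1
      apply hxq
      rw [← h1, act_act_inv F a hx']
    have h1 := h.att (F.act a⁻¹ x) (by simpa using hy) hyq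
    have h2 : (fun n : ℕ => F.act ((a * g * a⁻¹) ^ n) x) =
        fun n : ℕ => F.act a (F.act (g ^ n) (F.act a⁻¹ x)) := by
      funext n
      rw [conj_pow, hact _ _ hx']
    rw [h2]
    have hc := (act_cont F a) p (by simpa using h.np.le)
    refine hc.tendsto.comp (tendsto_nhdsWithin_of_tendsto_nhds_of_eventually_within _ h1 ?_)
    exact Eventually.of_forall fun n => by simpa using act_le F (g ^ n) hy

private lemma FC_cb {x : ℂ} (hx : ‖x‖ ≤ 1) : x ∈ ball (0:ℂ) 1 ∨ x ∈ sphere (0:ℂ) 1 := by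
  rcases hx.lt_or_eq with h | h
  · left; simpa using h
  · right; simpa using h

private lemma FC_H {e : Elt Γ} (he : Norm F e) {x : ℂ} (hx : ‖x‖ ≤ 1) : ‖e.H x‖ ≤ 1 := by
  rcases FC_cb hx with h | h
  · have := he.mapB h
    simp at this
    exact this.le
  · have := he.mapS h
    simp at this
    exact this.le

private lemma FC_Hi {e : Elt Γ} (he : Norm F e) {x : ℂ} (hx : ‖x‖ ≤ 1) : ‖e.Hi x‖ ≤ 1 := by
  rcases FC_cb hx with h | h
  · have := he.mapBi h
    simp at this
    exact this.le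
  · have := he.mapSi h
    simp at this
    exact this.le

theorem AR.norm {g : Γ} {p q : ℂ} (h : F.AR g p q) {e : Elt Γ} (he : Norm F e) :
    F.AR (e.θ g) (e.H p) (e.H q) := by
  have hpc : p ∈ closedBall (0:ℂ) 1 := by simpa using h.np.le
  have hqc : q ∈ closedBall (0:ℂ) 1 := by simpa using h.nq.le
  refine ⟨?_, ?_, ?_, ?_, ?_, ?_⟩
  · have := he.mapS (show p ∈ sphere (0:ℂ) 1 by simpa using h.np)
    simpa using this
  · have := he.mapS (show q ∈ sphere (0:ℂ) 1 by simpa using h.nq)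
    simpa using this
  · intro h1
    apply h.ne
    rw [← he.left p hpc, ← he.left q hqc, h1]
  · rw [← he.equi g p hpc, h.fp]
  · rw [← he.equi g q hqc, h.fq]
  · intro x hx hxq
    have hx' : ‖x‖ ≤ 1 := by simpa using hx
    have hy : ‖e.Hi x‖ ≤ 1 := FC_Hi he hx'
    have hyc : e.Hi x ∈ closedBall (0:ℂ) 1 := by simpa using hy
    have hyq : e.Hi x ≠ q := by
      intro h1
      apply hxq
      rw [← h1, he.right x hx]
    have h1 := h.att (e.Hi x) hyc hyq
    have h2 : (fun n : ℕ => F.act ((e.θ g) ^ n) x) =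
        fun n : ℕ => e.H (F.act (g ^ n) (e.Hi x)) := by
      funext n
      rw [he.equi _ _ hyc, he.right x hx, map_pow]
    rw [h2]
    have hc := he.cont p hpc
    refine hc.tendsto.comp (tendsto_nhdsWithin_of_tendsto_nhds_of_eventually_within _ h1 ?_)
    exact Eventually.of_forall fun n => by simpa using act_le F (g ^ n) hy

theorem AR.lim {g : Γ} {p q : ℂ} (h : F.AR g p q) : p ∈ F.lim ∧ q ∈ F.lim := by
  have key : ∀ {g : Γ} {p q : ℂ}, F.AR g p q → p ∈ F.lim := by
    intro g p q h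
    exact lim_of_seq F (g := fun n => g ^ n) (x := 0) (by simp) h.np
      (h.att 0 (by simp) (FC_q0 h.nq))
  exact ⟨key h, key (AR.inv h)⟩

theorem AR.pow {g : Γ} {p q : ℂ} (h : F.AR g p q) {n : ℕ} (hn : n ≠ 0) : F.AR (g ^ n) p q where
  np := h.np
  nq := h.nq
  ne := h.ne
  fp := FC_fix F h.np.le h.fp n
  fq := FC_fix F h.nq.le h.fq n
  att := by
    intro x hx hxq
    have h1 := h.att x hx hxq
    have h2 : Tendsto (fun k : ℕ => n * k) atTop atTop :=
      tendsto_id.const_mul_atTop' (Nat.pos_of_ne_zero hn)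
    have h3 := h1.comp h2
    refine h3.congr fun k => ?_
    simp only [Function.comp_apply, pow_mul]

theorem inf_order (F : Fuchs Γ) {g : Γ} (hg : g ≠ 1) {n : ℕ} (hn : n ≠ 0) : g ^ n ≠ 1 := by
  obtain ⟨p, q, h⟩ := exists_AR F hg
  exact AR.ne_one (AR.pow h hn)

theorem pow_inj (F : Fuchs Γ) {g : Γ} (hg : g ≠ 1) : Function.Injective (fun n : ℤ => g ^ n) := by
  rw [injective_zpow_iff_not_isOfFinOrder]
  intro h
  obtain ⟨n, hn, h1⟩ := isOfFinOrder_iff_pow_eq_one.1 h
  exact inf_order F hg (Nat.pos_iff_ne_zero.1 hn) h1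

/-- uniform attraction away from the repelling point -/
theorem AR.unif {g : Γ} {p q : ℂ} (h : F.AR g p q) {η ε : ℝ} (hη : 0 < η) (hε : 0 < ε) :
    ∀ᶠ n : ℕ in atTop, ∀ x ∈ closedBall (0:ℂ) 1, η ≤ dist x q → dist (F.act (g ^ n) x) p < ε := by
  obtain ⟨lam, hlam, h1⟩ := FC_lam h
  have hlim : Tendsto (fun n : ℕ => lam ^ n) atTop atTop := tendsto_pow_atTop_atTop_of_one_lt hlam
  filter_upwards [hlim.eventually_gt_atTop (4 / (ε * η))] with n hn x hx hxq
  have hx' : ‖x‖ ≤ 1 := by simpa using hx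
  have h2 := FC_bd F h.np h.nq (by linarith) hx' (FC_pow F h.np h.fp h1 n hx')
  rw [dist_eq_norm] at hxq ⊢
  rw [div_lt_iff₀ (by positivity)] at hn
  by_contra hcon
  push Not at hcon
  have hl : 0 < lam ^ n := by positivity
  have h3 : ε * (lam ^ n * η) ≤ ‖F.act (g ^ n) x - p‖ * (lam ^ n * ‖x - q‖) :=
    mul_le_mul hcon (mul_le_mul_of_nonneg_left hxq hl.le) (by positivity) (norm_nonneg _)
  nlinarith

end TN
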