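import Pool.Agent.H12.TN.CO
import Pool.Agent.H12.TN.FC

/-!
CP (strip coordinates, part 2: the element `κ` is the translation by `l`; ends; bi-Lipschitz property; difference quotients).
`om_act`: by `mob_sub` (MB) with the fixed points `p`, `q`: for `x` in the closed disc, `x ≠ p, q`,
`act κ x - q = u (1-|b|²)(x - q)/((1 - conj b x)(1 - conj b q))` and the same with `p`, so `eta (act κ x) = lam * eta x`,
`lam = (1 - conj b p)/(1 - conj b q) ≠ 0` independent of `x` (`act κ x ≠ p, q` by injectivity).  For `ω` with `0 < im ω < π`,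
`exp ω` and `lam * exp ω` are in the upper half plane (take `x = omi ω`): for all directions, so `lam` is a positive real number
(apply it to `ω = i t`, `t → 0` and `t → π`: `im (lam e^{it}) ≥ 0`, i.e. `im lam ≥ 0` and `- im lam ≥ 0`, `re lam > 0` from `t = π/2`).
By attraction (`AR.att`) `act (κ^n) x → p`, i.e. `‖eta (act (κ^n) x)‖ = lam^n ‖eta x‖ → ∞` (`p - act (κ^n) x → 0` while
`act (κ^n) x - q → p - q ≠ 0`), so `lam > 1`; `l = log lam`; `log (lam * E) = log lam + log E` for real `lam > 0`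
(`Complex.log_ofReal_mul`).
`om_act_zpow`: `hl` at `x = 0` identifies `l`; induction for `ℕ`, then negative powers by injectivity.
`omi_p`, `omi_q`: `p - omi ω = I c (p - q)/(E + I c)`, `‖E‖ = exp (re ω) → ∞`; `omi ω - q = E (p - q)/(E + I c)`,
`‖E + I c‖ ≥ re c > 0`.
`om_bilip`: `omi` has at `ω₀ = om x` the nonzero derivative `d` (`omi_hasDerivAt`), so `‖omi ω - omi ω₀ - d (ω - ω₀)‖ ≤ ‖d‖/2 ‖ω - ω₀‖`
near `ω₀`; put `ω = om y`, `om` is continuous at `x` within `Dpq` (`om_cont`), `omi_om`.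
`logq`: for `A ≠ B` in the open upper half plane `(log A - log B)/(A - B) = ∫_0^1 dt/(B + t (A - B))`
(`intervalIntegral.integral_eq_sub_of_hasDerivAt`), and `im (1/w) < 0` for `im w > 0`: so the imaginary part of the
quotient is negative.  `om_quot`: `(om a - om b)/(a - b) = [(log A - log B)/(A - B)] [(A - B)/(a - b)]` with `A = eta a`, `B = eta b`,
`(A - B)/(a - b) = I c (p - q)/((p - a)(p - b))` (`eta_sub`), and `(p - a)/p = 1 - a/p` has positive real part.  So the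
logarithm `Lq a b = log (first) + log (I c (p - q)/p²) - log ((p-a)/p) - log ((p-b)/p)` is continuous where `a ≠ b`.
`expq`: `(e^v - 1)/v = ∫_0^1 e^{tv} dt`, `re e^{tv} = e^{t re v} cos (t im v) > 0` for `|im v| < π/2`.
-/

namespace TN
open Metric Set Filter Topology DS

variable {Γ : Type} [Group Γ] {F : Fuchs Γ} {p q : ℂ}

theorem CP_ball_Dpq {p q : ℂ} (hp : ‖p‖ = 1) (hq : ‖q‖ = 1) {x : ℂ} (hx : x ∈ ball (0:ℂ) 1) :
    x ∈ Dpq p q := by
  have h : ‖x‖ < 1 := by simpa using hx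
  refine ⟨h.le, ?_, ?_⟩
  · rintro rfl; linarith
  · rintro rfl; linarith

theorem CP_act_mem {κ : Γ} (hκ : F.AR κ p q) {x : ℂ} (hx : x ∈ Dpq p q) :
    F.act κ x ∈ Dpq p q := by
  refine ⟨act_le F κ hx.1, ?_, ?_⟩
  · intro h
    apply hx.2.1
    apply act_inj F κ (by simpa using hx.1) (by simp [hκ.np])
    rw [h, hκ.fp]
  · intro h
    apply hx.2.2
    apply act_inj F κ (by simpa using hx.1) (by simp [hκ.nq])
    rw [h, hκ.fq]

theorem CP_act_inv_mem {κ : Γ} (hκ : F.AR κ p q) {x : ℂ} (hx : x ∈ Dpq p q) :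
    F.act κ⁻¹ x ∈ Dpq p q := by
  refine ⟨act_le F κ⁻¹ hx.1, ?_, ?_⟩
  · intro h
    apply hx.2.1
    rw [← act_act_inv F κ hx.1, h, hκ.fp]
  · intro h
    apply hx.2.2
    rw [← act_act_inv F κ hx.1, h, hκ.fq]

theorem CP_eta_act {κ : Γ} (hκ : F.AR κ p q) {x : ℂ} (hx : x ∈ Dpq p q) :
    eta p q (F.act κ x) = (1 - (starRingEnd ℂ) (F.b κ) * p) / (1 - (starRingEnd ℂ) (F.b κ) * q) *
      eta p q x := by
  have hb := F.hb κ
  have h1 := mob_sub (u := F.u κ) hb hx.1 hκ.nq.le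
  have h2 := mob_sub (u := F.u κ) hb hκ.np.le hx.1
  have e1 : mob (F.u κ) (F.b κ) q = q := hκ.fq
  have e2 : mob (F.u κ) (F.b κ) p = p := hκ.fp
  rw [e1] at h1
  rw [e2] at h2
  have dx := den_ne hb hx.1
  have dp := den_ne hb hκ.np.le
  have dq := den_ne hb hκ.nq.le
  have hu : F.u κ ≠ 0 := by
    intro h
    have := F.hu κ
    rw [h, norm_zero] at this
    exact zero_ne_one this
  have hbb : 1 - (starRingEnd ℂ) (F.b κ) * F.b κ ≠ 0 := den_ne hb hb.le
  have hpx : p - x ≠ 0 := sub_ne_zero.2 (Ne.symm hx.2.1)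
  unfold eta Fuchs.act
  rw [h1, h2]
  field_simp

theorem CP_eta_pos {κ : Γ} (hκ : F.AR κ p q) :
    ∃ lam : ℝ, 1 < lam ∧ ∀ x ∈ Dpq p q, eta p q (F.act κ x) = lam * eta p q x := by
  have hp := hκ.np
  have hq := hκ.nq
  have hpq := hκ.ne
  set L : ℂ := (1 - (starRingEnd ℂ) (F.b κ) * p) / (1 - (starRingEnd ℂ) (F.b κ) * q) with hL
  have key : ∀ t : ℝ, t ∈ Ioo 0 Real.pi → 0 < L.re * Real.sin t + L.im * Real.cos t := by
    intro t ht
    set ω : ℂ := (t : ℂ) * Complex.I with hω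
    have hωim : ω.im = t := by simp [hω]
    have hω1 : 0 < ω.im := by rw [hωim]; exact ht.1
    have hω2 : ω.im < Real.pi := by rw [hωim]; exact ht.2
    have hS : ω ∈ Str := ⟨hω1.le, hω2.le⟩
    have hx := omi_ball hp hq hpq hω1 hω2
    have hxD : omi p q ω ∈ Dpq p q := omi_mem hp hq hpq hS
    have h1 := CP_eta_act hκ hxD
    have h2 : eta p q (omi p q ω) = Complex.exp ω := by
      rw [← exp_om hp hq hpq hxD.2.1 hxD.2.2, om_omi hp hq hpq hS]
    rw [h2, ← hL] at h1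
    have h3 : ‖F.act κ (omi p q ω)‖ < 1 := act_lt F κ hx
    have h4 := eta_im hp hq (F.act κ (omi p q ω))
    rw [h1] at h4
    have h5 : 0 < ‖p - q‖ := norm_pos_iff.2 (sub_ne_zero.2 hpq)
    have h6 : 0 < ‖p - F.act κ (omi p q ω)‖ := by
      refine norm_pos_iff.2 (sub_ne_zero.2 ?_)
      intro h
      rw [← h, hp] at h3
      exact lt_irrefl _ h3
    have h7 : 0 < (L * Complex.exp ω).im := by
      rw [h4]
      have h8 : 0 < 1 - ‖F.act κ (omi p q ω)‖ ^ 2 := by nlinarith [norm_nonneg (F.act κ (omi p q ω))]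
      positivity
    rw [hω, Complex.exp_mul_I, ← Complex.ofReal_cos, ← Complex.ofReal_sin] at h7
    simp only [Complex.mul_im, Complex.add_re, Complex.add_im, Complex.ofReal_re,
      Complex.ofReal_im, Complex.mul_re, Complex.I_re, Complex.I_im] at h7
    linarith
  have hcl : ∀ t ∈ Icc (0:ℝ) Real.pi, 0 ≤ L.re * Real.sin t + L.im * Real.cos t := by
    have hclosed : IsClosed {t : ℝ | 0 ≤ L.re * Real.sin t + L.im * Real.cos t} :=
      isClosed_le continuous_const (by fun_prop)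
    have hsub : Ioo (0:ℝ) Real.pi ⊆ {t : ℝ | 0 ≤ L.re * Real.sin t + L.im * Real.cos t} :=
      fun t ht => (key t ht).le
    have h1 := hclosed.closure_subset_iff.2 hsub
    rw [closure_Ioo Real.pi_pos.ne] at h1
    exact h1
  have him : L.im = 0 := by
    have h1 := hcl 0 ⟨le_rfl, Real.pi_pos.le⟩
    have h2 := hcl Real.pi ⟨Real.pi_pos.le, le_rfl⟩
    simp only [Real.sin_zero, Real.cos_zero, Real.sin_pi, Real.cos_pi] at h1 h2
    linarith
  have hre : 0 < L.re := by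
    have h1 := key (Real.pi / 2) ⟨by linarith [Real.pi_pos], by linarith [Real.pi_pos]⟩
    simp only [Real.sin_pi_div_two, Real.cos_pi_div_two] at h1
    linarith
  have hLr : L = (L.re : ℂ) := by
    apply Complex.ext
    · simp
    · simp [him]
  have hmul : ∀ x ∈ Dpq p q, eta p q (F.act κ x) = (L.re : ℂ) * eta p q x := by
    intro x hx
    rw [← hLr]
    exact CP_eta_act hκ hx
  refine ⟨L.re, ?_, hmul⟩
  by_contra hle
  push Not at hle
  have h0D : (0 : ℂ) ∈ Dpq p q := CP_ball_Dpq hp hq (by simp)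
  have hn : ∀ n : ℕ, F.act (κ ^ n) 0 ∈ Dpq p q ∧
      ‖eta p q (F.act (κ ^ n) 0)‖ ≤ ‖eta p q 0‖ := by
    intro n
    induction n with
    | zero => rw [pow_zero, act_one F (by simp)]; exact ⟨h0D, le_rfl⟩
    | succ n ih =>
      rw [pow_succ', act_mul F _ _ (by simp)]
      refine ⟨CP_act_mem hκ ih.1, ?_⟩
      rw [hmul _ ih.1, norm_mul, Complex.norm_real, Real.norm_eq_abs, abs_of_pos hre]
      calc L.re * ‖eta p q (F.act (κ ^ n) 0)‖ ≤ 1 * ‖eta p q (F.act (κ ^ n) 0)‖ :=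
            mul_le_mul_of_nonneg_right hle (norm_nonneg _)
        _ ≤ ‖eta p q 0‖ := by rw [one_mul]; exact ih.2
  have hc : 0 < ‖1 - p * (starRingEnd ℂ) q‖ := by
    rw [pq_norm hp hq]; exact norm_pos_iff.2 (sub_ne_zero.2 hpq)
  have heta : ∀ y : ℂ, ‖eta p q y‖ = ‖1 - p * (starRingEnd ℂ) q‖ * ‖y - q‖ / ‖p - y‖ := by
    intro y
    unfold eta
    rw [norm_div, norm_mul, norm_mul, Complex.norm_I, one_mul]
  have hle2 : ∀ n : ℕ, ‖F.act (κ ^ n) 0 - q‖ ≤ ‖p - F.act (κ ^ n) 0‖ := by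
    intro n
    obtain ⟨h1, h2⟩ := hn n
    rw [heta, heta, zero_sub, norm_neg, sub_zero, hp, hq, mul_one, div_one] at h2
    have h3 : 0 < ‖p - F.act (κ ^ n) 0‖ := norm_pos_iff.2 (sub_ne_zero.2 (Ne.symm h1.2.1))
    rw [div_le_iff₀ h3] at h2
    exact le_of_mul_le_mul_left h2 hc
  have ht := hκ.att 0 (by simp) (by
    intro h
    rw [← h, norm_zero] at hq
    exact zero_ne_one hq)
  have t1 : Tendsto (fun n : ℕ => ‖F.act (κ ^ n) 0 - q‖) atTop (𝓝 ‖p - q‖) :=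
    (ht.sub_const q).norm
  have t2 : Tendsto (fun n : ℕ => ‖p - F.act (κ ^ n) 0‖) atTop (𝓝 ‖p - p‖) :=
    (ht.const_sub p).norm
  have h5 := le_of_tendsto_of_tendsto t1 t2 (Eventually.of_forall hle2)
  rw [sub_self, norm_zero] at h5
  have h6 : 0 < ‖p - q‖ := norm_pos_iff.2 (sub_ne_zero.2 hpq)
  linarith

theorem om_act {κ : Γ} (hκ : F.AR κ p q) :
    ∃ l : ℝ, 0 < l ∧ ∀ x ∈ Dpq p q, F.act κ x ∈ Dpq p q ∧ om p q (F.act κ x) = om p q x + l := by
  obtain ⟨lam, hlam, h⟩ := CP_eta_pos hκ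
  refine ⟨Real.log lam, Real.log_pos hlam, fun x hx => ⟨CP_act_mem hκ hx, ?_⟩⟩
  unfold om
  rw [h x hx, Complex.log_ofReal_mul (by linarith) (eta_ne hκ.np hκ.nq hκ.ne hx.2.1 hx.2.2)]
  ring

theorem om_act_zpow {κ : Γ} (hκ : F.AR κ p q) {l : ℝ}
    (hl : ∀ x ∈ ball (0:ℂ) 1, om p q (F.act κ x) = om p q x + l) :
    0 < l ∧ ∀ z : ℤ, ∀ x ∈ Dpq p q,
      F.act (κ ^ z) x ∈ Dpq p q ∧ om p q (F.act (κ ^ z) x) = om p q x + z * l := by
  obtain ⟨l', hl', h'⟩ := om_act hκ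
  have h0D : (0 : ℂ) ∈ Dpq p q := CP_ball_Dpq hκ.np hκ.nq (by simp)
  have hll : l' = l := by
    have h1 := (h' 0 h0D).2
    rw [hl 0 (by simp)] at h1
    exact_mod_cast (add_left_cancel h1).symm
  subst hll
  refine ⟨hl', fun z => ?_⟩
  have hinv : ∀ x ∈ Dpq p q, F.act κ⁻¹ x ∈ Dpq p q ∧
      om p q (F.act κ⁻¹ x) = om p q x - l' := by
    intro x hx
    have h1 := CP_act_inv_mem hκ hx
    refine ⟨h1, ?_⟩
    have h2 := (h' _ h1).2
    rw [act_act_inv F κ hx.1] at h2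
    rw [h2]; ring
  induction z using Int.induction_on with
  | zero =>
    intro x hx
    rw [zpow_zero, act_one F hx.1]
    exact ⟨hx, by simp⟩
  | succ i ih =>
    intro x hx
    obtain ⟨h1, h2⟩ := ih x hx
    rw [add_comm, zpow_one_add, act_mul F _ _ hx.1]
    refine ⟨(h' _ h1).1, ?_⟩
    rw [(h' _ h1).2, h2]
    push_cast; ring
  | pred i ih =>
    intro x hx
    obtain ⟨h1, h2⟩ := ih x hx
    have h3 : κ ^ (-(i : ℤ) - 1) = κ⁻¹ * κ ^ (-(i : ℤ)) := by
      rw [sub_eq_add_neg, add_comm, zpow_add, zpow_neg_one]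
    rw [h3, act_mul F _ _ hx.1]
    refine ⟨(hinv _ h1).1, ?_⟩
    rw [(hinv _ h1).2, h2]
    push_cast; ring

theorem CP_c_pos (hp : ‖p‖ = 1) (hq : ‖q‖ = 1) (hpq : p ≠ q) :
    0 < ‖1 - p * (starRingEnd ℂ) q‖ := by
  rw [pq_norm hp hq]; exact norm_pos_iff.2 (sub_ne_zero.2 hpq)

theorem omi_p (hp : ‖p‖ = 1) (hq : ‖q‖ = 1) (hpq : p ≠ q) {ε : ℝ} (hε : 0 < ε) :
    ∃ R : ℝ, ∀ ω ∈ Str, R ≤ ω.re → dist (omi p q ω) p < ε := by
  set c : ℂ := 1 - p * (starRingEnd ℂ) q with hc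
  have hc0 : 0 < ‖c‖ := CP_c_pos hp hq hpq
  have hpq0 : 0 < ‖p - q‖ := norm_pos_iff.2 (sub_ne_zero.2 hpq)
  set M : ℝ := ‖c‖ + ‖c‖ * ‖p - q‖ / ε + 1 with hM
  have hMpos : 0 < M := by positivity
  refine ⟨Real.log M, fun ω hω hR => ?_⟩
  have hden := omi_den hp hq hpq hω
  rw [← hc] at hden
  have hE : M ≤ ‖Complex.exp ω‖ := by
    rw [Complex.norm_exp, ← Real.exp_log hMpos]
    exact Real.exp_le_exp.2 hR
  have hlow : M - ‖c‖ ≤ ‖Complex.exp ω + Complex.I * c‖ := by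
    have h1 := norm_sub_le_norm_add (Complex.exp ω) (Complex.I * c)
    rw [norm_mul, Complex.norm_I, one_mul] at h1
    linarith
  have hpos : 0 < M - ‖c‖ := by rw [hM]; have : 0 ≤ ‖c‖ * ‖p - q‖ / ε := by positivity
                                linarith
  have h2 : p - omi p q ω = Complex.I * c * (p - q) / (Complex.exp ω + Complex.I * c) := by
    unfold omi
    rw [← hc]
    field_simp
    ring
  rw [dist_comm, dist_eq_norm, h2, norm_div, norm_mul, norm_mul, Complex.norm_I, one_mul,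
    div_lt_iff₀ (lt_of_lt_of_le hpos hlow)]
  have h3 : ‖c‖ * ‖p - q‖ < ε * (M - ‖c‖) := by
    have h4 : ε * (M - ‖c‖) = ‖c‖ * ‖p - q‖ + ε := by
      rw [hM]; field_simp; ring
    rw [h4]; linarith
  exact lt_of_lt_of_le h3 (mul_le_mul_of_nonneg_left hlow hε.le)

theorem omi_q (hp : ‖p‖ = 1) (hq : ‖q‖ = 1) (hpq : p ≠ q) {ε : ℝ} (hε : 0 < ε) :
    ∃ R : ℝ, ∀ ω ∈ Str, ω.re ≤ R → dist (omi p q ω) q < ε := by
  set c : ℂ := 1 - p * (starRingEnd ℂ) q with hc
  have hc0 : 0 < ‖c‖ := CP_c_pos hp hq hpq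
  have hpq0 : 0 < ‖p - q‖ := norm_pos_iff.2 (sub_ne_zero.2 hpq)
  set m : ℝ := ε * ‖c‖ / (2 * (‖p - q‖ + ε)) with hm
  have hmpos : 0 < m := by positivity
  have hm1 : m * (2 * (‖p - q‖ + ε)) = ε * ‖c‖ := by
    rw [hm]; field_simp
  refine ⟨Real.log m, fun ω hω hR => ?_⟩
  have hden := omi_den hp hq hpq hω
  rw [← hc] at hden
  have hE : ‖Complex.exp ω‖ ≤ m := by
    rw [Complex.norm_exp, ← Real.exp_log hmpos]
    exact Real.exp_le_exp.2 hR
  have hlow : ‖c‖ - m ≤ ‖Complex.exp ω + Complex.I * c‖ := by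
    have h1 := norm_sub_le_norm_add (Complex.I * c) (Complex.exp ω)
    rw [norm_mul, Complex.norm_I, one_mul, add_comm] at h1
    linarith
  have hpos : 0 < ‖Complex.exp ω + Complex.I * c‖ := norm_pos_iff.2 hden
  have h2 : omi p q ω - q = Complex.exp ω * (p - q) / (Complex.exp ω + Complex.I * c) := by
    unfold omi
    rw [← hc]
    field_simp
    ring
  rw [dist_eq_norm, h2, norm_div, norm_mul, div_lt_iff₀ hpos]
  have h3 : m * ‖p - q‖ < ε * (‖c‖ - m) := by nlinarith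
  calc ‖Complex.exp ω‖ * ‖p - q‖ ≤ m * ‖p - q‖ := mul_le_mul_of_nonneg_right hE hpq0.le
    _ < ε * (‖c‖ - m) := h3
    _ ≤ ε * ‖Complex.exp ω + Complex.I * c‖ := mul_le_mul_of_nonneg_left hlow hε.le

theorem om_bilip (hp : ‖p‖ = 1) (hq : ‖q‖ = 1) (hpq : p ≠ q) {x : ℂ} (hx : x ∈ Dpq p q) :
    ∃ c > 0, ∃ C > 0, ∃ δ > 0, ∀ y ∈ Dpq p q, dist y x < δ →
      c * dist y x ≤ dist (om p q y) (om p q x) ∧ dist (om p q y) (om p q x) ≤ C * dist y x := by
  have hS := om_mem hp hq hpq hx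
  have hd := omi_hasDerivAt hp hq hpq hS
  rw [omi_om hp hq hpq hx] at hd
  set d : ℂ := (x - q) * (p - x) / (p - q) with hddef
  have hd0 : d ≠ 0 := by
    rw [hddef]
    exact div_ne_zero (mul_ne_zero (sub_ne_zero.2 hx.2.2) (sub_ne_zero.2 (Ne.symm hx.2.1)))
      (sub_ne_zero.2 hpq)
  have hdn : 0 < ‖d‖ := norm_pos_iff.2 hd0
  have hlo := (hasDerivAt_iff_isLittleO.1 hd).def (show 0 < ‖d‖ / 2 by positivity)
  have hcont : Tendsto (om p q) (𝓝[Dpq p q] x) (𝓝 (om p q x)) := om_cont hp hq hpq x hx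
  have hev := hcont.eventually hlo
  rw [eventually_nhdsWithin_iff, Metric.eventually_nhds_iff] at hev
  obtain ⟨δ, hδ, hev⟩ := hev
  refine ⟨2 / (3 * ‖d‖), by positivity, 2 / ‖d‖, by positivity, δ, hδ, fun y hy hyx => ?_⟩
  have h1 := hev hyx hy
  rw [omi_om hp hq hpq hy, omi_om hp hq hpq hx, smul_eq_mul] at h1
  set W : ℂ := om p q y - om p q x with hW
  rw [dist_eq_norm, dist_eq_norm]
  have h2 : ‖W * d‖ = ‖d‖ * ‖W‖ := by rw [norm_mul, mul_comm]
  have h3 : ‖W * d‖ - ‖y - x - W * d‖ ≤ ‖y - x‖ := by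
    have h4 := norm_sub_le (y - x) (y - x - W * d)
    rw [sub_sub_cancel] at h4
    linarith
  have h5 : ‖y - x‖ ≤ ‖W * d‖ + ‖y - x - W * d‖ := by
    have h4 := norm_add_le (W * d) (y - x - W * d)
    rw [add_sub_cancel] at h4
    exact h4
  rw [h2] at h3 h5
  constructor
  · rw [div_mul_eq_mul_div, div_le_iff₀ (by positivity)]
    linarith
  · rw [div_mul_eq_mul_div, le_div_iff₀ hdn]
    linarith

theorem CP_mvt {φ φ' : ℝ → ℝ} (h : ∀ t ∈ Icc (0:ℝ) 1, HasDerivAt φ (φ' t) t) :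
    ∃ t ∈ Ioo (0:ℝ) 1, φ' t = φ 1 - φ 0 := by
  obtain ⟨t, ht, h2⟩ := exists_hasDerivAt_eq_slope φ φ' (zero_lt_one' ℝ)
    (fun t ht => (h t ht).continuousAt.continuousWithinAt) (fun t ht => h t ⟨ht.1.le, ht.2.le⟩)
  refine ⟨t, ht, ?_⟩
  rw [h2]; ring

theorem logq {A B : ℂ} (hA : 0 < A.im) (hB : 0 < B.im) (hAB : A ≠ B) :
    ((Complex.log A - Complex.log B) / (A - B)).im < 0 := by
  have hAB' : A - B ≠ 0 := sub_ne_zero.2 hAB
  have him : ∀ t ∈ Icc (0:ℝ) 1, 0 < (B + (t:ℂ) * (A - B)).im := by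
    intro t ht
    have : (B + (t:ℂ) * (A - B)).im = (1 - t) * B.im + t * A.im := by
      simp; ring
    rw [this]
    rcases eq_or_lt_of_le ht.1 with h | h
    · rw [← h]; linarith
    · have h1 : 0 ≤ (1 - t) * B.im := mul_nonneg (by linarith [ht.2]) hB.le
      have h2 : 0 < t * A.im := mul_pos h hA
      linarith
  have hder : ∀ t ∈ Icc (0:ℝ) 1, HasDerivAt
      (fun t : ℝ => (Complex.log (B + (t:ℂ) * (A - B)) / (A - B)).im)
      ((1 / (B + (t:ℂ) * (A - B))).im) t := by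
    intro t ht
    have h1 : HasDerivAt (fun t : ℝ => B + (t:ℂ) * (A - B)) (A - B) t := by
      have := ((Complex.ofRealCLM.hasDerivAt (x := t)).mul_const (A - B)).const_add B
      simpa using this
    have hs : B + (t:ℂ) * (A - B) ∈ Complex.slitPlane := Or.inr (him t ht).ne'
    have h2 := (h1.clog_real hs).div_const (A - B)
    have h3 : (A - B) / (B + (t:ℂ) * (A - B)) / (A - B) = 1 / (B + (t:ℂ) * (A - B)) := by
      field_simp
    rw [h3] at h2
    exact (Complex.imCLM.hasFDerivAt.comp_hasDerivAt t h2)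
  obtain ⟨t, ht, h4⟩ := CP_mvt hder
  have h5 : (1 / (B + (t:ℂ) * (A - B))).im < 0 := by
    have h6 := him t ⟨ht.1.le, ht.2.le⟩
    rw [one_div, Complex.inv_im]
    have h7 : 0 < Complex.normSq (B + (t:ℂ) * (A - B)) :=
      Complex.normSq_pos.2 (fun h0 => by rw [h0] at h6; simp at h6)
    exact div_neg_of_neg_of_pos (by linarith) h7
  rw [h4] at h5
  simp only [Complex.ofReal_one, one_mul, Complex.ofReal_zero, zero_mul, add_zero,
    add_sub_cancel] at h5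
  rw [sub_div, Complex.sub_im]
  exact h5

theorem CP_log_mul {f g : ℂ → ℂ} {S : Set ℂ} (hf : HasLog f S) (hg : HasLog g S) :
    HasLog (fun z => f z * g z) S := by
  obtain ⟨L, h1, h2⟩ := hf
  obtain ⟨M, h3, h4⟩ := hg
  refine ⟨fun z => L z + M z, h1.add h3, fun z hz => ?_⟩
  simp only [h2 z hz, h4 z hz, Complex.exp_add]

theorem CP_log_div {f g : ℂ → ℂ} {S : Set ℂ} (hf : HasLog f S) (hg : HasLog g S) :
    HasLog (fun z => f z / g z) S := by
  obtain ⟨L, h1, h2⟩ := hf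
  obtain ⟨M, h3, h4⟩ := hg
  refine ⟨fun z => L z - M z, h1.sub h3, fun z hz => ?_⟩
  simp only [h2 z hz, h4 z hz, Complex.exp_sub]

theorem CP_log_slit {f : ℂ → ℂ} {S : Set ℂ} (hf : ContinuousOn f S)
    (h : ∀ z ∈ S, f z ∈ Complex.slitPlane) : HasLog f S := by
  refine ⟨fun z => Complex.log (f z), hf.clog h, fun z hz => ?_⟩
  exact (Complex.exp_log (Complex.slitPlane_ne_zero (h z hz))).symm

theorem CP_log_const {a : ℂ} (ha : a ≠ 0) {S : Set ℂ} : HasLog (fun _ => a) S :=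
  ⟨fun _ => Complex.log a, continuousOn_const, fun _ _ => (Complex.exp_log ha).symm⟩

theorem CP_log_psub (hp : ‖p‖ = 1) {S : Set ℂ} {f : ℂ → ℂ} (hf : ContinuousOn f S)
    (hf1 : MapsTo f S (ball 0 1)) : HasLog (fun x => p - f x) S := by
  have hp0 : p ≠ 0 := by intro h; rw [h, norm_zero] at hp; exact zero_ne_one hp
  have h1 : HasLog (fun x => 1 - f x / p) S := by
    refine CP_log_slit (continuousOn_const.sub (hf.div_const p)) fun x hx => Or.inl ?_
    have h2 : ‖f x‖ < 1 := by simpa using hf1 hx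
    have h3 : (f x / p).re ≤ ‖f x / p‖ := Complex.re_le_norm _
    rw [norm_div, hp, div_one] at h3
    rw [Complex.sub_re, Complex.one_re]
    linarith
  obtain ⟨L, h4, h5⟩ := CP_log_mul (CP_log_const hp0 (S := S)) h1
  refine ⟨L, h4, fun x hx => ?_⟩
  rw [← h5 x hx]
  field_simp

/-- difference quotients of `om` in the open disc have a logarithm -/
theorem om_quot (hp : ‖p‖ = 1) (hq : ‖q‖ = 1) (hpq : p ≠ q) {S : Set ℂ} {f g : ℂ → ℂ}
    (hf : ContinuousOn f S) (hg : ContinuousOn g S) (hf1 : MapsTo f S (ball 0 1))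
    (hg1 : MapsTo g S (ball 0 1)) (hne : ∀ x ∈ S, f x ≠ g x) :
    HasLog (fun x => (om p q (f x) - om p q (g x)) / (f x - g x)) S := by
  set c : ℂ := 1 - p * (starRingEnd ℂ) q with hc
  have hc0 : c ≠ 0 := norm_pos_iff.1 (CP_c_pos hp hq hpq)
  have hpq' : p - q ≠ 0 := sub_ne_zero.2 hpq
  have hpf : ∀ x ∈ S, p - f x ≠ 0 := fun x hx =>
    sub_ne_zero.2 (Ne.symm (CP_ball_Dpq hp hq (hf1 hx)).2.1)
  have hpg : ∀ x ∈ S, p - g x ≠ 0 := fun x hx =>
    sub_ne_zero.2 (Ne.symm (CP_ball_Dpq hp hq (hg1 hx)).2.1)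
  have hsub : ∀ x ∈ S, eta p q (f x) - eta p q (g x) =
      Complex.I * c * (p - q) * (f x - g x) / ((p - f x) * (p - g x)) := fun x hx =>
    eta_sub (CP_ball_Dpq hp hq (hf1 hx)).2.1 (CP_ball_Dpq hp hq (hg1 hx)).2.1
  have hne' : ∀ x ∈ S, eta p q (f x) - eta p q (g x) ≠ 0 := by
    intro x hx
    rw [hsub x hx]
    refine div_ne_zero (mul_ne_zero (mul_ne_zero (mul_ne_zero Complex.I_ne_zero hc0) hpq')
      (sub_ne_zero.2 (hne x hx))) (mul_ne_zero (hpf x hx) (hpg x hx))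
  have heta : ∀ h : ℂ → ℂ, ContinuousOn h S → (∀ x ∈ S, p - h x ≠ 0) →
      ContinuousOn (fun x => eta p q (h x)) S := by
    intro h hh hph
    unfold eta
    exact (continuousOn_const.mul (hh.sub continuousOn_const)).div
      (continuousOn_const.sub hh) hph
  have hom : ∀ h : ℂ → ℂ, ContinuousOn h S → MapsTo h S (ball 0 1) →
      ContinuousOn (fun x => om p q (h x)) S := by
    intro h hh hmh
    exact (om_cont hp hq hpq).comp hh (fun x hx => CP_ball_Dpq hp hq (hmh hx))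
  have him : ∀ h : ℂ → ℂ, MapsTo h S (ball 0 1) → ∀ x ∈ S, 0 < (eta p q (h x)).im := by
    intro h hmh x hx
    have h1 : ‖h x‖ < 1 := by simpa using hmh hx
    have h2 : 0 < ‖p - q‖ := norm_pos_iff.2 hpq'
    have h3 : 0 < ‖p - h x‖ := norm_pos_iff.2
      (sub_ne_zero.2 (Ne.symm (CP_ball_Dpq hp hq (hmh hx)).2.1))
    rw [eta_im hp hq]
    have h8 : 0 < 1 - ‖h x‖ ^ 2 := by nlinarith [norm_nonneg (h x)]
    positivity
  have h1 : HasLog (fun x => (om p q (f x) - om p q (g x)) / (eta p q (f x) - eta p q (g x))) S := by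
    refine CP_log_slit (((hom f hf hf1).sub (hom g hg hg1)).div
      ((heta f hf hpf).sub (heta g hg hpg)) hne') fun x hx => Or.inr ?_
    exact (logq (him f hf1 x hx) (him g hg1 x hx) (sub_ne_zero.1 (hne' x hx))).ne
  have h2 : HasLog (fun _ => Complex.I * c * (p - q)) S :=
    CP_log_const (mul_ne_zero (mul_ne_zero Complex.I_ne_zero hc0) hpq')
  obtain ⟨L, h4, h5⟩ := CP_log_div (CP_log_mul h1 h2)
    (CP_log_mul (CP_log_psub hp hf hf1) (CP_log_psub hp hg hg1))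
  refine ⟨L, h4, fun x hx => ?_⟩
  rw [← h5 x hx]
  simp only
  rw [hsub x hx]
  have e1 := hpf x hx
  have e2 := hpg x hx
  have e3 := sub_ne_zero.2 (hne x hx)
  field_simp

theorem expq {v : ℂ} (h0 : v ≠ 0) (hv : |v.im| < Real.pi / 2) : 0 < ((Complex.exp v - 1) / v).re := by
  have hder : ∀ t ∈ Icc (0:ℝ) 1, HasDerivAt (fun t : ℝ => (Complex.exp ((t:ℂ) * v) / v).re)
      ((Complex.exp ((t:ℂ) * v)).re) t := by
    intro t _
    have h1 : HasDerivAt (fun t : ℝ => (t:ℂ) * v) v t := by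
      have := ((Complex.ofRealCLM.hasDerivAt (x := t)).mul_const v)
      simpa using this
    have h2 := (h1.cexp).div_const v
    have h3 : Complex.exp ((t:ℂ) * v) * v / v = Complex.exp ((t:ℂ) * v) := by field_simp
    rw [h3] at h2
    exact (Complex.reCLM.hasFDerivAt.comp_hasDerivAt t h2)
  obtain ⟨t, ht, h4⟩ := CP_mvt hder
  have h5 : 0 < (Complex.exp ((t:ℂ) * v)).re := by
    rw [Complex.exp_re]
    apply mul_pos (Real.exp_pos _)
    apply Real.cos_pos_of_mem_Ioo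
    have h6 : ((t:ℂ) * v).im = t * v.im := by simp
    rw [h6]
    have h7 : |t * v.im| < Real.pi / 2 := by
      rw [abs_mul, abs_of_pos ht.1]
      calc t * |v.im| ≤ 1 * |v.im| := mul_le_mul_of_nonneg_right ht.2.le (abs_nonneg _)
        _ < Real.pi / 2 := by rw [one_mul]; exact hv
    rw [abs_lt] at h7
    exact ⟨h7.1, h7.2⟩
  rw [h4] at h5
  simp only [Complex.ofReal_one, one_mul, Complex.ofReal_zero, zero_mul, Complex.exp_zero] at h5
  rw [sub_div, Complex.sub_re]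
  exact h5

end TN
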