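import Pool.Agent.H12.TN.JB

/-!
JF (finitely many boundary holes).  Abstract statement about a continuous map `S` of the plane commuting with the translation by `l`, a set
`B` of fixed points which is closed, translation invariant, and isolated (local data at each point), and a closed translation
invariant set `K` disjoint from `B`.  Proof.  `A = {a ∈ B | 0 ≤ a.re ∧ a.re < l}`.  `B ∩ {0 ≤ re ≤ l}` is compact (closed, and bounded because `im` is in
`[0, π]`) and every point of it is isolated in the set of fixed points: finite.  So `A` is finite.  Every `a ∈ B` has exactly one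
translate in `A`.  For `a, b ∈ A` and `z : ℤ` with `(a, 0) ≠ (b, z)` we have `a ≠ b + z l`, and
the distances `dist a (b + z l)` are bounded below by a positive number (for `|z| ≥ 2` the distance is at least `l` by the real parts; finitely many
others).  `K` is closed and does not contain `a ∈ A`: a positive distance.  Take `s` smaller than a third of all these numbers, than all
the `δ a` and than the given bound `s₀`.
-/

namespace TN
open Metric Set Filter Topology DS

theorem JF_inv {l : ℝ} {X : Set ℂ} (h : ∀ a, a ∈ X ↔ a + l ∈ X) (z : ℤ) (a : ℂ) :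
    a ∈ X ↔ a + z * l ∈ X := by
  induction z using Int.induction_on with
  | zero => simp
  | succ i ih =>
    rw [ih, h (a + (i : ℤ) * l)]
    have e : a + ((i : ℤ) : ℂ) * l + l = a + (((i : ℤ) + 1 : ℤ) : ℂ) * l := by
      push_cast
      ring
    rw [e]
  | pred i ih =>
    rw [ih, h (a + ((-(i : ℤ) - 1 : ℤ) : ℂ) * l)]
    have e : a + ((-(i : ℤ) - 1 : ℤ) : ℂ) * l + l = a + ((-(i : ℤ) : ℤ) : ℂ) * l := by
      push_cast
      ring
    rw [e]

theorem bd_holes {l : ℝ} (hl : 0 < l) {S : ℂ → ℂ} (hS : Continuous S)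
    (hp : ∀ ω, S (ω + l) = S ω + l) {B : Set ℂ} (hB : IsClosed B)
    (hBs : ∀ a ∈ B, 0 ≤ a.im ∧ a.im ≤ Real.pi ∧ S a = a) (hBp : ∀ a, a ∈ B ↔ a + l ∈ B)
    {δ : ℂ → ℝ} (hδ : ∀ a ∈ B, 0 < δ a ∧ ∀ ω : ℂ, 0 < dist ω a → dist ω a < δ a → S ω ≠ ω)
    {K : Set ℂ} (hK : IsClosed K) (hKp : ∀ a, a ∈ K ↔ a + l ∈ K) (hKB : Disjoint K B)
    {s₀ : ℝ} (hs₀ : 0 < s₀) :
    ∃ (A : Finset ℂ) (s : ℝ), 0 < s ∧ s < s₀ ∧ (∀ a ∈ A, a ∈ B ∧ s < δ a) ∧
      (∀ a ∈ B, ∃ z : ℤ, a + z * l ∈ A) ∧
      (∀ a ∈ A, ∀ b ∈ A, ∀ z : ℤ, (a ≠ b ∨ z ≠ 0) →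
        ∀ ω ∈ closedBall a s, ω + z * l ∉ closedBall b s) ∧
      ∀ a ∈ A, ∀ z : ℤ, ∀ ω ∈ closedBall a s, ω + z * l ∉ K := by
  classical
  have hcl : IsClosed {a : ℂ | 0 ≤ a.re ∧ a.re ≤ l} := by
    exact (isClosed_le continuous_const Complex.continuous_re).inter
      (isClosed_le Complex.continuous_re continuous_const)
  have hcomp : IsCompact (B ∩ {a : ℂ | 0 ≤ a.re ∧ a.re ≤ l}) := by
    refine Metric.isCompact_of_isClosed_isBounded (hB.inter hcl) ?_
    refine (isBounded_closedBall (x := (0:ℂ)) (r := l + Real.pi)).subset ?_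
    rintro a ⟨ha, h1, h2⟩
    obtain ⟨h3, h4, -⟩ := hBs a ha
    rw [mem_closedBall_zero_iff]
    refine (Complex.norm_le_abs_re_add_abs_im a).trans ?_
    rw [abs_of_nonneg h1, abs_of_nonneg h3]
    linarith
  have hfin0 : (B ∩ {a : ℂ | 0 ≤ a.re ∧ a.re ≤ l}).Finite := by
    obtain ⟨t, ht1, ht2⟩ := hcomp.elim_nhds_subcover (fun a => ball a (δ a))
      (fun a ha => ball_mem_nhds a (hδ a ha.1).1)
    refine t.finite_toSet.subset fun y hy => ?_
    obtain ⟨x, hx, hyx⟩ := mem_iUnion₂.1 (ht2 hy)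
    by_cases hxy : y = x
    · rw [hxy]
      exact hx
    · exfalso
      exact (hδ x (ht1 x hx).1).2 y (dist_pos.2 hxy) (mem_ball.1 hyx) (hBs y hy.1).2.2
  have hfin : {a : ℂ | a ∈ B ∧ 0 ≤ a.re ∧ a.re < l}.Finite :=
    hfin0.subset fun a ha => ⟨ha.1, ha.2.1, ha.2.2.le⟩
  set A : Finset ℂ := hfin.toFinset with hA
  have hmemA : ∀ a, a ∈ A ↔ a ∈ B ∧ 0 ≤ a.re ∧ a.re < l := by
    intro a
    rw [hA, Set.Finite.mem_toFinset]
    rfl
  have hsmall : ∀ c : ℝ, 0 < c → ∀ᶠ s : ℝ in 𝓝[>] 0, s < c := fun c hc =>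
    mem_nhdsWithin_of_mem_nhds (Iio_mem_nhds hc)
  have hpos : ∀ᶠ s : ℝ in 𝓝[>] 0, 0 < s := self_mem_nhdsWithin
  have h1 : ∀ᶠ s : ℝ in 𝓝[>] 0, ∀ a ∈ A, s < δ a := by
    rw [Filter.eventually_all_finset]
    intro a ha
    exact hsmall _ (hδ a ((hmemA a).1 ha).1).1
  have hre : ∀ (a : ℂ) (z : ℤ), (a + z * l).re = a.re + z * l := by
    intro a z
    rw [Complex.add_re]
    congr 1
    rw [← Complex.ofReal_intCast, ← Complex.ofReal_mul, Complex.ofReal_re]
  have h2 : ∀ᶠ s : ℝ in 𝓝[>] 0, ∀ a ∈ A, ∀ b ∈ A, ∀ z ∈ Finset.Icc (-1 : ℤ) 1,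
      (a ≠ b ∨ z ≠ 0) → 2 * s < dist (a + z * l) b := by
    rw [Filter.eventually_all_finset]
    intro a ha
    rw [Filter.eventually_all_finset]
    intro b hb
    rw [Filter.eventually_all_finset]
    intro z _
    by_cases hz : a ≠ b ∨ z ≠ 0
    · have hne : a + z * l ≠ b := by
        intro h
        have ha' := ((hmemA a).1 ha).2
        have hb' := ((hmemA b).1 hb).2
        have h3 := congrArg Complex.re h
        rw [hre] at h3
        have hz0 : z = 0 := by
          have h4 : (z : ℝ) * l < 1 * l := by linarith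
          have h5 : (-1 : ℝ) * l < z * l := by linarith
          have h6 : (z : ℝ) < 1 := lt_of_mul_lt_mul_right h4 hl.le
          have h7 : (-1 : ℝ) < z := lt_of_mul_lt_mul_right h5 hl.le
          have h8 : z < 1 := by exact_mod_cast h6
          have h9 : -1 < z := by exact_mod_cast h7
          omega
        rcases hz with hz | hz
        · apply hz
          rw [hz0] at h
          simpa using h
        · exact hz hz0
      have hd : 0 < dist (a + z * l) b / 2 := by
        have := dist_pos.2 hne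
        positivity
      filter_upwards [hsmall _ hd] with s hs _
      linarith
    · exact Eventually.of_forall fun s h => absurd h hz
  have h3 : ∀ᶠ s : ℝ in 𝓝[>] 0, ∀ a ∈ A, ∀ ω ∈ closedBall a s, ω ∉ K := by
    rw [Filter.eventually_all_finset]
    intro a ha
    have haK : a ∈ Kᶜ := fun h => Set.disjoint_left.1 hKB h ((hmemA a).1 ha).1
    obtain ⟨ε, hε, hb⟩ := Metric.isOpen_iff.1 hK.isOpen_compl a haK
    filter_upwards [hsmall ε hε] with s hs ω hω
    exact hb (lt_of_le_of_lt (mem_closedBall.1 hω) hs)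
  obtain ⟨s, hs0, hss, hs1, hs2, hs3, hsl⟩ :=
    (hpos.and ((hsmall s₀ hs₀).and (h1.and (h2.and (h3.and (hsmall (l / 2) (by positivity))))))).exists
  refine ⟨A, s, hs0, hss, fun a ha => ⟨((hmemA a).1 ha).1, hs1 a ha⟩, ?_, ?_, ?_⟩
  · intro a ha
    refine ⟨-⌊a.re / l⌋, (hmemA _).2 ⟨(JF_inv hBp _ _).1 ha, ?_⟩⟩
    rw [hre]
    have f1 := Int.floor_le (a.re / l)
    have f2 := Int.lt_floor_add_one (a.re / l)
    rw [le_div_iff₀ hl] at f1
    rw [div_lt_iff₀ hl] at f2
    push_cast
    constructor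
    · linarith
    · linarith
  · intro a ha b hb z hz ω hω hω'
    have hd : dist (a + z * l) b ≤ 2 * s := by
      have e1 : dist (a + z * l) (ω + z * l) ≤ s := by
        rw [dist_add_right, dist_comm]
        exact mem_closedBall.1 hω
      have e2 : dist (ω + z * l) b ≤ s := mem_closedBall.1 hω'
      linarith [dist_triangle (a + z * l) (ω + z * l) b]
    by_cases hz1 : z ∈ Finset.Icc (-1 : ℤ) 1
    · exact absurd (hs2 a ha b hb z hz1 hz) (not_lt.2 hd)
    · have ha' := ((hmemA a).1 ha).2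
      have hb' := ((hmemA b).1 hb).2
      have h4 : |(a + z * l - b).re| ≤ dist (a + z * l) b := by
        rw [dist_eq_norm]
        exact Complex.abs_re_le_norm _
      rw [Complex.sub_re, hre] at h4
      rw [Finset.mem_Icc, not_and_or] at hz1
      rcases hz1 with hz1 | hz1
      · have h5 : (z : ℝ) ≤ -2 := by
          have : z ≤ -2 := by omega
          exact_mod_cast this
        have h6 : (z : ℝ) * l ≤ -2 * l := mul_le_mul_of_nonneg_right h5 hl.le
        have h7 := neg_abs_le (a.re + z * l - b.re)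
        linarith
      · have h5 : (2 : ℝ) ≤ z := by
          have : 2 ≤ z := by omega
          exact_mod_cast this
        have h6 : 2 * l ≤ (z : ℝ) * l := mul_le_mul_of_nonneg_right h5 hl.le
        have h7 := le_abs_self (a.re + z * l - b.re)
        linarith
  · intro a ha z ω hω h
    exact hs3 a ha ω hω ((JF_inv hKp z ω).2 h)

end TN
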