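import Pool.Agent.H12.TN.JP
import Pool.Agent.H12.TN.JF

/-!
JC (the collar index).  `S = sm p q e.H`, `l > 0` (`om_act_zpow`).  `B = {a | a.im = 0 ∧ S a = a}`: closed, invariant; for `a ∈ B` `omi a` is on the circle, fixed,
and `0 < (eta (omi a)).re` (`om_im_zero`, `om_omi`), so `hT` applies; `δ a`, `n a ∈ {0, 1}` and logs as in JX (`typeA`, `typeR`).
`no_low` : there is `y₀ ∈ (0, π/2)` such that `S ω ≠ ω` for `0 < im ω ≤ y₀`.  Otherwise there are fixed points `ω_n` with `0 < im ω_n → 0`; translate them to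
`0 ≤ re ≤ l`; a subsequence converges to `a` with `im a = 0`, `S a = a`, `a ∈ B`, contradiction to the isolation of `a` (`ω_n ≠ a` as `im ω_n > 0`).
`D = {ω | 0 < im ω < y₀}` is convex and open, hence simply connected: `Complex.exists_continuousOn_eqOn_exp_comp` (as in IA of H36/DS) gives a log `L` of
`S ω - ω` on `D`.  On `D` the function `(L (ω + l) - L ω)/(2πi)` is continuous with integer values (`S (ω+l) - (ω+l) = S ω - ω`), `D` is connected: it is a constant
integer `w`.  `y₁ = y₀/2`.  On `im ω ≤ y₁`, `clm ω = ω`, so `S ω = om (e.H (omi ω))`.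
First conclusion: for `x` in the disc with `im (om x) ≤ y₁` put `ω = om x`, `0 < im ω`: `S ω ≠ ω` means `e.H x ≠ x` (`sm_om`).
`w ≤ 0`: `bd_holes` with `K = ∅`, `s₀ = y₁`; `pai` at height `y₁` with index type `A`, holes `ball a s` (`im ≤ s < y₁`), `hz`: a fixed point with `im ≤ y₁` is in
`Str` and has `im = 0`, so it is in `B`.  `L` is continuous on the line `im = y₁` and satisfies `hLe`, `hLp`.  So `w = - ∑ n a ≤ 0`.
-/

namespace TN
open Metric Set Filter Topology DS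

variable {Γ : Type} [Group Γ]

theorem JC_add_int {S : ℂ → ℂ} {l : ℝ} (hp : ∀ ω, S (ω + l) = S ω + l) (z : ℤ) :
    ∀ ω, S (ω + z * l) = S ω + z * l := by
  induction z using Int.induction_on with
  | zero => intro ω; simp
  | succ n ih =>
    intro ω
    have h1 : ω + ((n + 1 : ℤ) : ℂ) * l = (ω + ((n : ℤ) : ℂ) * l) + l := by push_cast; ring
    rw [h1, hp, ih]
    push_cast
    ring
  | pred n ih =>
    intro ω
    have h1 : S (ω + ((-n - 1 : ℤ) : ℂ) * l) + l = S (ω + ((-n : ℤ) : ℂ) * l) := by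
      rw [← hp]
      congr 1
      push_cast
      ring
    rw [ih] at h1
    push_cast at h1 ⊢
    linear_combination h1

/-- the local data at a fixed point of the lower boundary line -/
theorem JC_local {F : Fuchs Γ} {e : Elt Γ} (he : Norm F e) {κ : Γ} {p q : ℂ} (hκ : F.AR κ p q)
    (hc : e.θ κ = κ)
    (hT : ∀ ξ : ℂ, ‖ξ‖ = 1 → ξ ≠ p → ξ ≠ q → 0 < (eta p q ξ).re → e.H ξ = ξ → SA e.H ξ ∨ SA e.Hi ξ)
    {a : ℂ} (ha : a.im = 0) (hS : sm p q e.H a = a) :
    ∃ δ : ℝ, ∃ n : ℤ, 0 ≤ n ∧ 0 < δ ∧ (∀ ω : ℂ, 0 < dist ω a → dist ω a < δ → sm p q e.H ω ≠ ω) ∧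
      ∀ s : ℝ, 0 < s → s < δ → HasLog (fun ω => (sm p q e.H ω - ω) / (ω - a) ^ n) (sphere a s) := by
  obtain ⟨hStr, hfix⟩ := (sm_fix he hκ hc).1 hS
  have hmem := omi_mem hκ.np hκ.nq hκ.ne hStr
  have hsph := omi_sphere hκ.np hκ.nq hκ.ne (Or.inl ha)
  have heta : 0 < (eta p q (omi p q a)).re := by
    rcases om_im_zero hκ.np hκ.nq hκ.ne hsph hmem.2.1 hmem.2.2 with h | h
    · exact h.2
    · exfalso
      rw [om_omi hκ.np hκ.nq hκ.ne hStr, ha] at h
      exact Real.pi_pos.ne h.1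
  rcases hT _ hsph hmem.2.1 hmem.2.2 heta hfix with h | h
  · obtain ⟨δ, hδ, h1, h2⟩ := typeA he hκ hc (Or.inl ha) h
    exact ⟨δ, 1, by norm_num, hδ, h1, h2⟩
  · obtain ⟨δ, hδ, h1, h2⟩ := typeR he hκ hc (Or.inl ha) h
    exact ⟨δ, 0, le_rfl, hδ, h1, h2⟩

theorem no_low (F : Fuchs Γ) {e : Elt Γ} (he : Norm F e) {κ : Γ} {p q : ℂ} (hκ : F.AR κ p q)
    (hc : e.θ κ = κ) {l : ℝ} (hl : ∀ x ∈ ball (0:ℂ) 1, om p q (F.act κ x) = om p q x + l)
    (hT : ∀ ξ : ℂ, ‖ξ‖ = 1 → ξ ≠ p → ξ ≠ q → 0 < (eta p q ξ).re → e.H ξ = ξ → SA e.H ξ ∨ SA e.Hi ξ) :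
    ∃ y₀ : ℝ, 0 < y₀ ∧ y₀ < Real.pi / 2 ∧
      ∀ ω : ℂ, 0 < ω.im → ω.im ≤ y₀ → sm p q e.H ω ≠ ω := by
  have hl0 : 0 < l := (om_act_zpow hκ hl).1
  have hcont : Continuous (sm p q e.H) := sm_cont he hκ hc
  have hadd := JC_add_int (sm_add he hκ hc hl)
  set G : Set ℂ := {ω | 0 < ω.im → sm p q e.H ω ≠ ω} with hG
  set K : Set ℂ := Icc 0 l ×ℂ {0} with hK
  have hKc : IsCompact K := isCompact_Icc.reProdIm isCompact_singleton
  have hKG : K ⊆ interior G := by
    intro a ha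
    have ha0 : a.im = 0 := by
      have := ha.2
      simpa using this
    rw [mem_interior_iff_mem_nhds]
    by_cases hS : sm p q e.H a = a
    · obtain ⟨δ, n, -, hδ, h1, -⟩ := JC_local he hκ hc hT ha0 hS
      filter_upwards [ball_mem_nhds a hδ] with ω hω hω0
      have hne : ω ≠ a := by
        rintro rfl
        rw [ha0] at hω0
        exact lt_irrefl _ hω0
      exact h1 ω (dist_pos.2 hne) hω
    · have h2 : ∀ᶠ ω in 𝓝 a, sm p q e.H ω ≠ ω :=
        (hcont.continuousAt.ne_iff_eventually_ne continuousAt_id).1 hS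
      filter_upwards [h2] with ω hω _
      exact hω
  obtain ⟨δ, hδ, hsub⟩ := hKc.exists_thickening_subset_open isOpen_interior hKG
  refine ⟨min (δ / 2) 1, by positivity, lt_of_le_of_lt (min_le_right _ _) (by linarith [Real.pi_gt_three]), ?_⟩
  intro ω hω0 hω1 hfix
  set z : ℤ := -⌊ω.re / l⌋ with hz
  have hre : (ω + z * l).re = ω.re + z * l := by simp
  have him : (ω + z * l).im = ω.im := by simp
  have h1 : 0 ≤ ω.re + z * l := by
    have := Int.floor_le (ω.re / l)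
    rw [le_div_iff₀ hl0] at this
    rw [hz]; push_cast; linarith
  have h2 : ω.re + z * l ≤ l := by
    have := (Int.lt_floor_add_one (ω.re / l)).le
    rw [div_le_iff₀ hl0] at this
    rw [hz]; push_cast; linarith
  have hth : ω + z * l ∈ thickening δ K := by
    rw [mem_thickening_iff]
    refine ⟨⟨(ω + z * l).re, 0⟩, ⟨?_, by simp⟩, ?_⟩
    · show (ω + z * l).re ∈ Icc 0 l
      rw [hre]
      exact ⟨h1, h2⟩
    · rw [Complex.dist_eq]
      have h3 : ω + z * l - ⟨(ω + z * l).re, 0⟩ = ((ω.im : ℝ) : ℂ) * Complex.I := by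
        apply Complex.ext <;> simp
      rw [h3, norm_mul, Complex.norm_I, mul_one, Complex.norm_real, Real.norm_eq_abs, abs_of_pos hω0]
      have := hω1.trans (min_le_left _ _)
      linarith
  have h4 := interior_subset (hsub hth)
  apply h4
  · rw [him]; exact hω0
  · rw [hadd, hfix]

theorem JC_allLogs {W : Set ℂ} (hc : Convex ℝ W) (ho : IsOpen W) {f : ℂ → ℂ} (hf : ContinuousOn f W)
    (h0 : ∀ z ∈ W, f z ≠ 0) : HasLog f W := by
  rcases W.eq_empty_or_nonempty with he | hne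
  · subst he
    exact ⟨fun _ => 0, continuousOn_const, fun z hz => absurd hz (notMem_empty z)⟩
  · have hsc : IsSimplyConnected W := by
      have := hc.contractibleSpace hne
      exact (inferInstance : SimplyConnectedSpace W)
    obtain ⟨L, hL, hE⟩ := Complex.exists_continuousOn_eqOn_exp_comp hsc ho hf (by
      rintro ⟨z, hz, hz0⟩
      exact h0 z hz hz0)
    exact ⟨L, hL, fun z hz => (hE hz).symm⟩

theorem JC_int_const {D : Set ℂ} (hD : IsPreconnected D) {h : ℂ → ℝ} (hc : ContinuousOn h D)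
    (hi : ∀ ω ∈ D, ∃ n : ℤ, h ω = n) {x y : ℂ} (hx : x ∈ D) (hy : y ∈ D) : h x = h y := by
  have key : ∀ x ∈ D, ∀ y ∈ D, ¬ h x < h y := by
    intro x hx y hy hlt
    have ho := (hD.image h hc).ordConnected
    obtain ⟨n, hn⟩ := hi x hx
    obtain ⟨m, hm⟩ := hi y hy
    rw [hn, hm] at hlt
    have hlt' : n < m := by exact_mod_cast hlt
    have hle : (n:ℝ) + 1 ≤ m := by exact_mod_cast hlt'
    have hmem := ho.out (mem_image_of_mem h hx) (mem_image_of_mem h hy)
      (show (n:ℝ) + 1 / 2 ∈ Icc (h x) (h y) by rw [hn, hm]; constructor <;> linarith)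
    obtain ⟨z, hz, hzz⟩ := hmem
    obtain ⟨k, hk⟩ := hi z hz
    rw [hk] at hzz
    have h1 : (2 * k : ℤ) = 2 * n + 1 := by
      have : (2:ℝ) * k = 2 * n + 1 := by linarith
      exact_mod_cast this
    omega
  exact le_antisymm (not_lt.1 (key y hy x hx)) (not_lt.1 (key x hx y hy))

theorem collar' (F : Fuchs Γ) {e : Elt Γ} (he : Norm F e) {κ : Γ} {p q : ℂ} (hκ : F.AR κ p q)
    (hc : e.θ κ = κ) {l : ℝ} (hl : ∀ x ∈ ball (0:ℂ) 1, om p q (F.act κ x) = om p q x + l)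
    (hT : ∀ ξ : ℂ, ‖ξ‖ = 1 → ξ ≠ p → ξ ≠ q → 0 < (eta p q ξ).re → e.H ξ = ξ → SA e.H ξ ∨ SA e.Hi ξ) :
    ∃ y₁ : ℝ, 0 < y₁ ∧ y₁ < Real.pi / 2 ∧
      (∀ x ∈ ball (0:ℂ) 1, (om p q x).im ≤ y₁ → e.H x ≠ x) ∧
      ∃ L : ℂ → ℂ, ContinuousOn L {ω : ℂ | 0 < ω.im ∧ ω.im ≤ y₁} ∧
        (∀ ω : ℂ, 0 < ω.im → ω.im ≤ y₁ → om p q (e.H (omi p q ω)) - ω = Complex.exp (L ω)) ∧
        ∃ w : ℤ, w ≤ 0 ∧ ∀ ω : ℂ, 0 < ω.im → ω.im ≤ y₁ →
          L (ω + l) = L ω + 2 * Real.pi * w * Complex.I := by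
  have hl0 : 0 < l := (om_act_zpow hκ hl).1
  have hcont : Continuous (sm p q e.H) := sm_cont he hκ hc
  have hadd1 := sm_add he hκ hc hl
  have hpi := Real.pi_pos
  obtain ⟨y₀, hy₀, hy₀', hno⟩ := no_low F he hκ hc hl hT
  set D : Set ℂ := {ω | 0 < ω.im ∧ ω.im < y₀} with hDdef
  have hDc : Convex ℝ D := by
    have h1 : Convex ℝ {ω : ℂ | 0 < ω.im} := convex_halfSpace_im_gt 0
    have h2 : Convex ℝ {ω : ℂ | ω.im < y₀} := convex_halfSpace_im_lt y₀
    exact h1.inter h2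
  have hDo : IsOpen D :=
    (isOpen_lt continuous_const Complex.continuous_im).inter
      (isOpen_lt Complex.continuous_im continuous_const)
  obtain ⟨L, hL, hLe⟩ := JC_allLogs hDc hDo (f := fun ω => sm p q e.H ω - ω)
    (hcont.sub continuous_id).continuousOn (fun ω hω => sub_ne_zero.2 (hno ω hω.1 hω.2.le))
  have hDl : ∀ ω ∈ D, ω + l ∈ D := fun ω hω => by
    simp only [hDdef, mem_ofPred_eq, Complex.add_im, Complex.ofReal_im, add_zero]
    exact hω
  have h2pi : (2 * Real.pi * Complex.I : ℂ) ≠ 0 := Complex.two_pi_I_ne_zero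
  -- the integer
  have hint : ∀ ω ∈ D, ∃ n : ℤ, L (ω + l) - L ω = n * (2 * Real.pi * Complex.I) := by
    intro ω hω
    rw [← Complex.exp_eq_one_iff, Complex.exp_sub, ← hLe ω hω, ← hLe _ (hDl ω hω)]
    show (sm p q e.H (ω + l) - (ω + l)) / (sm p q e.H ω - ω) = 1
    rw [hadd1, add_sub_add_right_eq_sub]
    exact div_self (sub_ne_zero.2 (hno ω hω.1 hω.2.le))
  have hω₀ : (⟨0, y₀ / 2⟩ : ℂ) ∈ D := ⟨by simp; linarith, by simp; linarith⟩
  obtain ⟨w, hw⟩ := hint _ hω₀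
  have hwall : ∀ ω ∈ D, L (ω + l) = L ω + 2 * Real.pi * w * Complex.I := by
    intro ω hω
    have hcg : ContinuousOn (fun ω => ((L (ω + l) - L ω) / (2 * Real.pi * Complex.I)).re) D := by
      refine Complex.continuous_re.comp_continuousOn ?_
      refine ContinuousOn.div_const ?_ _
      refine ContinuousOn.sub ?_ hL
      exact hL.comp (continuous_id.add continuous_const).continuousOn hDl
    have h1 := JC_int_const hDc.isPreconnected hcg (fun ω hω => by
      obtain ⟨n, hn⟩ := hint ω hω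
      refine ⟨n, ?_⟩
      rw [hn, mul_div_cancel_right₀ _ h2pi, Complex.intCast_re]) hω hω₀
    obtain ⟨n, hn⟩ := hint ω hω
    rw [hn, hw, mul_div_cancel_right₀ _ h2pi, mul_div_cancel_right₀ _ h2pi, Complex.intCast_re,
      Complex.intCast_re] at h1
    have h2 : n = w := by exact_mod_cast h1
    rw [h2] at hn
    linear_combination hn
  have hStrD : ∀ ω : ℂ, 0 < ω.im → ω.im ≤ y₀ / 2 → ω ∈ Str := fun ω h1 h2 =>
    ⟨h1.le, by linarith⟩
  have hsm : ∀ ω : ℂ, 0 < ω.im → ω.im ≤ y₀ / 2 → sm p q e.H ω = om p q (e.H (omi p q ω)) := by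
    intro ω h1 h2
    rw [sm, clm_id (hStrD ω h1 h2)]
  have hsubD : ∀ ω : ℂ, 0 < ω.im → ω.im ≤ y₀ / 2 → ω ∈ D := fun ω h1 h2 => ⟨h1, by linarith⟩
  refine ⟨y₀ / 2, by linarith, by linarith, ?_, L, ?_, ?_, w, ?_, ?_⟩
  · intro x hx hxy hfix
    have hxD := CP_ball_Dpq hκ.np hκ.nq hx
    have h1 := (om_im_pos hκ.np hκ.nq hκ.ne (by simpa using hx : ‖x‖ < 1)).1
    apply hno (om p q x) h1 (by linarith)
    rw [sm_om he hκ hc hxD, hfix]
  · exact hL.mono fun ω hω => hsubD ω hω.1 hω.2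
  · intro ω h1 h2
    rw [← hsm ω h1 h2]
    exact hLe ω (hsubD ω h1 h2)
  · -- the sign of `w`
    set B : Set ℂ := {a | a.im = 0 ∧ sm p q e.H a = a} with hBdef
    have hBc : IsClosed B :=
      (isClosed_eq Complex.continuous_im continuous_const).inter (isClosed_eq hcont continuous_id)
    choose! δ n hn0 hδ hiso hlog using fun a (ha : a ∈ B) => JC_local he hκ hc hT ha.1 ha.2
    obtain ⟨A, s, hs0, hs1, hA, hAB, hdis, -⟩ := bd_holes hl0 hcont hadd1 hBc
      (fun a ha => ⟨ha.1.ge, by rw [ha.1]; exact hpi.le, ha.2⟩)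
      (fun a => by
        simp only [hBdef, mem_ofPred_eq, Complex.add_im, Complex.ofReal_im, add_zero, hadd1]
        constructor
        · rintro ⟨h1, h2⟩
          exact ⟨h1, by rw [h2]⟩
        · rintro ⟨h1, h2⟩
          exact ⟨h1, by linear_combination h2⟩)
      (δ := δ) (fun a ha => ⟨hδ a ha, hiso a ha⟩) (K := ∅) isClosed_empty (by simp) (by simp)
      (s₀ := y₀ / 2) (by linarith)
    obtain ⟨M, hM⟩ := sm_bdd he hκ hc hl
    have hpai := pai hl0 hcont hadd1 hM (fun ω => (sm_mem he hκ hc ω).1) (y₁ := y₀ / 2)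
      (ι := {a // a ∈ A}) (fun a => ball (a:ℂ) s) (fun a => (a:ℂ)) (fun a => n a)
      (fun a => isOpen_ball) (fun a => isBounded_ball) (fun a => mem_ball_self hs0)
      (fun a ω hω => by
        have h1 : dist ω a ≤ s := closure_ball_subset_closedBall hω
        have h2 : (a:ℂ).im = 0 := (hA a a.2).1.1
        have h3 : |(ω - a).im| ≤ ‖ω - a‖ := Complex.abs_im_le_norm _
        rw [Complex.sub_im, h2, sub_zero, ← Complex.dist_eq] at h3
        have h4 := le_abs_self ω.im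
        linarith)
      (fun a b z hab ω hω hcon => by
        refine hdis a a.2 b b.2 z ?_ ω (closure_ball_subset_closedBall hω)
          (closure_ball_subset_closedBall hcon)
        rcases hab with h | h
        · exact Or.inl fun h' => h (Subtype.ext h')
        · exact Or.inr h)
      (fun ω hω hfix => by
        have h1 := ((sm_fix he hκ hc).1 hfix).1
        have h2 : ω.im = 0 := by
          rcases h1.1.lt_or_eq with h | h
          · exact absurd hfix (hno ω h (by linarith))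
          · exact h.symm
        obtain ⟨z, hz⟩ := hAB ω ⟨h2, hfix⟩
        exact ⟨⟨_, hz⟩, z, mem_ball_self hs0⟩)
      (fun a => by
        rw [frontier_ball _ hs0.ne']
        exact hlog a (hA a a.2).1 s hs0 (hA a a.2).2)
      w (L := L) (hL.mono fun ω (hω : ω.im = y₀ / 2) => hsubD ω (by rw [hω]; linarith) hω.le)
      (fun ω hω => hLe ω (hsubD ω (by rw [hω]; linarith) hω.le))
      (fun ω hω => hwall ω (hsubD ω (by rw [hω]; linarith) hω.le))
    have hsum : 0 ≤ ∑ a : {a // a ∈ A}, n a := Finset.sum_nonneg fun a _ => hn0 a (hA a a.2).1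
    linarith
  · intro ω h1 h2
    exact hwall ω (hsubD ω h1 h2)

end TN
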