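import Pool.Agent.H12.TN.JS
import Pool.Agent.H36.DS.IC

/-!
JI (interior holes in the strip coordinate).  `closure O` is a compact subset of the open disc.  `om p q` is a homeomorphism of the open
disc onto the open strip with inverse `omi p q` (CO): `om '' O = {ω | 0 < im ω < π} ∩ omi ⁻¹' O` is open (`omi_cont` on the open strip),
`om '' closure O` is compact, so it is closed and equals the closure of `om '' O`; the frontier of `om '' O` is
`om '' closure O \ om '' O = om '' frontier O` (injectivity).  Log: on `frontier O` the function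
`x ↦ (om (e.H x) - om x)/(om x - om k) = [(om (e.H x) - om x)/(e.H x - x)] [(e.H x - x)/(x - k)] / [(om x - om k)/(x - k)]` has a log by
`om_quot` (twice; `e.H x ≠ x` because the given quotient is an exponential and `x ≠ k`, as `k ∈ O` is not in the frontier of the open set) and the
hypothesis; compose with `omi` (`IC_log_comp`), and use `sm_om`.
`int_closed`: the union of all translates of a compact set is closed (locally finite), and invariant.
-/

namespace TN
open Metric Set Filter Topology DS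

variable {Γ : Type} [Group Γ] {F : Fuchs Γ} {p q : ℂ} {e : Elt Γ} {κ : Γ}

theorem int_hole (he : Norm F e) (hκ : F.AR κ p q) (hc : e.θ κ = κ) {O : Set ℂ} {k : ℂ}
    (hO : IsOpen O) (hk : k ∈ O) (hs : closure O ⊆ ball 0 1)
    (hlog : HasLog (fun x => (e.H x - x) / (x - k)) (frontier O)) :
    IsOpen (om p q '' O) ∧ closure (om p q '' O) = om p q '' closure O ∧
      IsCompact (om p q '' closure O) ∧
      (∀ ω ∈ om p q '' closure O, 0 < ω.im ∧ ω.im < Real.pi) ∧
      HasLog (fun ω => (sm p q e.H ω - ω) / (ω - om p q k) ^ (1:ℤ)) (frontier (om p q '' O)) := by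
  have hp := hκ.np
  have hq := hκ.nq
  have hpq := hκ.ne
  have hB : ∀ x ∈ ball (0:ℂ) 1, ‖x‖ < 1 := fun x hx => mem_ball_zero_iff.1 hx
  have hBD : ∀ x ∈ ball (0:ℂ) 1, x ∈ Dpq p q := fun x hx => CP_ball_Dpq hp hq hx
  have hOs : O ⊆ ball 0 1 := subset_closure.trans hs
  have homc : ContinuousOn (om p q) (ball 0 1) := (om_cont hp hq hpq).mono hBD
  set U : Set ℂ := {ω | 0 < ω.im ∧ ω.im < Real.pi} with hU
  have hUo : IsOpen U := (isOpen_lt continuous_const Complex.continuous_im).inter
    (isOpen_lt Complex.continuous_im continuous_const)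
  have hUS : U ⊆ Str := fun ω hω => ⟨hω.1.le, hω.2.le⟩
  have himg : om p q '' O = U ∩ omi p q ⁻¹' O := by
    ext ω
    constructor
    · rintro ⟨x, hx, rfl⟩
      refine ⟨om_im_pos hp hq hpq (hB x (hOs hx)), ?_⟩
      change omi p q (om p q x) ∈ O
      rwa [omi_om hp hq hpq (hBD x (hOs hx))]
    · rintro ⟨h1, h2⟩
      exact ⟨omi p q ω, h2, om_omi hp hq hpq (hUS h1)⟩
  have hopen : IsOpen (om p q '' O) := by
    rw [himg]
    exact ((omi_cont hp hq hpq).mono hUS).isOpen_inter_preimage hUo hO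
  have hcO : IsCompact (closure O) :=
    Metric.isCompact_of_isClosed_isBounded isClosed_closure (isBounded_ball.subset hs)
  have hcomp : IsCompact (om p q '' closure O) := hcO.image_of_continuousOn (homc.mono hs)
  have hclo : closure (om p q '' O) = om p q '' closure O := by
    apply Subset.antisymm
    · exact closure_minimal (image_mono subset_closure) hcomp.isClosed
    · exact (homc.mono hs).image_closure
  have hS : frontier O ⊆ ball 0 1 := frontier_subset_closure.trans hs
  have hkS : ∀ x ∈ frontier O, x ≠ k := by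
    intro x hx h
    rw [hO.frontier_eq] at hx
    rw [h] at hx
    exact hx.2 hk
  obtain ⟨L0, -, hL0⟩ := id hlog
  have hne : ∀ x ∈ frontier O, e.H x ≠ x := by
    intro x hx h
    have h1 := hL0 x hx
    simp only [h, sub_self, zero_div] at h1
    exact Complex.exp_ne_zero _ h1.symm
  have hq1 : HasLog (fun x => (om p q (e.H x) - om p q x) / (e.H x - x)) (frontier O) :=
    om_quot hp hq hpq (f := e.H) (g := fun x => x)
      (he.cont.mono (hS.trans ball_subset_closedBall)) continuousOn_id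
      (fun x hx => he.mapB (hS hx)) (fun x hx => hS hx) hne
  have hq2 : HasLog (fun x => (om p q x - om p q k) / (x - k)) (frontier O) :=
    om_quot hp hq hpq (f := fun x => x) (g := fun _ => k) continuousOn_id continuousOn_const
      (fun x hx => hS hx) (fun x hx => hOs hk) hkS
  have hF : HasLog (fun x => (om p q (e.H x) - om p q x) / (om p q x - om p q k))
      (frontier O) := by
    refine IC_log_congr (IC_log_div (IC_log_mul hq1 hlog) hq2) fun x hx => ?_
    have h1 : e.H x - x ≠ 0 := sub_ne_zero.2 (hne x hx)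
    have h2 : x - k ≠ 0 := sub_ne_zero.2 (hkS x hx)
    rw [div_mul_div_comm, mul_comm (e.H x - x) (x - k), mul_div_mul_right _ _ h1,
      div_div_div_cancel_right₀ h2]
  refine ⟨hopen, hclo, hcomp, ?_, ?_⟩
  · rintro ω ⟨x, hx, rfl⟩
    exact om_im_pos hp hq hpq (hB x (hs hx))
  · have hfr : ∀ ω ∈ frontier (om p q '' O), ∃ x ∈ frontier O, ω = om p q x := by
      intro ω hω
      rw [hopen.frontier_eq, hclo] at hω
      obtain ⟨⟨x, hx, rfl⟩, h2⟩ := hω
      refine ⟨x, ?_, rfl⟩
      rw [hO.frontier_eq]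
      exact ⟨hx, fun h => h2 ⟨x, h, rfl⟩⟩
    have hmaps : MapsTo (omi p q) (frontier (om p q '' O)) (frontier O) := by
      intro ω hω
      obtain ⟨x, hx, rfl⟩ := hfr ω hω
      rwa [omi_om hp hq hpq (hBD x (hS hx))]
    have hsub : frontier (om p q '' O) ⊆ Str := by
      intro ω hω
      obtain ⟨x, hx, rfl⟩ := hfr ω hω
      exact om_mem hp hq hpq (hBD x (hS hx))
    refine IC_log_congr (IC_log_comp hF ((omi_cont hp hq hpq).mono hsub) hmaps) fun ω hω => ?_
    obtain ⟨x, hx, rfl⟩ := hfr ω hω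
    rw [omi_om hp hq hpq (hBD x (hS hx)), sm_om he hκ hc (hBD x (hS hx)), zpow_one]

theorem int_closed {l : ℝ} (hl : 0 < l) {C : Set ℂ} (hC : IsCompact C) :
    IsClosed {ω : ℂ | ∃ z : ℤ, ω + z * l ∈ C} := by
  have h1 : {ω : ℂ | ∃ z : ℤ, ω + z * l ∈ C} = ⋃ z : ℤ, (fun ω : ℂ => ω + z * l) ⁻¹' C := by
    ext ω
    simp only [mem_iUnion]
    rfl
  rw [h1]
  refine LocallyFinite.isClosed_iUnion ?_ fun z =>
    hC.isClosed.preimage (continuous_id.add continuous_const)
  obtain ⟨M, hM⟩ := hC.isBounded.exists_norm_le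
  intro ω₀
  refine ⟨ball ω₀ 1, ball_mem_nhds _ one_pos, ?_⟩
  set K : ℝ := (M + (‖ω₀‖ + 1)) / l with hK
  refine (Set.finite_Icc (-⌈K⌉) ⌈K⌉).subset ?_
  rintro z ⟨ω, h2, h3⟩
  have h4 : ‖ω + z * l‖ ≤ M := hM _ h2
  have h5 : ‖ω‖ ≤ ‖ω₀‖ + 1 := by
    have h6 : ‖ω - ω₀‖ < 1 := mem_ball_iff_norm.1 h3
    have h7 := norm_le_norm_add_norm_sub' ω ω₀
    linarith
  have h6 : ‖((z : ℂ) * (l : ℂ))‖ ≤ M + (‖ω₀‖ + 1) := by
    have h7 : ((z : ℂ) * (l : ℂ)) = (ω + z * l) - ω := by ring
    rw [h7]
    exact (norm_sub_le _ _).trans (add_le_add h4 h5)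
  rw [norm_mul, Complex.norm_real, Complex.norm_intCast, Real.norm_eq_abs, abs_of_pos hl] at h6
  have h7 : |(z : ℝ)| ≤ K := by
    rw [hK, le_div_iff₀ hl]
    exact h6
  have h8 : |(z : ℝ)| ≤ (⌈K⌉ : ℝ) := h7.trans (Int.le_ceil K)
  have h9 : |z| ≤ ⌈K⌉ := by exact_mod_cast h8
  exact ⟨(abs_le.1 h9).1, (abs_le.1 h9).2⟩

end TN
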