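import Pool.Agent.H12.TN.JP
import Pool.Agent.H12.TN.JF
import Pool.Agent.H12.TN.JI

/-!
JX (index modulo a cyclic group).  `l` from `om_act`; `S = sm p q e.H` satisfies the hypotheses on `Fh` of `pai` (JS; `M` from `sm_bdd`, `im ≥ 0` from
`sm_mem`).  `B = {a | (a.im = 0 ∨ a.im = π) ∧ S a = a}`: closed, invariant; for `a ∈ B` the point `omi a` is on the circle (`omi_sphere`), `≠ p, q`
(`omi_mem`), fixed by `e.H` (`sm_fix`), so by `hT` it is `SA` for `e.H` or `e.Hi`: `typeA`, `typeR` give `δ a > 0` (choose; if `SA e.H (omi a)` take the one of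
`typeA`) and the log for the exponent `n a = if SA e.H (omi a) then 1 else 0`.
`K = ⋃ i, {ω | ∃ z, ω + z l ∈ om '' closure (O i)}` closed (`int_closed`, finite union), invariant, disjoint from `B` (`0 < im < π` by `int_hole`).
`bd_holes` (with `s₀ = 1`) gives `A`, `s`.
Apply `pai` with `y₁ = π + 1`, index type `Fin m ⊕ A` (`A` as a subtype), holes `om '' O i`, centres `om (k i)`, exponents `1`; balls `ball a s`, centre `a`,
exponent `n a`; `L ω = log (S ω - ω)` on `im ω = π + 1` (there `im (S ω - ω) ≤ -1`: slit plane), `w = 0`.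
`hy`: `im < π < y₁`, resp. `im ≤ π + s < π + 1`.  `hd`: two interior holes: if `om x + z l = om y`, `x ∈ closure (O i)`, `y ∈ closure (O j)` then
`om_act_zpow` gives `act (κ^z) x = y` (`omi_om`), contradiction to `Holes.disj` for `g = κ ^ z` (`g ≠ 1` if `z ≠ 0`: `pow_inj`); interior and ball: `K`;
two balls: `bd_holes`.  (`closure (ball a s) ⊆ closedBall a s`, `frontier (ball a s) = sphere a s`.)
`hz`: `S ω = ω` gives `ω ∈ Str`, `x = omi ω` fixed.  If `‖x‖ < 1`: `Holes.fix`: `x = act (κ^z) y`, `y ∈ O i`, so `ω = om x = om y + z l`.  If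
`‖x‖ = 1`: `ω ∈ B` (`om_im_zero`), a translate is in `A`.
Conclusion: `0 + (m + ∑_{a ∈ A} n a) = 0` with all terms `≥ 0`: `m = 0` and `n a = 0` for `a ∈ A`.  If `SA e.H ξ`, `ξ ≠ p, q` on the circle, then
`om ξ ∈ B`, `om ξ + z l ∈ A`, `omi (om ξ + z l) = act (κ^z) ξ` is `SA` by `sa_act` (`θ (κ^z) = κ^z`), so `n = 1`: contradiction.
-/

namespace TN
open Metric Set Filter Topology DS

variable {Γ : Type} [Group Γ]

private theorem JX_im {ω : ℂ} {z : ℤ} {l : ℝ} : (ω + z * l).im = ω.im := by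
  simp

open Classical in
theorem index1' (F : Fuchs Γ) {e : Elt Γ} (he : Norm F e) {κ : Γ} {p q : ℂ} (hκ : F.AR κ p q)
    (hc : e.θ κ = κ) {m : ℕ} {O : Fin m → Set ℂ} {k : Fin m → ℂ}
    (ho : Holes F e.H (Subgroup.zpowers κ) m O k)
    (hT : ∀ ξ : ℂ, ‖ξ‖ = 1 → ξ ≠ p → ξ ≠ q → e.H ξ = ξ → SA e.H ξ ∨ SA e.Hi ξ) :
    m = 0 ∧ ∀ ξ : ℂ, ‖ξ‖ = 1 → ξ ≠ p → ξ ≠ q → ¬ SA e.H ξ := by
  have hp := hκ.np
  have hq := hκ.nq
  have hpq := hκ.ne
  obtain ⟨l, hl, hact⟩ := om_act hκ
  have hballD : ∀ x ∈ ball (0:ℂ) 1, x ∈ Dpq p q := fun x hx => CP_ball_Dpq hp hq hx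
  have hlb : ∀ x ∈ ball (0:ℂ) 1, om p q (F.act κ x) = om p q x + l := fun x hx =>
    (hact x (hballD x hx)).2
  obtain ⟨-, hzp⟩ := om_act_zpow hκ hlb
  set S : ℂ → ℂ := sm p q e.H with hSdef
  have hS : Continuous S := sm_cont he hκ hc
  have hSp : ∀ ω, S (ω + l) = S ω + l := fun ω => sm_add he hκ hc hlb ω
  obtain ⟨M, hM⟩ := sm_bdd he hκ hc hlb
  have him : ∀ ω, 0 ≤ (S ω).im := fun ω => (sm_mem he hκ hc ω).1
  have him' : ∀ ω, (S ω).im ≤ Real.pi := fun ω => (sm_mem he hκ hc ω).2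
  -- `κ ≠ 1`
  have hκ1 : κ ≠ 1 := by
    intro h
    have h1 := hlb 0 (by simp)
    rw [h, act_one F (by simp)] at h1
    have h2 : ((l : ℝ) : ℂ) = 0 := by simpa using h1
    exact hl.ne' (by exact_mod_cast h2)
  have hinj : ∀ x ∈ Dpq p q, ∀ y ∈ Dpq p q, om p q x = om p q y → x = y := by
    intro x hx y hy h
    rw [← omi_om hp hq hpq hx, ← omi_om hp hq hpq hy, h]
  -- the boundary fixed points
  set B : Set ℂ := {a | (a.im = 0 ∨ a.im = Real.pi) ∧ S a = a} with hBdef
  have hBc : IsClosed B := by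
    have h1 : IsClosed {a : ℂ | a.im = 0 ∨ a.im = Real.pi} :=
      (isClosed_eq Complex.continuous_im continuous_const).union
        (isClosed_eq Complex.continuous_im continuous_const)
    exact h1.inter (isClosed_eq hS continuous_id)
  have hBs : ∀ a ∈ B, 0 ≤ a.im ∧ a.im ≤ Real.pi ∧ S a = a := by
    rintro a ⟨h | h, h2⟩
    · exact ⟨h.ge, by rw [h]; exact Real.pi_pos.le, h2⟩
    · exact ⟨by rw [h]; exact Real.pi_pos.le, h.le, h2⟩
  have hBp : ∀ a, a ∈ B ↔ a + l ∈ B := by
    intro a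
    show _ ∧ _ ↔ _ ∧ _
    rw [hSp]
    simp
  set n : ℂ → ℤ := fun a => if SA e.H (omi p q a) then 1 else 0 with hn
  have hn0 : ∀ a, 0 ≤ n a := by
    intro a
    rw [hn]
    dsimp only
    split_ifs <;> norm_num
  have hloc : ∀ a ∈ B, ∃ δ : ℝ, 0 < δ ∧ (∀ ω : ℂ, 0 < dist ω a → dist ω a < δ → S ω ≠ ω) ∧
      ∀ s : ℝ, 0 < s → s < δ → HasLog (fun ω => (S ω - ω) / (ω - a) ^ (n a)) (sphere a s) := by
    rintro a ⟨ha, ha2⟩
    obtain ⟨hstr, hfix⟩ := (sm_fix he hκ hc).mp ha2
    have h1 := omi_sphere hp hq hpq ha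
    have h2 := omi_mem hp hq hpq hstr
    by_cases hsa : SA e.H (omi p q a)
    · obtain ⟨δ, hδ, h3, h4⟩ := typeA he hκ hc ha hsa
      refine ⟨δ, hδ, h3, ?_⟩
      have : n a = 1 := by rw [hn]; simp [hsa]
      rw [this]
      exact h4
    · have hsr := (hT _ h1 h2.2.1 h2.2.2 hfix).resolve_left hsa
      obtain ⟨δ, hδ, h3, h4⟩ := typeR he hκ hc ha hsr
      refine ⟨δ, hδ, h3, ?_⟩
      have : n a = 0 := by rw [hn]; simp [hsa]
      rw [this]
      exact h4
  choose! δ hδ hδ1 hδ2 using hloc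
  -- the interior holes
  have hint := fun i => int_hole he hκ hc (ho.opn i) (ho.mem i) (ho.sub i) (ho.log i)
  set K : Set ℂ := ⋃ i, {ω : ℂ | ∃ z : ℤ, ω + z * l ∈ om p q '' closure (O i)} with hKdef
  have hKc : IsClosed K := isClosed_iUnion_of_finite fun i => int_closed hl (hint i).2.2.1
  have hKp : ∀ a, a ∈ K ↔ a + l ∈ K := by
    intro a
    rw [hKdef, mem_iUnion, mem_iUnion]
    refine exists_congr fun i => ?_
    constructor
    · rintro ⟨z, hz⟩
      refine ⟨z - 1, ?_⟩
      have : a + l + ((z - 1 : ℤ) : ℂ) * l = a + z * l := by push_cast; ring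
      rw [this]
      exact hz
    · rintro ⟨z, hz⟩
      refine ⟨z + 1, ?_⟩
      have : a + ((z + 1 : ℤ) : ℂ) * l = a + l + z * l := by push_cast; ring
      rw [this]
      exact hz
  have hKB : Disjoint K B := by
    rw [disjoint_left]
    rintro a haK ⟨haB, -⟩
    rw [hKdef, mem_iUnion] at haK
    obtain ⟨i, z, hz⟩ := haK
    obtain ⟨h1, h2⟩ := (hint i).2.2.2.1 _ hz
    rw [JX_im] at h1 h2
    rcases haB with h | h
    · rw [h] at h1; exact lt_irrefl _ h1
    · rw [h] at h2; exact lt_irrefl _ h2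
  obtain ⟨A, s, hs, hs1, hA1, hA2, hA3, hA4⟩ := bd_holes hl hS hSp hBc hBs hBp
    (δ := δ) (fun a ha => ⟨hδ a ha, hδ1 a ha⟩) hKc hKp hKB one_pos
  have hmemK : ∀ i, ∀ ω ∈ om p q '' closure (O i), ω ∈ K := by
    intro i ω hω
    rw [hKdef, mem_iUnion]
    exact ⟨i, 0, by simpa using hω⟩
  have hcl : ∀ a : ℂ, closure (ball a s) ⊆ closedBall a s := fun a => closure_ball_subset_closedBall
  have hkey : (0:ℤ) + ∑ i : Fin m ⊕ A, (Sum.elim (fun _ => (1:ℤ)) (fun a : A => n a) i) = 0 := by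
    refine pai hl hS hSp hM him (y₁ := Real.pi + 1) (ι := Fin m ⊕ A)
      (Sum.elim (fun i => om p q '' O i) (fun a => ball (a : ℂ) s))
      (Sum.elim (fun i => om p q (k i)) (fun a => (a : ℂ)))
      (Sum.elim (fun _ => (1:ℤ)) (fun a : A => n a)) ?_ ?_ ?_ ?_ ?_ ?_ ?_ 0
      (L := fun ω => Complex.log (S ω - ω)) ?_ ?_ ?_
    · rintro (i | a)
      · exact (hint i).1
      · exact isOpen_ball
    · rintro (i | a)
      · exact (hint i).2.2.1.isBounded.subset (image_mono subset_closure)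
      · exact isBounded_ball
    · rintro (i | a)
      · exact ⟨k i, ho.mem i, rfl⟩
      · exact mem_ball_self hs
    · rintro (i | a) ω hω
      · have hω' : ω ∈ closure (om p q '' O i) := hω
        rw [(hint i).2.1] at hω'
        have := ((hint i).2.2.2.1 ω hω').2
        linarith
      · have hω' : ω ∈ closedBall (a : ℂ) s := hcl _ hω
        rw [mem_closedBall, dist_eq_norm] at hω'
        have h1 := Complex.abs_im_le_norm (ω - a)
        rw [Complex.sub_im] at h1
        have h2 := (abs_le.mp (h1.trans hω')).2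
        have h3 := (hBs a (hA1 a a.2).1).2.1
        linarith
    · rintro (i | a) (j | b) z hijz ω hω hωz
      · have hω' : ω ∈ closure (om p q '' O i) := hω
        have hωz' : ω + z * l ∈ closure (om p q '' O j) := hωz
        rw [(hint i).2.1] at hω'
        rw [(hint j).2.1] at hωz'
        obtain ⟨x, hx, rfl⟩ := hω'
        obtain ⟨y, hy, hxy⟩ := hωz'
        have hxD := hballD x (ho.sub i hx)
        have hyD := hballD y (ho.sub j hy)
        obtain ⟨h1, h2⟩ := hzp z x hxD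
        have h3 : F.act (κ ^ z) x = y := hinj _ h1 _ hyD (h2.trans hxy.symm)
        have h4 : κ ^ z ≠ 1 ∨ i ≠ j := by
          rcases hijz with h | h
          · exact Or.inr fun hij => h (by rw [hij])
          · left
            intro h5
            apply h
            apply pow_inj F hκ1
            show κ ^ z = κ ^ (0:ℤ)
            rw [h5, zpow_zero]
        have h5 := ho.disj i j (κ ^ z) ⟨z, rfl⟩ h4
        exact disjoint_left.mp h5 ⟨x, hx, h3⟩ hy
      · have hω' : ω ∈ closure (om p q '' O i) := hω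
        rw [(hint i).2.1] at hω'
        have hωz' : ω + z * l ∈ closedBall (b : ℂ) s := hcl _ hωz
        have h1 := hA4 b b.2 (-z) _ hωz'
        apply h1
        have : ω + z * l + ((-z : ℤ) : ℂ) * l = ω := by push_cast; ring
        rw [this]
        exact hmemK i ω hω'
      · have hωz' : ω + z * l ∈ closure (om p q '' O j) := hωz
        rw [(hint j).2.1] at hωz'
        have hω' : ω ∈ closedBall (a : ℂ) s := hcl _ hω
        exact hA4 a a.2 z ω hω' (hmemK j _ hωz')
      · have hω' : ω ∈ closedBall (a : ℂ) s := hcl _ hω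
        have hωz' : ω + z * l ∈ closedBall (b : ℂ) s := hcl _ hωz
        refine hA3 a a.2 b b.2 z ?_ ω hω' hωz'
        rcases hijz with h | h
        · exact Or.inl fun hab => h (by rw [Subtype.ext hab])
        · exact Or.inr h
    · intro ω _ hω
      obtain ⟨hstr, hfix⟩ := (sm_fix he hκ hc).mp hω
      have hD := omi_mem hp hq hpq hstr
      have hom := om_omi hp hq hpq hstr
      by_cases hlt : ‖omi p q ω‖ < 1
      · obtain ⟨g, ⟨z, rfl⟩, i, y, hy, hyx⟩ := ho.fix (omi p q ω) (mem_ball_zero_iff.mpr hlt) hfix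
        refine ⟨Sum.inl i, -z, ?_⟩
        show ω + ((-z : ℤ) : ℂ) * l ∈ om p q '' O i
        refine ⟨y, hy, ?_⟩
        have hyD := hballD y (ho.sub i (subset_closure hy))
        have h1 := (hzp z y hyD).2
        have h2 : F.act (κ ^ z) y = omi p q ω := hyx
        rw [h2, hom] at h1
        rw [h1]
        push_cast
        ring
      · have h1 : ‖omi p q ω‖ = 1 := le_antisymm hD.1 (not_lt.mp hlt)
        have h2 := om_im_zero hp hq hpq h1 hD.2.1 hD.2.2
        rw [hom] at h2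
        have hωB : ω ∈ B := by
          refine ⟨?_, hω⟩
          rcases h2 with h | h
          · exact Or.inl h.1
          · exact Or.inr h.1
        obtain ⟨z, hz⟩ := hA2 ω hωB
        exact ⟨Sum.inr ⟨_, hz⟩, z, mem_ball_self hs⟩
    · rintro (i | a)
      · exact (hint i).2.2.2.2
      · show HasLog (fun ω => (S ω - ω) / (ω - (a : ℂ)) ^ (n a)) (frontier (ball (a : ℂ) s))
        rw [frontier_ball _ hs.ne']
        exact hδ2 a (hA1 a a.2).1 s hs (hA1 a a.2).2
    · refine ContinuousOn.clog (hS.sub continuous_id).continuousOn ?_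
      intro ω hω
      have h1 : ω.im = Real.pi + 1 := hω
      right
      rw [Complex.sub_im]
      have := him' ω
      rw [h1]
      linarith
    · intro ω hω
      rw [Complex.exp_log]
      intro h
      have h2 := congrArg Complex.im h
      rw [Complex.sub_im, hω, Complex.zero_im] at h2
      have := him' ω
      linarith
    · intro ω _
      rw [hSp]
      have : S ω + l - (ω + l) = S ω - ω := by ring
      rw [this]
      simp
  rw [Fintype.sum_sum_type] at hkey
  simp only [Sum.elim_inl, Sum.elim_inr] at hkey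
  have h1 : (0:ℤ) ≤ ∑ a : A, n a := Finset.sum_nonneg fun a _ => hn0 a
  rw [Finset.sum_const, Finset.card_univ, Fintype.card_fin] at hkey
  simp only [nsmul_eq_mul, mul_one, zero_add] at hkey
  refine ⟨by omega, ?_⟩
  intro ξ hξ hξp hξq hsa
  have h2 : ∑ a : A, n a = 0 := by omega
  have hξD : ξ ∈ Dpq p q := ⟨hξ.le, hξp, hξq⟩
  have hB : om p q ξ ∈ B := by
    refine ⟨?_, ?_⟩
    · rcases om_im_zero hp hq hpq hξ hξp hξq with h | h
      · exact Or.inl h.1
      · exact Or.inr h.1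
    · rw [hSdef, sm_om he hκ hc hξD, hsa.1]
  obtain ⟨z, hz⟩ := hA2 _ hB
  obtain ⟨h3, h4⟩ := hzp z ξ hξD
  have h5 : omi p q (om p q ξ + z * l) = F.act (κ ^ z) ξ := by
    rw [← h4, omi_om hp hq hpq h3]
  have h6 : e.θ (κ ^ z) = κ ^ z := by rw [map_zpow, hc]
  have h7 := sa_act he h6 hξ hsa
  have h8 := (Finset.sum_eq_zero_iff_of_nonneg (s := Finset.univ) (f := fun a : A => n a)
    (fun a _ => hn0 a)).mp h2 ⟨_, hz⟩ (Finset.mem_univ _)
  have h9 : n (om p q ξ + z * l) = 1 := by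
    rw [hn]
    dsimp only
    rw [h5, if_pos h7]
  have h10 : n (om p q ξ + z * l) = 0 := h8
  omega

end TN
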