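import Pool.Agent.H12.TN.FE

/-!
FF (limit sets of nonelementary groups).  Let `g₁, g₂` be as in `Nonel`, `AR g_i p_i q_i`; the four points are distinct.
`near`: let `ξ ∈ lim`, so there is a sequence `a n` of group elements with `act (a n) 0 → ξ`; since `‖ξ‖ = 1` and
`‖act (a n) 0‖ < 1`, each value is taken finitely often.  `conv` gives a subsequence with `act (a (φ n)) x → ξ` uniformly off a
neighbourhood of a point `d`.  One of the two elements, call it `h` with `AR h p q`, has `p ≠ d` and `q ≠ d`.  Then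
`act (a (φ n)) p → ξ`, `act (a (φ n)) q → ξ` (`conv_seq` with constant sequences), and `AR (a h a⁻¹) (act a p) (act a q)` (`AR.conj`).
`perfect`: one of the two points `p'`, `q'` of `near` is different from `ξ`.
`lim_infinite`: nonempty (`AR.lim`), and perfect.
`id_on_lim`: `e.H` fixes the attracting fixed point of every `z` with `e.θ z = z` (`AR.norm`, `AR.unique`); the fixed
point set of `e.H` in the closed ball is closed; density by `near` applied to `F.sub Z`.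
`dense_orbit`: with `near`.
-/

namespace TN
open Metric Set Filter Topology DS

variable {Γ : Type} [Group Γ]

theorem near (F : Fuchs Γ) (hN : F.Nonel) {ξ : ℂ} (hξ : ξ ∈ F.lim) {ε : ℝ} (hε : 0 < ε) :
    ∃ g p q, F.AR g p q ∧ dist p ξ < ε ∧ dist q ξ < ε := by
  obtain ⟨g₁, g₂, hg₁, hg₂, hno⟩ := hN
  obtain ⟨p₁, q₁, h₁⟩ := exists_AR F hg₁
  obtain ⟨p₂, q₂, h₂⟩ := exists_AR F hg₂
  -- a sequence of orbit points
  obtain ⟨x, hx, hlim⟩ := mem_closure_iff_seq_limit.1 hξ.2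
  choose a ha using hx
  have hfin : ∀ g, {n | a n = g}.Finite := by
    intro g
    have hev : ∀ᶠ n in atTop, ¬ (a n = g) := by
      have h1 : ‖F.act g 0‖ < ‖ξ‖ := by
        rw [hξ.1]
        exact act_lt F g (by simp)
      filter_upwards [hlim.norm.eventually (lt_mem_nhds h1)] with n hn he
      rw [← ha n, he] at hn
      exact lt_irrefl _ hn
    rw [← Nat.cofinite_eq_atTop] at hev
    simpa [Filter.eventually_cofinite] using hev
  obtain ⟨φ, hφ, c, hc, d, hd, hc0, -, hcv, -⟩ := conv F hfin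
  have hcξ : c = ξ := by
    refine tendsto_nhds_unique hc0 ?_
    have h1 := hlim.comp hφ.tendsto_atTop
    refine h1.congr fun n => ?_
    exact (ha (φ n)).symm
  subst hcξ
  obtain ⟨h, p, q, hAR, hpd, hqd⟩ : ∃ h p q, F.AR h p q ∧ p ≠ d ∧ q ≠ d := by
    by_cases hd₁ : p₁ ≠ d ∧ q₁ ≠ d
    · exact ⟨g₁, p₁, q₁, h₁, hd₁.1, hd₁.2⟩
    · refine ⟨g₂, p₂, q₂, h₂, ?_⟩
      have hd1 := lim_sphere F hd
      have hf1 : F.act g₁ d = d := by
        by_cases hp : p₁ = d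
        · rw [← hp]; exact h₁.fp
        · have hq : q₁ = d := by
            by_contra hq
            exact hd₁ ⟨hp, hq⟩
          rw [← hq]; exact h₁.fq
      have hf2 := hno d hd1 hf1
      exact ⟨fun hp => hf2 (by rw [← hp]; exact h₂.fp), fun hq => hf2 (by rw [← hq]; exact h₂.fq)⟩
  have hTp := conv_seq F (g := fun n => a (φ n)) hcv (y := fun _ => p)
    (fun _ => mem_closedBall_zero_iff.2 hAR.np.le) tendsto_const_nhds hpd
  have hTq := conv_seq F (g := fun n => a (φ n)) hcv (y := fun _ => q)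
    (fun _ => mem_closedBall_zero_iff.2 hAR.nq.le) tendsto_const_nhds hqd
  obtain ⟨n, hn1, hn2⟩ := ((hTp.eventually (ball_mem_nhds _ hε)).and
    (hTq.eventually (ball_mem_nhds _ hε))).exists
  exact ⟨_, _, _, AR.conj hAR (a (φ n)), hn1, hn2⟩

theorem perfect (F : Fuchs Γ) (hN : F.Nonel) {ξ : ℂ} (hξ : ξ ∈ F.lim) {ε : ℝ} (hε : 0 < ε) :
    ∃ η ∈ F.lim, η ≠ ξ ∧ dist η ξ < ε := by
  obtain ⟨g, p, q, h, hp, hq⟩ := near F hN hξ hε
  by_cases hpξ : p = ξ
  · exact ⟨q, (AR.lim h).2, fun hqξ => h.ne (hpξ.trans hqξ.symm), hq⟩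
  · exact ⟨p, (AR.lim h).1, hpξ, hp⟩

theorem lim_infinite (F : Fuchs Γ) (hN : F.Nonel) : F.lim.Infinite := by
  intro hfin
  obtain ⟨p, hp⟩ : F.lim.Nonempty := by
    obtain ⟨g, -, hg, -, -⟩ := hN
    obtain ⟨p, q, h⟩ := exists_AR F hg
    exact ⟨p, (AR.lim h).1⟩
  have h1 : (F.lim \ {p}).Finite := hfin.sdiff
  have h2 : (F.lim \ {p})ᶜ ∈ 𝓝 p := h1.isClosed.isOpen_compl.mem_nhds (fun h => h.2 rfl)
  obtain ⟨ε, hε, hball⟩ := Metric.mem_nhds_iff.1 h2
  obtain ⟨η, hη, hne, hd⟩ := perfect F hN hp hε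
  exact hball (mem_ball.2 hd) ⟨hη, hne⟩

theorem id_on_lim (F : Fuchs Γ) {e : Elt Γ} (he : Norm F e) (hN : (F.sub e.cen).Nonel) :
    ∀ ξ ∈ (F.sub e.cen).lim, e.H ξ = ξ := by
  intro ξ hξ
  have key : ∀ n : ℕ, ∃ p : ℂ, ‖p‖ = 1 ∧ e.H p = p ∧ dist p ξ < 1 / ((n : ℝ) + 1) := by
    intro n
    obtain ⟨z, p, q, h, hp, -⟩ := near (F.sub e.cen) hN hξ (ε := 1 / ((n : ℝ) + 1)) (by positivity)
    have h1 := (AR_sub F e.cen z p q).1 h
    have h2 := AR.norm h1 he
    have hz : e.θ (z : Γ) = z := z.2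
    rw [hz] at h2
    exact ⟨p, h1.np, (AR.unique h1 h2).1.symm, hp⟩
  choose p hp1 hpH hpd using key
  have hT : Tendsto p atTop (𝓝 ξ) := by
    rw [tendsto_iff_dist_tendsto_zero]
    exact squeeze_zero (fun n => dist_nonneg) (fun n => (hpd n).le)
      tendsto_one_div_add_atTop_nhds_zero_nat
  have hξ1 : ξ ∈ closedBall (0 : ℂ) 1 := by
    rw [mem_closedBall_zero_iff]
    exact (lim_sphere _ hξ).le
  have hT2 : Tendsto (fun n => e.H (p n)) atTop (𝓝 (e.H ξ)) := by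
    refine (he.cont ξ hξ1).tendsto.comp ?_
    rw [tendsto_nhdsWithin_iff]
    exact ⟨hT, Eventually.of_forall fun n => mem_closedBall_zero_iff.2 (hp1 n).le⟩
  exact tendsto_nhds_unique hT2 (hT.congr fun n => (hpH n).symm)

/-- superattracting fixed points are isolated -/
theorem SA.isolated {H : ℂ → ℂ} {ξ : ℂ} (h : SA H ξ) :
    ∃ δ > 0, ∀ x ∈ closedBall (0:ℂ) 1, dist x ξ < δ → H x = x → x = ξ := by
  obtain ⟨δ, hδ, h1⟩ := h.2 (1 / 2) (by norm_num)
  refine ⟨δ, hδ, fun x hx hd hf => ?_⟩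
  have h2 := h1 x hx hd
  rw [hf] at h2
  have h3 : dist x ξ ≤ 0 := by linarith
  exact dist_le_zero.1 h3

/-- a common fixed point of `H` and its inverse: the types of `e.H` and `e.Hi` -/
theorem SA.isolated_inv (F : Fuchs Γ) {e : Elt Γ} (he : Norm F e) {ξ : ℂ} (h : SA e.Hi ξ) :
    ∃ δ > 0, ∀ x ∈ closedBall (0:ℂ) 1, dist x ξ < δ → e.H x = x → x = ξ := by
  obtain ⟨δ, hδ, h1⟩ := h.isolated
  refine ⟨δ, hδ, fun x hx hd hf => h1 x hx hd ?_⟩
  have h2 := he.left x hx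
  rwa [hf] at h2

/-- a point of the circle is not both superattracting for `e.H` and for the inverse -/
theorem SA.not_both (F : Fuchs Γ) {e : Elt Γ} (he : Norm F e) {ξ : ℂ} (hξ : ‖ξ‖ = 1)
    (h : SA e.H ξ) : ¬ SA e.Hi ξ := by
  intro h'
  obtain ⟨δ, hδ, h1⟩ := h.2 (1 / 2) (by norm_num)
  obtain ⟨δ', hδ', h2⟩ := h'.2 (1 / 2) (by norm_num)
  obtain ⟨t, ht0, ht1, ht2, ht3⟩ : ∃ t : ℝ, 0 < t ∧ t < 1 ∧ t < δ ∧ t < δ' := by
    refine ⟨min (1 / 2) (min (δ / 2) (δ' / 2)), by positivity, ?_, ?_, ?_⟩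
    · exact lt_of_le_of_lt (min_le_left _ _) (by norm_num)
    · exact lt_of_le_of_lt ((min_le_right _ _).trans (min_le_left _ _)) (by linarith)
    · exact lt_of_le_of_lt ((min_le_right _ _).trans (min_le_right _ _)) (by linarith)
  set x : ℂ := ((1 - t : ℝ) : ℂ) * ξ with hx
  have hxn : ‖x‖ = 1 - t := by
    rw [hx, norm_mul, hξ, mul_one, Complex.norm_real, Real.norm_of_nonneg (by linarith)]
  have hxd : dist x ξ = t := by
    have e1 : x - ξ = -((t : ℂ) * ξ) := by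
      rw [hx]
      push_cast
      ring
    rw [dist_eq_norm, e1, norm_neg, norm_mul, hξ, mul_one, Complex.norm_real,
      Real.norm_of_nonneg ht0.le]
  have hxb : x ∈ ball (0 : ℂ) 1 := by rw [mem_ball_zero_iff, hxn]; linarith
  have hxc : x ∈ closedBall (0 : ℂ) 1 := ball_subset_closedBall hxb
  have h3 := h1 x hxc (by rw [hxd]; exact ht2)
  rw [hxd] at h3
  have h4 := h2 (e.H x) (ball_subset_closedBall (he.mapB hxb)) (by linarith)
  rw [he.left x hxc, hxd] at h4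
  linarith

end TN
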