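import Pool.Agent.H12.TN.FN
import Pool.Agent.H36.DS.IC

/-!
JL (local indices at boundary fixed points, in the coordinate of the disc).  `f z = e.H (rr z) - z`, `rr` = radial retraction (MB).
`rrA`: `SA` with `ε = 1/2`: for `dist z ξ < δ`, `rr z` is in the closed disc and `dist (rr z) ξ ≤ dist z ξ` (`rr_lip`, `rr ξ = ξ`), so
`‖e.H (rr z) - ξ‖ ≤ ‖z - ξ‖/2` and `f z/(z - ξ) = -1 + (e.H (rr z) - ξ)/(z - ξ)` has negative real part: log by `IC_log_slit`, `IC_log_neg`.
`rrR`: `SA e.Hi ξ` with `ε = 1/10`: for `x` in the closed disc near `ξ`, `e.H x` is near `ξ` and `e.Hi (e.H x) = x`, so `dist (e.H x) ξ ≥ 10 dist x ξ`.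
Claim: for `z` on the sphere of radius `s` about `ξ` (`s` small, `s < 1/10`), `f z ≠ 0` and `f z` is not `t ξ` with `t > 0`.  Let `f z = t ξ`,
`t ≥ 0`.  If `‖z‖ ≤ 1`: `rr z = z`, `‖e.H z - ξ‖ ≥ 10 s`, so `t = ‖e.H z - z‖ ≥ 9 s`; `e.H z = z + t ξ` has real part of `e.H z * conj ξ` equal to
`re (z conj ξ) + t ≥ 1 - s + 9 s > 1`, contradiction to `‖e.H z‖ ≤ 1`.  If `‖z‖ > 1`: `e.H (rr z) = z + t ξ`,
`‖z + t ξ‖² = ‖z‖² + 2 t re (z conj ξ) + t² ≥ ‖z‖² > 1`, contradiction.  So `- f z / ξ` is in the slit plane.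
(`n = 0`: `(z - ξ)^0 = 1`.)
-/

namespace TN
open Metric Set Filter Topology DS

variable {Γ : Type} [Group Γ] {F : Fuchs Γ} {e : Elt Γ}

theorem JL_rr_dist {ξ : ℂ} (hξ : ‖ξ‖ = 1) (z : ℂ) : dist (rr z) ξ ≤ dist z ξ := by
  have h := rr_lip z ξ
  rwa [rr_id hξ.le] at h

theorem JL_cont (he : Norm F e) : Continuous fun z => e.H (rr z) :=
  continuousOn_univ.1 (he.cont.comp rr_cont.continuousOn fun z _ => rr_mem z)

theorem rrA (he : Norm F e) {ξ : ℂ} (hξ : ‖ξ‖ = 1) (hs : SA e.H ξ) :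
    ∃ δ > 0, ∀ s : ℝ, 0 < s → s < δ →
      HasLog (fun z => (e.H (rr z) - z) / (z - ξ) ^ (1:ℤ)) (sphere ξ s) := by
  obtain ⟨δ, hδ, hb⟩ := hs.2 (1 / 2) (by norm_num)
  refine ⟨δ, hδ, ?_⟩
  intro s hs0 hs1
  have hne : ∀ z ∈ sphere ξ s, z - ξ ≠ 0 := by
    intro z hz h
    rw [mem_sphere, dist_eq_norm, h, norm_zero] at hz
    exact hs0.ne hz
  apply IC_log_neg
  apply IC_log_slit
  · apply ContinuousOn.neg
    apply ContinuousOn.div
    · exact ((JL_cont he).sub continuous_id).continuousOn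
    · simp only [zpow_one]
      exact (continuous_id.sub continuous_const).continuousOn
    · intro z hz
      rw [zpow_one]
      exact hne z hz
  · intro z hz
    have hz' : ‖z - ξ‖ = s := by rw [← dist_eq_norm]; exact hz
    have h1 : dist (rr z) ξ < δ := lt_of_le_of_lt (JL_rr_dist hξ z) (by rw [mem_sphere.1 hz]; exact hs1)
    have h2 : dist (e.H (rr z)) ξ ≤ 1 / 2 * s := by
      have h3 := hb (rr z) (rr_mem z) h1
      have h4 := JL_rr_dist hξ z
      rw [mem_sphere.1 hz] at h4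
      linarith
    rw [zpow_one]
    have h5 : -((e.H (rr z) - z) / (z - ξ)) = 1 - (e.H (rr z) - ξ) / (z - ξ) := by
      have := hne z hz
      field_simp
      ring
    rw [h5]
    have h6 : ‖(e.H (rr z) - ξ) / (z - ξ)‖ ≤ 1 / 2 := by
      rw [norm_div, hz', div_le_iff₀ hs0, ← dist_eq_norm]
      exact h2
    left
    have h7 := (Complex.abs_re_le_norm ((e.H (rr z) - ξ) / (z - ξ))).trans h6
    have h8 := (abs_le.1 h7).2
    rw [Complex.sub_re, Complex.one_re]
    linarith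

theorem JL_log_const {c : ℂ} (hc : c ≠ 0) (S : Set ℂ) : HasLog (fun _ => c) S :=
  ⟨fun _ => Complex.log c, continuousOn_const, fun _ _ => by rw [Complex.exp_log hc]⟩

/-- real part of `z * conj ξ` -/
theorem JL_re {ξ z : ℂ} (hξ : ‖ξ‖ = 1) {s : ℝ} (hz : ‖z - ξ‖ = s) :
    1 - s ≤ z.re * ξ.re + z.im * ξ.im := by
  have h1 : ξ.re ^ 2 + ξ.im ^ 2 = 1 := by
    have := Complex.sq_norm ξ
    rw [hξ, Complex.normSq_apply] at this
    nlinarith
  have h2 : |((z - ξ) * (starRingEnd ℂ) ξ).re| ≤ s := by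
    have := Complex.abs_re_le_norm ((z - ξ) * (starRingEnd ℂ) ξ)
    rw [norm_mul, hz, RCLike.norm_conj, hξ, mul_one] at this
    exact this
  have h3 : ((z - ξ) * (starRingEnd ℂ) ξ).re = z.re * ξ.re + z.im * ξ.im - (ξ.re ^ 2 + ξ.im ^ 2) := by
    simp [Complex.mul_re]
    ring
  rw [h3, h1] at h2
  have := (abs_le.1 h2).1
  linarith

theorem rrR (he : Norm F e) {ξ : ℂ} (hξ : ‖ξ‖ = 1) (hs : SA e.Hi ξ) :
    ∃ δ > 0, ∀ s : ℝ, 0 < s → s < δ →
      HasLog (fun z => (e.H (rr z) - z) / (z - ξ) ^ (0:ℤ)) (sphere ξ s) := by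
  have hξ0 : ξ ≠ 0 := by
    intro h
    rw [h, norm_zero] at hξ
    exact zero_ne_one hξ
  have hξc : ξ ∈ closedBall (0:ℂ) 1 := by simp [hξ]
  have hHξ : e.H ξ = ξ := by
    have := he.right ξ hξc
    rwa [hs.1] at this
  obtain ⟨δ₀, hδ₀, hb⟩ := hs.2 (1 / 10) (by norm_num)
  obtain ⟨δ₁, hδ₁, hc⟩ := Metric.continuousWithinAt_iff.1 (he.cont ξ hξc) δ₀ hδ₀
  rw [hHξ] at hc
  have hexp : ∀ x ∈ closedBall (0:ℂ) 1, dist x ξ < δ₁ → 10 * dist x ξ ≤ dist (e.H x) ξ := by
    intro x hx hd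
    have h1 := hb (e.H x) (he.mapC hx) (hc hx hd)
    rw [he.left x hx] at h1
    linarith
  refine ⟨min δ₁ (1 / 10), lt_min hδ₁ (by norm_num), ?_⟩
  intro s hs0 hs1
  have hsδ : s < δ₁ := lt_of_lt_of_le hs1 (min_le_left _ _)
  have hs10 : s < 1 / 10 := lt_of_lt_of_le hs1 (min_le_right _ _)
  have key : ∀ z ∈ sphere ξ s, -(e.H (rr z) - z) / ξ ∈ Complex.slitPlane := by
    intro z hz
    have hz' : ‖z - ξ‖ = s := by rw [← dist_eq_norm]; exact hz
    have hre := JL_re hξ hz'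
    by_contra hw
    rw [Complex.mem_slitPlane_iff_not_le_zero, not_not] at hw
    set w := -(e.H (rr z) - z) / ξ with hwdef
    obtain ⟨hw1, hw2⟩ := Complex.le_def.1 hw
    simp only [Complex.zero_re, Complex.zero_im] at hw1 hw2
    have hwr : w = ((w.re : ℝ) : ℂ) := by
      apply Complex.ext
      · simp
      · simpa using hw2
    set t : ℝ := -w.re with ht
    have ht0 : 0 ≤ t := by rw [ht]; linarith
    have heq : e.H (rr z) = z + (t : ℂ) * ξ := by
      have h1 : w * ξ = -(e.H (rr z) - z) := by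
        rw [hwdef]; field_simp
      rw [hwr] at h1
      have h2 : (t : ℂ) = -((w.re : ℝ) : ℂ) := by rw [ht]; push_cast; ring
      rw [h2]
      linear_combination h1
    have hle : ‖e.H (rr z)‖ ≤ 1 := by
      have := he.mapC (rr_mem z)
      simpa using this
    have hnsq : ‖e.H (rr z)‖ ^ 2 = ‖z‖ ^ 2 + 2 * t * (z.re * ξ.re + z.im * ξ.im) + t ^ 2 := by
      have h1 : ξ.re ^ 2 + ξ.im ^ 2 = 1 := by
        have := Complex.sq_norm ξ
        rw [hξ, Complex.normSq_apply] at this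
        nlinarith
      rw [heq, Complex.sq_norm, Complex.sq_norm, Complex.normSq_apply, Complex.normSq_apply]
      simp only [Complex.add_re, Complex.add_im, Complex.mul_re, Complex.mul_im, Complex.ofReal_re,
        Complex.ofReal_im, zero_mul, sub_zero, add_zero]
      linear_combination t ^ 2 * h1
    have hnsq1 : ‖e.H (rr z)‖ ^ 2 ≤ 1 := by
      have := pow_le_pow_left₀ (norm_nonneg _) hle 2
      simpa using this
    have hre0 : 0 < z.re * ξ.re + z.im * ξ.im := by linarith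
    rcases le_or_gt ‖z‖ 1 with hz1 | hz1
    · rw [rr_id hz1] at heq hnsq hnsq1
      have h1 := hexp z (by simpa using hz1) (by rw [mem_sphere.1 hz]; exact hsδ)
      rw [mem_sphere.1 hz, dist_eq_norm] at h1
      have h2 : ‖e.H z - ξ‖ ≤ ‖e.H z - z‖ + ‖z - ξ‖ := by
        have : e.H z - ξ = (e.H z - z) + (z - ξ) := by ring
        rw [this]
        exact norm_add_le _ _
      have h3 : ‖e.H z - z‖ = t := by
        have : e.H z - z = (t : ℂ) * ξ := by rw [heq]; ring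
        rw [this, norm_mul, hξ, mul_one, Complex.norm_real, Real.norm_eq_abs, abs_of_nonneg ht0]
      rw [h3, hz'] at h2
      have h4 : 9 * s ≤ t := by linarith
      -- lower bound of the norm of z
      have h5 : (z.re * ξ.re + z.im * ξ.im) ^ 2 ≤ ‖z‖ ^ 2 := by
        have h1' : ξ.re ^ 2 + ξ.im ^ 2 = 1 := by
          have := Complex.sq_norm ξ
          rw [hξ, Complex.normSq_apply] at this
          nlinarith
        rw [Complex.sq_norm, Complex.normSq_apply]
        nlinarith [sq_nonneg (z.re * ξ.im - z.im * ξ.re)]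
      have h6 : (z.re * ξ.re + z.im * ξ.im + t) ^ 2 ≤ 1 := by nlinarith
      have h7 : 1 < z.re * ξ.re + z.im * ξ.im + t := by linarith
      nlinarith
    · have h1 : 1 < ‖z‖ ^ 2 := by nlinarith
      have h2 : 0 ≤ 2 * t * (z.re * ξ.re + z.im * ξ.im) := by positivity
      nlinarith [sq_nonneg t]
  have h1 : HasLog (fun z => -(e.H (rr z) - z) / ξ) (sphere ξ s) := by
    apply IC_log_slit _ key
    apply ContinuousOn.div_const
    exact (((JL_cont he).sub continuous_id).neg).continuousOn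
  have h2 := IC_log_mul h1 (JL_log_const (neg_ne_zero.2 hξ0) (sphere ξ s))
  apply IC_log_congr h2
  intro z _
  rw [zpow_zero, div_one]
  field_simp

end TN
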