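import Pool.Agent.H12.TN.JA
import Pool.Agent.H12.TN.JL
import Pool.Agent.H12.TN.FF

/-!
JZ (index of the closed disc).  `Φ = {ξ | ‖ξ‖ = 1 ∧ e.H ξ = ξ}` is compact and every point is isolated in it (`SA.isolated`, `SA.isolated_inv`, `hT`), so
it is finite; `n ξ = if SA e.H ξ then 1 else 0`.  (A point with `SA e.H ξ` is fixed, by definition of `SA`.)  For every `ξ ∈ Φ` a radius
bound: `rrA`/`rrR`, and the isolation radius (no other fixed point of `e.H` in the closed disc).  Choose `s > 0` smaller than all of them, than half of the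
distances between the points of `Φ` and than the distances of the points of `Φ` to the compact sets `closure (O i)` (subsets of the open disc,
`Holes.sub`).  Apply `add_index'` with index type `Fin m ⊕ Φ` (finite type), holes `O i` (centre `k i`, exponent `1`), balls `ball ξ s` (centre `ξ`,
exponent `n ξ`), `f z = e.H (rr z) - z`, `N = 1`, `c = -1`:
the closures of the `O i` are pairwise disjoint (`Holes.disj` with `g = 1`, `act_one`), bounded; `closure (ball ξ s) ⊆ closedBall ξ s`;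
`f` is continuous (`rr_cont`, `rr_mem`, `Norm.cont`); a zero `z` of `f` has `z = e.H (rr z)` in the closed disc (`Norm.mapC`), so `rr z = z`, `e.H z = z`: if
`‖z‖ < 1` it is in some `O i` (`Holes.fix`, `g ∈ ⊥` means `g = 1`), if `‖z‖ = 1` it is in `Φ`, in a ball; logs on the frontiers: on `frontier (O i)` (in the
open disc) `rr z = z`, `Holes.log`, and `(z - k)^(1:ℤ) = z - k`; on `frontier (ball ξ s) = sphere ξ s` by `rrA`/`rrR`; at infinity `‖f z + z‖ ≤ 1`.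
So `1 = m + #{ξ ∈ Φ | SA e.H ξ}`.
-/

namespace TN
open Metric Set Filter Topology DS

variable {Γ : Type} [Group Γ]

open Classical in
theorem JZ_radius (F : Fuchs Γ) {e : Elt Γ} (he : Norm F e) {m : ℕ} {O : Fin m → Set ℂ}
    (hsub : ∀ i, closure (O i) ⊆ ball (0:ℂ) 1) {ξ : ℂ} (hξ : ‖ξ‖ = 1)
    (hT : SA e.H ξ ∨ SA e.Hi ξ) :
    ∃ δ > 0, (∀ s : ℝ, 0 < s → s < δ → HasLog (fun z => (e.H (rr z) - z) /
        (z - ξ) ^ (if SA e.H ξ then (1:ℤ) else 0)) (sphere ξ s)) ∧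
      (∀ x ∈ closedBall (0:ℂ) 1, dist x ξ < δ → e.H x = x → x = ξ) ∧
      ∀ i, Disjoint (ball ξ δ) (closure (O i)) := by
  obtain ⟨δ₁, hδ₁, h1⟩ : ∃ δ > 0, ∀ s : ℝ, 0 < s → s < δ → HasLog (fun z => (e.H (rr z) - z) /
        (z - ξ) ^ (if SA e.H ξ then (1:ℤ) else 0)) (sphere ξ s) := by
    by_cases h : SA e.H ξ
    · obtain ⟨δ, hδ, h1⟩ := rrA he hξ h
      refine ⟨δ, hδ, fun s hs hs2 => ?_⟩
      rw [if_pos h]
      exact h1 s hs hs2
    · obtain ⟨δ, hδ, h1⟩ := rrR he hξ (hT.resolve_left h)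
      refine ⟨δ, hδ, fun s hs hs2 => ?_⟩
      rw [if_neg h]
      exact h1 s hs hs2
  obtain ⟨δ₂, hδ₂, h2⟩ : ∃ δ > 0, ∀ x ∈ closedBall (0:ℂ) 1, dist x ξ < δ → e.H x = x → x = ξ := by
    rcases hT with h | h
    · exact h.isolated
    · exact SA.isolated_inv F he h
  obtain ⟨δ₃, hδ₃, h3⟩ : ∃ δ > 0, ball ξ δ ⊆ (⋃ i, closure (O i))ᶜ := by
    have hcl : IsClosed (⋃ i, closure (O i)) := isClosed_iUnion_of_finite fun i => isClosed_closure
    refine Metric.mem_nhds_iff.1 (hcl.isOpen_compl.mem_nhds fun hmem => ?_)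
    obtain ⟨i, hi⟩ := mem_iUnion.1 hmem
    have := mem_ball_zero_iff.1 (hsub i hi)
    linarith
  refine ⟨min δ₁ (min δ₂ δ₃), lt_min hδ₁ (lt_min hδ₂ hδ₃), ?_, ?_, ?_⟩
  · intro s hs hs2
    exact h1 s hs (hs2.trans_le (min_le_left _ _))
  · intro x hx hd
    exact h2 x hx (hd.trans_le ((min_le_right _ _).trans (min_le_left _ _)))
  · intro i
    rw [Set.disjoint_left]
    intro x hx hx2
    have hx3 : x ∈ ball ξ δ₃ := ball_subset_ball ((min_le_right _ _).trans (min_le_right _ _)) hx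
    exact h3 hx3 (mem_iUnion.2 ⟨i, hx2⟩)

theorem index0' (F : Fuchs Γ) {e : Elt Γ} (he : Norm F e) {m : ℕ} {O : Fin m → Set ℂ} {k : Fin m → ℂ}
    (ho : Holes F e.H ⊥ m O k)
    (hT : ∀ ξ : ℂ, ‖ξ‖ = 1 → e.H ξ = ξ → SA e.H ξ ∨ SA e.Hi ξ) :
    ∃ A : Finset ℂ, (∀ ξ, ξ ∈ A ↔ ‖ξ‖ = 1 ∧ SA e.H ξ) ∧ m + A.card = 1 := by
  classical
  set Φ : Set ℂ := {ξ | ‖ξ‖ = 1 ∧ e.H ξ = ξ} with hΦ
  have hrad : ∀ ξ : ℂ, ∃ δ : ℝ, ξ ∈ Φ → 0 < δ ∧
      (∀ s : ℝ, 0 < s → s < δ → HasLog (fun z => (e.H (rr z) - z) /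
        (z - ξ) ^ (if SA e.H ξ then (1:ℤ) else 0)) (sphere ξ s)) ∧
      (∀ x ∈ closedBall (0:ℂ) 1, dist x ξ < δ → e.H x = x → x = ξ) ∧
      ∀ i, Disjoint (ball ξ δ) (closure (O i)) := by
    intro ξ
    by_cases h : ξ ∈ Φ
    · obtain ⟨δ, h1, h2⟩ := JZ_radius F he ho.sub h.1 (hT ξ h.1 h.2)
      exact ⟨δ, fun _ => ⟨h1, h2⟩⟩
    · exact ⟨1, fun h' => absurd h' h⟩
  choose δ hδ using hrad
  -- `Φ` is finite
  have hΦc : IsCompact Φ := by
    have hcl : IsClosed (closedBall (0:ℂ) 1 ∩ {x | e.H x - x = 0}) := by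
      have := (he.cont.sub continuousOn_id).preimage_isClosed_of_isClosed isClosed_closedBall
        (isClosed_singleton (x := (0:ℂ)))
      exact this
    have heq : Φ = sphere (0:ℂ) 1 ∩ (closedBall (0:ℂ) 1 ∩ {x | e.H x - x = 0}) := by
      ext x
      simp only [hΦ, mem_ofPred_eq, mem_inter_iff, mem_sphere_zero_iff_norm,
        mem_closedBall_zero_iff, sub_eq_zero]
      constructor
      · rintro ⟨h1, h2⟩
        exact ⟨h1, h1.le, h2⟩
      · rintro ⟨h1, _, h2⟩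
        exact ⟨h1, h2⟩
    rw [heq]
    exact (isCompact_sphere _ _).inter_right hcl
  have hΦb : ∀ ξ ∈ Φ, ξ ∈ closedBall (0:ℂ) 1 := fun ξ h => mem_closedBall_zero_iff.2 h.1.le
  have hfin : Φ.Finite := by
    obtain ⟨t, ht1, ht⟩ := hΦc.elim_nhds_subcover (fun ξ => ball ξ (δ ξ))
      (fun ξ h => ball_mem_nhds ξ (hδ ξ h).1)
    refine (t.finite_toSet).subset fun x hx => ?_
    obtain ⟨ξ, hξ, hxξ⟩ := mem_iUnion₂.1 (ht hx)
    rw [(hδ ξ (ht1 ξ hξ)).2.2.1 x (hΦb x hx) hxξ hx.2]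
    exact hξ
  -- a common radius
  obtain ⟨s, hs3, hs⟩ : ∃ s : ℝ, (∀ ξ ∈ Φ, 3 * s < δ ξ) ∧ 0 < s := by
    have h1 : ∀ᶠ s in 𝓝[>] (0:ℝ), ∀ ξ ∈ Φ, 3 * s < δ ξ := by
      refine (eventually_all_finite hfin).2 fun ξ hξ => ?_
      have h2 : Tendsto (fun s : ℝ => 3 * s) (𝓝[>] (0:ℝ)) (𝓝 (3 * 0)) :=
        ((continuous_const.mul continuous_id).tendsto 0).mono_left nhdsWithin_le_nhds
      rw [mul_zero] at h2
      exact h2.eventually (gt_mem_nhds (hδ ξ hξ).1)
    exact (h1.and self_mem_nhdsWithin).exists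
  -- the holes
  let P : Finset ℂ := hfin.toFinset
  have hP : ∀ ξ, ξ ∈ P ↔ ξ ∈ Φ := fun ξ => hfin.mem_toFinset
  let O' : Fin m ⊕ P → Set ℂ := Sum.elim O fun ξ => ball ξ.1 s
  let k' : Fin m ⊕ P → ℂ := Sum.elim k fun ξ => ξ.1
  let n' : Fin m ⊕ P → ℤ := Sum.elim (fun _ => 1) fun ξ => if SA e.H ξ.1 then 1 else 0
  have hclb : ∀ ξ : P, closure (ball ξ.1 s) ⊆ closedBall ξ.1 s := fun ξ => closure_ball_subset_closedBall
  have hbδ : ∀ ξ : P, closedBall ξ.1 s ⊆ ball ξ.1 (δ ξ.1) := by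
    intro ξ
    refine closedBall_subset_ball ?_
    have := hs3 ξ.1 ((hP _).1 ξ.2)
    linarith
  have hfc : Continuous fun z => e.H (rr z) - z :=
    (he.cont.comp_continuous rr_cont rr_mem).sub continuous_id
  have hdis1 : ∀ (i : Fin m) (ξ : P), Disjoint (closure (O i)) (closure (ball ξ.1 s)) := by
    intro i ξ
    exact (((hδ ξ.1 ((hP _).1 ξ.2)).2.2.2 i).mono_left ((hclb ξ).trans (hbδ ξ))).symm
  have key := add_index' O' k' n' ?_ ?_ ?_ ?_ (fun z => e.H (rr z) - z) hfc.continuousOn ?_ ?_ 1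
    (c := -1) (by norm_num) ?_
  · -- conclusion
    refine ⟨P.filter fun ξ => SA e.H ξ, ?_, ?_⟩
    · intro ξ
      rw [Finset.mem_filter, hP]
      constructor
      · rintro ⟨h1, h2⟩
        exact ⟨h1.1, h2⟩
      · rintro ⟨h1, h2⟩
        exact ⟨⟨h1, h2.1⟩, h2⟩
    · rw [Fintype.sum_sum_type] at key
      have h1 : ∑ x : P, n' (Sum.inr x) = ((P.filter fun ξ => SA e.H ξ).card : ℤ) := by
        show ∑ x : P, (if SA e.H x.1 then (1:ℤ) else 0) = _
        rw [Finset.sum_coe_sort P (fun x => if SA e.H x then (1:ℤ) else 0), Finset.sum_boole]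
      have h2 : ∑ x : Fin m, n' (Sum.inl x) = (m : ℤ) := by
        show ∑ x : Fin m, (1:ℤ) = _
        simp
      rw [h1, h2] at key
      exact_mod_cast key.symm
  · rintro (i | ξ)
    · exact ho.opn i
    · exact isOpen_ball
  · rintro (i | ξ)
    · exact isBounded_ball.subset (subset_closure.trans (ho.sub i))
    · exact isBounded_ball
  · rintro (i | ξ)
    · exact ho.mem i
    · exact mem_ball_self hs
  · rintro (i | ξ) (j | η) hij
    · have h1 := ho.disj i j 1 (one_mem _) (Or.inr fun h => hij (by rw [h]))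
      have h2 : F.act 1 '' closure (O i) = closure (O i) := by
        refine Set.EqOn.image_eq_self fun x hx => ?_
        exact act_one F (mem_ball_zero_iff.1 (ho.sub i hx)).le
      rw [h2] at h1
      exact h1
    · exact hdis1 i η
    · exact (hdis1 j ξ).symm
    · show Disjoint (closure (ball ξ.1 s)) (closure (ball η.1 s))
      refine Disjoint.mono (hclb ξ) (hclb η) ?_
      rw [Set.disjoint_left]
      intro x hx hx2
      have h1 : dist ξ.1 η.1 ≤ 2 * s := by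
        have := dist_triangle_left ξ.1 η.1 x
        rw [mem_closedBall] at hx hx2
        linarith
      have h2 := hs3 η.1 ((hP _).1 η.2)
      have h3 := (hδ η.1 ((hP _).1 η.2)).2.2.1 ξ.1 (hΦb _ ((hP _).1 ξ.2)) (by linarith)
        ((hP _).1 ξ.2).2
      exact hij (by rw [Subtype.ext h3])
  · intro z hz h0
    apply hz
    have h1 : e.H (rr z) = z := sub_eq_zero.1 h0
    have h2 : z ∈ closedBall (0:ℂ) 1 := by
      rw [← h1]
      exact he.mapC (rr_mem z)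
    have h3 : ‖z‖ ≤ 1 := mem_closedBall_zero_iff.1 h2
    rw [rr_id h3] at h1
    rcases h3.lt_or_eq with h4 | h4
    · obtain ⟨g, hg, i, x, hx, hxz⟩ := ho.fix z (mem_ball_zero_iff.2 h4) h1
      rw [Subgroup.mem_bot] at hg
      rw [hg, act_one F (mem_ball_zero_iff.1 (ho.sub i (subset_closure hx))).le] at hxz
      rw [← hxz]
      exact mem_iUnion.2 ⟨Sum.inl i, hx⟩
    · exact mem_iUnion.2 ⟨Sum.inr ⟨z, (hP z).2 ⟨h4, h1⟩⟩, mem_ball_self hs⟩
  · rintro (i | ξ)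
    · refine IC_log_congr (ho.log i) fun z hz => ?_
      have h1 : z ∈ ball (0:ℂ) 1 := ho.sub i (frontier_subset_closure hz)
      show (e.H (rr z) - z) / (z - k i) ^ (1:ℤ) = _
      rw [rr_id (mem_ball_zero_iff.1 h1).le, zpow_one]
    · show HasLog (fun z => (e.H (rr z) - z) / (z - ξ.1) ^ (if SA e.H ξ.1 then (1:ℤ) else 0))
        (frontier (ball ξ.1 s))
      rw [frontier_ball ξ.1 hs.ne']
      refine (hδ ξ.1 ((hP _).1 ξ.2)).2.1 s hs ?_
      have := hs3 ξ.1 ((hP _).1 ξ.2)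
      linarith
  · -- at infinity
    have h1 : Tendsto (fun z : ℂ => e.H (rr z) / z) (cocompact ℂ) (𝓝 0) := by
      rw [tendsto_zero_iff_norm_tendsto_zero]
      have h2 : Tendsto (fun z : ℂ => ‖z‖⁻¹) (cocompact ℂ) (𝓝 0) :=
        tendsto_inv_atTop_zero.comp (tendsto_norm_cocompact_atTop)
      refine squeeze_zero (fun z => norm_nonneg _) (fun z => ?_) h2
      rw [norm_div, div_eq_mul_inv]
      have h3 : ‖e.H (rr z)‖ ≤ 1 := mem_closedBall_zero_iff.1 (he.mapC (rr_mem z))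
      have h4 : 0 ≤ ‖z‖⁻¹ := inv_nonneg.2 (norm_nonneg _)
      nlinarith
    have h5 : ∀ᶠ z : ℂ in cocompact ℂ, z ≠ 0 := by
      have := (isCompact_singleton (x := (0:ℂ))).compl_mem_cocompact
      filter_upwards [this] with z hz h0
      exact hz h0
    have h6 : Tendsto (fun z : ℂ => e.H (rr z) / z - 1) (cocompact ℂ) (𝓝 (0 - 1)) :=
      h1.sub tendsto_const_nhds
    rw [zero_sub] at h6
    refine h6.congr' ?_
    filter_upwards [h5] with z hz
    rw [zpow_one, sub_div, div_self hz]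

end TN
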