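import Pool.Agent.H12.TN.FD
import Pool.Agent.H12.TN.JX
import Pool.Agent.H12.TN.JC
import Pool.Agent.H12.TN.JZ

/-!
IX (section 3.4 of the note: the index lemmas I0, I1 and the collar index).  Proofs in JZ, JX, JC (helper91).
-/

namespace TN
open Metric Set Filter Topology DS

variable {Γ : Type} [Group Γ]

/-- I0: holes modulo the trivial group; `1 = m + #A` -/
theorem index0 (F : Fuchs Γ) {e : Elt Γ} (he : Norm F e) {m : ℕ} {O : Fin m → Set ℂ} {k : Fin m → ℂ}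
    (ho : Holes F e.H ⊥ m O k)
    (hT : ∀ ξ : ℂ, ‖ξ‖ = 1 → e.H ξ = ξ → SA e.H ξ ∨ SA e.Hi ξ) :
    ∃ A : Finset ℂ, (∀ ξ, ξ ∈ A ↔ ‖ξ‖ = 1 ∧ SA e.H ξ) ∧ m + A.card = 1 :=
  index0' F he ho hT

/-- I1: holes modulo a cyclic group; `0 = m + #A` -/
theorem index1 (F : Fuchs Γ) {e : Elt Γ} (he : Norm F e) {κ : Γ} {p q : ℂ} (hκ : F.AR κ p q)
    (hc : e.θ κ = κ) {m : ℕ} {O : Fin m → Set ℂ} {k : Fin m → ℂ}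
    (ho : Holes F e.H (Subgroup.zpowers κ) m O k)
    (hT : ∀ ξ : ℂ, ‖ξ‖ = 1 → ξ ≠ p → ξ ≠ q → e.H ξ = ξ → SA e.H ξ ∨ SA e.Hi ξ) :
    m = 0 ∧ ∀ ξ : ℂ, ‖ξ‖ = 1 → ξ ≠ p → ξ ≠ q → ¬ SA e.H ξ :=
  index1' F he hκ hc ho hT

/-- the collar index: `w = - #A`, along the arc `0 < eta p q` -/
theorem collar (F : Fuchs Γ) {e : Elt Γ} (he : Norm F e) {κ : Γ} {p q : ℂ} (hκ : F.AR κ p q)
    (hc : e.θ κ = κ) {l : ℝ} (hl : ∀ x ∈ ball (0:ℂ) 1, om p q (F.act κ x) = om p q x + l)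
    (hT : ∀ ξ : ℂ, ‖ξ‖ = 1 → ξ ≠ p → ξ ≠ q → 0 < (eta p q ξ).re → e.H ξ = ξ → SA e.H ξ ∨ SA e.Hi ξ) :
    ∃ y₁ : ℝ, 0 < y₁ ∧ y₁ < Real.pi / 2 ∧
      (∀ x ∈ ball (0:ℂ) 1, (om p q x).im ≤ y₁ → e.H x ≠ x) ∧
      ∃ L : ℂ → ℂ, ContinuousOn L {ω : ℂ | 0 < ω.im ∧ ω.im ≤ y₁} ∧
        (∀ ω : ℂ, 0 < ω.im → ω.im ≤ y₁ → om p q (e.H (omi p q ω)) - ω = Complex.exp (L ω)) ∧
        ∃ w : ℤ, w ≤ 0 ∧ ∀ ω : ℂ, 0 < ω.im → ω.im ≤ y₁ →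
          L (ω + l) = L ω + 2 * Real.pi * w * Complex.I :=
  collar' F he hκ hc hl hT

end TN
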