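import Pool.Agent.H12.TN.Defs

/-!
RA (lift of an orientation preserving circle homeomorphism).  Let `E t = exp (2 π i t)`, `L` a continuous logarithm of `H z / z` on the
circle.  `‖H z / z‖ = 1`, so `L` is purely imaginary; put `h t = t + (L (E t)).im / (2 π)`.  Then `H (E t) = E t * exp (L (E t)) = E (h t)`,
`h` is continuous, `h (t + 1) = h t + 1`, and `h` is injective: `h s = h t` gives `H (E s) = H (E t)`, so `E s = E t`,
`t = s + n`, `h t = h s + n`, `n = 0`.  A continuous injective function on `ℝ` is strictly monotone or strictly antitone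
(`Continuous.strictMono_of_inj`), and `h 1 = h 0 + 1`.
-/

namespace TN
open Metric Set Filter Topology DS

theorem circle_lift {H : ℂ → ℂ} (hc : ContinuousOn H (sphere 0 1))
    (hm : MapsTo H (sphere 0 1) (sphere 0 1)) (hi : InjOn H (sphere 0 1))
    (ho : HasLog (fun z => H z / z) (sphere 0 1)) :
    ∃ h : ℝ → ℝ, Continuous h ∧ StrictMono h ∧ (∀ t, h (t + 1) = h t + 1) ∧
      ∀ t : ℝ, H (Complex.exp (2 * Real.pi * t * Complex.I)) =
        Complex.exp (2 * Real.pi * (h t : ℝ) * Complex.I) := by
  obtain ⟨L, hL, hLH⟩ := ho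
  have hpi : (0:ℝ) < 2 * Real.pi := by positivity
  set E : ℝ → ℂ := fun t => Complex.exp (2 * Real.pi * t * Complex.I) with hE
  have hEcont : Continuous E := by
    rw [hE]
    fun_prop
  have hEn : ∀ t, ‖E t‖ = 1 := by
    intro t
    have : E t = Complex.exp (((2 * Real.pi * t : ℝ) : ℂ) * Complex.I) := by
      rw [hE]
      push_cast
      rfl
    rw [this, Complex.norm_exp_ofReal_mul_I]
  have hEs : ∀ t, E t ∈ sphere (0:ℂ) 1 := fun t => mem_sphere_zero_iff_norm.2 (hEn t)
  have hE0 : ∀ t, E t ≠ 0 := fun t => Complex.exp_ne_zero _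
  have hEint : ∀ (t : ℝ) (n : ℤ), E (t + n) = E t := by
    intro t n
    rw [hE]
    show Complex.exp (2 * Real.pi * ((t + n : ℝ) : ℂ) * Complex.I) =
      Complex.exp (2 * Real.pi * (t : ℂ) * Complex.I)
    rw [Complex.exp_eq_exp_iff_exists_int]
    refine ⟨n, ?_⟩
    push_cast
    ring
  have hre : ∀ t, (L (E t)).re = 0 := by
    intro t
    have h1 : ‖Complex.exp (L (E t))‖ = 1 := by
      rw [← hLH _ (hEs t), norm_div, hEn, mem_sphere_zero_iff_norm.1 (hm (hEs t)), div_one]
    rw [Complex.norm_exp] at h1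
    exact (Real.exp_eq_one_iff _).1 h1
  set h : ℝ → ℝ := fun t => t + (L (E t)).im / (2 * Real.pi) with hh
  have hcont : Continuous h := by
    have h1 : Continuous fun t => L (E t) := hL.comp_continuous hEcont hEs
    have h2 : Continuous fun t => (L (E t)).im := Complex.continuous_im.comp h1
    exact continuous_id.add (h2.div_const _)
  have hHE : ∀ t, H (E t) = E (h t) := by
    intro t
    have h1 : H (E t) = E t * Complex.exp (L (E t)) := by
      rw [← hLH _ (hEs t), mul_div_cancel₀ _ (hE0 t)]
    rw [h1, hE]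
    show Complex.exp (2 * Real.pi * (t : ℂ) * Complex.I) * Complex.exp (L (E t)) =
      Complex.exp (2 * Real.pi * ((h t : ℝ) : ℂ) * Complex.I)
    rw [← Complex.exp_add]
    congr 1
    have h2 : L (E t) = ((L (E t)).im : ℂ) * Complex.I := by
      apply Complex.ext
      · simp [hre t]
      · simp
    have h3 : (2 * Real.pi : ℂ) ≠ 0 := by exact_mod_cast hpi.ne'
    rw [h2, hh]
    push_cast
    have h4 : (2 * (Real.pi : ℂ)) * ((t : ℂ) + ((L (E t)).im : ℂ) / (2 * (Real.pi : ℂ))) =
        2 * Real.pi * t + ((L (E t)).im : ℂ) := by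
      field_simp
    rw [h4]
    ring
  have hint : ∀ (t : ℝ) (n : ℤ), h (t + n) = h t + n := by
    intro t n
    show t + n + (L (E (t + n))).im / (2 * Real.pi) = t + (L (E t)).im / (2 * Real.pi) + n
    rw [hEint]
    ring
  have hinj : Function.Injective h := by
    intro s t hst
    have h1 : H (E s) = H (E t) := by rw [hHE, hHE, hst]
    have h2 : E s = E t := hi (hEs s) (hEs t) h1
    have h3 : Complex.exp (2 * Real.pi * (s : ℂ) * Complex.I) =
      Complex.exp (2 * Real.pi * (t : ℂ) * Complex.I) := h2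
    obtain ⟨n, hn⟩ := Complex.exp_eq_exp_iff_exists_int.1 h3
    have h4 : (2 * Real.pi * Complex.I : ℂ) ≠ 0 := Complex.two_pi_I_ne_zero
    have h5 : ((s : ℝ) : ℂ) = ((t + n : ℝ) : ℂ) := by
      apply mul_left_cancel₀ h4
      push_cast
      linear_combination hn
    have h6 : s = t + n := Complex.ofReal_injective h5
    have h7 := hint t n
    rw [← h6, hst] at h7
    have h8 : (n : ℝ) = 0 := by linarith
    rw [h6, h8, add_zero]
  refine ⟨h, hcont, ?_, ?_, hHE⟩
  · rcases hcont.strictMono_of_inj hinj with h1 | h1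
    · exact h1
    · exfalso
      have h2 : h 1 < h 0 := h1 (by norm_num)
      have h3 := hint 0 1
      norm_num at h3
      linarith
  · intro t
    have := hint t 1
    simpa using this

end TN
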