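import Pool.Agent.H12.TN.Defs

/-!
RG (arcs and separated triples on the circle).
`chord`: let `a, b, c, s` be on the unit circle, `ε ≤ ‖b - a‖`, `ε ≤ ‖c - a‖`, `b ≠ c`, and let `ell` be the real affine function
`ell x = Im ((x - b) * conj (c - b))`, vanishing exactly on the line through `b` and `c`; if `ell s * ell a < 0` (opposite sides) then `ε ≤ ‖s - a‖`.
Proof: on the circle `‖x - a‖² = 2 - 2 Re (x conj a)`, so `b, c` are in the closed half plane `P = {Re (x conj a) ≤ k}`, `k = 1 - ε²/2`.  If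
`‖s - a‖ < ε` then `Re (s conj a) > k`, and `Re (a conj a) = 1 > k` if `ε > 0` (if `ε ≤ 0` nothing to prove), so the segment `[s, a]` is in the
open half plane `Pᶜ`.  It contains a point `y` with `ell y = 0`, i.e. `y = b + t (c - b)`, `t` real, `‖y‖ ≤ 1` (convexity of the disc).
`‖y‖² = 1 - t (1 - t) ‖c - b‖²`, so `0 ≤ t ≤ 1` and `y ∈ [b, c] ⊆ P`: contradiction.
`arc_lemma`: `S` is connected and does not meet `{a, b, c}`.  On the circle, `ell x = 0` iff `x = b` or `x = c` (same computation: `t(1-t) = 0`).  So the sign of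
`ell` on `S` is constant; same for the other two lines.  If for one of them `S` is on the side opposite to the third point, `chord` gives the claim.
Otherwise every `s ∈ S` is strictly on the side of `a` for the line `bc`, on the side of `b` for `ca`, on the side of `c` for `ab`: it is in the open triangle,
so `‖s‖ < 1`: contradiction (if `S` is empty there is nothing to prove).  For the last point: barycentric coordinates
`s = α a + β b + γ c`, `α = ell_bc s / ell_bc a > 0` etc., `α + β + γ = 1`, and strict convexity of the disc.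
`triples`: pass to a subsequence along which the three sequences converge; for large `j ≠ k` the triples are `ε/2`-close, contradiction with `arc_lemma`
applied to `S j k` and the triple `j`: one of its points `x` has `ε ≤ dist s x` for all `s ∈ S j k`, hence for all `s` in the closure, but the corresponding point of the triple
`k` is in the closure of `S j k` and at distance `< ε`.
-/

namespace TN
open Metric Set Filter Topology DS

/-- the affine function vanishing on the line through `b` and `c` -/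
noncomputable def RG_ell (b c x : ℂ) : ℝ := ((x - b) * (starRingEnd ℂ) (c - b)).im

theorem RG_ell_eq (b c x : ℂ) :
    RG_ell b c x = (x.im - b.im) * (c.re - b.re) - (x.re - b.re) * (c.im - b.im) := by
  unfold RG_ell
  simp only [Complex.mul_im, Complex.sub_re, Complex.sub_im, Complex.conj_re, Complex.conj_im]
  ring

theorem RG_cont (b c : ℂ) : Continuous (RG_ell b c) := by
  have : RG_ell b c = fun x : ℂ =>
      (x.im - b.im) * (c.re - b.re) - (x.re - b.re) * (c.im - b.im) := by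
    funext x; exact RG_ell_eq b c x
  rw [this]
  fun_prop

theorem RG_nsq {x : ℂ} (h : ‖x‖ = 1) : x.re ^ 2 + x.im ^ 2 = 1 := by
  have h1 := Complex.sq_norm x
  rw [h, Complex.normSq_apply] at h1
  nlinarith

theorem RG_dsq (x y : ℂ) : dist x y ^ 2 = (x.re - y.re) ^ 2 + (x.im - y.im) ^ 2 := by
  rw [Complex.dist_eq, Complex.sq_norm, Complex.normSq_apply]
  simp only [Complex.sub_re, Complex.sub_im]
  ring

theorem RG_dpos {x y : ℂ} (h : x ≠ y) : 0 < (x.re - y.re) ^ 2 + (x.im - y.im) ^ 2 := by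
  rw [← RG_dsq]
  have := dist_pos.2 h
  positivity

/-- a point of the line through `b`, `c` (real coordinates) -/
theorem RG_line {b1 b2 c1 c2 y1 y2 : ℝ} (hd : 0 < (c1 - b1) ^ 2 + (c2 - b2) ^ 2)
    (h : (y2 - b2) * (c1 - b1) - (y1 - b1) * (c2 - b2) = 0) :
    ∃ t : ℝ, y1 = b1 + t * (c1 - b1) ∧ y2 = b2 + t * (c2 - b2) := by
  refine ⟨((y1 - b1) * (c1 - b1) + (y2 - b2) * (c2 - b2)) / ((c1 - b1) ^ 2 + (c2 - b2) ^ 2),
    ?_, ?_⟩
  · have hd' := hd.ne'
    field_simp
    linear_combination (-(c2 - b2)) * h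
  · have hd' := hd.ne'
    field_simp
    linear_combination (c1 - b1) * h

/-- on the line through two points of the circle, the points of the disc are between them -/
theorem RG_between {b1 b2 c1 c2 t : ℝ} (hb : b1 ^ 2 + b2 ^ 2 = 1) (hc : c1 ^ 2 + c2 ^ 2 = 1)
    (hd : 0 < (c1 - b1) ^ 2 + (c2 - b2) ^ 2)
    (hy : (b1 + t * (c1 - b1)) ^ 2 + (b2 + t * (c2 - b2)) ^ 2 ≤ 1) : 0 ≤ t ∧ t ≤ 1 := by
  have h1 : (b1 + t * (c1 - b1)) ^ 2 + (b2 + t * (c2 - b2)) ^ 2
      = 1 - t * (1 - t) * ((c1 - b1) ^ 2 + (c2 - b2) ^ 2) := by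
    linear_combination (1 - t) * hb + t * hc
  rw [h1] at hy
  have h2 : 0 ≤ t * (1 - t) := by
    by_contra hn
    push Not at hn
    nlinarith [mul_pos_of_neg_of_neg hn (neg_neg_of_pos hd)]
  constructor
  · by_contra hn
    push Not at hn
    nlinarith
  · by_contra hn
    push Not at hn
    nlinarith

/-- `RG_ell b c` vanishes on the circle only at `b` and `c` -/
theorem RG_zero {b c x : ℂ} (hb : ‖b‖ = 1) (hc : ‖c‖ = 1) (hx : ‖x‖ = 1) (hbc : b ≠ c)
    (h : RG_ell b c x = 0) : x = b ∨ x = c := by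
  rw [RG_ell_eq] at h
  have hd := RG_dpos hbc.symm
  obtain ⟨t, h1, h2⟩ := RG_line hd h
  have hb' := RG_nsq hb
  have hc' := RG_nsq hc
  have hx' := RG_nsq hx
  rw [h1, h2] at hx'
  have h3 : t * (1 - t) * ((c.re - b.re) ^ 2 + (c.im - b.im) ^ 2) = 0 := by
    linear_combination (1 - t) * hb' + t * hc' - hx'
  rcases mul_eq_zero.1 h3 with h4 | h4
  · rcases mul_eq_zero.1 h4 with h5 | h5
    · left
      apply Complex.ext
      · rw [h1, h5]; ring
      · rw [h2, h5]; ring
    · right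
      have h6 : t = 1 := by linarith
      apply Complex.ext
      · rw [h1, h6]; ring
      · rw [h2, h6]; ring
  · exact absurd h4 hd.ne'

theorem RG_chord {a b c s : ℂ} (ha : ‖a‖ = 1) (hb : ‖b‖ = 1) (hc : ‖c‖ = 1) (hs : ‖s‖ = 1)
    {ε : ℝ} (hε : 0 < ε) (hab : ε ≤ dist b a) (hac : ε ≤ dist c a) (hbc : b ≠ c)
    (h : RG_ell b c s * RG_ell b c a < 0) : ε ≤ dist s a := by
  by_contra hn
  push Not at hn
  have ha' := RG_nsq ha
  have hb' := RG_nsq hb
  have hc' := RG_nsq hc
  have hs' := RG_nsq hs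
  have h1 : ε ^ 2 ≤ (b.re - a.re) ^ 2 + (b.im - a.im) ^ 2 := by
    rw [← RG_dsq]; gcongr
  have h2 : ε ^ 2 ≤ (c.re - a.re) ^ 2 + (c.im - a.im) ^ 2 := by
    rw [← RG_dsq]; gcongr
  have h3 : (s.re - a.re) ^ 2 + (s.im - a.im) ^ 2 < ε ^ 2 := by
    rw [← RG_dsq]
    exact pow_lt_pow_left₀ hn dist_nonneg two_ne_zero
  have hd := RG_dpos hbc.symm
  obtain ⟨p, hp⟩ : ∃ p, p = RG_ell b c s := ⟨_, rfl⟩
  obtain ⟨q, hq⟩ : ∃ q, q = RG_ell b c a := ⟨_, rfl⟩
  rw [← hp, ← hq] at h
  have hpq : p - q ≠ 0 := by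
    intro h0
    have : p = q := by linarith only [h0]
    rw [this] at h
    exact absurd (mul_self_nonneg q) (not_le.2 h)
  rw [RG_ell_eq] at hp hq
  -- the parameter of the intersection point on `[s, a]`
  obtain ⟨τ, hτ⟩ : ∃ τ, τ = p / (p - q) := ⟨_, rfl⟩
  have hτp : τ * (p - q) = p := by rw [hτ]; field_simp
  have hτ0 : 0 < τ := by
    have h5 : 0 < (p - q) ^ 2 := lt_of_le_of_ne (sq_nonneg _) (pow_ne_zero 2 hpq).symm
    have h6 : τ * (p - q) ^ 2 = p * (p - q) := by
      linear_combination (p - q) * hτp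
    have h7 : 0 < p * (p - q) := by nlinarith only [mul_self_nonneg p, h]
    rw [← h6] at h7
    exact pos_of_mul_pos_left h7 h5.le
  have hτ1 : τ < 1 := by
    have h5 : 0 < (p - q) ^ 2 := lt_of_le_of_ne (sq_nonneg _) (pow_ne_zero 2 hpq).symm
    have h6 : (1 - τ) * (p - q) ^ 2 = (-q) * (p - q) := by
      linear_combination -(p - q) * hτp
    have h7 : 0 < (-q) * (p - q) := by nlinarith only [mul_self_nonneg q, h]
    rw [← h6] at h7
    have h8 : 0 < 1 - τ := pos_of_mul_pos_left h7 h5.le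
    linarith only [h8]
  have hy : (((1 - τ) * s.im + τ * a.im) - b.im) * (c.re - b.re)
      - (((1 - τ) * s.re + τ * a.re) - b.re) * (c.im - b.im) = 0 := by
    linear_combination -(1 - τ) * hp - τ * hq - hτp
  obtain ⟨t, ht1, ht2⟩ := RG_line hd hy
  have hyn : (b.re + t * (c.re - b.re)) ^ 2 + (b.im + t * (c.im - b.im)) ^ 2 ≤ 1 := by
    rw [← ht1, ← ht2]
    have h5 : ((1 - τ) * s.re + τ * a.re) ^ 2 + ((1 - τ) * s.im + τ * a.im) ^ 2
        = 1 - (1 - τ) * τ * ((s.re - a.re) ^ 2 + (s.im - a.im) ^ 2) := by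
      linear_combination (1 - τ) * hs' + τ * ha'
    rw [h5]
    have h6 : 0 ≤ (1 - τ) * τ * ((s.re - a.re) ^ 2 + (s.im - a.im) ^ 2) := by
      have : 0 < 1 - τ := by linarith
      positivity
    linarith
  obtain ⟨ht0, ht1'⟩ := RG_between hb' hc' hd hyn
  -- the linear function `Re (x conj a)`
  have hfb : b.re * a.re + b.im * a.im ≤ 1 - ε ^ 2 / 2 := by linarith only [h1, ha', hb']
  have hfc : c.re * a.re + c.im * a.im ≤ 1 - ε ^ 2 / 2 := by linarith only [h2, ha', hc']
  have hfs : 1 - ε ^ 2 / 2 < s.re * a.re + s.im * a.im := by linarith only [h3, ha', hs']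
  have hf1 : ((1 - τ) * s.re + τ * a.re) * a.re + ((1 - τ) * s.im + τ * a.im) * a.im
      = (1 - τ) * (s.re * a.re + s.im * a.im) + τ := by
    linear_combination τ * ha'
  have hf2 : (b.re + t * (c.re - b.re)) * a.re + (b.im + t * (c.im - b.im)) * a.im
      = (1 - t) * (b.re * a.re + b.im * a.im) + t * (c.re * a.re + c.im * a.im) := by ring
  rw [ht1, ht2, hf2] at hf1
  have h8 : (1 - t) * (b.re * a.re + b.im * a.im) + t * (c.re * a.re + c.im * a.im)
      ≤ 1 - ε ^ 2 / 2 := by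
    have : 0 ≤ 1 - t := by linarith only [ht1']
    have m1 := mul_le_mul_of_nonneg_left hfb this
    have m2 := mul_le_mul_of_nonneg_left hfc ht0
    linarith only [m1, m2]
  have h9 : 1 - ε ^ 2 / 2 < (1 - τ) * (s.re * a.re + s.im * a.im) + τ := by
    have h10 : 0 < 1 - τ := by linarith
    have h11 : 0 < ε ^ 2 := by positivity
    have m1 := mul_lt_mul_of_pos_left hfs h10
    have m2 := mul_pos hτ0 h11
    linarith only [m1, m2]
  linarith

/-- constant sign on a preconnected set -/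
theorem RG_sign {S : Set ℂ} (hS : IsPreconnected S) {f : ℂ → ℝ} (hf : Continuous f)
    (h0 : ∀ s ∈ S, f s ≠ 0) : (∀ s ∈ S, f s < 0) ∨ (∀ s ∈ S, 0 < f s) := by
  by_contra hn
  push Not at hn
  obtain ⟨⟨x, hx, hx1⟩, ⟨y, hy, hy1⟩⟩ := hn
  have := hS.intermediate_value hy hx hf.continuousOn
  obtain ⟨z, hz, hz0⟩ := this ⟨hy1, hx1⟩
  exact h0 z hz hz0

/-- one vertex: either the claim, or `S` is strictly on the side of the vertex -/
theorem RG_vertex {S : Set ℂ} (hS : IsPreconnected S) (hST : S ⊆ sphere 0 1) {a b c : ℂ}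
    (ha : ‖a‖ = 1) (hb : ‖b‖ = 1) (hc : ‖c‖ = 1) (hbS : b ∉ S) (hcS : c ∉ S) {ε : ℝ}
    (hε : 0 < ε) (hba : ε ≤ dist b a) (hca : ε ≤ dist c a) (hbc : b ≠ c) :
    (∀ s ∈ S, ε ≤ dist s a) ∨ (∀ s ∈ S, 0 < RG_ell b c s * RG_ell b c a) := by
  have hab : a ≠ b := by
    rintro rfl
    rw [dist_self] at hba; linarith
  have hac : a ≠ c := by
    rintro rfl
    rw [dist_self] at hca; linarith
  have ha0 : RG_ell b c a ≠ 0 := by
    intro h
    rcases RG_zero hb hc ha hbc h with h | h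
    · exact hab h
    · exact hac h
  have hnorm : ∀ s ∈ S, ‖s‖ = 1 := fun s hs => mem_sphere_zero_iff_norm.1 (hST hs)
  have h0 : ∀ s ∈ S, RG_ell b c s * RG_ell b c a ≠ 0 := by
    intro s hs h
    rcases mul_eq_zero.1 h with h | h
    · rcases RG_zero hb hc (hnorm s hs) hbc h with h | h
      · exact hbS (h ▸ hs)
      · exact hcS (h ▸ hs)
    · exact ha0 h
  rcases RG_sign hS ((RG_cont b c).mul continuous_const) h0 with h | h
  · left
    intro s hs
    exact RG_chord ha hb hc (hnorm s hs) hε hba hca hbc (h s hs)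
  · right
    exact h

theorem arc_lemma {S : Set ℂ} (hS : IsPreconnected S) (hST : S ⊆ sphere 0 1) {a b c : ℂ}
    (ha : ‖a‖ = 1) (hb : ‖b‖ = 1) (hc : ‖c‖ = 1) (haS : a ∉ S) (hbS : b ∉ S) (hcS : c ∉ S) {ε : ℝ}
    (hε : 0 < ε) (hab : ε ≤ dist a b) (hbc : ε ≤ dist b c) (hac : ε ≤ dist a c) :
    (∀ s ∈ S, ε ≤ dist s a) ∨ (∀ s ∈ S, ε ≤ dist s b) ∨ (∀ s ∈ S, ε ≤ dist s c) := by
  have hab' : a ≠ b := by
    rintro rfl
    rw [dist_self] at hab; linarith
  have hac' : a ≠ c := by
    rintro rfl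
    rw [dist_self] at hac; linarith
  have hbc' : b ≠ c := by
    rintro rfl
    rw [dist_self] at hbc; linarith
  rcases RG_vertex hS hST ha hb hc hbS hcS hε (by rwa [dist_comm]) (by rwa [dist_comm]) hbc'
    with h1 | h1
  · exact Or.inl h1
  rcases RG_vertex hS hST hb hc ha hcS haS hε (by rwa [dist_comm]) hab hac'.symm with h2 | h2
  · exact Or.inr (Or.inl h2)
  rcases RG_vertex hS hST hc ha hb haS hbS hε hac hbc hab' with h3 | h3
  · exact Or.inr (Or.inr h3)
  left
  intro s hs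
  exfalso
  have k1 := h1 s hs
  have k2 := h2 s hs
  have k3 := h3 s hs
  have hsn : ‖s‖ = 1 := mem_sphere_zero_iff_norm.1 (hST hs)
  have e1 : RG_ell c a b = RG_ell b c a := by rw [RG_ell_eq, RG_ell_eq]; ring
  have e2 : RG_ell a b c = RG_ell b c a := by rw [RG_ell_eq, RG_ell_eq]; ring
  rw [e1] at k2
  rw [e2] at k3
  have hs' := RG_nsq hsn
  have ha' := RG_nsq ha
  have hb' := RG_nsq hb
  have hc' := RG_nsq hc
  have da := RG_dpos (show a ≠ s from fun h => haS (h ▸ hs))
  have db := RG_dpos (show b ≠ s from fun h => hbS (h ▸ hs))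
  have dc := RG_dpos (show c ≠ s from fun h => hcS (h ▸ hs))
  have fa : 0 < 1 - (a.re * s.re + a.im * s.im) := by nlinarith
  have fb : 0 < 1 - (b.re * s.re + b.im * s.im) := by nlinarith
  have fc : 0 < 1 - (c.re * s.re + c.im * s.im) := by nlinarith
  have key : (RG_ell b c s * RG_ell b c a) * (1 - (a.re * s.re + a.im * s.im))
      + (RG_ell c a s * RG_ell b c a) * (1 - (b.re * s.re + b.im * s.im))
      + (RG_ell a b s * RG_ell b c a) * (1 - (c.re * s.re + c.im * s.im)) = 0 := by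
    have e4 : RG_ell b c s + RG_ell c a s + RG_ell a b s = RG_ell b c a := by
      simp only [RG_ell_eq]; ring
    have e5 : RG_ell b c s * a.re + RG_ell c a s * b.re + RG_ell a b s * c.re
        = RG_ell b c a * s.re := by
      simp only [RG_ell_eq]; ring
    have e6 : RG_ell b c s * a.im + RG_ell c a s * b.im + RG_ell a b s * c.im
        = RG_ell b c a * s.im := by
      simp only [RG_ell_eq]; ring
    linear_combination RG_ell b c a * e4 - RG_ell b c a * s.re * e5 - RG_ell b c a * s.im * e6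
      - RG_ell b c a ^ 2 * hs'
  have p1 := mul_pos k1 fa
  have p2 := mul_pos k2 fb
  have p3 := mul_pos k3 fc
  linarith

theorem triples {ε : ℝ} (hε : 0 < ε) {u : ℕ → Fin 3 → ℂ} (hu : ∀ j a, ‖u j a‖ = 1)
    (hs : ∀ j a b, a ≠ b → ε ≤ dist (u j a) (u j b))
    (h : ∀ j k, j ≠ k → ∃ S : Set ℂ, IsPreconnected S ∧ S ⊆ sphere 0 1 ∧ (∀ a, u j a ∉ S) ∧
      ∀ a, u k a ∈ closure S) : False := by
  have hbd : ∀ j, u j ∈ closedBall (0 : Fin 3 → ℂ) 1 := by
    intro j
    rw [mem_closedBall_zero_iff]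
    exact (pi_norm_le_iff_of_nonneg zero_le_one).2 fun a => (hu j a).le
  obtain ⟨v, -, φ, hφ, hlim⟩ := (isCompact_closedBall (0 : Fin 3 → ℂ) 1).tendsto_subseq hbd
  obtain ⟨N, hN⟩ := Metric.cauchySeq_iff.1 hlim.cauchySeq ε hε
  have hd := hN N le_rfl (N + 1) (Nat.le_succ N)
  have hne : φ N ≠ φ (N + 1) := (hφ (Nat.lt_succ_self N)).ne
  simp only [Function.comp] at hd
  obtain ⟨S, hS, hST, hnot, hcl⟩ := h (φ N) (φ (N + 1)) hne
  have key : ∀ a : Fin 3, (∀ s ∈ S, ε ≤ dist s (u (φ N) a)) → False := by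
    intro a ha
    have h1 : closure S ⊆ {s | ε ≤ dist s (u (φ N) a)} := by
      apply closure_minimal ha
      exact isClosed_le continuous_const (continuous_id.dist continuous_const)
    have h2 : ε ≤ dist (u (φ (N + 1)) a) (u (φ N) a) := h1 (hcl a)
    have h3 : dist (u (φ (N + 1)) a) (u (φ N) a) ≤ dist (u (φ (N + 1))) (u (φ N)) :=
      dist_le_pi_dist _ _ a
    rw [dist_comm] at hd
    linarith
  rcases arc_lemma hS hST (hu (φ N) 0) (hu (φ N) 1) (hu (φ N) 2) (hnot 0) (hnot 1) (hnot 2) hε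
    (hs _ 0 1 (by decide)) (hs _ 1 2 (by decide)) (hs _ 0 2 (by decide)) with h1 | h1 | h1
  · exact key 0 h1
  · exact key 1 h1
  · exact key 2 h1

end TN
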