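import Pool.Agent.H12.TN.RE
import Pool.Agent.H12.TN.RG

/-!
RH (rational rotation number in a frame).  Suppose not: then `exists_rot` gives `Rot h φ a b ε`.  `x : ℕ → ℝ` from `exists_seq`; the triples
`t_j = (π (x (2j)), π (x (2j+1)), π (x (2j+2)))` consist of three distinct points of `F.lim` (`C_lim`; distinct by `inj` and `|x m - x n| < 1`).  (TC) gives `d j`
such that `u j i = act (d j) (t_j i)` is `ε₀`-separated.  Apply `triples` with, for `j ≠ k` and `c = (d j)⁻¹ * d k`:
* if `c ∉ zpowers κ`: `S = act (d j) '' (π '' Ioo l r)` with `l, r` of `incl`.  `u j i = act (d j) (π (x (2j+i)))` is not in `S`: otherwise `π (x (2j+i)) = π s`, `s ∈ Ioo l r`,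
  `x (2j+i) = s + n` so `s ∈ Cset` (`C_int`), contradiction to `C_fibre`.  `u k i = act (d j) (act c (π (x (2k+i)))) ∈ act (d j) '' (π '' Icc l r) ⊆ closure S` (`closure (Ioo l r) = Icc l r`, continuity).
* if `c = κ^n`: `S = act (d j) '' (π '' Ioo (x (2k) + n) (x (2k+2) + n))`; `u k i = act (d j) (π (x (2k+i) + n))` is in the closure.  `u j i ∈ S` would give `x (2j+i) + m ∈ Ioo (x (2k) + n) (x (2k+2) + n)` for
  an integer `m` (`inj`); as all `x` lie in `[x 0, x 0 + 1)`, `m = n` and `2k < 2j + i < 2k + 2`, so `2j + i = 2k + 1`, `i = 1`, `j = k`: contradiction.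
-/

namespace TN
open Metric Set Filter Topology DS

variable {Γ : Type} [Group Γ] {F : Fuchs Γ} {e : Elt Γ} {κ : Γ} {π : ℝ → ℂ} {h : ℝ → ℝ}

theorem RH_fcont (fr : Frame F e κ π h) (g : Γ) : Continuous (fun t => F.act g (π t)) :=
  (act_cont F g).comp_continuous fr.πc fun t => by
    rw [mem_closedBall_zero_iff]
    exact (fr.πn t).le

theorem frame_rot (hT : F.TC) (fr : Frame F e κ π h) (he : Norm F e) :
    ∃ n : ℕ, 1 ≤ n ∧ ∃ m : ℤ, ∃ t, h^[n] t = t + m := by
  by_contra hcon
  have hcon' : ∀ n : ℕ, 1 ≤ n → ∀ m : ℤ, ∀ t, h^[n] t ≠ t + m := fun n hn m t ht =>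
    hcon ⟨n, hn, m, t, ht⟩
  obtain ⟨φ, a, b, ε, R⟩ := exists_rot fr.hc fr.hm fr.h1 hcon'
  obtain ⟨x, hxm, hxC, hxb⟩ := exists_seq R.φc R.φm R.φ1
  obtain ⟨ε₀, hε₀, hTC⟩ := hT
  have hx0 : ∀ n, x 0 ≤ x n := fun n => hxm.monotone (Nat.zero_le n)
  have hint : ∀ (m n : ℕ) (k : ℤ), x m = x n + k → k = 0 := by
    intro m n k hk
    have h1 := hx0 m
    have h2 := hxb m
    have h3 := hx0 n
    have h4 := hxb n
    have h5 : (k : ℝ) < 1 := by linarith
    have h6 : (-1 : ℝ) < k := by linarith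
    have h5' : k < 1 := by exact_mod_cast h5
    have h6' : (-1 : ℤ) < k := by exact_mod_cast h6
    omega
  have hne : ∀ m n : ℕ, m ≠ n → π (x m) ≠ π (x n) := by
    intro m n hmn hπ
    obtain ⟨k, hk, -⟩ := fr.inj _ _ hπ
    have hk0 := hint n m k hk
    rw [hk0, Int.cast_zero, add_zero] at hk
    exact hmn (hxm.injective hk).symm
  have hnc : ∀ t, ‖π t‖ ≤ 1 := fun t => (fr.πn t).le
  have hmem : ∀ t, π t ∈ closedBall (0:ℂ) 1 := fun t => by
    rw [mem_closedBall_zero_iff]; exact hnc t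
  have hlim : ∀ n, π (x n) ∈ F.lim := fun n => C_lim fr he R (hxC n)
  choose d hd using fun j : ℕ => hTC (π (x (2 * j))) (hlim _) (π (x (2 * j + 1))) (hlim _)
    (π (x (2 * j + 2))) (hlim _) (hne _ _ (by omega)) (hne _ _ (by omega)) (hne _ _ (by omega))
  have key := triples hε₀ (u := fun j i => F.act (d j) (π (x (2 * j + (i : ℕ)))))
    (fun j i => act_eq F (d j) (fr.πn _))
    (fun j i i' hii => by
      obtain ⟨h1, h2, h3⟩ := hd j
      fin_cases i <;> fin_cases i' <;> simp at hii ⊢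
      · exact h1
      · exact h3
      · rw [dist_comm]; exact h1
      · exact h2
      · rw [dist_comm]; exact h3
      · rw [dist_comm]; exact h2)
  apply key
  intro j k hjk
  -- the action of `d k` in terms of `d j`
  have hdk : ∀ t, F.act (d k) (π t) = F.act (d j) (F.act ((d j)⁻¹ * d k) (π t)) := by
    intro t
    rw [← act_mul F _ _ (hnc t)]
    congr 1
    group
  by_cases hc : (d j)⁻¹ * d k ∈ Subgroup.zpowers κ
  · obtain ⟨n, hn⟩ := Subgroup.mem_zpowers_iff.1 hc
    have h2 : x (2 * k) + (n:ℝ) < x (2 * k + 2) + n := by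
      have := hxm (show 2 * k < 2 * k + 2 by omega)
      linarith
    refine ⟨(fun t => F.act (d j) (π t)) '' Ioo (x (2 * k) + n) (x (2 * k + 2) + n), ?_, ?_, ?_, ?_⟩
    · exact isPreconnected_Ioo.image _ (RH_fcont fr (d j)).continuousOn
    · rintro _ ⟨t, -, rfl⟩
      rw [mem_sphere_zero_iff_norm]
      exact act_eq F (d j) (fr.πn _)
    · rintro i ⟨t, ht, hti⟩
      have h3 := act_inj F (d j) (hmem _) (hmem _) hti
      obtain ⟨m, hm, -⟩ := fr.inj _ _ h3
      -- `x (2 j + i) = t + m`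
      have h4 := hx0 (2 * j + (i:ℕ))
      have h5 := hxb (2 * j + (i:ℕ))
      have h6 := hx0 (2 * k)
      have h7 := hxb (2 * k + 2)
      obtain ⟨ht1, ht2⟩ := ht
      have h8 : (-1 : ℝ) < ((n + m : ℤ) : ℝ) := by
        push_cast
        have := hxb (2 * k)
        linarith [hx0 (2 * k + 2)]
      have h9 : ((n + m : ℤ) : ℝ) < 1 := by
        push_cast
        have := hx0 (2 * k + 2)
        have := hxb (2 * k)
        linarith
      have h10 : n + m = 0 := by
        have h8' : (-1 : ℤ) < n + m := by exact_mod_cast h8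
        have h9' : n + m < 1 := by exact_mod_cast h9
        omega
      have h11 : (m : ℝ) = -n := by
        have : ((n + m : ℤ) : ℝ) = 0 := by rw [h10]; simp
        push_cast at this
        linarith
      have h12 : x (2 * k) < x (2 * j + (i:ℕ)) := by linarith
      have h13 : x (2 * j + (i:ℕ)) < x (2 * k + 2) := by linarith
      have h14 := hxm.lt_iff_lt.1 h12
      have h15 := hxm.lt_iff_lt.1 h13
      have h16 := i.2
      omega
    · intro i
      have h3 : F.act (d k) (π (x (2 * k + (i:ℕ)))) = F.act (d j) (π (x (2 * k + (i:ℕ)) + n)) := by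
        rw [hdk, ← hn, ← Frame.pow fr]
      show F.act (d k) (π (x (2 * k + (i:ℕ)))) ∈ _
      rw [h3]
      apply image_closure_subset_closure_image (RH_fcont fr (d j))
      refine ⟨x (2 * k + (i:ℕ)) + n, ?_, rfl⟩
      rw [closure_Ioo h2.ne]
      have h16 := i.2
      have h17 := hxm.monotone (show 2 * k ≤ 2 * k + (i:ℕ) by omega)
      have h18 := hxm.monotone (show 2 * k + (i:ℕ) ≤ 2 * k + 2 by omega)
      exact ⟨by linarith, by linarith⟩
  · obtain ⟨l, r, hlr, hφ, hincl⟩ := incl fr he R hc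
    refine ⟨(fun t => F.act (d j) (π t)) '' Ioo l r, ?_, ?_, ?_, ?_⟩
    · exact isPreconnected_Ioo.image _ (RH_fcont fr (d j)).continuousOn
    · rintro _ ⟨t, -, rfl⟩
      rw [mem_sphere_zero_iff_norm]
      exact act_eq F (d j) (fr.πn _)
    · rintro i ⟨t, ht, hti⟩
      have h3 := act_inj F (d j) (hmem _) (hmem _) hti
      obtain ⟨m, hm, -⟩ := fr.inj _ _ h3
      have h4 : t = x (2 * j + (i:ℕ)) + ((-m : ℤ) : ℝ) := by
        rw [hm]; push_cast; ring
      have h5 := C_int R.φ1 (-m) (hxC (2 * j + (i:ℕ)))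
      rw [← h4] at h5
      exact C_fibre R.φm hφ ht.1 ht.2 h5
    · intro i
      show F.act (d k) (π (x (2 * k + (i:ℕ)))) ∈ _
      rw [hdk]
      obtain ⟨s, hs, hs2⟩ := hincl (x (2 * k + (i:ℕ))) (hxC _)
      rw [← hs2]
      apply image_closure_subset_closure_image (RH_fcont fr (d j))
      refine ⟨s, ?_, rfl⟩
      rw [closure_Ioo hlr.ne]
      exact hs

end TN
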