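import Pool.Agent.H12.TN.FF
import Pool.Agent.H12.TN.RA
import Pool.Agent.H12.TN.RH

/-!
RI (case A: the whole circle).  `π t = exp (2 π i t)`, `κ = 1`.  `circle_lift` (with `he.cont`, `he.mapS`, `he.inj`, `he.orient`) gives `h`; it is onto (continuous, `h (t+n) = h t + n`).
`inj`: `exp (2 π i s) = exp (2 π i t)` iff `t - s` is an integer.  `range π` = the circle.  `meet`: `F.lim` is not empty (`lim_infinite`).  `fixR`: the attracting point is on the circle.
`rotA`: `frame_rot` gives `h^[n] t = t + m`, so `e.H^[n] (π t) = π (h^[n] t) = π t`; `iter_H` with `n - 1`.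
-/

namespace TN
open Metric Set Filter Topology DS

variable {Γ : Type} [Group Γ]

private theorem RI_norm (t : ℝ) : ‖Complex.exp (2 * Real.pi * t * Complex.I)‖ = 1 := by
  have h : (2 * Real.pi * t * Complex.I : ℂ) = ((2 * Real.pi * t : ℝ) : ℂ) * Complex.I := by
    push_cast; ring
  rw [h, Complex.norm_exp_ofReal_mul_I]

private theorem RI_range {ξ : ℂ} (hξ : ‖ξ‖ = 1) :
    ξ ∈ range fun t : ℝ => Complex.exp (2 * Real.pi * t * Complex.I) := by
  refine ⟨ξ.arg / (2 * Real.pi), ?_⟩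
  have h1 := Complex.norm_mul_exp_arg_mul_I ξ
  rw [hξ, Complex.ofReal_one, one_mul] at h1
  have h2 : (2 * Real.pi * ((ξ.arg / (2 * Real.pi) : ℝ) : ℂ) * Complex.I : ℂ) = ξ.arg * Complex.I := by
    have hpi : (Real.pi : ℂ) ≠ 0 := Complex.ofReal_ne_zero.2 Real.pi_ne_zero
    push_cast
    field_simp
  show Complex.exp (2 * Real.pi * ((ξ.arg / (2 * Real.pi) : ℝ) : ℂ) * Complex.I) = ξ
  rw [h2, h1]

theorem frameA (F : Fuchs Γ) (hN : F.Nonel) {e : Elt Γ} (he : Norm F e) :
    ∃ h, Frame F e 1 (fun t => Complex.exp (2 * Real.pi * t * Complex.I)) h := by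
  obtain ⟨h, hc, hm, h1, hH⟩ := circle_lift (he.cont.mono sphere_subset_closedBall) he.mapS
    (he.inj.mono sphere_subset_closedBall) he.orient
  have hhn : ∀ (n : ℕ) t, h (t + n) = h t + n := by
    intro n
    induction n with
    | zero => intro t; simp
    | succ n ih =>
      intro t
      push_cast
      rw [← add_assoc, h1, ih, add_assoc]
  have hhs : Function.Surjective h := by
    refine hc.surjective ?_ ?_
    · refine hm.monotone.tendsto_atTop_atTop fun b => ?_
      obtain ⟨n, hn⟩ := exists_nat_ge (b - h 0)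
      refine ⟨0 + n, ?_⟩
      rw [hhn]
      linarith
    · refine hm.monotone.tendsto_atBot_atBot fun b => ?_
      obtain ⟨n, hn⟩ := exists_nat_ge (h 0 - b)
      refine ⟨-(n : ℝ), ?_⟩
      have h2 := hhn n (-(n : ℝ))
      rw [neg_add_cancel] at h2
      linarith
  refine ⟨h, ?_, RI_norm, hc, hm, hhs, h1, hH, ?_, map_one _, ?_, ?_, ?_, ?_⟩
  · fun_prop
  · intro t
    rw [act_one F (RI_norm t).le]
    show Complex.exp (2 * Real.pi * ((t + 1 : ℝ) : ℂ) * Complex.I) = _
    have h2 : (2 * Real.pi * ((t + 1 : ℝ) : ℂ) * Complex.I : ℂ) =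
        2 * Real.pi * t * Complex.I + 2 * Real.pi * Complex.I := by
      push_cast; ring
    rw [h2, Complex.exp_add, Complex.exp_two_pi_mul_I, mul_one]
  · intro s t hst
    obtain ⟨n, hn⟩ := Complex.exp_eq_exp_iff_exists_int.1 hst.symm
    refine ⟨n, ?_, one_zpow n⟩
    have h2 : (2 * Real.pi * Complex.I : ℂ) ≠ 0 := Complex.two_pi_I_ne_zero
    have h3 : ((t : ℂ)) = s + n := by
      apply mul_left_cancel₀ h2
      linear_combination hn
    exact_mod_cast h3
  · have h2 : {ξ | ξ ∈ F.lim ∧ ξ ∉ range fun t : ℝ => Complex.exp (2 * Real.pi * t * Complex.I)} = ∅ := by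
      rw [Set.eq_empty_iff_forall_notMem]
      rintro ξ ⟨h3, h4⟩
      exact h4 (RI_range h3.1)
    rw [h2]
    exact Set.finite_empty
  · obtain ⟨ξ, hξ⟩ := (lim_infinite F hN).nonempty
    obtain ⟨t, ht⟩ := RI_range hξ.1
    refine ⟨t, ?_⟩
    rw [← ht] at hξ
    exact hξ
  · intro c _ a b hab
    exact Or.inl (RI_range hab.np)

theorem rotA (F : Fuchs Γ) (hN : F.Nonel) (hT : F.TC) {e : Elt Γ} (he : Norm F e) :
    ∃ n : ℕ, ∃ ξ : ℂ, ‖ξ‖ = 1 ∧ (e.iter n).H ξ = ξ := by
  obtain ⟨h, fr⟩ := frameA F hN he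
  obtain ⟨n, hn, m, t, ht⟩ := frame_rot hT fr he
  refine ⟨n - 1, Complex.exp (2 * Real.pi * t * Complex.I), RI_norm t, ?_⟩
  have h1 : ∀ k : ℕ, ∀ s : ℝ, e.H^[k] (Complex.exp (2 * Real.pi * s * Complex.I)) =
      Complex.exp (2 * Real.pi * (h^[k] s : ℝ) * Complex.I) := by
    intro k
    induction k with
    | zero => intro s; rfl
    | succ k ih =>
      intro s
      rw [Function.iterate_succ_apply, Function.iterate_succ_apply, ← ih (h s)]
      congr 1
      exact fr.πh s
  rw [Elt.iter_H, Nat.sub_add_cancel hn, h1, ht]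
  have h2 := fr.pow t m
  simp only [one_zpow] at h2
  rw [act_one F (RI_norm t).le] at h2
  exact h2

end TN
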