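import Pool.Agent.H12.TN.CP
import Pool.Agent.H12.TN.RH

/-!
RJ (case B: the arc opposite to a gap).  `J = {ξ | ‖ξ‖ = 1, 0 < re (eta p q ξ)}` is the gap, `R = {ξ | ‖ξ‖ = 1, re (eta p q ξ) < 0}` the opposite arc: the circle is the disjoint union of `J`, `R`, `{p, q}`
(`eta` is real and nonzero on the circle off `p, q`).  `om` maps `R` homeomorphically onto the line `im = π`, `om (act κ x) = om x + l`, `l > 0` (CP).
`frameB`: `π t = omi p q (l t + π I)`, `h t = (om p q (e.H (π t))).re / l`.  `e.H` maps `R` onto `R` because it maps `J` onto `J` and fixes `p`, `q` (`e.H` commutes with `κ`: `AR.norm`, `AR.unique`).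
`h` is continuous, injective, `h (t + 1) = h t + 1` (`e.H (act κ x) = act κ (e.H x)`), so it is strictly increasing and onto.  `inj`: `π` is injective, `n = 0`.
`fin`: `F.lim` does not meet `J`, so `F.lim` minus `range π = R` is contained in `{p, q}`.  `meet`: `F.lim` is infinite.
`fixR`: let `AR c a b`; `a, b ∈ F.lim` (`AR.lim`); if both are not in `R` they are in `{p, q}` and distinct, so `act c p = p`, and `c ∈ zpowers κ` by `hst`.
-/

namespace TN
open Metric Set Filter Topology DS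

variable {Γ : Type} [Group Γ]

private theorem RJ_pt {p q : ℂ} (hp : ‖p‖ = 1) (hq : ‖q‖ = 1) (hpq : p ≠ q) (s : ℝ) :
    ((s : ℂ) + Real.pi * Complex.I ∈ Str) ∧ ‖omi p q ((s : ℂ) + Real.pi * Complex.I)‖ = 1 ∧
    omi p q ((s : ℂ) + Real.pi * Complex.I) ∈ Dpq p q ∧
    om p q (omi p q ((s : ℂ) + Real.pi * Complex.I)) = (s : ℂ) + Real.pi * Complex.I := by
  have him : ((s : ℂ) + Real.pi * Complex.I).im = Real.pi := by simp
  have hS : ((s : ℂ) + Real.pi * Complex.I) ∈ Str := by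
    refine ⟨?_, ?_⟩
    · rw [him]; exact Real.pi_pos.le
    · rw [him]
  exact ⟨hS, omi_sphere hp hq hpq (Or.inr him), omi_mem hp hq hpq hS, om_omi hp hq hpq hS⟩

private theorem RJ_back {p q : ℂ} (hp : ‖p‖ = 1) (hq : ‖q‖ = 1) (hpq : p ≠ q) {l : ℝ} (hl : 0 < l)
    {x : ℂ} (hx : x ∈ Dpq p q) (him : (om p q x).im = Real.pi) :
    x = omi p q (((l * ((om p q x).re / l) : ℝ) : ℂ) + Real.pi * Complex.I) := by
  have h1 : (((l * ((om p q x).re / l) : ℝ) : ℂ) + Real.pi * Complex.I) = om p q x := by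
    rw [mul_div_cancel₀ _ hl.ne']
    apply Complex.ext
    · simp
    · simp [him]
  rw [h1, omi_om hp hq hpq hx]

theorem frameB (F : Fuchs Γ) (hI : F.lim.Infinite) {e : Elt Γ} (he : Norm F e) {κ : Γ} {p q : ℂ}
    (hκ : F.AR κ p q) (hc : e.θ κ = κ) (hst : ∀ g, F.act g p = p ↔ g ∈ Subgroup.zpowers κ)
    (hgap : ∀ ξ : ℂ, ‖ξ‖ = 1 → 0 < (eta p q ξ).re → ξ ∉ F.lim)
    (hJ : ∀ ξ : ℂ, ‖ξ‖ = 1 → (0 < (eta p q ξ).re ↔ 0 < (eta p q (e.H ξ)).re)) :
    ∃ π h, Frame F e κ π h ∧ ∀ t, π t ≠ p ∧ π t ≠ q := by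
  have hp := hκ.np
  have hq := hκ.nq
  have hpq := hκ.ne
  obtain ⟨l, hl, hom⟩ := om_act hκ
  -- the fixed points of `e.H`
  have hfix := AR.norm hκ he
  rw [hc] at hfix
  obtain ⟨hHp, hHq⟩ := AR.unique hfix hκ
  have hcb : ∀ x : ℂ, ‖x‖ ≤ 1 → x ∈ closedBall (0:ℂ) 1 := fun x hx => by simpa using hx
  have hinjH : ∀ x y : ℂ, ‖x‖ ≤ 1 → ‖y‖ ≤ 1 → e.H x = e.H y → x = y := by
    intro x y hx hy hxy
    rw [← he.left x (hcb x hx), ← he.left y (hcb y hy), hxy]
  have hHs : ∀ x : ℂ, ‖x‖ = 1 → ‖e.H x‖ = 1 := by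
    intro x hx
    have := he.mapS (show x ∈ sphere (0:ℂ) 1 by simpa using hx)
    simpa using this
  have hR : ∀ x : ℂ, ‖x‖ = 1 → x ∈ Dpq p q → (om p q x).im = Real.pi →
      e.H x ∈ Dpq p q ∧ (om p q (e.H x)).im = Real.pi := by
    intro x hx hD him
    have h1 : e.H x ≠ p := by
      intro h
      apply hD.2.1
      exact hinjH x p hx.le hp.le (h.trans hHp.symm)
    have h2 : e.H x ≠ q := by
      intro h
      apply hD.2.2
      exact hinjH x q hx.le hq.le (h.trans hHq.symm)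
    refine ⟨⟨(hHs x hx).le, h1, h2⟩, ?_⟩
    rcases om_im_zero hp hq hpq (hHs x hx) h1 h2 with h3 | h3
    · exfalso
      have h4 := (hJ x hx).2 h3.2
      rcases om_im_zero hp hq hpq hx hD.2.1 hD.2.2 with h5 | h5
      · rw [h5.1] at him
        exact Real.pi_pos.ne him
      · linarith [h5.2]
    · exact h3.1
  set π : ℝ → ℂ := fun t => omi p q (((l * t : ℝ) : ℂ) + Real.pi * Complex.I) with hπ
  have hπS : ∀ t : ℝ, (((l * t : ℝ) : ℂ) + Real.pi * Complex.I) ∈ Str := fun t =>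
    (RJ_pt hp hq hpq (l * t)).1
  have hπn : ∀ t, ‖π t‖ = 1 := fun t => (RJ_pt hp hq hpq (l * t)).2.1
  have hπD : ∀ t, π t ∈ Dpq p q := fun t => (RJ_pt hp hq hpq (l * t)).2.2.1
  have hπo : ∀ t, om p q (π t) = ((l * t : ℝ) : ℂ) + Real.pi * Complex.I := fun t =>
    (RJ_pt hp hq hpq (l * t)).2.2.2
  have hπim : ∀ t, (om p q (π t)).im = Real.pi := by
    intro t
    rw [hπo]
    simp
  set h : ℝ → ℝ := fun t => (om p q (e.H (π t))).re / l with hh
  have hHπ : ∀ t, e.H (π t) ∈ Dpq p q ∧ (om p q (e.H (π t))).im = Real.pi := fun t =>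
    hR (π t) (hπn t) (hπD t) (hπim t)
  have hπh : ∀ t, e.H (π t) = π (h t) := fun t => RJ_back hp hq hpq hl (hHπ t).1 (hHπ t).2
  have hπinj : ∀ s t, π s = π t → s = t := by
    intro s t hst'
    have h1 := congrArg (fun z => (om p q z).re) hst'
    simp only [hπo] at h1
    simp only [Complex.add_re, Complex.ofReal_re, Complex.mul_re, Complex.I_re, mul_zero,
      Complex.ofReal_im, Complex.I_im, mul_one, sub_self, add_zero] at h1
    exact mul_left_cancel₀ hl.ne' h1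
  have hπκ : ∀ t, π (t + 1) = F.act κ (π t) := by
    intro t
    obtain ⟨h1, h2⟩ := hom (π t) (hπD t)
    rw [← omi_om hp hq hpq h1, h2, hπo]
    show omi p q (((l * (t + 1) : ℝ) : ℂ) + Real.pi * Complex.I) = _
    congr 1
    push_cast
    ring
  have hπc : Continuous π := by
    have h1 : Continuous fun t : ℝ => (((l * t : ℝ) : ℂ) + Real.pi * Complex.I) := by fun_prop
    exact (omi_cont hp hq hpq).comp_continuous h1 hπS
  have hhc : Continuous h := by
    have h1 : Continuous fun t => e.H (π t) :=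
      he.cont.comp_continuous hπc fun t => hcb _ (hπn t).le
    have h2 : Continuous fun t => om p q (e.H (π t)) :=
      (om_cont hp hq hpq).comp_continuous h1 fun t => (hHπ t).1
    exact (Complex.continuous_re.comp h2).div_const l
  have hh1 : ∀ t, h (t + 1) = h t + 1 := by
    intro t
    apply hπinj
    rw [← hπh, hπκ, he.equi κ _ (hcb _ (hπn t).le), hc, hπh, hπκ]
  have hhinj : Function.Injective h := by
    intro s t hst'
    apply hπinj
    apply hinjH _ _ (hπn s).le (hπn t).le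
    rw [hπh, hπh, hst']
  have hhm : StrictMono h := by
    rcases hhc.strictMono_of_inj hhinj with h1 | h1
    · exact h1
    · exfalso
      have h2 := h1 (lt_add_one (0:ℝ))
      rw [hh1] at h2
      linarith
  have hhn : ∀ (n : ℕ) t, h (t + n) = h t + n := by
    intro n
    induction n with
    | zero => intro t; simp
    | succ n ih =>
      intro t
      push_cast
      rw [← add_assoc, hh1, ih, add_assoc]
  have hhs : Function.Surjective h := by
    refine hhc.surjective ?_ ?_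
    · refine hhm.monotone.tendsto_atTop_atTop fun b => ?_
      obtain ⟨n, hn⟩ := exists_nat_ge (b - h 0)
      refine ⟨0 + n, ?_⟩
      rw [hhn]
      linarith
    · refine hhm.monotone.tendsto_atBot_atBot fun b => ?_
      obtain ⟨n, hn⟩ := exists_nat_ge (h 0 - b)
      refine ⟨-(n : ℝ), ?_⟩
      have h2 := hhn n (-(n : ℝ))
      rw [neg_add_cancel] at h2
      linarith
  have hlim : ∀ ξ ∈ F.lim, ξ ≠ p → ξ ≠ q → ξ ∈ range π := by
    intro ξ hξ h1 h2
    have hn : ‖ξ‖ = 1 := hξ.1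
    rcases om_im_zero hp hq hpq hn h1 h2 with h3 | h3
    · exact absurd hξ (hgap ξ hn h3.2)
    · exact ⟨_, (RJ_back hp hq hpq hl ⟨hn.le, h1, h2⟩ h3.1).symm⟩
  have hlim2 : ∀ ξ ∈ F.lim, ξ ∉ range π → ξ = p ∨ ξ = q := by
    intro ξ hξ h1
    by_contra h2
    push Not at h2
    exact h1 (hlim ξ hξ h2.1 h2.2)
  refine ⟨π, h, ?_, fun t => ⟨(hπD t).2.1, (hπD t).2.2⟩⟩
  refine ⟨hπc, hπn, hhc, hhm, hhs, hh1, hπh, hπκ, hc, ?_, ?_, ?_, ?_⟩
  · intro s t hst'
    refine ⟨0, ?_, zpow_zero κ⟩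
    rw [hπinj s t hst']
    simp
  · refine (Set.toFinite {p, q}).subset ?_
    rintro ξ ⟨h1, h2⟩
    exact hlim2 ξ h1 h2
  · obtain ⟨ξ, hξ, h1⟩ := hI.exists_notMem_finite (Set.toFinite {p, q})
    have h2 : ξ ≠ p ∧ ξ ≠ q := by
      constructor
      · rintro rfl; exact h1 (by simp)
      · rintro rfl; exact h1 (by simp)
    obtain ⟨t, ht⟩ := hlim ξ hξ h2.1 h2.2
    exact ⟨t, by rw [ht]; exact hξ⟩
  · intro c hcz a b hab
    by_contra hcon
    push Not at hcon
    obtain ⟨hla, hlb⟩ := AR.lim hab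
    have hfp : F.act c p = p := by
      rcases hlim2 a hla hcon.1 with h1 | h1
      · rw [← h1]; exact hab.fp
      · rcases hlim2 b hlb hcon.2 with h2 | h2
        · rw [← h2]; exact hab.fq
        · exact absurd (h1.trans h2.symm) hab.ne
    exact hcz ((hst c).1 hfp)

end TN
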