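import Pool.Agent.H12.TN.GP
import Pool.Agent.H12.TN.FF
import Pool.Agent.H12.TN.RJ

/-!
RK (case B: an element of the family preserving a gap and commuting with its stabiliser).
`gap_pres`: `J = {ξ | ‖ξ‖ = 1, 0 < re (eta p q ξ)}` is connected (image of the real line under `omi`, CO), its image under `f.H` is connected, contained in the circle minus `F.lim`, hence in the circle
minus `{p, q}` = `J ∪ R`, `R = {re (eta p q ξ) < 0}`, two relatively open sets; it contains `f.H y ∈ J`.  So `f.H` maps `J` to `J`, and so does `f.Hi` (it maps `f.H y ∈ J` to `y ∈ J`).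
`gap_sq`: `f.H p` is in the closure of `f.H (J) = J`, which is contained in `J ∪ {p, q}` (the complement of `R`, `R` open in the circle), and in `F.lim` (`lim_iff`), so in `{p, q}`; same for `q`; `f.H` is injective,
so it permutes `{p, q}` and `f.H (f.H p) = p`, `f.H (f.H q) = q`.  Let `f2 = f.comp f`.  `AR (f2.θ κ) p q` (`AR.norm`), so `f2.θ κ` fixes `p`: `f2.θ κ = κ^n`; the same for `f2.inv`: `f2.θ.symm κ = κ^m`.
`κ = f2.θ (κ^m) = κ^(n m)`, so `n m = 1` (`pow_inj`), `n = ± 1`, and `n = -1` would give `AR κ⁻¹ p q`, contradiction to `AR.inv`, `AR.unique`.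
`rotB`: `gaps`; a point `ξ₀` of the circle not in `F.lim` (`hL` and `F.lim ⊆ sphere`).  Let `e ∈ 𝓗` and `ξ_0 = ξ₀`, `ξ_n = (e.iter (n-1)).H ξ₀ = e.H^[n] ξ₀` not in `F.lim`.  `Gaps.all` gives `g_n`, `i_n` with
`0 < re (eta (p i_n) (q i_n) (act g_n ξ_n))`.  Pigeonhole: `m < n` with `i_m = i_n = i`.  Let `e' = e.iter (n - m - 1)` (so `e'.H ξ_m = ξ_n`) and `f = e'.lmul F (g_n * e'.θ g_m⁻¹)`; `f ∈ 𝓗` and
`f.H (act g_m ξ_m) = act g_n (act (e'.θ g_m⁻¹) (e'.H (act g_m ξ_m))) = act g_n (e'.H ξ_m) = act g_n ξ_n`.  So `gap_pres`, `gap_sq` apply to `f` with `y = act g_m ξ_m`; `f2 = f.comp f ∈ 𝓗`, `f2.θ κ = κ`.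
`frameB` for `f2` (`F.lim` infinite: `lim_infinite`), `frame_rot` gives `h^[n] t = t + m`, and `f3 = f2.tw F κ n (-m)` fixes `π t` (`Frame.tw_H`), `f3.θ κ = κ` (`Frame.tw_theta`), `f3 ∈ 𝓗` (`Fam.tw`).
-/

namespace TN
open Metric Set Filter Topology DS

variable {Γ : Type} [Group Γ]

theorem RK_mem {p q : ℂ} {ξ : ℂ} (hξ : ‖ξ‖ = 1) (h : (eta p q ξ).re ≠ 0) : ξ ∈ Dpq p q := by
  refine ⟨hξ.le, ?_, ?_⟩
  · rintro rfl
    apply h
    simp [eta]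
  · rintro rfl
    apply h
    simp [eta]

/-- the gap is the image of the real line -/
theorem RK_J {p q : ℂ} (hp : ‖p‖ = 1) (hq : ‖q‖ = 1) (hpq : p ≠ q) :
    {ξ : ℂ | ‖ξ‖ = 1 ∧ 0 < (eta p q ξ).re} = omi p q '' {ω : ℂ | ω.im = 0} := by
  ext ξ
  constructor
  · rintro ⟨h1, h2⟩
    have hD := RK_mem h1 h2.ne'
    refine ⟨om p q ξ, ?_, omi_om hp hq hpq hD⟩
    rcases om_im_zero hp hq hpq h1 hD.2.1 hD.2.2 with h3 | h3
    · exact h3.1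
    · exact absurd h2 (not_lt.2 h3.2.le)
  · rintro ⟨ω, hω, rfl⟩
    have hω' : ω.im = 0 := hω
    have hS : ω ∈ Str := ⟨hω'.ge, by rw [hω']; exact Real.pi_pos.le⟩
    have hD := omi_mem hp hq hpq hS
    refine ⟨omi_sphere hp hq hpq (Or.inl hω'), ?_⟩
    rw [← exp_om hp hq hpq hD.2.1 hD.2.2, om_omi hp hq hpq hS, Complex.exp_re, hω', Real.cos_zero,
      mul_one]
    exact Real.exp_pos _

theorem RK_line_mem {p q : ℂ} (hp : ‖p‖ = 1) (hq : ‖q‖ = 1) (hpq : p ≠ q) (t : ℝ) :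
    ‖omi p q t‖ = 1 ∧ 0 < (eta p q (omi p q t)).re := by
  have h : omi p q t ∈ {ξ : ℂ | ‖ξ‖ = 1 ∧ 0 < (eta p q ξ).re} := by
    rw [RK_J hp hq hpq]
    exact ⟨(t : ℂ), Complex.ofReal_im t, rfl⟩
  exact h

theorem RK_eta_ne {p q : ℂ} (hp : ‖p‖ = 1) (hq : ‖q‖ = 1) (hpq : p ≠ q) {ξ : ℂ} (hξ : ‖ξ‖ = 1)
    (h1 : ξ ≠ p) (h2 : ξ ≠ q) : (eta p q ξ).re ≠ 0 := by
  intro h
  apply eta_ne hp hq hpq h1 h2
  apply Complex.ext
  · exact h
  · rw [eta_im hp hq, hξ]; simp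

theorem RK_eta_cont {p q : ℂ} {ξ : ℂ} (h1 : ξ ≠ p) :
    ContinuousAt (fun x => (eta p q x).re) ξ := by
  have h : ContinuousAt (eta p q) ξ := by
    unfold eta
    exact (continuousAt_const.mul (continuousAt_id.sub continuousAt_const)).div
      (continuousAt_const.sub continuousAt_id) (sub_ne_zero.2 (Ne.symm h1))
  exact Complex.continuous_re.continuousAt.comp h

theorem RK_half (F : Fuchs Γ) {f : Elt Γ} (hf : Norm F f) {κ : Γ} {p q : ℂ} (hκ : F.AR κ p q)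
    (hgap : ∀ ξ : ℂ, ‖ξ‖ = 1 → 0 < (eta p q ξ).re → ξ ∉ F.lim) {y : ℂ} (hy : ‖y‖ = 1)
    (hyJ : 0 < (eta p q y).re) (hfy : 0 < (eta p q (f.H y)).re) :
    ∀ ξ : ℂ, ‖ξ‖ = 1 → 0 < (eta p q ξ).re → 0 < (eta p q (f.H ξ)).re := by
  have hp := hκ.np
  have hq := hκ.nq
  have hpq := hκ.ne
  set J : Set ℂ := {ξ : ℂ | ‖ξ‖ = 1 ∧ 0 < (eta p q ξ).re} with hJ
  have hJc : IsPreconnected J := by
    rw [hJ, RK_J hp hq hpq]
    have h1 : IsPreconnected {ω : ℂ | ω.im = 0} := by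
      have h2 : Convex ℝ {ω : ℂ | ω.im = 0} := by
        intro x hx y hy a b _ _ _
        simp only [mem_ofPred_eq] at hx hy ⊢
        simp [hx, hy]
      exact h2.isPreconnected
    refine h1.image _ ((omi_cont hp hq hpq).mono ?_)
    intro ω hω
    have hω' : ω.im = 0 := hω
    exact ⟨hω'.ge, by rw [hω']; exact Real.pi_pos.le⟩
  have hJB : J ⊆ closedBall (0:ℂ) 1 := fun ξ hξ => by
    rw [mem_closedBall_zero_iff]; exact hξ.1.le
  have hnorm : ∀ ξ ∈ J, ‖f.H ξ‖ = 1 := by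
    intro ξ hξ
    have := hf.mapS (show ξ ∈ sphere (0:ℂ) 1 by rw [mem_sphere_zero_iff_norm]; exact hξ.1)
    rwa [mem_sphere_zero_iff_norm] at this
  have hnl : ∀ ξ ∈ J, f.H ξ ∉ F.lim := by
    intro ξ hξ h
    exact hgap ξ hξ.1 hξ.2 ((hf.lim_iff hξ.1).1 h)
  have hnp : ∀ ξ ∈ J, f.H ξ ≠ p := fun ξ hξ h => hnl ξ hξ (h ▸ (AR.lim hκ).1)
  have hnq : ∀ ξ ∈ J, f.H ξ ≠ q := fun ξ hξ h => hnl ξ hξ (h ▸ (AR.lim hκ).2)
  have hcont : ContinuousOn (fun ξ => (eta p q (f.H ξ)).re) J := by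
    intro ξ hξ
    exact ContinuousAt.comp_continuousWithinAt (g := fun x => (eta p q x).re) (f := f.H)
      (RK_eta_cont (hnp ξ hξ)) ((hf.cont.mono hJB) ξ hξ)
  have himg := hJc.image _ hcont
  intro ξ h1 h2
  by_contra hcon
  push Not at hcon
  have hmem0 : (0:ℝ) ∈ (fun ξ => (eta p q (f.H ξ)).re) '' J :=
    (isPreconnected_iff_ordConnected.1 himg).out ⟨ξ, ⟨h1, h2⟩, rfl⟩ ⟨y, ⟨hy, hyJ⟩, rfl⟩
      ⟨hcon, hfy.le⟩
  obtain ⟨η, hη, h0⟩ := hmem0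
  exact RK_eta_ne hp hq hpq (hnorm η hη) (hnp η hη) (hnq η hη) h0

theorem gap_pres (F : Fuchs Γ) {f : Elt Γ} (hf : Norm F f) {κ : Γ} {p q : ℂ} (hκ : F.AR κ p q)
    (hgap : ∀ ξ : ℂ, ‖ξ‖ = 1 → 0 < (eta p q ξ).re → ξ ∉ F.lim) {y : ℂ} (hy : ‖y‖ = 1)
    (hyJ : 0 < (eta p q y).re) (hfy : 0 < (eta p q (f.H y)).re) :
    ∀ ξ : ℂ, ‖ξ‖ = 1 → (0 < (eta p q ξ).re ↔ 0 < (eta p q (f.H ξ)).re) := by
  have hfn : ∀ ξ : ℂ, ‖ξ‖ = 1 → ‖f.H ξ‖ = 1 := by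
    intro ξ hξ
    have := hf.mapS (show ξ ∈ sphere (0:ℂ) 1 by rw [mem_sphere_zero_iff_norm]; exact hξ)
    rwa [mem_sphere_zero_iff_norm] at this
  have hleft : ∀ ξ : ℂ, ‖ξ‖ = 1 → f.Hi (f.H ξ) = ξ := fun ξ hξ =>
    hf.left ξ (by rw [mem_closedBall_zero_iff]; exact hξ.le)
  intro ξ hξ
  refine ⟨RK_half F hf hκ hgap hy hyJ hfy ξ hξ, fun h => ?_⟩
  have h1 := RK_half F hf.inv hκ hgap (hfn y hy) hfy
    (show 0 < (eta p q (f.inv.H (f.H y))).re by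
      change 0 < (eta p q (f.Hi (f.H y))).re
      rw [hleft y hy]; exact hyJ) (f.H ξ) (hfn ξ hξ) h
  change 0 < (eta p q (f.Hi (f.H ξ))).re at h1
  rwa [hleft ξ hξ] at h1

/-- the end points of the gap are permuted -/
theorem RK_end (F : Fuchs Γ) {f : Elt Γ} (hf : Norm F f) {κ : Γ} {p q : ℂ} (hκ : F.AR κ p q)
    (hJ : ∀ ξ : ℂ, ‖ξ‖ = 1 → (0 < (eta p q ξ).re ↔ 0 < (eta p q (f.H ξ)).re)) {z : ℂ}
    (hz : ‖z‖ = 1) (hz0 : (eta p q z).re = 0) {u : ℕ → ℝ}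
    (hu : Tendsto (fun n => omi p q (u n)) atTop (𝓝 z)) : f.H z = p ∨ f.H z = q := by
  have hp := hκ.np
  have hq := hκ.nq
  have hpq := hκ.ne
  by_contra hcon
  push Not at hcon
  have hfz : ‖f.H z‖ = 1 := by
    have := hf.mapS (show z ∈ sphere (0:ℂ) 1 by rw [mem_sphere_zero_iff_norm]; exact hz)
    rwa [mem_sphere_zero_iff_norm] at this
  have hne := RK_eta_ne hp hq hpq hfz hcon.1 hcon.2
  have hle : (eta p q (f.H z)).re ≤ 0 := by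
    by_contra h
    push Not at h
    have := (hJ z hz).2 h
    rw [hz0] at this
    exact lt_irrefl _ this
  have hzc : z ∈ closedBall (0:ℂ) 1 := by rw [mem_closedBall_zero_iff]; exact hz.le
  have ht : Tendsto (fun n => f.H (omi p q (u n))) atTop (𝓝 (f.H z)) := by
    refine (hf.cont z hzc).tendsto.comp ?_
    rw [tendsto_nhdsWithin_iff]
    exact ⟨hu, Eventually.of_forall fun n => by
      rw [mem_closedBall_zero_iff]; exact (RK_line_mem hp hq hpq (u n)).1.le⟩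
  have ht2 : Tendsto (fun n => (eta p q (f.H (omi p q (u n)))).re) atTop
      (𝓝 ((eta p q (f.H z)).re)) :=
    (RK_eta_cont (p := p) (q := q) hcon.1).tendsto.comp ht
  have hge : 0 ≤ (eta p q (f.H z)).re := by
    refine ge_of_tendsto ht2 (Eventually.of_forall fun n => ?_)
    obtain ⟨h1, h2⟩ := RK_line_mem hp hq hpq (u n)
    exact ((hJ _ h1).1 h2).le
  exact hne (le_antisymm hle hge)

theorem gap_sq (F : Fuchs Γ) {f : Elt Γ} (hf : Norm F f) {κ : Γ} {p q : ℂ} (hκ : F.AR κ p q)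
    (hst : ∀ g, F.act g p = p ↔ g ∈ Subgroup.zpowers κ)
    (hJ : ∀ ξ : ℂ, ‖ξ‖ = 1 → (0 < (eta p q ξ).re ↔ 0 < (eta p q (f.H ξ)).re)) :
    (f.comp f).θ κ = κ := by
  have hp := hκ.np
  have hq := hκ.nq
  have hpq := hκ.ne
  have htp : Tendsto (fun n : ℕ => omi p q ((n : ℝ) : ℂ)) atTop (𝓝 p) := by
    rw [Metric.tendsto_atTop]
    intro ε hε
    obtain ⟨R, hR⟩ := omi_p hp hq hpq hε
    obtain ⟨N, hN⟩ := exists_nat_ge R
    refine ⟨N, fun n hn => hR _ ⟨by simp, by simp [Real.pi_pos.le]⟩ ?_⟩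
    simp only [Complex.ofReal_re]
    exact hN.trans (by exact_mod_cast hn)
  have htq : Tendsto (fun n : ℕ => omi p q ((-(n : ℝ) : ℝ) : ℂ)) atTop (𝓝 q) := by
    rw [Metric.tendsto_atTop]
    intro ε hε
    obtain ⟨R, hR⟩ := omi_q hp hq hpq hε
    obtain ⟨N, hN⟩ := exists_nat_ge (-R)
    refine ⟨N, fun n hn => hR _ ⟨by simp, by simp [Real.pi_pos.le]⟩ ?_⟩
    simp only [Complex.ofReal_re]
    have h1 : (N : ℝ) ≤ n := by exact_mod_cast hn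
    linarith
  have hfp := RK_end F hf hκ hJ hp (by simp [eta]) (u := fun n => (n : ℝ)) htp
  have hfq := RK_end F hf hκ hJ hq (by simp [eta]) (u := fun n => -(n : ℝ)) htq
  have hpc : p ∈ closedBall (0:ℂ) 1 := by rw [mem_closedBall_zero_iff]; exact hp.le
  have hqc : q ∈ closedBall (0:ℂ) 1 := by rw [mem_closedBall_zero_iff]; exact hq.le
  have hne : f.H p ≠ f.H q := fun h => hpq (hf.inj hpc hqc h)
  have h2 : f.H (f.H p) = p ∧ f.H (f.H q) = q := by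
    rcases hfp with h | h <;> rcases hfq with h' | h'
    · exact absurd (h.trans h'.symm) hne
    · rw [h, h']; exact ⟨h, h'⟩
    · constructor
      · rw [h]; exact h'
      · rw [h']; exact h
    · exact absurd (h.trans h'.symm) hne
  set f2 : Elt Γ := f.comp f with hf2
  have hf2n : Norm F f2 := hf.comp hf
  have hf2p : f2.H p = p := h2.1
  have hf2q : f2.H q = q := h2.2
  have hip : f2.inv.H p = p := by
    change f2.Hi p = p
    have := hf2n.left p hpc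
    rwa [hf2p] at this
  have hiq : f2.inv.H q = q := by
    change f2.Hi q = q
    have := hf2n.left q hqc
    rwa [hf2q] at this
  have hA := AR.norm hκ hf2n
  rw [hf2p, hf2q] at hA
  have hB := AR.norm hκ hf2n.inv
  rw [hip, hiq] at hB
  obtain ⟨n, hn⟩ := Subgroup.mem_zpowers_iff.1 ((hst _).1 hA.fp)
  obtain ⟨m, hm⟩ := Subgroup.mem_zpowers_iff.1 ((hst _).1 hB.fp)
  have hm' : κ ^ m = f2.θ.symm κ := hm
  have h3 : κ ^ (n * m) = κ ^ (1 : ℤ) := by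
    rw [zpow_mul, hn, ← map_zpow, hm', MulEquiv.apply_symm_apply, zpow_one]
  have h4 : n * m = 1 := pow_inj F (AR.ne_one hκ) h3
  rcases Int.isUnit_iff.1 (IsUnit.of_mul_eq_one m h4) with h5 | h5
  · rw [← hn, h5, zpow_one]
  · exfalso
    rw [← hn, h5, zpow_neg_one] at hA
    exact hpq (AR.unique hA (AR.inv hκ)).1

theorem rotB (F : Fuchs Γ) (hN : F.Nonel) (hU : F.UC) (hT : F.TC) {𝓗 : Set (Elt Γ)}
    (hF : Fam F 𝓗) (hL : ∃ ξ : ℂ, ‖ξ‖ = 1 ∧ ξ ∉ F.lim) :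
    ∃ f ∈ 𝓗, ∃ κ p q ξ, F.AR κ p q ∧ (∀ g, F.act g p = p ↔ g ∈ Subgroup.zpowers κ) ∧
      f.θ κ = κ ∧ ‖ξ‖ = 1 ∧ ξ ≠ p ∧ ξ ≠ q ∧ f.H ξ = ξ := by
  obtain ⟨N, κ, p, q, G⟩ := gaps F hN hU
  obtain ⟨ξ₀, hξ₀, hξ₀L⟩ := hL
  obtain ⟨e, heH⟩ := hF.ne
  have he := hF.norm e heH
  have hmaps : ∀ (f : Elt Γ), Norm F f → ∀ ξ : ℂ, ‖ξ‖ = 1 → ‖f.H ξ‖ = 1 := by
    intro f hf ξ hξ
    have := hf.mapS (show ξ ∈ sphere (0:ℂ) 1 by rw [mem_sphere_zero_iff_norm]; exact hξ)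
    rwa [mem_sphere_zero_iff_norm] at this
  have horb : ∀ k : ℕ, ‖e.H^[k] ξ₀‖ = 1 ∧ e.H^[k] ξ₀ ∉ F.lim := by
    intro k
    induction k with
    | zero => exact ⟨hξ₀, hξ₀L⟩
    | succ k ih =>
      rw [Function.iterate_succ_apply']
      exact ⟨hmaps e he _ ih.1, fun h => ih.2 ((he.lim_iff ih.1).1 h)⟩
  choose g i hgi using fun k => G.all (e.H^[k] ξ₀) (horb k).1 (horb k).2
  obtain ⟨m, n, hmn, him⟩ : ∃ m n : ℕ, m < n ∧ i m = i n := by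
    obtain ⟨a, b, hab, h⟩ := Finite.exists_ne_map_eq_of_infinite i
    rcases lt_or_gt_of_ne hab with h1 | h1
    · exact ⟨a, b, h1, h⟩
    · exact ⟨b, a, h1, h.symm⟩
  set e' : Elt Γ := e.iter (n - m - 1) with he'
  have he'n : Norm F e' := he.iter _
  have he'm : e' ∈ 𝓗 := Elt.iter_mem hF heH _
  have he'H : e'.H (e.H^[m] ξ₀) = e.H^[n] ξ₀ := by
    rw [he', Elt.iter_H, ← Function.iterate_add_apply]
    congr 2
    omega
  set c : Γ := g n * (e'.θ (g m))⁻¹ with hc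
  set f : Elt Γ := e'.lmul F c with hf
  have hfn : Norm F f := he'n.lmul c
  have hfm : f ∈ 𝓗 := hF.lmul e' he'm c
  have hm1 := (horb m).1
  have hn1 := (horb n).1
  have hfy : f.H (F.act (g m) (e.H^[m] ξ₀)) = F.act (g n) (e.H^[n] ξ₀) := by
    change F.act c (e'.H (F.act (g m) (e.H^[m] ξ₀))) = _
    rw [he'n.equi (g m) _ (by rw [mem_closedBall_zero_iff]; exact hm1.le), he'H, hc,
      act_mul F _ _ (act_le F _ hn1.le), act_inv_act F _ hn1.le]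
  have hyJ := (hgi m).2
  have hfyJ := (hgi n).2
  rw [← him, ← hfy] at hfyJ
  have hκ := G.ar (i m)
  have hst := G.stab (i m)
  have hgap : ∀ ξ : ℂ, ‖ξ‖ = 1 → 0 < (eta (p (i m)) (q (i m)) ξ).re → ξ ∉ F.lim := by
    intro ξ h1 h2
    exact G.gap (i m) ξ h1 (RK_mem h1 h2.ne').2.1 h2
  have hJ := gap_pres F hfn hκ hgap (act_eq F _ hm1) hyJ hfyJ
  have hθ := gap_sq F hfn hκ hst hJ
  set f2 : Elt Γ := f.comp f with hf2
  have hf2n : Norm F f2 := hfn.comp hfn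
  have hf2m : f2 ∈ 𝓗 := hF.comp f hfm f hfm
  have hJ2 : ∀ ξ : ℂ, ‖ξ‖ = 1 →
      (0 < (eta (p (i m)) (q (i m)) ξ).re ↔ 0 < (eta (p (i m)) (q (i m)) (f2.H ξ)).re) := by
    intro ξ hξ
    exact (hJ ξ hξ).trans (hJ (f.H ξ) (hmaps f hfn ξ hξ))
  obtain ⟨π, h, fr, hπ⟩ := frameB F (lim_infinite F hN) hf2n hκ hθ hst hgap hJ2
  obtain ⟨k, hk, z, t, hkt⟩ := frame_rot hT fr hf2n
  refine ⟨f2.tw F (κ (i m)) k (-z), Fam.tw hF hf2m k (-z), κ (i m), p (i m), q (i m), π t, hκ, hst,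
    fr.tw_theta k (-z), fr.πn t, (hπ t).1, (hπ t).2, ?_⟩
  rw [fr.tw_H hf2n hk (-z) t, hkt]
  congr 1
  push_cast
  ring

end TN
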