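import Pool.Agent.H57.TG.TCP

/-!
TCs: cocompactness on triples of limit points (`TN.tc_of_uc`, section 3.1(e) of the note), proved in Pool/Agent/H57/TG/TCP.lean.
-/
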