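import Pool.Agent.H12.TN.NB
import Pool.Agent.H12.TN.RI
import Pool.Agent.H12.TN.RK
import Pool.Agent.H12.TN.TCs

/-!
NC (Theorem N).  Case A: `e ∈ 𝓗` has a fixed point `x₀` in the open disc.  `rotA` gives `n`, `ξ`; `f = e.iter n ∈ 𝓗`, `f.H x₀ = x₀`, `f.H ξ = ξ`.
Case B: otherwise; `rotB` gives `f ∈ 𝓗`, `κ`, `ξ` with `κ ∈ f.cen`.
`Z = f.cen` (`elem_sub`):
* `Z = ⊥`: case B impossible (`κ ≠ 1`).  Case A: by `con_bot`, `hF.bd` and `trich` all fixed points on the circle are of type `SA f.H` or `SA f.Hi`; `index0` for `f` and for `f.inv` (with `hF.holes`, `hF.holesi`, `inv_cen`): `m + #A = 1`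
and `m ≥ 1` because of `x₀` (`Holes.fix`), so there is no `SA f.H` point; for `f.inv`: `f.Hi x₀ = x₀`, so no `SA f.Hi` point; but `ξ` is one.
* `Z = zpowers κ'`, `AR κ' p' q'`: `f.θ κ' = κ'`; for fixed points off `p', q'` `con_cyc` excludes `Con`, so `index1` applies to `f` and `f.inv`: `m = 0`, and no `SA` points off `p', q'`.  Case A: contradiction with `x₀` and `Holes.fix`.
Case B: `κ ∈ zpowers κ'`, `κ = κ'^j`, `j ≠ 0`, so `{p, q} = {p', q'}` (fixed points: `act κ p' = p'`, `AR.fixed`), `ξ ≠ p', q'`, and `trich` at `ξ` gives a contradiction.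
* nonelementary: `no_nonel`.
-/

namespace TN
open Metric Set Filter Topology DS

variable {Γ : Type} [Group Γ]

/-- all fixed points on the circle of a member of the family -/
theorem NC_trich (F : Fuchs Γ) (hU : F.UC) {𝓗 : Set (Elt Γ)} (hF : Fam F 𝓗) {f : Elt Γ}
    (hf : f ∈ 𝓗) {ξ : ℂ} (hξ : ‖ξ‖ = 1) (h : f.H ξ = ξ) :
    SA f.H ξ ∨ SA f.Hi ξ ∨ F.Con f.cen ξ :=
  trich F hU (hF.norm f hf) (hF.bd f hf ξ hξ h) h

theorem NC_inv_fix (F : Fuchs Γ) {f : Elt Γ} (hf : Norm F f) {ξ : ℂ} (hξ : ‖ξ‖ ≤ 1)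
    (h : f.Hi ξ = ξ) : f.H ξ = ξ := by
  have := hf.right ξ (by simpa using hξ)
  rwa [h] at this

theorem NC_fix_inv (F : Fuchs Γ) {f : Elt Γ} (hf : Norm F f) {ξ : ℂ} (hξ : ‖ξ‖ ≤ 1)
    (h : f.H ξ = ξ) : f.Hi ξ = ξ := by
  have := hf.left ξ (by simpa using hξ)
  rwa [h] at this

/-- the trivial centraliser -/
theorem NC_bot (F : Fuchs Γ) (hU : F.UC) {𝓗 : Set (Elt Γ)} (hF : Fam F 𝓗) {f : Elt Γ}
    (hf : f ∈ 𝓗) (hZ : f.cen = ⊥) {x₀ ξ : ℂ} (hx₀ : x₀ ∈ ball (0:ℂ) 1) (hfx : f.H x₀ = x₀)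
    (hξ : ‖ξ‖ = 1) (hfξ : f.H ξ = ξ) : False := by
  have hn := hF.norm f hf
  have hT : ∀ ζ : ℂ, ‖ζ‖ = 1 → f.H ζ = ζ → SA f.H ζ ∨ SA f.Hi ζ := by
    intro ζ hζ hz
    rcases NC_trich F hU hF hf hζ hz with h | h | h
    · exact Or.inl h
    · exact Or.inr h
    · rw [hZ] at h
      exact absurd h (con_bot F hζ)
  obtain ⟨m, O, k, ho⟩ := hF.holes f hf
  obtain ⟨m', O', k', ho'⟩ := hF.holesi f hf
  rw [hZ] at ho ho'
  obtain ⟨A, hA, hcard⟩ := index0 F hn ho hT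
  have hT' : ∀ ζ : ℂ, ‖ζ‖ = 1 → f.inv.H ζ = ζ → SA f.inv.H ζ ∨ SA f.inv.Hi ζ := by
    intro ζ hζ hz
    exact (hT ζ hζ (NC_inv_fix F hn hζ.le hz)).symm
  obtain ⟨A', hA', hcard'⟩ := index0 F (e := f.inv) hn.inv ho' hT'
  obtain ⟨g, -, i, -⟩ := ho.fix x₀ hx₀ hfx
  obtain ⟨g', -, i', -⟩ := ho'.fix x₀ hx₀ (NC_fix_inv F hn (mem_ball_zero_iff.1 hx₀).le hfx)
  have hi := i.2
  have hi' := i'.2
  have h1 : A.card = 0 := by omega
  have h2 : A'.card = 0 := by omega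
  rw [Finset.card_eq_zero] at h1 h2
  rcases hT ξ hξ hfξ with h | h
  · have := (hA ξ).2 ⟨hξ, h⟩
    rw [h1] at this
    simp at this
  · have := (hA' ξ).2 ⟨hξ, h⟩
    rw [h2] at this
    simp at this

/-- the cyclic centraliser -/
theorem NC_cyc (F : Fuchs Γ) (hU : F.UC) {𝓗 : Set (Elt Γ)} (hF : Fam F 𝓗) {f : Elt Γ}
    (hf : f ∈ 𝓗) {κ : Γ} {p q : ℂ} (hκ : F.AR κ p q) (hZ : f.cen = Subgroup.zpowers κ) :
    (∀ x ∈ ball (0:ℂ) 1, f.H x ≠ x) ∧ ∀ ξ : ℂ, ‖ξ‖ = 1 → ξ ≠ p → ξ ≠ q → f.H ξ ≠ ξ := by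
  have hn := hF.norm f hf
  have hc : f.θ κ = κ := by
    have : κ ∈ f.cen := by
      rw [hZ]
      exact Subgroup.mem_zpowers κ
    exact this
  have hc' : f.inv.θ κ = κ := by
    have : κ ∈ f.inv.cen := by
      rw [Elt.inv_cen, hZ]
      exact Subgroup.mem_zpowers κ
    exact this
  have hT : ∀ ζ : ℂ, ‖ζ‖ = 1 → ζ ≠ p → ζ ≠ q → f.H ζ = ζ → SA f.H ζ ∨ SA f.Hi ζ := by
    intro ζ hζ hp hq hz
    rcases NC_trich F hU hF hf hζ hz with h | h | h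
    · exact Or.inl h
    · exact Or.inr h
    · rw [hZ] at h
      rcases con_cyc F hκ hζ h with e | e
      · exact absurd e hp
      · exact absurd e hq
  obtain ⟨m, O, k, ho⟩ := hF.holes f hf
  obtain ⟨m', O', k', ho'⟩ := hF.holesi f hf
  rw [hZ] at ho ho'
  obtain ⟨hm, hA⟩ := index1 F hn hκ hc ho hT
  have hT' : ∀ ζ : ℂ, ‖ζ‖ = 1 → ζ ≠ p → ζ ≠ q → f.inv.H ζ = ζ →
      SA f.inv.H ζ ∨ SA f.inv.Hi ζ := by
    intro ζ hζ hp hq hz
    exact (hT ζ hζ hp hq (NC_inv_fix F hn hζ.le hz)).symm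
  obtain ⟨hm', hA'⟩ := index1 F (e := f.inv) hn.inv hκ hc' ho' hT'
  constructor
  · intro x hx hfx
    obtain ⟨g, -, i, -⟩ := ho.fix x hx hfx
    have hi := i.2
    omega
  · intro ξ hξ hp hq hfξ
    rcases hT ξ hξ hp hq hfξ with h | h
    · exact hA ξ hξ hp hq h
    · exact hA' ξ hξ hp hq h

theorem no_family (F : Fuchs Γ) (hN : F.Nonel) (hU : F.UC) {𝓗 : Set (Elt Γ)} (hF : Fam F 𝓗)
    (h : (∃ e ∈ 𝓗, ∃ x ∈ ball (0:ℂ) 1, e.H x = x) ∨ ∃ ξ : ℂ, ‖ξ‖ = 1 ∧ ξ ∉ F.lim) : False := by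
  have hT := tc_of_uc F hU
  rcases h with ⟨e, he, x₀, hx₀, hex⟩ | hL
  · obtain ⟨n, ξ, hξ, hfξ⟩ := rotA F hN hT (hF.norm e he)
    have hf : e.iter n ∈ 𝓗 := Elt.iter_mem hF he n
    have hfx : (e.iter n).H x₀ = x₀ := by
      rw [Elt.iter_H]
      exact Function.iterate_fixed hex (n + 1)
    rcases elem_sub F (e.iter n).cen with hZ | ⟨κ, p, q, hκ, hZ⟩ | hZ
    · exact NC_bot F hU hF hf hZ hx₀ hfx hξ hfξ
    · exact (NC_cyc F hU hF hf hκ hZ).1 x₀ hx₀ hfx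
    · exact no_nonel F hU hF hf hZ
  · obtain ⟨f, hf, κ, p, q, ξ, hκ, -, hc, hξ, hp, hq, hfξ⟩ := rotB F hN hU hT hF hL
    have hmem : κ ∈ f.cen := hc
    rcases elem_sub F f.cen with hZ | ⟨κ', p', q', hκ', hZ⟩ | hZ
    · rw [hZ, Subgroup.mem_bot] at hmem
      exact AR.ne_one hκ hmem
    · rw [hZ] at hmem
      have h1 : F.act κ p' = p' := by
        have h2 : Subgroup.zpowers κ' ≤ FD_st F p' hκ'.np.le := by
          rw [Subgroup.zpowers_le]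
          exact hκ'.fp
        exact h2 hmem
      have h1' : F.act κ q' = q' := by
        have h2 : Subgroup.zpowers κ' ≤ FD_st F q' hκ'.nq.le := by
          rw [Subgroup.zpowers_le]
          exact hκ'.fq
        exact h2 hmem
      refine (NC_cyc F hU hF hf hκ' hZ).2 ξ hξ ?_ ?_ hfξ
      · rintro rfl
        rcases AR.fixed hκ hκ'.np.le h1 with e | e
        · exact hp e
        · exact hq e
      · rintro rfl
        rcases AR.fixed hκ hκ'.nq.le h1' with e | e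
        · exact hp e
        · exact hq e
    · exact no_nonel F hU hF hf hZ

end TN
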