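import Pool.Agent.H12.TN.MB

/-!
FA (basics on Fuchsian groups).  All by the formulas of MB.
`act_inv_act`: from `mul`, `one` (`g⁻¹ * g = 1`).  `b_eq`: `act g (b g) = 0` (numerator 0), apply `act g⁻¹`.
`norm_act_zero`: `act g 0 = - u b`.  `norm_b_inv`: `b g⁻¹ = act g 0` (by `b_eq` for `g⁻¹`).
`dact_mul`: uniqueness of derivatives in the open disc: `act (g h)` and `act g ∘ act h` agree on the ball; for
`‖x‖ = 1` by continuity of both sides on the closed ball (or by differentiating within the closed ball, which is a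
`UniqueDiffOn` set).
`proper`: if `‖x‖ ≤ r` and `‖act g x‖ ≤ r` then, by `pd (b g) x = pd (act g (b g)) (act g x) = ‖act g x‖ ≤ r`
and `norm_le_of_pd`, `‖b g‖ ≤ s < 1`; use `fin`.
`lim_inv`: if `act (g n) 0 → ξ` (points of the open disc), then `act (h * g n) 0 = act h (act (g n) 0) → act h ξ` by
continuity on the closed disc.
`lim_of_seq`: if `‖act (g n) x - ξ‖ → 0` for a fixed `x` in the disc and `‖ξ‖ = 1` then `ξ ∈ lim`: by `mob_dist` and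
`mob_pd` (`pd (act g x) (act g 0) = ‖x‖ < 1` and `‖act (g n) x‖ → 1` give `dist (act (g n) x) (act (g n) 0) → 0`).
`pd_close`: `‖x - y‖ = pd x y * ‖1 - conj x y‖ `, `‖1 - conj x y‖² = ‖x - y‖² + (1-‖x‖²)(1-‖y‖²)`, so
`‖x - y‖² (1 - r²) ≤ r² (1-‖x‖²)(1-‖y‖²) ≤ r² (1 - ‖x‖²)`.
-/

namespace TN
open Metric Set Filter Topology DS

theorem pd_close {r : ℝ} (hr : r < 1) {x y : ℂ} (hx : ‖x‖ ≤ 1) (hy : ‖y‖ ≤ 1) (h : pd x y ≤ r)
    (hne : 1 - (starRingEnd ℂ) x * y ≠ 0) :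
    ‖x - y‖ ^ 2 * (1 - r ^ 2) ≤ r ^ 2 * ((1 - ‖x‖ ^ 2) * (1 - ‖y‖ ^ 2)) := by
  have hD : 0 < ‖1 - (starRingEnd ℂ) x * y‖ := norm_pos_iff.2 hne
  have h1 : ‖x - y‖ ≤ r * ‖1 - (starRingEnd ℂ) x * y‖ := by
    unfold pd at h
    exact (div_le_iff₀ hD).1 h
  have h2 : ‖1 - (starRingEnd ℂ) x * y‖ ^ 2 =
      ‖x - y‖ ^ 2 + (1 - ‖x‖ ^ 2) * (1 - ‖y‖ ^ 2) := by
    rw [← Complex.normSq_eq_norm_sq, ← Complex.normSq_eq_norm_sq, ← Complex.normSq_eq_norm_sq,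
      ← Complex.normSq_eq_norm_sq]
    simp only [Complex.normSq_apply, Complex.sub_re, Complex.sub_im, Complex.mul_re,
      Complex.mul_im, Complex.conj_re, Complex.conj_im, Complex.one_re, Complex.one_im]
    ring
  have h3 : ‖x - y‖ ^ 2 ≤ (r * ‖1 - (starRingEnd ℂ) x * y‖) ^ 2 :=
    pow_le_pow_left₀ (norm_nonneg _) h1 2
  rw [mul_pow, h2] at h3
  nlinarith [h3]

theorem FA_uniq {x : ℂ} (hx : ‖x‖ ≤ 1) : UniqueDiffWithinAt ℂ (closedBall (0:ℂ) 1) x := by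
  refine uniqueDiffWithinAt_convex_of_isRCLikeNormedField (convex_closedBall _ _) ?_ ?_
  · rw [interior_closedBall _ one_ne_zero]
    exact ⟨0, by simp⟩
  · exact subset_closure (by simpa using hx)

variable {Γ : Type} [Group Γ] (F : Fuchs Γ)

theorem act_one {x : ℂ} (hx : ‖x‖ ≤ 1) : F.act 1 x = x := F.one x (by simpa using hx)

theorem act_mul (g h : Γ) {x : ℂ} (hx : ‖x‖ ≤ 1) : F.act (g * h) x = F.act g (F.act h x) :=
  F.mul g h x (by simpa using hx)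

theorem act_inv_act (g : Γ) {x : ℂ} (hx : ‖x‖ ≤ 1) : F.act g⁻¹ (F.act g x) = x := by
  rw [← act_mul F _ _ hx, inv_mul_cancel, act_one F hx]

theorem act_act_inv (g : Γ) {x : ℂ} (hx : ‖x‖ ≤ 1) : F.act g (F.act g⁻¹ x) = x := by
  rw [← act_mul F _ _ hx, mul_inv_cancel, act_one F hx]

theorem act_lt (g : Γ) {x : ℂ} (hx : ‖x‖ < 1) : ‖F.act g x‖ < 1 :=
  mob_ball (F.hu g) (F.hb g) hx

theorem act_le (g : Γ) {x : ℂ} (hx : ‖x‖ ≤ 1) : ‖F.act g x‖ ≤ 1 :=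
  mob_closedBall (F.hu g) (F.hb g) hx

theorem act_eq (g : Γ) {x : ℂ} (hx : ‖x‖ = 1) : ‖F.act g x‖ = 1 :=
  mob_sphere (F.hu g) (F.hb g) hx

theorem act_cont (g : Γ) : ContinuousOn (F.act g) (closedBall 0 1) :=
  mob_cont (F.hb g)

theorem act_inj (g : Γ) : InjOn (F.act g) (closedBall 0 1) := by
  intro x hx y hy h
  have hx' : ‖x‖ ≤ 1 := by simpa using hx
  have hy' : ‖y‖ ≤ 1 := by simpa using hy
  rw [← act_inv_act F g hx', ← act_inv_act F g hy', h]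

theorem act_hasDerivAt (g : Γ) {x : ℂ} (hx : ‖x‖ ≤ 1) : HasDerivAt (F.act g) (F.dact g x) x :=
  mob_hasDerivAt (F.hb g) hx

theorem dact_mul (g h : Γ) {x : ℂ} (hx : ‖x‖ ≤ 1) :
    F.dact (g * h) x = F.dact g (F.act h x) * F.dact h x := by
  have hxb : x ∈ closedBall (0:ℂ) 1 := by simpa using hx
  have hu : UniqueDiffWithinAt ℂ (closedBall (0:ℂ) 1) x := FA_uniq hx
  have h1 : HasDerivWithinAt (F.act (g * h)) (F.dact (g * h) x) (closedBall (0:ℂ) 1) x :=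
    (act_hasDerivAt F (g * h) hx).hasDerivWithinAt
  have h2 : HasDerivAt (F.act g ∘ F.act h) (F.dact g (F.act h x) * F.dact h x) x :=
    (act_hasDerivAt F g (act_le F h hx)).comp x (act_hasDerivAt F h hx)
  have h3 : HasDerivWithinAt (F.act (g * h)) (F.dact g (F.act h x) * F.dact h x)
      (closedBall (0:ℂ) 1) x := by
    refine h2.hasDerivWithinAt.congr ?_ ?_
    · intro y hy
      exact act_mul F g h (by simpa using hy)
    · exact act_mul F g h hx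
  exact hu.eq_deriv _ h1 h3

theorem dact_one {x : ℂ} (hx : ‖x‖ ≤ 1) : F.dact 1 x = 1 := by
  have h1 : HasDerivWithinAt (F.act 1) (F.dact 1 x) (closedBall (0:ℂ) 1) x :=
    (act_hasDerivAt F 1 hx).hasDerivWithinAt
  have h3 : HasDerivWithinAt (F.act 1) 1 (closedBall (0:ℂ) 1) x := by
    refine (hasDerivAt_id x).hasDerivWithinAt.congr ?_ ?_
    · intro y hy
      exact act_one F (by simpa using hy)
    · exact act_one F hx
  exact (FA_uniq hx).eq_deriv _ h1 h3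

theorem dact_ne (g : Γ) {x : ℂ} (hx : ‖x‖ ≤ 1) : F.dact g x ≠ 0 :=
  mobD_ne (F.hu g) (F.hb g) hx

theorem act_conf (g : Γ) {x : ℂ} (hx : ‖x‖ ≤ 1) :
    1 - ‖F.act g x‖ ^ 2 = ‖F.dact g x‖ * (1 - ‖x‖ ^ 2) :=
  mob_conf (F.hu g) (F.hb g) hx

theorem act_norm (g : Γ) {x : ℂ} (hx : ‖x‖ ≤ 1) :
    1 - ‖F.act g x‖ ^ 2 = (1 - ‖F.b g‖ ^ 2) * (1 - ‖x‖ ^ 2) /
      ‖1 - (starRingEnd ℂ) (F.b g) * x‖ ^ 2 :=
  mob_norm (F.hu g) (F.hb g) hx

theorem act_dist (g : Γ) {x y : ℂ} (hx : ‖x‖ ≤ 1) (hy : ‖y‖ ≤ 1) :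
    dist (F.act g x) (F.act g y) = (1 - ‖F.b g‖ ^ 2) * dist x y /
      (‖1 - (starRingEnd ℂ) (F.b g) * x‖ * ‖1 - (starRingEnd ℂ) (F.b g) * y‖) :=
  mob_dist (F.hu g) (F.hb g) hx hy

theorem act_pd (g : Γ) {x y : ℂ} (hx : ‖x‖ ≤ 1) (hy : ‖y‖ < 1) :
    pd (F.act g x) (F.act g y) = pd x y :=
  mob_pd (F.hu g) (F.hb g) hx hy

theorem b_eq (g : Γ) : F.b g = F.act g⁻¹ 0 := by
  have h1 : F.act g (F.b g) = 0 := by
    unfold Fuchs.act mob
    rw [sub_self, mul_zero, zero_div]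
  rw [← h1, act_inv_act F g (F.hb g).le]

theorem norm_act_zero (g : Γ) : ‖F.act g 0‖ = ‖F.b g‖ := by
  unfold Fuchs.act mob
  rw [mul_zero, sub_zero, div_one, zero_sub, norm_mul, F.hu, one_mul, norm_neg]

theorem norm_b_inv (g : Γ) : ‖F.b g⁻¹‖ = ‖F.b g‖ := by
  rw [b_eq F g⁻¹, inv_inv, norm_act_zero]

/-- proper discontinuity -/
theorem proper {r : ℝ} (hr : r < 1) : {g | ∃ x : ℂ, ‖x‖ ≤ r ∧ ‖F.act g x‖ ≤ r}.Finite := by
  obtain ⟨s, hs, H⟩ := norm_le_of_pd (ρ := r) (r := r) hr hr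
  refine (F.fin s hs).subset ?_
  rintro g ⟨x, hx, hgx⟩
  have h1 : F.act g (F.b g) = 0 := by
    unfold Fuchs.act mob
    rw [sub_self, mul_zero, zero_div]
  refine H x (F.b g) hx (F.hb g) ?_
  rw [← act_pd F g (hx.trans hr.le) (F.hb g), h1]
  unfold pd
  simpa using hgx

/-- if each value is taken finitely often, the norms of the centres tend to one -/
theorem b_tendsto {g : ℕ → Γ} (hg : ∀ a, {n | g n = a}.Finite) :
    Tendsto (fun n => ‖F.b (g n)‖) atTop (𝓝 1) := by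
  rw [Metric.tendsto_atTop']
  intro ε hε
  have h1 : {a | ‖F.b a‖ ≤ 1 - ε}.Finite := F.fin (1 - ε) (by linarith)
  have h2 : {n | ‖F.b (g n)‖ ≤ 1 - ε}.Finite := by
    have : {n | ‖F.b (g n)‖ ≤ 1 - ε} ⊆ ⋃ a ∈ {a | ‖F.b a‖ ≤ 1 - ε}, {n | g n = a} := by
      intro n hn
      simp only [mem_iUnion, mem_setOf_eq]
      exact ⟨g n, hn, rfl⟩
    exact (h1.biUnion fun a _ => hg a).subset this
  obtain ⟨N, hN⟩ := h2.bddAbove
  refine ⟨N, fun n hn => ?_⟩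
  have h3 : ¬ ‖F.b (g n)‖ ≤ 1 - ε := fun h => absurd (hN h) (by omega)
  rw [Real.dist_eq, abs_lt]
  constructor
  · linarith
  · linarith [F.hb (g n)]

theorem lim_sphere {ξ : ℂ} (h : ξ ∈ F.lim) : ‖ξ‖ = 1 := h.1

theorem lim_closed : IsClosed F.lim := by
  have : F.lim = {ξ | ‖ξ‖ = 1} ∩ closure (range fun g => F.act g 0) := rfl
  rw [this]
  exact (isClosed_eq continuous_norm continuous_const).inter isClosed_closure

theorem lim_inv (g : Γ) {ξ : ℂ} (h : ξ ∈ F.lim) : F.act g ξ ∈ F.lim := by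
  refine ⟨act_eq F g h.1, ?_⟩
  have hsub : (range fun g => F.act g 0) ⊆ closedBall (0:ℂ) 1 := by
    rintro _ ⟨a, rfl⟩
    simpa using act_le F a (x := 0) (by simp)
  have hc : ContinuousWithinAt (F.act g) (range fun g => F.act g 0) ξ :=
    (act_cont F g ξ (by simpa using h.1.le)).mono hsub
  refine hc.mem_closure h.2 ?_
  rintro _ ⟨a, rfl⟩
  exact ⟨g * a, act_mul F g a (by simp)⟩

theorem lim_inv_iff (g : Γ) {ξ : ℂ} (hξ : ‖ξ‖ = 1) : F.act g ξ ∈ F.lim ↔ ξ ∈ F.lim := by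
  refine ⟨fun h => ?_, lim_inv F g⟩
  have := lim_inv F g⁻¹ h
  rwa [act_inv_act F g hξ.le] at this

theorem lim_of_seq {g : ℕ → Γ} {x ξ : ℂ} (hx : ‖x‖ < 1) (hξ : ‖ξ‖ = 1)
    (h : Tendsto (fun n => F.act (g n) x) atTop (𝓝 ξ)) : ξ ∈ F.lim := by
  refine ⟨hξ, ?_⟩
  have h0 : Tendsto (fun n => ‖F.act (g n) x‖) atTop (𝓝 1) := by
    have := h.norm
    rwa [hξ] at this
  have hpd : ∀ n, pd (F.act (g n) x) (F.act (g n) 0) ≤ ‖x‖ := by
    intro n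
    rw [act_pd F (g n) hx.le (by simp)]
    unfold pd
    simp
  have h1 : ∀ n, ‖F.act (g n) x - F.act (g n) 0‖ ^ 2 * (1 - ‖x‖ ^ 2) ≤
      1 - ‖F.act (g n) x‖ ^ 2 := by
    intro n
    have ha : ‖F.act (g n) x‖ ≤ 1 := act_le F _ hx.le
    have hb : ‖F.act (g n) 0‖ < 1 := act_lt F _ (by simp)
    have hne : 1 - (starRingEnd ℂ) (F.act (g n) x) * F.act (g n) 0 ≠ 0 := by
      intro h
      have h2 : (starRingEnd ℂ) (F.act (g n) x) * F.act (g n) 0 = 1 := (sub_eq_zero.1 h).symm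
      have h3 : ‖(starRingEnd ℂ) (F.act (g n) x) * F.act (g n) 0‖ < 1 := by
        rw [norm_mul, RCLike.norm_conj]
        calc ‖F.act (g n) x‖ * ‖F.act (g n) 0‖ ≤ 1 * ‖F.act (g n) 0‖ :=
              mul_le_mul_of_nonneg_right ha (norm_nonneg _)
          _ < 1 := by rw [one_mul]; exact hb
      rw [h2, norm_one] at h3
      exact lt_irrefl _ h3
    have h4 := pd_close (r := ‖x‖) hx ha hb.le (hpd n) hne
    have h5 : ‖x‖ ^ 2 ≤ 1 := pow_le_one₀ (norm_nonneg _) hx.le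
    have h6 : 0 ≤ 1 - ‖F.act (g n) x‖ ^ 2 := by
      have := pow_le_one₀ (n := 2) (norm_nonneg (F.act (g n) x)) ha
      linarith
    have h7 : 0 ≤ 1 - ‖F.act (g n) 0‖ ^ 2 := by
      have := pow_le_one₀ (n := 2) (norm_nonneg (F.act (g n) 0)) hb.le
      linarith
    have h8 : 1 - ‖F.act (g n) 0‖ ^ 2 ≤ 1 := by
      have := sq_nonneg ‖F.act (g n) 0‖
      linarith
    have h9 : (1 - ‖F.act (g n) x‖ ^ 2) * (1 - ‖F.act (g n) 0‖ ^ 2) ≤ 1 - ‖F.act (g n) x‖ ^ 2 :=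
      mul_le_of_le_one_right h6 h8
    have h10 : ‖x‖ ^ 2 * ((1 - ‖F.act (g n) x‖ ^ 2) * (1 - ‖F.act (g n) 0‖ ^ 2)) ≤
        (1 - ‖F.act (g n) x‖ ^ 2) * (1 - ‖F.act (g n) 0‖ ^ 2) :=
      mul_le_of_le_one_left (mul_nonneg h6 h7) h5
    linarith
  have hxp : 0 < 1 - ‖x‖ ^ 2 := by
    have : ‖x‖ ^ 2 < 1 := pow_lt_one₀ (norm_nonneg _) hx (by norm_num)
    linarith
  have h2 : Tendsto (fun n => ‖F.act (g n) x - F.act (g n) 0‖ ^ 2) atTop (𝓝 0) := by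
    have h3 : Tendsto (fun n => (1 - ‖F.act (g n) x‖ ^ 2) / (1 - ‖x‖ ^ 2)) atTop (𝓝 0) := by
      have := (((h0.pow 2).const_sub 1).div_const (1 - ‖x‖ ^ 2))
      simpa using this
    refine squeeze_zero (fun n => sq_nonneg _) (fun n => ?_) h3
    rw [le_div_iff₀ hxp]
    exact h1 n
  have h4 : Tendsto (fun n => ‖F.act (g n) x - F.act (g n) 0‖) atTop (𝓝 0) := by
    have := h2.sqrt
    rw [Real.sqrt_zero] at this
    refine this.congr fun n => ?_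
    rw [Real.sqrt_sq (norm_nonneg _)]
  have h5 : Tendsto (fun n => F.act (g n) 0) atTop (𝓝 ξ) := by
    have h6 : Tendsto (fun n => F.act (g n) x - F.act (g n) 0) atTop (𝓝 0) :=
      tendsto_zero_iff_norm_tendsto_zero.2 h4
    have h7 := h.sub h6
    simpa using h7
  exact mem_closure_of_tendsto h5 (Eventually.of_forall fun n => ⟨g n, rfl⟩)

theorem sub_act (Z : Subgroup Γ) (g : Z) (x : ℂ) : (F.sub Z).act g x = F.act g x := rfl

theorem sub_lim (Z : Subgroup Γ) : (F.sub Z).lim ⊆ F.lim := by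
  rintro ξ ⟨h1, h2⟩
  refine ⟨h1, closure_mono ?_ h2⟩
  rintro _ ⟨g, rfl⟩
  exact ⟨g, rfl⟩

end TN
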