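import Pool.Agent.H12.TN.FA

/-!
DI (Dirichlet domains).
`bis`: for `a`, `b` in the disc, `‖ξ‖ = 1`, put
`Q r = (1-‖b‖²) ‖1 - conj a (r ξ)‖² - (1-‖a‖²) ‖1 - conj b (r ξ)‖²`.  With `α = Re (conj a ξ)`, `β = Re (conj b ξ)`,
`‖1 - conj a (r ξ)‖² = 1 - 2 r α + r² ‖a‖²`, so `Q r = A (1 + r²) - 2 B r` with `A = ‖a‖² - ‖b‖²` and
`B = (1-‖b‖²) α - (1-‖a‖²) β`.  As `r/(1+r²)` is increasing on `[0,1]`, `Q r₀ ≥ 0`, `Q r₁ ≥ 0`, `r₀ ≤ r ≤ r₁ ≤ 1` imply `Q r ≥ 0`: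
indeed `Q r / (1 + r²) = A - 2 B (r/(1+r²))` is monotone (increasing or decreasing) in `r`.
`closer`: for `x` in the disc, `‖act g x‖ ≤ pd (act g x) a` iff (`act_pd`, with `b' = act g⁻¹ 0`, `a' = act g⁻¹ a`) `pd x b' ≤ pd x a'` iff
`(1-‖a'‖²) ‖1 - conj b' x‖² ≤ (1-‖b'‖²) ‖1 - conj a' x‖²` (from `1 - pd² = (1-‖x‖²)(1-‖a‖²)/‖1 - conj a x‖²`).
`radial`: apply `bis` with `b = 0`, `a = act g⁻¹ 0` (`F.b g`), `r₀ = 0`: `‖x‖ ≤ ‖act g x‖` iff `1 - ‖F.b g‖² ≤ ‖1 - conj (F.b g) x‖²` (`act_norm`).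
`dirichlet_seq`: for each `n` the orbit of `x n` has a point of smallest norm (discreteness: `proper`); let `y n = act (g n) (x n)`.
`‖y n‖ → 1`.  Pass to a subsequence with `y n → ξ`.  By `radial`, `r ≤ ‖act h (r • (y n / ‖y n‖))‖` for `r ≤ ‖y n‖`, all `h`; let `n → ∞`.
`halfplane`: if `ξ` is a point of the circle, not in `lim`, there is `s < 1`, `0 < s`, such that no point of the orbit of `0` and no
point of `lim` is in `{x | ‖1 - s conj ξ x‖² < 1 - s²}` (these sets shrink to `ξ` when `s → 1`: `‖1 - s conj ξ x‖ ≥ ‖1 - conj ξ x‖ - (1 - s)`,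
and `‖1 - conj ξ x‖ = ‖ξ - x‖`; the orbit and `lim` stay away from `ξ` by the definition of `lim`).
`halfplane_ray`: if neither `act g 0` nor `act g ζ` (`ζ ∈ lim`) is in that half plane then no `act g (r ζ)` is, `0 ≤ r < 1`: this is
`bis` in the form `closer` for `a = s ξ`: `‖x‖ ≤ pd x a` iff `1 - s² ≤ ‖1 - conj a x‖²` (for `x` in the disc); for the end point `ζ`
the inequality `Q 1 ≥ 0` is `1 - s² ≤ ‖1 - conj a (act g ζ)‖²`, transported by `mob_sub` (or let `r → 1`: if `Q 1 < 0` then `Q r < 0` near `1`,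
while the strict inequality at the end point is excluded because ... choose `s` with a margin: `1 - s² < ‖1 - s conj ξ x‖²` strictly on `lim` and the orbit,
then it holds for `act g (r ζ)` for `r` near `1` by continuity, and `bis` gives all smaller `r`).
`not_UC`: choose `ξ_n ∈ lim`, `r_n`, with `‖act g (r_n ξ_n)‖ > 1 - 1/(n+1)` for all `g`; apply `dirichlet_seq` to `x n = r_n ξ_n`; the limit `ξ` is in `lim`
by `halfplane`, `halfplane_ray` (the points `y n = act g (r_n ξ_n)` tend to `ξ`, and are not in the half plane, which is a neighbourhood of `ξ`).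
-/

namespace TN
open Metric Set Filter Topology DS

theorem DI_nsq {a ξ : ℂ} (hξ : ‖ξ‖ = 1) (r : ℝ) :
    ‖1 - (starRingEnd ℂ) a * (r * ξ)‖ ^ 2 =
      1 - 2 * r * ((starRingEnd ℂ) a * ξ).re + r ^ 2 * ‖a‖ ^ 2 := by
  have h1 : ξ.re * ξ.re + ξ.im * ξ.im = 1 := by
    rw [← Complex.normSq_apply, Complex.normSq_eq_norm_sq, hξ]; norm_num
  rw [← Complex.normSq_eq_norm_sq, ← Complex.normSq_eq_norm_sq, Complex.normSq_apply,
    Complex.normSq_apply]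
  simp only [Complex.sub_re, Complex.sub_im, Complex.mul_re, Complex.mul_im, Complex.conj_re,
    Complex.conj_im, Complex.ofReal_re, Complex.ofReal_im, Complex.one_re, Complex.one_im]
  linear_combination (r ^ 2 * (a.re * a.re + a.im * a.im)) * h1

/-- monotonicity of the comparison of distances along a radius -/
theorem bis {a b ξ : ℂ} (hξ : ‖ξ‖ = 1) {r₀ r r₁ : ℝ} (h0 : 0 ≤ r₀) (h01 : r₀ ≤ r) (h1 : r ≤ r₁)
    (h11 : r₁ ≤ 1)
    (hQ0 : (1 - ‖a‖ ^ 2) * ‖1 - (starRingEnd ℂ) b * (r₀ * ξ)‖ ^ 2 ≤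
      (1 - ‖b‖ ^ 2) * ‖1 - (starRingEnd ℂ) a * (r₀ * ξ)‖ ^ 2)
    (hQ1 : (1 - ‖a‖ ^ 2) * ‖1 - (starRingEnd ℂ) b * (r₁ * ξ)‖ ^ 2 ≤
      (1 - ‖b‖ ^ 2) * ‖1 - (starRingEnd ℂ) a * (r₁ * ξ)‖ ^ 2) :
    (1 - ‖a‖ ^ 2) * ‖1 - (starRingEnd ℂ) b * (r * ξ)‖ ^ 2 ≤
      (1 - ‖b‖ ^ 2) * ‖1 - (starRingEnd ℂ) a * (r * ξ)‖ ^ 2 := by
  simp only [DI_nsq hξ] at hQ0 hQ1 ⊢
  set α := ((starRingEnd ℂ) a * ξ).re
  set β := ((starRingEnd ℂ) b * ξ).re
  set p := ‖a‖ ^ 2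
  set q := ‖b‖ ^ 2
  set A := p - q with hA
  set B := (1 - q) * α - (1 - p) * β with hB
  have hQ : ∀ t : ℝ, (1 - q) * (1 - 2 * t * α + t ^ 2 * p) - (1 - p) * (1 - 2 * t * β + t ^ 2 * q) =
      A * (1 + t ^ 2) - 2 * B * t := by
    intro t
    rw [hA, hB]
    ring
  have k0 : 0 ≤ A * (1 + r₀ ^ 2) - 2 * B * r₀ := by rw [← hQ r₀]; linarith
  have k1 : 0 ≤ A * (1 + r₁ ^ 2) - 2 * B * r₁ := by rw [← hQ r₁]; linarith
  suffices h : 0 ≤ A * (1 + r ^ 2) - 2 * B * r by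
    rw [← hQ r] at h; linarith
  have hr0 : 0 ≤ r := h0.trans h01
  have hr1 : r ≤ 1 := h1.trans h11
  rcases le_total 0 B with hB0 | hB0
  · have e : (1 + r₁ ^ 2) * (A * (1 + r ^ 2) - 2 * B * r) =
        (1 + r ^ 2) * (A * (1 + r₁ ^ 2) - 2 * B * r₁) + 2 * B * ((r₁ - r) * (1 - r * r₁)) := by ring
    have h2 : r * r₁ ≤ 1 := mul_le_one₀ hr1 (hr0.trans h1) h11
    have h3 : 0 ≤ 2 * B * ((r₁ - r) * (1 - r * r₁)) :=
      mul_nonneg (by linarith) (mul_nonneg (by linarith) (by linarith))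
    have h4 : 0 ≤ (1 + r ^ 2) * (A * (1 + r₁ ^ 2) - 2 * B * r₁) := mul_nonneg (by positivity) k1
    have h5 : 0 ≤ (1 + r₁ ^ 2) * (A * (1 + r ^ 2) - 2 * B * r) := by rw [e]; linarith
    exact nonneg_of_mul_nonneg_right h5 (by positivity)
  · have e : (1 + r₀ ^ 2) * (A * (1 + r ^ 2) - 2 * B * r) =
        (1 + r ^ 2) * (A * (1 + r₀ ^ 2) - 2 * B * r₀) + 2 * (-B) * ((r - r₀) * (1 - r * r₀)) := by ring
    have h2 : r * r₀ ≤ 1 := mul_le_one₀ hr1 h0 (h01.trans hr1)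
    have h3 : 0 ≤ 2 * (-B) * ((r - r₀) * (1 - r * r₀)) :=
      mul_nonneg (by linarith) (mul_nonneg (by linarith) (by linarith))
    have h4 : 0 ≤ (1 + r ^ 2) * (A * (1 + r₀ ^ 2) - 2 * B * r₀) := mul_nonneg (by positivity) k0
    have h5 : 0 ≤ (1 + r₀ ^ 2) * (A * (1 + r ^ 2) - 2 * B * r) := by rw [e]; linarith
    exact nonneg_of_mul_nonneg_right h5 (by positivity)

theorem DI_one_sub {u b x y : ℂ} (hu : ‖u‖ = 1) (hb : ‖b‖ < 1) (hx : ‖x‖ ≤ 1) (hy : ‖y‖ ≤ 1) :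
    ‖1 - (starRingEnd ℂ) (mob u b x) * mob u b y‖ *
      (‖1 - (starRingEnd ℂ) b * x‖ * ‖1 - (starRingEnd ℂ) b * y‖) =
      (1 - ‖b‖ ^ 2) * ‖1 - (starRingEnd ℂ) x * y‖ := by
  have hdx := den_ne hb hx
  have hdy := den_ne hb hy
  have hdx' : (starRingEnd ℂ) (1 - (starRingEnd ℂ) b * x) ≠ 0 := by
    rw [Ne, map_eq_zero]; exact hdx
  have huu : (starRingEnd ℂ) u * u = 1 := by
    rw [mul_comm, Complex.mul_conj, Complex.normSq_eq_norm_sq, hu]; norm_num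
  have e : (1 - (starRingEnd ℂ) (mob u b x) * mob u b y) *
      ((starRingEnd ℂ) (1 - (starRingEnd ℂ) b * x) * (1 - (starRingEnd ℂ) b * y)) =
      ((1 - ‖b‖ ^ 2 : ℝ) : ℂ) * (1 - (starRingEnd ℂ) x * y) := by
    have hbb : ((‖b‖ ^ 2 : ℝ) : ℂ) = (starRingEnd ℂ) b * b := by
      rw [mul_comm, Complex.mul_conj, Complex.normSq_eq_norm_sq]
    rw [Complex.ofReal_sub, hbb, Complex.ofReal_one]
    unfold mob
    rw [map_div₀, map_mul]
    have e1 : (starRingEnd ℂ) u * (starRingEnd ℂ) (x - b) / (starRingEnd ℂ) (1 - (starRingEnd ℂ) b * x) *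
        (u * (y - b) / (1 - (starRingEnd ℂ) b * y)) *
        ((starRingEnd ℂ) (1 - (starRingEnd ℂ) b * x) * (1 - (starRingEnd ℂ) b * y)) =
        ((starRingEnd ℂ) u * u) * ((starRingEnd ℂ) (x - b) * (y - b)) := by
      have hgen : ∀ A B P R : ℂ, P ≠ 0 → R ≠ 0 → A / P * (B / R) * (P * R) = A * B := by
        intro A B P R hP hR
        field_simp
      rw [hgen _ _ _ _ hdx' hdy]
      ring
    rw [sub_mul, e1, huu, one_mul, one_mul]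
    simp only [map_sub, map_mul, map_one, Complex.conj_conj]
    ring
  have h2 := congrArg norm e
  have hb1 : 0 ≤ 1 - ‖b‖ ^ 2 := by
    have := pow_le_one₀ (n := 2) (norm_nonneg b) hb.le
    linarith
  rw [norm_mul, norm_mul, norm_mul, RCLike.norm_conj, Complex.norm_real,
    Real.norm_of_nonneg hb1] at h2
  exact h2

variable {Γ : Type} [Group Γ] (F : Fuchs Γ)

/-- a point of smallest norm in an orbit -/
theorem exists_min {x : ℂ} (hx : ‖x‖ < 1) : ∃ g, ∀ h, ‖F.act g x‖ ≤ ‖F.act h x‖ := by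
  have hfin : {g | ‖F.act g x‖ ≤ ‖x‖}.Finite := by
    refine (proper F hx).subset fun g hg => ?_
    exact ⟨x, le_rfl, hg⟩
  have hne : {g | ‖F.act g x‖ ≤ ‖x‖}.Nonempty := ⟨1, by
    show ‖F.act 1 x‖ ≤ ‖x‖
    rw [act_one F hx.le]⟩
  obtain ⟨g, hg, hmin⟩ := Set.exists_min_image _ (fun g => ‖F.act g x‖) hfin hne
  refine ⟨g, fun h => ?_⟩
  by_cases hh : ‖F.act h x‖ ≤ ‖x‖
  · exact hmin h hh
  · push Not at hh
    exact (le_of_lt (lt_of_le_of_lt hg hh))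

theorem DI_norm_iff (g : Γ) {y : ℂ} (hy : ‖y‖ < 1) :
    ‖y‖ ≤ ‖F.act g y‖ ↔ 1 - ‖F.b g‖ ^ 2 ≤ ‖1 - (starRingEnd ℂ) (F.b g) * y‖ ^ 2 := by
  have h1 := act_norm F g hy.le
  have hd : 0 < ‖1 - (starRingEnd ℂ) (F.b g) * y‖ ^ 2 := by
    have := norm_pos_iff.2 (den_ne (F.hb g) hy.le)
    positivity
  have hy2 : 0 < 1 - ‖y‖ ^ 2 := by
    have := pow_lt_one₀ (norm_nonneg y) hy two_ne_zero
    linarith
  have h2 : ‖y‖ ≤ ‖F.act g y‖ ↔ 1 - ‖F.act g y‖ ^ 2 ≤ 1 - ‖y‖ ^ 2 := by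
    rw [← sq_le_sq₀ (norm_nonneg _) (norm_nonneg _)]
    constructor <;> intro h <;> linarith
  rw [h2, h1, div_le_iff₀ hd, mul_comm (1 - ‖F.b g‖ ^ 2)]
  exact mul_le_mul_iff_right₀ hy2

theorem radial {x ξ : ℂ} (hξ : ‖ξ‖ = 1) {r t : ℝ} (hr : 0 ≤ r) (hrt : r ≤ t) (ht : t < 1) (g : Γ)
    (h : t ≤ ‖F.act g (t * ξ)‖) : r ≤ ‖F.act g (r * ξ)‖ := by
  have hn : ∀ s : ℝ, 0 ≤ s → ‖(s : ℂ) * ξ‖ = s := by
    intro s hs
    rw [norm_mul, hξ, mul_one, Complex.norm_real, Real.norm_of_nonneg hs]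
  have ht0 : 0 ≤ t := hr.trans hrt
  have h1 : ‖(t : ℂ) * ξ‖ ≤ ‖F.act g (t * ξ)‖ := by rw [hn t ht0]; exact h
  rw [DI_norm_iff F g (by rw [hn t ht0]; exact ht)] at h1
  have h2 := bis (a := F.b g) (b := 0) hξ le_rfl hr hrt ht.le (by
    simp) (by simpa using h1)
  have h3 : ‖(r : ℂ) * ξ‖ ≤ ‖F.act g (r * ξ)‖ := by
    rw [DI_norm_iff F g (by rw [hn r hr]; exact lt_of_le_of_lt hrt ht)]
    simpa using h2
  rw [hn r hr] at h3
  exact h3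

theorem dirichlet_seq {x : ℕ → ℂ} (hx : ∀ n, ‖x n‖ < 1)
    (h : ∀ ρ : ℝ, ρ < 1 → ∀ᶠ n in atTop, ∀ g, ρ ≤ ‖F.act g (x n)‖) :
    ∃ φ : ℕ → ℕ, StrictMono φ ∧ ∃ g : ℕ → Γ, ∃ ξ : ℂ, ‖ξ‖ = 1 ∧
      Tendsto (fun n => F.act (g n) (x (φ n))) atTop (𝓝 ξ) ∧
      ∀ h, ∀ r : ℝ, 0 ≤ r → r < 1 → r ≤ ‖F.act h (r * ξ)‖ := by
  choose g hg using fun n => exists_min F (hx n)
  set y : ℕ → ℂ := fun n => F.act (g n) (x n) with hy
  have hy1 : ∀ n, ‖y n‖ < 1 := fun n => act_lt F (g n) (hx n)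
  have hylim : Tendsto (fun n => ‖y n‖) atTop (𝓝 1) := by
    rw [tendsto_order]
    constructor
    · intro ρ hρ
      have h1 := h ((ρ + 1) / 2) (by linarith)
      filter_upwards [h1] with n hn
      have := hn (g n)
      have h2 : (ρ + 1) / 2 ≤ ‖y n‖ := this
      linarith
    · intro ρ hρ
      exact Eventually.of_forall fun n => (hy1 n).trans hρ
  obtain ⟨ξ, hξ, φ, hφ, hlim⟩ := (isCompact_closedBall (0 : ℂ) 1).tendsto_subseq
    (x := y) (fun n => mem_closedBall_zero_iff.2 (hy1 n).le)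
  have hφt := hφ.tendsto_atTop
  have hξ1 : ‖ξ‖ = 1 := tendsto_nhds_unique hlim.norm (hylim.comp hφt)
  refine ⟨φ, hφ, fun n => g (φ n), ξ, hξ1, hlim, fun k r hr0 hr1 => ?_⟩
  -- the radial projections
  have hy2 : Tendsto (fun n => ‖y (φ n)‖) atTop (𝓝 1) := hylim.comp hφt
  have hξn : Tendsto (fun n => ((‖y (φ n)‖ : ℝ) : ℂ)⁻¹ * y (φ n)) atTop (𝓝 ξ) := by
    have h1 : Tendsto (fun n => ((‖y (φ n)‖ : ℝ) : ℂ)) atTop (𝓝 ((1 : ℝ) : ℂ)) :=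
      (Complex.continuous_ofReal.tendsto 1).comp hy2
    have h2 := (h1.inv₀ (by simp)).mul hlim
    simpa using h2
  have hrn : Tendsto (fun n => (r : ℂ) * (((‖y (φ n)‖ : ℝ) : ℂ)⁻¹ * y (φ n))) atTop
      (𝓝 ((r : ℂ) * ξ)) := hξn.const_mul _
  have hev : ∀ᶠ n in atTop, 0 < ‖y (φ n)‖ ∧ r < ‖y (φ n)‖ :=
    (hy2.eventually (lt_mem_nhds one_pos)).and (hy2.eventually (lt_mem_nhds hr1))
  have hnorm : ∀ n, 0 < ‖y (φ n)‖ → ‖((‖y (φ n)‖ : ℝ) : ℂ)⁻¹ * y (φ n)‖ = 1 := by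
    intro n hn
    rw [norm_mul, norm_inv, Complex.norm_real, Real.norm_of_nonneg hn.le, inv_mul_cancel₀ hn.ne']
  have hrξ : (r : ℂ) * ξ ∈ closedBall (0 : ℂ) 1 := by
    rw [mem_closedBall_zero_iff, norm_mul, hξ1, mul_one, Complex.norm_real, Real.norm_of_nonneg hr0]
    exact hr1.le
  have hT : Tendsto (fun n => F.act k ((r : ℂ) * (((‖y (φ n)‖ : ℝ) : ℂ)⁻¹ * y (φ n)))) atTop
      (𝓝 (F.act k ((r : ℂ) * ξ))) := by
    have hc := (act_cont F k) _ hrξ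
    refine hc.tendsto.comp ?_
    rw [tendsto_nhdsWithin_iff]
    refine ⟨hrn, ?_⟩
    filter_upwards [hev] with n hn
    rw [mem_closedBall_zero_iff, norm_mul, hnorm n hn.1, mul_one, Complex.norm_real,
      Real.norm_of_nonneg hr0]
    exact hr1.le
  refine ge_of_tendsto hT.norm ?_
  filter_upwards [hev] with n hn
  refine radial (x := 0) F (hnorm n hn.1) hr0 hn.2.le (hy1 _) k ?_
  have e : ((‖y (φ n)‖ : ℝ) : ℂ) * (((‖y (φ n)‖ : ℝ) : ℂ)⁻¹ * y (φ n)) = y (φ n) := by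
    rw [← mul_assoc, mul_inv_cancel₀ (by exact_mod_cast hn.1.ne'), one_mul]
  rw [e]
  have h3 := hg (φ n) (k * g (φ n))
  rw [act_mul F _ _ (hx _).le] at h3
  exact h3

/-- comparison of the distances to `0` and to `a` -/
theorem DI_closer (g : Γ) {a z : ℂ} (ha : ‖a‖ < 1) (hz : ‖z‖ < 1) :
    1 - ‖a‖ ^ 2 ≤ ‖1 - (starRingEnd ℂ) a * F.act g z‖ ^ 2 ↔
    (1 - ‖F.act g⁻¹ a‖ ^ 2) * ‖1 - (starRingEnd ℂ) (F.b g) * z‖ ^ 2 ≤
      (1 - ‖F.b g‖ ^ 2) * ‖1 - (starRingEnd ℂ) (F.act g⁻¹ a) * z‖ ^ 2 := by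
  set a' := F.act g⁻¹ a with ha'
  have ha1 : ‖a'‖ < 1 := act_lt F g⁻¹ ha
  have haa : F.act g a' = a := act_act_inv F g ha.le
  have h1 := act_norm F g ha1.le
  rw [haa] at h1
  have h2 := DI_one_sub (F.hu g) (F.hb g) ha1.le hz.le
  have h3 : mob (F.u g) (F.b g) a' = a := haa
  have h4 : mob (F.u g) (F.b g) z = F.act g z := rfl
  rw [h3, h4] at h2
  set D1 := ‖1 - (starRingEnd ℂ) (F.b g) * a'‖ with hD1
  set D2 := ‖1 - (starRingEnd ℂ) (F.b g) * z‖ with hD2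
  set Y := ‖1 - (starRingEnd ℂ) a * F.act g z‖ with hY
  set Z := ‖1 - (starRingEnd ℂ) a' * z‖ with hZ
  have hD1p : 0 < D1 := norm_pos_iff.2 (den_ne (F.hb g) ha1.le)
  have hD2p : 0 < D2 := norm_pos_iff.2 (den_ne (F.hb g) hz.le)
  have hbp : 0 < 1 - ‖F.b g‖ ^ 2 := by
    have := pow_lt_one₀ (norm_nonneg _) (F.hb g) two_ne_zero
    linarith
  set β := 1 - ‖F.b g‖ ^ 2 with hβ
  set A := 1 - ‖a'‖ ^ 2 with hA
  have hYe : Y ^ 2 * (D1 ^ 2 * D2 ^ 2) = β ^ 2 * Z ^ 2 := by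
    have := congrArg (fun x => x ^ 2) h2
    simp only [mul_pow] at this
    linarith
  have h5 : (1 - ‖a‖ ^ 2) * D1 ^ 2 = β * A := by
    rw [h1]
    field_simp
  constructor
  · intro h
    have h6 := mul_le_mul_of_nonneg_right h (show 0 ≤ D1 ^ 2 * D2 ^ 2 by positivity)
    rw [hYe, ← mul_assoc, h5] at h6
    have h7 : β * (A * D2 ^ 2) ≤ β * (β * Z ^ 2) := by linarith
    exact le_of_mul_le_mul_left h7 hbp
  · intro h
    have h6 := mul_le_mul_of_nonneg_left h hbp.le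
    have h7 : (1 - ‖a‖ ^ 2) * (D1 ^ 2 * D2 ^ 2) ≤ Y ^ 2 * (D1 ^ 2 * D2 ^ 2) := by
      rw [hYe, ← mul_assoc, h5]
      linarith
    exact le_of_mul_le_mul_right h7 (by positivity)

/-- geodesic rays from the orbit of `0` to limit points stay away from the complement of the limit set -/
theorem ray_away {ξ : ℂ} (hξ : ‖ξ‖ = 1) (h : ξ ∉ F.lim) :
    ∃ δ > 0, ∀ g, ∀ ζ ∈ F.lim, ∀ r : ℝ, 0 ≤ r → r < 1 → δ ≤ dist (F.act g (r * ζ)) ξ := by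
  -- distance to the closure of the orbit
  have hcl : ξ ∉ closure (range fun g => F.act g 0) := fun hc => h ⟨hξ, hc⟩
  obtain ⟨d0, hd0, hball⟩ := Metric.isOpen_iff.1 isClosed_closure.isOpen_compl ξ hcl
  set d : ℝ := min d0 1 with hd
  have hdp : 0 < d := lt_min hd0 one_pos
  have hd1 : d ≤ 1 := min_le_right _ _
  have hfar : ∀ x ∈ closure (range fun g => F.act g 0), d ≤ ‖ξ - x‖ := by
    intro x hx
    by_contra hcon
    push Not at hcon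
    refine hball (mem_ball_iff_norm.2 ?_) hx
    rw [norm_sub_rev]
    exact lt_of_lt_of_le hcon (min_le_left _ _)
  set ε : ℝ := d ^ 2 / 16 with hε
  have hεp : 0 < ε := by positivity
  have hεd : ε ≤ d / 16 := by
    have : d ^ 2 ≤ d := by nlinarith
    rw [hε]
    linarith
  set s : ℝ := 1 - ε with hs
  have hs0 : 0 < s := by rw [hs]; linarith
  have hs1 : s < 1 := by rw [hs]; linarith
  set a : ℂ := (s : ℂ) * ξ with ha
  have han : ‖a‖ = s := by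
    rw [ha, norm_mul, hξ, mul_one, Complex.norm_real, Real.norm_of_nonneg hs0.le]
  have hξξ : (starRingEnd ℂ) ξ * ξ = 1 := by
    rw [mul_comm, Complex.mul_conj, Complex.normSq_eq_norm_sq, hξ]; norm_num
  -- far points are outside the half plane
  have hout : ∀ x : ℂ, ‖x‖ ≤ 1 → d ≤ ‖ξ - x‖ → 1 - ‖a‖ ^ 2 < ‖1 - (starRingEnd ℂ) a * x‖ ^ 2 := by
    intro x hx hdx
    have e1 : 1 - (starRingEnd ℂ) a * x =
        (starRingEnd ℂ) ξ * (ξ - x) + (ε : ℂ) * ((starRingEnd ℂ) ξ * x) := by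
      rw [ha, map_mul, Complex.conj_ofReal, mul_sub, hξξ, hs]
      push_cast
      ring
    have h1 : ‖(starRingEnd ℂ) ξ * (ξ - x)‖ ≤
        ‖1 - (starRingEnd ℂ) a * x‖ + ‖(ε : ℂ) * ((starRingEnd ℂ) ξ * x)‖ := by
      have e2 : (starRingEnd ℂ) ξ * (ξ - x) = (1 - (starRingEnd ℂ) a * x) -
          (ε : ℂ) * ((starRingEnd ℂ) ξ * x) := by rw [e1]; ring
      rw [e2]
      exact norm_sub_le _ _
    rw [norm_mul, norm_mul, norm_mul, RCLike.norm_conj, hξ, one_mul, one_mul, Complex.norm_real,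
      Real.norm_of_nonneg hεp.le] at h1
    have h2 : ε * ‖x‖ ≤ ε := mul_le_of_le_one_right hεp.le hx
    have h3 : 15 / 16 * d ≤ ‖1 - (starRingEnd ℂ) a * x‖ := by linarith
    have h4 : (15 / 16 * d) ^ 2 ≤ ‖1 - (starRingEnd ℂ) a * x‖ ^ 2 :=
      pow_le_pow_left₀ (by positivity) h3 2
    have h5 : 1 - ‖a‖ ^ 2 < (15 / 16 * d) ^ 2 := by
      rw [han, hs]
      have e3 : 1 - (1 - ε) ^ 2 = 2 * ε - ε ^ 2 := by ring
      rw [e3, hε]
      nlinarith [sq_nonneg (d ^ 2 / 16), pow_pos hdp 2]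
    linarith
  -- the centre `ξ` is in the half plane
  have hcont : Continuous (fun x : ℂ => ‖1 - (starRingEnd ℂ) a * x‖ ^ 2) := by fun_prop
  have hin : ‖1 - (starRingEnd ℂ) a * ξ‖ ^ 2 < 1 - ‖a‖ ^ 2 := by
    have e1 : 1 - (starRingEnd ℂ) a * ξ = (ε : ℂ) := by
      rw [ha, map_mul, Complex.conj_ofReal, mul_assoc, hξξ, hs]
      push_cast
      ring
    rw [e1, Complex.norm_real, Real.norm_of_nonneg hεp.le, han, hs]
    nlinarith
  obtain ⟨δ, hδ, hδ'⟩ := Metric.isOpen_iff.1 (isOpen_lt hcont continuous_const) ξ hin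
  refine ⟨δ, hδ, fun g ζ hζ r hr0 hr1 => ?_⟩
  by_contra hcon
  push Not at hcon
  have hbad : ‖1 - (starRingEnd ℂ) a * F.act g (r * ζ)‖ ^ 2 < 1 - ‖a‖ ^ 2 :=
    hδ' (mem_ball.2 hcon)
  have hζ1 := lim_sphere F hζ
  have hn : ∀ t : ℝ, 0 ≤ t → ‖(t : ℂ) * ζ‖ = t := by
    intro t ht
    rw [norm_mul, hζ1, mul_one, Complex.norm_real, Real.norm_of_nonneg ht]
  have ha1 : ‖a‖ < 1 := by rw [han]; exact hs1
  -- near the end of the ray
  have hgζ := lim_inv F g hζ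
  have hend : 1 - ‖a‖ ^ 2 < ‖1 - (starRingEnd ℂ) a * F.act g ζ‖ ^ 2 :=
    hout _ (act_eq F g hζ1).le (hfar _ hgζ.2)
  have hT : Tendsto (fun t : ℝ => ‖1 - (starRingEnd ℂ) a * F.act g ((t : ℂ) * ζ)‖ ^ 2) (𝓝[<] 1)
      (𝓝 (‖1 - (starRingEnd ℂ) a * F.act g ζ‖ ^ 2)) := by
    have hc := (act_cont F g) ζ (mem_closedBall_zero_iff.2 hζ1.le)
    refine (hcont.tendsto _).comp (hc.tendsto.comp ?_)
    rw [tendsto_nhdsWithin_iff]
    constructor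
    · have : Tendsto (fun t : ℝ => (t : ℂ) * ζ) (𝓝 1) (𝓝 (((1 : ℝ) : ℂ) * ζ)) :=
        (Complex.continuous_ofReal.mul continuous_const).tendsto 1
      rw [Complex.ofReal_one, one_mul] at this
      exact this.mono_left nhdsWithin_le_nhds
    · filter_upwards [Ioo_mem_nhdsLT (show (0 : ℝ) < 1 by norm_num)] with t ht
      rw [mem_closedBall_zero_iff, hn t ht.1.le]
      exact ht.2.le
  obtain ⟨t, ht, htr⟩ := ((hT.eventually (lt_mem_nhds hend)).and (Ioo_mem_nhdsLT hr1)).exists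
  have hQ1 := (DI_closer F g (a := a) (z := (t : ℂ) * ζ) ha1
    (by rw [hn t (hr0.trans htr.1.le)]; exact htr.2)).1 ht.le
  have hQ0 := (DI_closer F g (a := a) (z := ((0 : ℝ) : ℂ) * ζ) ha1 (by simp)).1 (by
    have : ((0 : ℝ) : ℂ) * ζ = 0 := by simp
    rw [this]
    exact (hout _ (act_lt F g (by simp)).le (hfar _ (subset_closure ⟨g, rfl⟩))).le)
  have hQ := bis hζ1 le_rfl hr0 htr.1.le htr.2.le hQ0 hQ1
  have := (DI_closer F g (a := a) (z := (r : ℂ) * ζ) ha1 (by rw [hn r hr0]; exact hr1)).2 hQ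
  linarith

theorem not_UC (h : ¬ F.UC) : ∃ ξ ∈ F.lim, ∀ g, ∀ r : ℝ, 0 ≤ r → r < 1 → r ≤ ‖F.act g (r * ξ)‖ := by
  unfold Fuchs.UC at h
  push Not at h
  choose ζ hζ r hr0 hr1 hρ using fun n : ℕ => h (1 - 1 / ((n : ℝ) + 1)) (by
    have : (0 : ℝ) < 1 / ((n : ℝ) + 1) := by positivity
    linarith)
  have hn : ∀ n, ‖((r n : ℝ) : ℂ) * ζ n‖ = r n := by
    intro n
    rw [norm_mul, lim_sphere F (hζ n), mul_one, Complex.norm_real, Real.norm_of_nonneg (hr0 n)]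
  obtain ⟨φ, hφ, g, ξ, hξ, hlim, hray⟩ := dirichlet_seq F (x := fun n => ((r n : ℝ) : ℂ) * ζ n)
    (fun n => by rw [hn n]; exact hr1 n) (by
      intro ρ hρ1
      have h1 : Tendsto (fun n : ℕ => 1 - 1 / ((n : ℝ) + 1)) atTop (𝓝 (1 - 0)) :=
        tendsto_const_nhds.sub tendsto_one_div_add_atTop_nhds_zero_nat
      rw [sub_zero] at h1
      filter_upwards [h1.eventually (lt_mem_nhds hρ1)] with n hn k
      exact (hn.trans (hρ n k)).le)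
  refine ⟨ξ, ?_, hray⟩
  by_contra hcon
  obtain ⟨δ, hδ, hfar⟩ := ray_away F hξ hcon
  have h1 := hlim.eventually (ball_mem_nhds ξ hδ)
  obtain ⟨n, hn1⟩ := h1.exists
  have h2 := hfar (g n) (ζ (φ n)) (hζ _) (r (φ n)) (hr0 _) (hr1 _)
  have h3 : dist (F.act (g n) ((r (φ n) : ℂ) * ζ (φ n))) ξ < δ := hn1
  linarith

/-- if every point of the limit set is conical then (UC) holds -/
theorem UC_of_con (h : ∀ ξ ∈ F.lim, F.Con ⊤ ξ) : F.UC := by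
  by_contra hcon
  obtain ⟨ξ, hξ, hray⟩ := not_UC F hcon
  obtain ⟨ρ, hρ, hc⟩ := h ξ hξ
  obtain ⟨s, hs, hs0, hs1, g, -, hg⟩ := hc ρ hρ
  have := hray g s hs0 hs1
  linarith

end TN
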