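import Pool.Agent.H12.TN.FD

/-!
FE (trichotomy for discrete groups).  If not all elements are `1` take `g ≠ 1` and `AR g p q`.
If every `c` fixes `p`: `AR.stab` gives the second alternative.  Otherwise let `act c p ≠ p` and `h = c g c⁻¹`, whose
fixed points are exactly `act c p`, `act c q` (`AR.conj`, `AR.fixed`).
* `act c q = q` is impossible (`AR.fix_iff` for `g`: then `act c p = p`).
* if `act c p = q` and `act c q = p`: let `AR c a b`; then `AR (c^2) a b` (`AR.pow`) and `c^2` fixes `p`, so `p ∈ {a, b}`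
  (`AR.fixed`) is fixed by `c`: contradiction.
* if `act c p = q` and `act c q ≠ p`: `h` fixes `q`, so by `AR.fix_iff` (for `g`) `h` fixes `p`, so `p ∈ {act c p, act c q}`:
  contradiction.
* if `act c p ≠ q` and `act c q = p`: `h` fixes `p`, hence `q`, so `q ∈ {act c p, act c q}`, so `act c q = q`: contradiction.
* otherwise `{act c p, act c q}` and `{p, q}` are disjoint: `Nonel` with `g`, `h`.

`nonel_sub`: fixed points: for the subgroup generated inside; it is only used for `F.sub Z`: `elem (F.sub Z)`.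
`AR_sub`: `AR` for `F.sub Z` and for `F` are the same thing (`act` and powers agree).
-/

namespace TN
open Metric Set Filter Topology DS

variable {Γ : Type} [Group Γ]

theorem elem (F : Fuchs Γ) : (∀ g : Γ, g = 1) ∨
    (∃ κ p q, F.AR κ p q ∧ ∀ c, c ∈ Subgroup.zpowers κ) ∨ F.Nonel := by
  by_cases h1 : ∀ g : Γ, g = 1
  · exact Or.inl h1
  right
  push Not at h1
  obtain ⟨g, hg⟩ := h1
  obtain ⟨p, q, h⟩ := exists_AR F hg
  by_cases hall : ∀ c, F.act c p = p
  · left
    obtain ⟨κ, hκ, hκ'⟩ := AR.stab h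
    exact ⟨κ, p, q, hκ, fun c => (hκ' c).1 (hall c)⟩
  right
  push Not at hall
  obtain ⟨c, hc⟩ := hall
  have hh := AR.conj h c
  have hcq : F.act c q ≠ q := fun e => hc ((AR.fix_iff h c).2 e)
  by_cases hpq : F.act c p = q
  · exfalso
    by_cases hqp : F.act c q = p
    · have hc1 : c ≠ 1 := by
        rintro rfl
        exact hc (act_one F h.np.le)
      obtain ⟨a, b, hab⟩ := exists_AR F hc1
      have hab2 := AR.pow hab (n := 2) (by norm_num)
      have hfix : F.act (c ^ 2) p = p := by
        rw [pow_two, act_mul F _ _ h.np.le, hpq, hqp]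
      rcases AR.fixed hab2 h.np.le hfix with e | e
      · exact hc (by rw [e]; exact hab.fp)
      · exact hc (by rw [e]; exact hab.fq)
    · have hfq : F.act (c * g * c⁻¹) q = q := by
        have := hh.fp
        rwa [hpq] at this
      have hfp := (AR.fix_iff h _).2 hfq
      rcases AR.fixed hh h.np.le hfp with e | e
      · exact hc e.symm
      · exact hqp e.symm
  · by_cases hqp : F.act c q = p
    · exfalso
      have hfp : F.act (c * g * c⁻¹) p = p := by
        have := hh.fq
        rwa [hqp] at this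
      have hfq := (AR.fix_iff h _).1 hfp
      rcases AR.fixed hh h.nq.le hfq with e | e
      · exact hpq e.symm
      · exact hcq e.symm
    · refine ⟨g, c * g * c⁻¹, hg, AR.ne_one hh, fun x hx hgx hhx => ?_⟩
      rcases AR.fixed h hx.le hgx with e | e <;> rcases AR.fixed hh hx.le hhx with e' | e'
      · exact hc (e' ▸ e)
      · exact hqp (e' ▸ e)
      · exact hpq (e' ▸ e)
      · exact hcq (e' ▸ e)

theorem AR_sub (F : Fuchs Γ) (Z : Subgroup Γ) (z : Z) (p q : ℂ) :
    (F.sub Z).AR z p q ↔ F.AR (z : Γ) p q := by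
  constructor
  · intro h
    refine ⟨h.np, h.nq, h.ne, h.fp, h.fq, fun x hx hxq => ?_⟩
    have := h.att x hx hxq
    simpa only [sub_act, Subgroup.coe_pow] using this
  · intro h
    refine ⟨h.np, h.nq, h.ne, h.fp, h.fq, fun x hx hxq => ?_⟩
    have := h.att x hx hxq
    simpa only [sub_act, Subgroup.coe_pow] using this

/-- the group version: for a subgroup `Z` -/
theorem elem_sub (F : Fuchs Γ) (Z : Subgroup Γ) : Z = ⊥ ∨
    (∃ κ p q, F.AR κ p q ∧ Z = Subgroup.zpowers κ) ∨ (F.sub Z).Nonel := by
  rcases elem (F.sub Z) with h | ⟨κ, p, q, h, hz⟩ | h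
  · left
    rw [Subgroup.eq_bot_iff_forall]
    intro x hx
    have := h ⟨x, hx⟩
    exact congrArg Subtype.val this
  · right; left
    refine ⟨κ, p, q, (AR_sub F Z κ p q).1 h, ?_⟩
    ext x
    constructor
    · intro hx
      obtain ⟨n, hn⟩ := Subgroup.mem_zpowers_iff.1 (hz ⟨x, hx⟩)
      refine Subgroup.mem_zpowers_iff.2 ⟨n, ?_⟩
      have := congrArg Subtype.val hn
      simpa using this
    · intro hx
      obtain ⟨n, rfl⟩ := Subgroup.mem_zpowers_iff.1 hx
      exact Z.zpow_mem κ.2 n
  · exact Or.inr (Or.inr h)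

end TN
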