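import Pool.Agent.H12.TN.Defs

/-!
CO (strip coordinates, part 1: the maps `eta`, `om`, `omi`).  `p ≠ q` on the unit circle, `conj q = q⁻¹`, `conj p = p⁻¹`,
`c = 1 - p * conj q`.
`pq_re`: `‖p - q‖² = 2 - 2 re (p conj q)`.
`eta_im`: for `x ≠ p` multiply numerator and denominator by `conj (p - x)`: `im (I Z) = re Z` and
`(1 - p conj q)(x - q)(conj p - conj x) = (1 - |x|²) + (conj p x - p conj x) + (conj x q - conj q x) + p conj q |x|² - conj p q`
has real part `(1 - |x|²)(1 - re (p conj q))`; for `x = p` both sides are `0` (division by zero).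
`eta_sub`: `(x - q)/(p - x) - (y - q)/(p - y) = (x - y)(p - q)/((p - x)(p - y))`.
`om`: for `x ∈ Dpq`, `eta` is nonzero with nonnegative imaginary part (`eta_im`), so `exp (log eta) = eta`, `arg ∈ [0, π]`
(`Complex.arg_nonneg_iff`), `arg ∈ (0, π)` iff the imaginary part is positive, i.e. `‖x‖ < 1`; `log` is continuous on
`{z ≠ 0 | 0 ≤ im z}`: on the slit plane `Complex.continuousAt_clog`, on the negative real axis
`Complex.continuousWithinAt_log_of_re_neg_of_im_zero`.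
`omi`: `E = exp ω` has `im E ≥ 0`, and `im (E + I c) = im E + re c > 0` (`pq_re`): the denominator is nonzero.  `x = omi ω` is the
solution of `eta x = E`: `p - x = I c (p - q)/(E + I c) ≠ 0`, `x - q = E (p - q)/(E + I c) ≠ 0`, so `eta x = E` and by `eta_im`
`1 - |x|²` has the sign of `im E = exp (re ω) sin (im ω)`.  `om (omi ω) = log (exp ω) = ω` as `im ω ∈ [0, π] ⊆ (-π, π]`.
`omi (om x) = x`: from `exp (om x) = eta x` and `x (E + I c) = p E + I c q`.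
`om_metric`: `sin (im om) = im eta / ‖eta‖`, `‖eta‖ = ‖p - q‖ ‖x - q‖ / ‖p - x‖`  (`‖1 - p conj q‖ = ‖q - p‖`).
-/

namespace TN
open Metric Set Filter Topology DS

/-- the closed strip `0 ≤ im ≤ π` -/
def Str : Set ℂ := {ω | 0 ≤ ω.im ∧ ω.im ≤ Real.pi}

/-- the closed disc without the points `p`, `q` -/
def Dpq (p q : ℂ) : Set ℂ := {x | ‖x‖ ≤ 1 ∧ x ≠ p ∧ x ≠ q}

variable {p q : ℂ}

private theorem CO_sq {z : ℂ} (h : ‖z‖ = 1) : z.re ^ 2 + z.im ^ 2 = 1 := by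
  have h1 : Complex.normSq z = 1 := by rw [Complex.normSq_eq_norm_sq, h]; norm_num
  rw [Complex.normSq_apply] at h1
  linarith

theorem pq_re (hp : ‖p‖ = 1) (hq : ‖q‖ = 1) :
    1 - (p * (starRingEnd ℂ) q).re = ‖p - q‖ ^ 2 / 2 := by
  have h1 : p.re ^ 2 + p.im ^ 2 = 1 := CO_sq hp
  have h2 : q.re ^ 2 + q.im ^ 2 = 1 := CO_sq hq
  rw [← Complex.normSq_eq_norm_sq, Complex.normSq_apply]
  simp only [Complex.mul_re, Complex.conj_re, Complex.conj_im, Complex.sub_re, Complex.sub_im]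
  linear_combination -(h1 + h2) / 2

theorem pq_norm (hp : ‖p‖ = 1) (hq : ‖q‖ = 1) : ‖1 - p * (starRingEnd ℂ) q‖ = ‖p - q‖ := by
  have h1 : (1 : ℂ) = q * (starRingEnd ℂ) q := by
    rw [Complex.mul_conj, Complex.normSq_eq_norm_sq, hq]; simp
  have h2 : 1 - p * (starRingEnd ℂ) q = (q - p) * (starRingEnd ℂ) q := by
    linear_combination h1
  rw [h2, norm_mul, Complex.norm_conj, hq, mul_one, norm_sub_rev]

theorem eta_im (hp : ‖p‖ = 1) (hq : ‖q‖ = 1) (x : ℂ) :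
    (eta p q x).im = (1 - ‖x‖ ^ 2) * ‖p - q‖ ^ 2 / (2 * ‖p - x‖ ^ 2) := by
  by_cases hx : x = p
  · subst hx
    simp [eta]
  have hpx : p - x ≠ 0 := sub_ne_zero.2 (Ne.symm hx)
  have hn : Complex.normSq (p - x) ≠ 0 := by simpa using hpx
  have h1 : p.re ^ 2 + p.im ^ 2 = 1 := CO_sq hp
  have h2 : q.re ^ 2 + q.im ^ 2 = 1 := CO_sq hq
  rw [eta, Complex.div_im, ← Complex.normSq_eq_norm_sq x, ← Complex.normSq_eq_norm_sq (p - q),
    ← Complex.normSq_eq_norm_sq (p - x)]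
  rw [← sub_div, eq_div_iff (by positivity), div_mul_eq_mul_div, div_eq_iff hn]
  simp only [Complex.normSq_apply, Complex.mul_re, Complex.mul_im, Complex.conj_re, Complex.conj_im,
    Complex.sub_re, Complex.sub_im, Complex.I_re, Complex.I_im, Complex.one_re, Complex.one_im]
  linear_combination (2 * (((p.re - x.re) * (p.re - x.re) + (p.im - x.im) * (p.im - x.im)))) *
    (((q.re ^ 2 + q.im ^ 2) - (q.re * x.re + q.im * x.im) - (1 - (x.re ^ 2 + x.im ^ 2)) / 2) * h1 +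
      (1 - (p.re * x.re + p.im * x.im) - (1 - (x.re ^ 2 + x.im ^ 2)) / 2) * h2)

private theorem CO_c (hp : ‖p‖ = 1) (hq : ‖q‖ = 1) (hpq : p ≠ q) :
    1 - p * (starRingEnd ℂ) q ≠ 0 := by
  rw [← norm_ne_zero_iff, pq_norm hp hq]
  exact norm_ne_zero_iff.2 (sub_ne_zero.2 hpq)

private theorem CO_im_nonneg (hp : ‖p‖ = 1) (hq : ‖q‖ = 1) {x : ℂ} (hx : ‖x‖ ≤ 1) :
    0 ≤ (eta p q x).im := by
  rw [eta_im hp hq]
  have : 0 ≤ 1 - ‖x‖ ^ 2 := by nlinarith [norm_nonneg x]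
  positivity

private theorem CO_im_pos (hp : ‖p‖ = 1) (hq : ‖q‖ = 1) (hpq : p ≠ q) {x : ℂ} (hx : ‖x‖ < 1) :
    0 < (eta p q x).im := by
  rw [eta_im hp hq]
  have h1 : 0 < 1 - ‖x‖ ^ 2 := by nlinarith [norm_nonneg x]
  have h2 : 0 < ‖p - q‖ := norm_pos_iff.2 (sub_ne_zero.2 hpq)
  have hxp : x ≠ p := by rintro rfl; linarith
  have h3 : 0 < ‖p - x‖ := norm_pos_iff.2 (sub_ne_zero.2 (Ne.symm hxp))
  positivity

private theorem CO_eta_cont {x : ℂ} (hx : x ≠ p) : ContinuousAt (eta p q) x := by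
  unfold eta
  refine ContinuousAt.div ?_ ?_ (sub_ne_zero.2 (Ne.symm hx))
  · fun_prop
  · fun_prop

private theorem CO_exp_im {ω : ℂ} (hω : ω ∈ Str) : 0 ≤ (Complex.exp ω).im := by
  rw [Complex.exp_im]
  exact mul_nonneg (Real.exp_pos _).le (Real.sin_nonneg_of_nonneg_of_le_pi hω.1 hω.2)

private theorem CO_omi_sub {ω : ℂ} (hD : Complex.exp ω + Complex.I * (1 - p * (starRingEnd ℂ) q) ≠ 0) :
    omi p q ω - q = Complex.exp ω * (p - q) / (Complex.exp ω + Complex.I * (1 - p * (starRingEnd ℂ) q)) ∧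
    p - omi p q ω = Complex.I * (1 - p * (starRingEnd ℂ) q) * (p - q) /
      (Complex.exp ω + Complex.I * (1 - p * (starRingEnd ℂ) q)) := by
  constructor
  · rw [eq_div_iff hD, sub_mul, omi, div_mul_cancel₀ _ hD]
    ring
  · rw [eq_div_iff hD, sub_mul, omi, div_mul_cancel₀ _ hD]
    ring

private theorem CO_omi (hp : ‖p‖ = 1) (hq : ‖q‖ = 1) (hpq : p ≠ q) {ω : ℂ}
    (hD : Complex.exp ω + Complex.I * (1 - p * (starRingEnd ℂ) q) ≠ 0) :
    omi p q ω ≠ p ∧ omi p q ω ≠ q ∧ eta p q (omi p q ω) = Complex.exp ω := by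
  obtain ⟨h1, h2⟩ := CO_omi_sub hD
  have hc := CO_c hp hq hpq
  have h4 : p - q ≠ 0 := sub_ne_zero.2 hpq
  have hI := Complex.I_ne_zero
  have hE := Complex.exp_ne_zero ω
  have h5 : omi p q ω - q ≠ 0 := by
    rw [h1]; exact div_ne_zero (mul_ne_zero hE h4) hD
  have h6 : p - omi p q ω ≠ 0 := by
    rw [h2]; exact div_ne_zero (mul_ne_zero (mul_ne_zero hI hc) h4) hD
  refine ⟨fun h => h6 (by rw [h, sub_self]), fun h => h5 (by rw [h, sub_self]), ?_⟩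
  rw [eta, h1, h2, ← mul_div_assoc, div_div_div_cancel_right₀ hD,
    div_eq_iff (mul_ne_zero (mul_ne_zero hI hc) h4)]
  ring

theorem eta_ne (hp : ‖p‖ = 1) (hq : ‖q‖ = 1) (hpq : p ≠ q) {x : ℂ} (h1 : x ≠ p) (h2 : x ≠ q) :
    eta p q x ≠ 0 := by
  have hc := CO_c hp hq hpq
  have h3 : p - x ≠ 0 := sub_ne_zero.2 (Ne.symm h1)
  have h4 : x - q ≠ 0 := sub_ne_zero.2 h2
  rw [eta]
  exact div_ne_zero (mul_ne_zero (mul_ne_zero Complex.I_ne_zero hc) h4) h3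

theorem eta_sub {x y : ℂ} (hx : x ≠ p) (hy : y ≠ p) :
    eta p q x - eta p q y = Complex.I * (1 - p * (starRingEnd ℂ) q) * (p - q) * (x - y) /
      ((p - x) * (p - y)) := by
  have h3 : p - x ≠ 0 := sub_ne_zero.2 (Ne.symm hx)
  have h4 : p - y ≠ 0 := sub_ne_zero.2 (Ne.symm hy)
  rw [eta, eta]
  field_simp
  ring

theorem exp_om (hp : ‖p‖ = 1) (hq : ‖q‖ = 1) (hpq : p ≠ q) {x : ℂ} (h1 : x ≠ p) (h2 : x ≠ q) :
    Complex.exp (om p q x) = eta p q x := by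
  rw [om, Complex.exp_log (eta_ne hp hq hpq h1 h2)]

theorem om_mem (hp : ‖p‖ = 1) (hq : ‖q‖ = 1) (hpq : p ≠ q) {x : ℂ} (hx : x ∈ Dpq p q) :
    om p q x ∈ Str := by
  have h := CO_im_nonneg hp hq hx.1
  constructor
  · rw [om, Complex.log_im, Complex.arg_nonneg_iff]; exact h
  · rw [om, Complex.log_im]; exact Complex.arg_le_pi _

theorem om_im_pos (hp : ‖p‖ = 1) (hq : ‖q‖ = 1) (hpq : p ≠ q) {x : ℂ} (hx : ‖x‖ < 1) :
    0 < (om p q x).im ∧ (om p q x).im < Real.pi := by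
  have h := CO_im_pos hp hq hpq hx
  rw [om, Complex.log_im]
  constructor
  · have h1 : 0 ≤ (eta p q x).arg := Complex.arg_nonneg_iff.2 h.le
    refine lt_of_le_of_ne h1 fun h2 => ?_
    have := (Complex.arg_eq_zero_iff.1 h2.symm).2
    linarith
  · rw [Complex.arg_lt_pi_iff]
    exact Or.inr h.ne'

theorem om_im_zero (hp : ‖p‖ = 1) (hq : ‖q‖ = 1) (hpq : p ≠ q) {x : ℂ} (hx : ‖x‖ = 1)
    (h1 : x ≠ p) (h2 : x ≠ q) :
    ((om p q x).im = 0 ∧ 0 < (eta p q x).re) ∨ ((om p q x).im = Real.pi ∧ (eta p q x).re < 0) := by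
  have h0 : (eta p q x).im = 0 := by rw [eta_im hp hq, hx]; simp
  have hne := eta_ne hp hq hpq h1 h2
  have hre : (eta p q x).re ≠ 0 := fun h => hne (Complex.ext h h0)
  rw [om, Complex.log_im]
  rcases lt_or_gt_of_ne hre with h | h
  · exact Or.inr ⟨Complex.arg_eq_pi_iff.2 ⟨h, h0⟩, h⟩
  · exact Or.inl ⟨Complex.arg_eq_zero_iff.2 ⟨h.le, h0⟩, h⟩

theorem om_cont (hp : ‖p‖ = 1) (hq : ‖q‖ = 1) (hpq : p ≠ q) :
    ContinuousOn (om p q) (Dpq p q) := by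
  have h1 : ContinuousOn (eta p q) (Dpq p q) := by
    intro x hx
    exact (CO_eta_cont hx.2.1).continuousWithinAt
  have h2 : ContinuousOn Complex.log {z : ℂ | z ≠ 0 ∧ 0 ≤ z.im} := by
    intro z hz
    by_cases hs : z ∈ Complex.slitPlane
    · exact (continuousAt_clog hs).continuousWithinAt
    · rw [Complex.mem_slitPlane_iff] at hs
      push Not at hs
      have hre : z.re < 0 := lt_of_le_of_ne hs.1 fun h => hz.1 (Complex.ext h hs.2)
      exact (Complex.continuousWithinAt_log_of_re_neg_of_im_zero hre hs.2).mono fun w hw => hw.2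
  exact h2.comp h1 fun x hx => ⟨eta_ne hp hq hpq hx.2.1 hx.2.2, CO_im_nonneg hp hq hx.1⟩

theorem omi_den (hp : ‖p‖ = 1) (hq : ‖q‖ = 1) (hpq : p ≠ q) {ω : ℂ} (hω : ω ∈ Str) :
    Complex.exp ω + Complex.I * (1 - p * (starRingEnd ℂ) q) ≠ 0 := by
  intro h
  have h1 := congrArg Complex.im h
  have h2 := pq_re hp hq
  have h3 : 0 < ‖p - q‖ := norm_pos_iff.2 (sub_ne_zero.2 hpq)
  have h4 := CO_exp_im hω
  simp only [Complex.add_im, Complex.mul_im, Complex.I_re, Complex.I_im, Complex.sub_re,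
    Complex.one_re, Complex.zero_im] at h1
  have h5 : 0 < ‖p - q‖ ^ 2 / 2 := by positivity
  linarith

theorem omi_mem (hp : ‖p‖ = 1) (hq : ‖q‖ = 1) (hpq : p ≠ q) {ω : ℂ} (hω : ω ∈ Str) :
    omi p q ω ∈ Dpq p q := by
  obtain ⟨h1, h2, h3⟩ := CO_omi hp hq hpq (omi_den hp hq hpq hω)
  refine ⟨?_, h1, h2⟩
  have h4 := CO_exp_im hω
  rw [← h3, eta_im hp hq] at h4
  have h5 : 0 < ‖p - q‖ := norm_pos_iff.2 (sub_ne_zero.2 hpq)
  have h6 : 0 < ‖p - omi p q ω‖ := norm_pos_iff.2 (sub_ne_zero.2 (Ne.symm h1))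
  by_contra hc
  push Not at hc
  have h7 : 1 - ‖omi p q ω‖ ^ 2 < 0 := by nlinarith
  have h8 : (1 - ‖omi p q ω‖ ^ 2) * ‖p - q‖ ^ 2 / (2 * ‖p - omi p q ω‖ ^ 2) < 0 :=
    div_neg_of_neg_of_pos (mul_neg_of_neg_of_pos h7 (by positivity)) (by positivity)
  linarith

theorem omi_ball (hp : ‖p‖ = 1) (hq : ‖q‖ = 1) (hpq : p ≠ q) {ω : ℂ} (h0 : 0 < ω.im)
    (h1 : ω.im < Real.pi) : ‖omi p q ω‖ < 1 := by
  obtain ⟨h1, h2, h3⟩ := CO_omi hp hq hpq (omi_den hp hq hpq ⟨h0.le, h1.le⟩)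
  have h4 : 0 < (Complex.exp ω).im := by
    rw [Complex.exp_im]
    exact mul_pos (Real.exp_pos _) (Real.sin_pos_of_pos_of_lt_pi h0 (by assumption))
  rw [← h3, eta_im hp hq] at h4
  by_contra hc
  push Not at hc
  have h7 : 1 - ‖omi p q ω‖ ^ 2 ≤ 0 := by nlinarith
  have h8 : (1 - ‖omi p q ω‖ ^ 2) * ‖p - q‖ ^ 2 / (2 * ‖p - omi p q ω‖ ^ 2) ≤ 0 :=
    div_nonpos_of_nonpos_of_nonneg (mul_nonpos_of_nonpos_of_nonneg h7 (by positivity)) (by positivity)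
  linarith

theorem omi_sphere (hp : ‖p‖ = 1) (hq : ‖q‖ = 1) (hpq : p ≠ q) {ω : ℂ}
    (h : ω.im = 0 ∨ ω.im = Real.pi) : ‖omi p q ω‖ = 1 := by
  have hω : ω ∈ Str := by
    rcases h with h | h
    · exact ⟨h.ge, by rw [h]; exact Real.pi_pos.le⟩
    · exact ⟨by rw [h]; exact Real.pi_pos.le, h.le⟩
  obtain ⟨h1, h2, h3⟩ := CO_omi hp hq hpq (omi_den hp hq hpq hω)
  have h4 : (Complex.exp ω).im = 0 := by
    rw [Complex.exp_im]
    rcases h with h | h <;> simp [h]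
  rw [← h3, eta_im hp hq] at h4
  have h5 : 0 < ‖p - q‖ := norm_pos_iff.2 (sub_ne_zero.2 hpq)
  have h6 : 0 < ‖p - omi p q ω‖ := norm_pos_iff.2 (sub_ne_zero.2 (Ne.symm h1))
  rw [div_eq_zero_iff] at h4
  rcases h4 with h4 | h4
  · rcases mul_eq_zero.1 h4 with h7 | h7
    · have : ‖omi p q ω‖ ^ 2 = 1 := by linarith
      exact (pow_eq_one_iff_of_nonneg (norm_nonneg _) two_ne_zero).1 this
    · exfalso
      have : 0 < ‖p - q‖ ^ 2 := by positivity
      linarith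
  · exfalso
    have : 0 < 2 * ‖p - omi p q ω‖ ^ 2 := by positivity
    linarith

theorem omi_cont (hp : ‖p‖ = 1) (hq : ‖q‖ = 1) (hpq : p ≠ q) : ContinuousOn (omi p q) Str := by
  intro ω hω
  have h1 : ContinuousAt (omi p q) ω := by
    unfold omi
    refine ContinuousAt.div ?_ ?_ (omi_den hp hq hpq hω)
    · fun_prop
    · fun_prop
  exact h1.continuousWithinAt

theorem omi_om (hp : ‖p‖ = 1) (hq : ‖q‖ = 1) (hpq : p ≠ q) {x : ℂ} (hx : x ∈ Dpq p q) :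
    omi p q (om p q x) = x := by
  have hc := CO_c hp hq hpq
  have h3 : p - x ≠ 0 := sub_ne_zero.2 (Ne.symm hx.2.1)
  have h4 : p - q ≠ 0 := sub_ne_zero.2 hpq
  have hI := Complex.I_ne_zero
  have h5 : eta p q x + Complex.I * (1 - p * (starRingEnd ℂ) q) =
      Complex.I * (1 - p * (starRingEnd ℂ) q) * (p - q) / (p - x) := by
    rw [eta, eq_div_iff h3, add_mul, div_mul_cancel₀ _ h3]
    ring
  have h6 : p * eta p q x + Complex.I * (1 - p * (starRingEnd ℂ) q) * q =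
      x * (Complex.I * (1 - p * (starRingEnd ℂ) q) * (p - q) / (p - x)) := by
    rw [← mul_div_assoc, eq_div_iff h3, add_mul, eta, mul_assoc, div_mul_cancel₀ _ h3]
    ring
  rw [omi, exp_om hp hq hpq hx.2.1 hx.2.2, h5, h6]
  exact mul_div_cancel_right₀ _ (div_ne_zero (mul_ne_zero (mul_ne_zero hI hc) h4) h3)

theorem om_omi (hp : ‖p‖ = 1) (hq : ‖q‖ = 1) (hpq : p ≠ q) {ω : ℂ} (hω : ω ∈ Str) :
    om p q (omi p q ω) = ω := by
  obtain ⟨h1, h2, h3⟩ := CO_omi hp hq hpq (omi_den hp hq hpq hω)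
  rw [om, h3, Complex.log_exp]
  · linarith [hω.1, Real.pi_pos]
  · exact hω.2

theorem om_hasDerivAt (hp : ‖p‖ = 1) (hq : ‖q‖ = 1) (hpq : p ≠ q) {x : ℂ} (hx : ‖x‖ < 1) :
    HasDerivAt (om p q) ((p - q) / ((x - q) * (p - x))) x := by
  have hxp : x ≠ p := by rintro rfl; linarith
  have hxq : x ≠ q := by rintro rfl; linarith
  have hc := CO_c hp hq hpq
  have h3 : p - x ≠ 0 := sub_ne_zero.2 (Ne.symm hxp)
  have h4 : x - q ≠ 0 := sub_ne_zero.2 hxq
  have hI := Complex.I_ne_zero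
  have h5 : HasDerivAt (eta p q) (Complex.I * (1 - p * (starRingEnd ℂ) q) * (p - q) / (p - x) ^ 2) x := by
    have h6 : HasDerivAt (fun y : ℂ => Complex.I * (1 - p * (starRingEnd ℂ) q) * (y - q))
        (Complex.I * (1 - p * (starRingEnd ℂ) q)) x := by
      simpa using ((hasDerivAt_id x).sub_const q).const_mul (Complex.I * (1 - p * (starRingEnd ℂ) q))
    have h7 : HasDerivAt (fun y : ℂ => p - y) (-1) x := by
      simpa using (hasDerivAt_id x).const_sub p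
    refine (h6.div h7 h3).congr_deriv ?_
    congr 1
    ring
  have hs : eta p q x ∈ Complex.slitPlane := by
    rw [Complex.mem_slitPlane_iff]
    exact Or.inr (CO_im_pos hp hq hpq hx).ne'
  refine (h5.clog hs).congr_deriv ?_
  rw [eta]
  field_simp

theorem omi_hasDerivAt (hp : ‖p‖ = 1) (hq : ‖q‖ = 1) (hpq : p ≠ q) {ω : ℂ} (hω : ω ∈ Str) :
    HasDerivAt (omi p q) ((omi p q ω - q) * (p - omi p q ω) / (p - q)) ω := by
  have hD := omi_den hp hq hpq hω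
  obtain ⟨h1, h2⟩ := CO_omi_sub hD
  have h4 : p - q ≠ 0 := sub_ne_zero.2 hpq
  rw [h1, h2]
  have hE : HasDerivAt Complex.exp (Complex.exp ω) ω := Complex.hasDerivAt_exp ω
  have h6 : HasDerivAt (fun ω : ℂ => p * Complex.exp ω + Complex.I * (1 - p * (starRingEnd ℂ) q) * q)
      (p * Complex.exp ω) ω := (hE.const_mul p).add_const _
  have h7 : HasDerivAt (fun ω : ℂ => Complex.exp ω + Complex.I * (1 - p * (starRingEnd ℂ) q))
      (Complex.exp ω) ω := hE.add_const _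
  refine (h6.div h7 hD).congr_deriv ?_
  rw [div_mul_div_comm, div_div, div_eq_div_iff (pow_ne_zero 2 hD) (mul_ne_zero (mul_ne_zero hD hD) h4)]
  ring

/-- the hyperbolic metric in the strip coordinate -/
theorem om_metric (hp : ‖p‖ = 1) (hq : ‖q‖ = 1) (hpq : p ≠ q) {x : ℂ} (hx : ‖x‖ < 1) :
    ‖(p - q) / ((x - q) * (p - x))‖ * (1 - ‖x‖ ^ 2) = 2 * Real.sin (om p q x).im := by
  have hxp : x ≠ p := by rintro rfl; linarith
  have hxq : x ≠ q := by rintro rfl; linarith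
  have hne := eta_ne hp hq hpq hxp hxq
  have h3 : 0 < ‖p - x‖ := norm_pos_iff.2 (sub_ne_zero.2 (Ne.symm hxp))
  have h4 : 0 < ‖x - q‖ := norm_pos_iff.2 (sub_ne_zero.2 hxq)
  have h5 : 0 < ‖p - q‖ := norm_pos_iff.2 (sub_ne_zero.2 hpq)
  have h6 : ‖eta p q x‖ = ‖p - q‖ * ‖x - q‖ / ‖p - x‖ := by
    rw [eta, norm_div, norm_mul, norm_mul, Complex.norm_I, one_mul, pq_norm hp hq]
  rw [om, Complex.log_im, Complex.sin_arg, eta_im hp hq, h6, norm_div, norm_mul]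
  field_simp

end TN
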