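import Mathlib
import Pool.Agent.H36.DS.Base

/-!
Project MP_8a27c0_TN (helper12): Theorem N of `/team-store/H12_8a27c0_general.md`, section 3.
Elementary Nielsen theory at infinity for homeomorphisms of the closed unit disc that normalise a
convex cocompact Fuchsian group.  Common definitions.  (`HasLog`, `HasWind` are in `H36/DS/Base`.)
-/

namespace TN

open Metric Set Filter Topology DS

/-! ### Moebius maps of the disc and Fuchsian groups -/

/-- the Moebius map `x ↦ u (x - b) / (1 - conj b x)` (used for `‖u‖ = 1`, `‖b‖ < 1`) -/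
noncomputable def mob (u b x : ℂ) : ℂ := u * (x - b) / (1 - (starRingEnd ℂ) b * x)

/-- the derivative of `mob u b` at `x` -/
noncomputable def mobD (u b x : ℂ) : ℂ :=
  u * (1 - (starRingEnd ℂ) b * b) / (1 - (starRingEnd ℂ) b * x) ^ 2

/-- pseudo-hyperbolic distance -/
noncomputable def pd (x y : ℂ) : ℝ := ‖x - y‖ / ‖1 - (starRingEnd ℂ) x * y‖

/-- A discrete group of Moebius maps of the closed disc without fixed points in the open disc,
all of whose nontrivial elements are hyperbolic (two fixed points on the circle). -/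
structure Fuchs (Γ : Type) [Group Γ] where
  u : Γ → ℂ
  b : Γ → ℂ
  hu : ∀ g, ‖u g‖ = 1
  hb : ∀ g, ‖b g‖ < 1
  one : ∀ x ∈ closedBall (0:ℂ) 1, mob (u 1) (b 1) x = x
  mul : ∀ g h, ∀ x ∈ closedBall (0:ℂ) 1,
    mob (u (g * h)) (b (g * h)) x = mob (u g) (b g) (mob (u h) (b h) x)
  fin : ∀ r : ℝ, r < 1 → {g | ‖b g‖ ≤ r}.Finite
  free : ∀ g, g ≠ 1 → ∀ x ∈ ball (0:ℂ) 1, mob (u g) (b g) x ≠ x
  hyp : ∀ g, g ≠ 1 → ∃ p q : ℂ, ‖p‖ = 1 ∧ ‖q‖ = 1 ∧ p ≠ q ∧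
    mob (u g) (b g) p = p ∧ mob (u g) (b g) q = q

variable {Γ : Type} [Group Γ]

/-- the action -/
noncomputable def Fuchs.act (F : Fuchs Γ) (g : Γ) (x : ℂ) : ℂ := mob (F.u g) (F.b g) x

/-- the derivative of the action -/
noncomputable def Fuchs.dact (F : Fuchs Γ) (g : Γ) (x : ℂ) : ℂ := mobD (F.u g) (F.b g) x

/-- the limit set -/
def Fuchs.lim (F : Fuchs Γ) : Set ℂ := {ξ | ‖ξ‖ = 1 ∧ ξ ∈ closure (range fun g => F.act g 0)}

/-- restriction to a subgroup -/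
noncomputable def Fuchs.sub (F : Fuchs Γ) (Z : Subgroup Γ) : Fuchs Z where
  u g := F.u g
  b g := F.b g
  hu g := F.hu g
  hb g := F.hb g
  one x hx := by simpa using F.one x hx
  mul g h x hx := by simpa using F.mul g h x hx
  fin r hr := by
    have := (F.fin r hr).preimage (Subtype.val_injective.injOn (s := (Subtype.val : Z → Γ) ⁻¹' _))
    exact this
  free g hg x hx := F.free g (fun h => hg (Subtype.ext h)) x hx
  hyp g hg := F.hyp g (fun h => hg (Subtype.ext h))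

/-- nonelementary: two nontrivial elements without common fixed point on the circle -/
def Fuchs.Nonel (F : Fuchs Γ) : Prop :=
  ∃ g h : Γ, g ≠ 1 ∧ h ≠ 1 ∧ ∀ x : ℂ, ‖x‖ = 1 → F.act g x = x → F.act h x ≠ x

/-- uniformly conical limit set (convex cocompactness) -/
def Fuchs.UC (F : Fuchs Γ) : Prop :=
  ∃ ρ : ℝ, ρ < 1 ∧ ∀ ξ ∈ F.lim, ∀ r : ℝ, 0 ≤ r → r < 1 → ∃ g, ‖F.act g (r * ξ)‖ ≤ ρ

/-- cocompactness on triples of limit points -/
def Fuchs.TC (F : Fuchs Γ) : Prop :=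
  ∃ ε : ℝ, 0 < ε ∧ ∀ a ∈ F.lim, ∀ b ∈ F.lim, ∀ c ∈ F.lim, a ≠ b → b ≠ c → a ≠ c →
    ∃ g, ε ≤ dist (F.act g a) (F.act g b) ∧ ε ≤ dist (F.act g b) (F.act g c) ∧
      ε ≤ dist (F.act g a) (F.act g c)

/-- `p` is the attracting and `q` the repelling fixed point of `g` -/
structure Fuchs.AR (F : Fuchs Γ) (g : Γ) (p q : ℂ) : Prop where
  np : ‖p‖ = 1
  nq : ‖q‖ = 1
  ne : p ≠ q
  fp : F.act g p = p
  fq : F.act g q = q
  att : ∀ x ∈ closedBall (0:ℂ) 1, x ≠ q → Tendsto (fun n : ℕ => F.act (g ^ n) x) atTop (𝓝 p)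

/-- `ξ` is a conical limit point of the subgroup `Z` -/
def Fuchs.Con (F : Fuchs Γ) (Z : Subgroup Γ) (ξ : ℂ) : Prop :=
  ∃ ρ : ℝ, ρ < 1 ∧ ∀ r : ℝ, r < 1 → ∃ s : ℝ, r < s ∧ 0 ≤ s ∧ s < 1 ∧ ∃ g ∈ Z, ‖F.act g (s * ξ)‖ ≤ ρ

/-! ### Homeomorphisms of the closed disc that normalise the group -/

/-- a map `H` (inverse `Hi`) with an automorphism of the group -/
structure Elt (Γ : Type) [Group Γ] where
  H : ℂ → ℂ
  Hi : ℂ → ℂ
  θ : Γ ≃* Γ

/-- `e` is an orientation preserving homeomorphism of the closed disc with `H ∘ g = θ g ∘ H` -/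
structure Norm (F : Fuchs Γ) (e : Elt Γ) : Prop where
  cont : ContinuousOn e.H (closedBall 0 1)
  conti : ContinuousOn e.Hi (closedBall 0 1)
  mapB : MapsTo e.H (ball 0 1) (ball 0 1)
  mapBi : MapsTo e.Hi (ball 0 1) (ball 0 1)
  mapS : MapsTo e.H (sphere 0 1) (sphere 0 1)
  mapSi : MapsTo e.Hi (sphere 0 1) (sphere 0 1)
  left : ∀ x ∈ closedBall (0:ℂ) 1, e.Hi (e.H x) = x
  right : ∀ x ∈ closedBall (0:ℂ) 1, e.H (e.Hi x) = x
  equi : ∀ g, ∀ x ∈ closedBall (0:ℂ) 1, e.H (F.act g x) = F.act (e.θ g) (e.H x)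
  orient : HasLog (fun z => e.H z / z) (sphere 0 1)

/-- composition `e ∘ e'` -/
def Elt.comp (e e' : Elt Γ) : Elt Γ := ⟨e.H ∘ e'.H, e'.Hi ∘ e.Hi, e'.θ.trans e.θ⟩

/-- `c ∘ e` for a group element `c` -/
noncomputable def Elt.lmul (F : Fuchs Γ) (c : Γ) (e : Elt Γ) : Elt Γ :=
  ⟨F.act c ∘ e.H, e.Hi ∘ F.act c⁻¹, e.θ.trans (MulAut.conj c)⟩

/-- the inverse -/
def Elt.inv (e : Elt Γ) : Elt Γ := ⟨e.Hi, e.H, e.θ.symm⟩

/-- the centraliser of `e` in the group -/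
def Elt.cen (e : Elt Γ) : Subgroup Γ where
  carrier := {g | e.θ g = g}
  mul_mem' := by
    intro a b (ha : e.θ a = a) (hb : e.θ b = b)
    show e.θ (a * b) = a * b
    rw [map_mul, ha, hb]
  one_mem' := by simp
  inv_mem' := by
    intro a (ha : e.θ a = a)
    show e.θ a⁻¹ = a⁻¹
    rw [map_inv, ha]

/-- superattracting fixed point on the circle -/
def SA (H : ℂ → ℂ) (ξ : ℂ) : Prop :=
  H ξ = ξ ∧ ∀ ε : ℝ, 0 < ε → ∃ δ : ℝ, 0 < δ ∧ ∀ x ∈ closedBall (0:ℂ) 1, dist x ξ < δ →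
    dist (H x) ξ ≤ ε * dist x ξ

/-- all fixed points of `H` in the open disc lie in the `Z`-translates of finitely many pairwise
disjoint holes of index one -/
structure Holes (F : Fuchs Γ) (H : ℂ → ℂ) (Z : Subgroup Γ) (m : ℕ) (O : Fin m → Set ℂ)
    (k : Fin m → ℂ) : Prop where
  opn : ∀ i, IsOpen (O i)
  mem : ∀ i, k i ∈ O i
  sub : ∀ i, closure (O i) ⊆ ball 0 1
  disj : ∀ i j, ∀ g ∈ Z, (g ≠ 1 ∨ i ≠ j) → Disjoint (F.act g '' closure (O i)) (closure (O j))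
  fix : ∀ x ∈ ball (0:ℂ) 1, H x = x → ∃ g ∈ Z, ∃ i, x ∈ F.act g '' O i
  log : ∀ i, HasLog (fun x => (H x - x) / (x - k i)) (frontier (O i))

/-- the family of all lifts of positive degree: closed under composition and under left
multiplication by the group, and every member satisfies (N1), (N2) in both directions -/
structure Fam (F : Fuchs Γ) (𝓗 : Set (Elt Γ)) : Prop where
  ne : 𝓗.Nonempty
  norm : ∀ e ∈ 𝓗, Norm F e
  comp : ∀ e ∈ 𝓗, ∀ e' ∈ 𝓗, e.comp e' ∈ 𝓗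
  lmul : ∀ e ∈ 𝓗, ∀ c, e.lmul F c ∈ 𝓗
  bd : ∀ e ∈ 𝓗, ∀ ξ : ℂ, ‖ξ‖ = 1 → e.H ξ = ξ → ξ ∈ F.lim
  holes : ∀ e ∈ 𝓗, ∃ m O k, Holes F e.H e.cen m O k
  holesi : ∀ e ∈ 𝓗, ∃ m O k, Holes F e.Hi e.cen m O k

/-! ### Coordinates of the strip adapted to two boundary points -/

/-- the Moebius map onto the upper half plane with `q ↦ 0`, `p ↦ ∞` -/
noncomputable def eta (p q x : ℂ) : ℂ :=
  Complex.I * (1 - p * (starRingEnd ℂ) q) * (x - q) / (p - x)

/-- the coordinate onto the strip `0 ≤ Im ≤ π` -/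
noncomputable def om (p q x : ℂ) : ℂ := Complex.log (eta p q x)

/-- the inverse of `om p q` -/
noncomputable def omi (p q ω : ℂ) : ℂ :=
  (p * Complex.exp ω + Complex.I * (1 - p * (starRingEnd ℂ) q) * q) /
    (Complex.exp ω + Complex.I * (1 - p * (starRingEnd ℂ) q))

end TN
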