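import Pool.Agent.H12.TN.FA

/-!
FB (convergence property).  Pass to a subsequence along which `b n = F.b (g n) → d` (closed disc is compact) and
`act (g n) 0 → c`; the norms tend to one (`b_tendsto`, `norm_act_zero`).  `c ∈ lim` by `lim_of_seq`, and `d ∈ lim`
because `F.b g = act g⁻¹ 0` (`b_eq`).  For `x` in the closed disc with `η ≤ dist x d`:
`dist (act g x) (act g 0) = (1 - ‖b‖²) ‖x‖ / (‖1 - conj b x‖ * 1)` (`act_dist` with `y = 0`) and
`‖1 - conj b x‖ ≥ ‖d - x‖ - ‖1 - conj b d‖ ...`: precisely `‖1 - conj b x‖ ≥ ‖1 - conj d x‖ - ‖b - d‖` and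
`‖1 - conj d x‖ = ‖d - x‖` (`‖d‖ = 1`), so it is `≥ η / 2` for large `n`; hence the distance is
`≤ (1 - ‖b‖²) * 2 / η → 0`.  The second statement is the first for the inverses: `F.b g⁻¹ = act g 0 → c`, `act g⁻¹ 0 = b g → d`.
-/

namespace TN
open Metric Set Filter Topology DS

variable {Γ : Type} [Group Γ]

theorem FB_lower {b d x : ℂ} (hd : ‖d‖ = 1) (hx : ‖x‖ ≤ 1) :
    dist x d - ‖b - d‖ ≤ ‖1 - (starRingEnd ℂ) b * x‖ := by
  have h1 : (starRingEnd ℂ) d * d = 1 := by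
    rw [mul_comm, Complex.mul_conj, Complex.normSq_eq_norm_sq, hd]
    norm_num
  have h2 : 1 - (starRingEnd ℂ) d * x = (starRingEnd ℂ) d * (d - x) := by
    rw [mul_sub, h1]
  have h3 : ‖1 - (starRingEnd ℂ) d * x‖ = dist x d := by
    rw [h2, norm_mul, RCLike.norm_conj, hd, one_mul, dist_comm, dist_eq_norm]
  have h4 : 1 - (starRingEnd ℂ) d * x
      = (1 - (starRingEnd ℂ) b * x) + (starRingEnd ℂ) (b - d) * x := by
    rw [map_sub]; ring
  have h5 : ‖(starRingEnd ℂ) (b - d) * x‖ ≤ ‖b - d‖ := by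
    rw [norm_mul, RCLike.norm_conj]
    exact mul_le_of_le_one_right (norm_nonneg _) hx
  have h6 := norm_add_le (1 - (starRingEnd ℂ) b * x) ((starRingEnd ℂ) (b - d) * x)
  rw [← h4, h3] at h6
  linarith

theorem FB_est (F : Fuchs Γ) {h : ℕ → Γ} {c d : ℂ} (hd : ‖d‖ = 1)
    (h1 : Tendsto (fun n => F.act (h n) 0) atTop (𝓝 c))
    (h2 : Tendsto (fun n => F.b (h n)) atTop (𝓝 d)) :
    ∀ η > 0, ∀ ε > 0, ∀ᶠ n in atTop, ∀ x ∈ closedBall (0:ℂ) 1, η ≤ dist x d →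
        dist (F.act (h n) x) c < ε := by
  intro η hη ε hε
  have h3 : Tendsto (fun n => (1 - ‖F.b (h n)‖ ^ 2) * (2 / η)) atTop (𝓝 0) := by
    have h4 := ((h2.norm.pow 2).const_sub 1).mul_const (2 / η)
    rw [hd] at h4
    simpa using h4
  have h5 : ∀ᶠ n in atTop, (1 - ‖F.b (h n)‖ ^ 2) * (2 / η) < ε / 2 :=
    h3.eventually_lt_const (by linarith)
  have h6 : ∀ᶠ n in atTop, dist (F.act (h n) 0) c < ε / 2 :=
    (Metric.tendsto_nhds.1 h1) (ε / 2) (by linarith)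
  have h7 : ∀ᶠ n in atTop, dist (F.b (h n)) d < η / 2 :=
    (Metric.tendsto_nhds.1 h2) (η / 2) (by linarith)
  filter_upwards [h5, h6, h7] with n h5 h6 h7 x hx hxd
  have hx1 : ‖x‖ ≤ 1 := by simpa using hx
  rw [dist_eq_norm (F.b (h n)) d] at h7
  have h8 := FB_lower (b := F.b (h n)) hd hx1
  have h9 : η / 2 ≤ ‖1 - (starRingEnd ℂ) (F.b (h n)) * x‖ := by linarith
  have h10 := act_dist F (h n) hx1 (y := 0) (by simp)
  have hb : 0 ≤ 1 - ‖F.b (h n)‖ ^ 2 := by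
    have := pow_le_one₀ (n := 2) (norm_nonneg (F.b (h n))) (F.hb (h n)).le
    linarith
  have h11 : dist (F.act (h n) x) (F.act (h n) 0) ≤ (1 - ‖F.b (h n)‖ ^ 2) * (2 / η) := by
    rw [h10, mul_zero, sub_zero, norm_one, mul_one, dist_zero_right, mul_div_assoc]
    apply mul_le_mul_of_nonneg_left _ hb
    rw [div_le_div_iff₀ (by linarith) hη]
    nlinarith
  have h12 := dist_triangle (F.act (h n) x) (F.act (h n) 0) c
  linarith

theorem conv (F : Fuchs Γ) {g : ℕ → Γ} (hg : ∀ a, {n | g n = a}.Finite) :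
    ∃ φ : ℕ → ℕ, StrictMono φ ∧ ∃ c ∈ F.lim, ∃ d ∈ F.lim,
      Tendsto (fun n => F.act (g (φ n)) 0) atTop (𝓝 c) ∧
      Tendsto (fun n => F.b (g (φ n))) atTop (𝓝 d) ∧
      (∀ η > 0, ∀ ε > 0, ∀ᶠ n in atTop, ∀ x ∈ closedBall (0:ℂ) 1, η ≤ dist x d →
        dist (F.act (g (φ n)) x) c < ε) ∧
      (∀ η > 0, ∀ ε > 0, ∀ᶠ n in atTop, ∀ x ∈ closedBall (0:ℂ) 1, η ≤ dist x c →
        dist (F.act (g (φ n))⁻¹ x) d < ε) := by
  have hK : IsCompact (closedBall (0:ℂ) 1 ×ˢ closedBall (0:ℂ) 1) :=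
    (isCompact_closedBall _ _).prod (isCompact_closedBall _ _)
  have hmem : ∀ n, ((F.act (g n) 0, F.b (g n)) : ℂ × ℂ) ∈
      closedBall (0:ℂ) 1 ×ˢ closedBall (0:ℂ) 1 := by
    intro n
    refine ⟨?_, ?_⟩
    · simpa using act_le F (g n) (x := 0) (by simp)
    · simpa using (F.hb (g n)).le
  obtain ⟨⟨c, d⟩, -, φ, hφ, hlim⟩ := hK.tendsto_subseq hmem
  have hc : Tendsto (fun n => F.act (g (φ n)) 0) atTop (𝓝 c) :=
    (continuous_fst.tendsto (c, d)).comp hlim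
  have hd : Tendsto (fun n => F.b (g (φ n))) atTop (𝓝 d) :=
    (continuous_snd.tendsto (c, d)).comp hlim
  have hn1 : Tendsto (fun n => ‖F.b (g (φ n))‖) atTop (𝓝 1) :=
    (b_tendsto F hg).comp hφ.tendsto_atTop
  have hd1 : ‖d‖ = 1 := tendsto_nhds_unique hd.norm hn1
  have hc1 : ‖c‖ = 1 := by
    refine tendsto_nhds_unique hc.norm ?_
    refine hn1.congr fun n => ?_
    rw [norm_act_zero]
  have hc2 : Tendsto (fun n => F.b (g (φ n))⁻¹) atTop (𝓝 c) := by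
    refine hc.congr fun n => ?_
    rw [b_eq F (g (φ n))⁻¹, inv_inv]
  have hd2 : Tendsto (fun n => F.act (g (φ n))⁻¹ 0) atTop (𝓝 d) := by
    refine hd.congr fun n => ?_
    rw [b_eq F (g (φ n))]
  refine ⟨φ, hφ, c, lim_of_seq F (x := 0) (by simp) hc1 hc, d,
    lim_of_seq F (g := fun n => (g (φ n))⁻¹) (x := 0) (by simp) hd1 hd2, hc, hd, ?_, ?_⟩
  · exact FB_est F hd1 hc hd
  · exact FB_est F (h := fun n => (g (φ n))⁻¹) hc1 hd2 hc2

/-- a moving version: if moreover `x n → x ≠ d` then `act (g (φ n)) (x n) → c` -/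
theorem conv_seq (F : Fuchs Γ) {g : ℕ → Γ} {c d x : ℂ}
    (h : ∀ η > 0, ∀ ε > 0, ∀ᶠ n in atTop, ∀ x ∈ closedBall (0:ℂ) 1, η ≤ dist x d →
        dist (F.act (g n) x) c < ε) {y : ℕ → ℂ} (hy : ∀ n, y n ∈ closedBall (0:ℂ) 1)
    (hyx : Tendsto y atTop (𝓝 x)) (hx : x ≠ d) : Tendsto (fun n => F.act (g n) (y n)) atTop (𝓝 c) := by
  rw [Metric.tendsto_nhds]
  intro ε hε
  have h0 : 0 < dist x d := dist_pos.2 hx
  have h1 : ∀ᶠ n in atTop, dist (y n) x < dist x d / 2 :=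
    (Metric.tendsto_nhds.1 hyx) _ (by linarith)
  filter_upwards [h (dist x d / 2) (by linarith) ε hε, h1] with n h2 h3
  refine h2 (y n) (hy n) ?_
  have h4 := dist_triangle x (y n) d
  rw [dist_comm x (y n)] at h4
  linarith

end TN
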