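import Pool.Agent.H12.TN.FC

/-!
FD (stabilisers).  Let `AR g p q`.
Step 1: `act c p = p` implies `act c q = q`.  Suppose `act c p = p`, `act c q = q' ≠ q`.  The elements `c_n = g^(-n) c g^n`
(`n ≥ 0`) fix `p` and satisfy `c_n⁻¹ q = g^(-n) c⁻¹ g^n q = g^(-n) (act c⁻¹ q) → q` if `act c⁻¹ q ≠ p`
(it is not `p` as `c` fixes `p`), and they are pairwise distinct: `act c⁻¹ q ≠ q`, and the points
`g^(-n)(act c⁻¹ q)` are pairwise distinct (`AR.inv`, not a fixed point of `g`).  They stay bounded: put `z = act c⁻¹ q`.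
To see that infinitely many distinct `c_n` contradict discreteness, apply `conv` to `c_n`: a subsequence converges to `a` off `d`,
`c_n⁻¹ → d` off `a`.  All `c_n` fix `p`: so `p = a` or `p = d` (if `p ≠ d` then `p = c_n p → a`).
(i) If `p ≠ d`: `p = a`.  Points `q_n = c_n⁻¹ q → q`; `q ≠ d` would give `c_n (q_n) = q → a = p` (`conv_seq`), contradiction; so `d = q`.
Then `AR c_n⁻¹`-type information: take a third point: `x_n = g^(-n) x` with `x` on the circle, `x ≠ p, q`: `x_n → q`.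
`c_n x_n = g^(-n) (act c x) → q` if `act c x ≠ p` (true).  Use instead the derivative at the common fixed point `p`:
`dact c_n p = dact c p` for all `n` (chain rule, all maps fix `p`: `dact_mul`, commutative).  But
`‖dact h p‖ = (1 - ‖b h‖²)/‖1 - conj (b h) p‖²` (`mobD_norm`), and `1 - conj b p = 1 - conj (b) p`; `b (c_n) → d`, `‖b (c_n)‖ → 1`.
If `d ≠ p`: `‖1 - conj b p‖ → ‖1 - conj d p‖ > 0`, so `dact c_n p → 0`, contradiction.
(ii) If `d = p`: apply the same to the inverses: `b (c_n⁻¹) → a`; `dact c_n⁻¹ p` is constant, so if `a ≠ p` contradiction again.  So `a = d = p`.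
Then `q_n = c_n⁻¹ q → d = p` as `q ≠ a`; but `q_n → q`, contradiction.
Step 2: by symmetry (use `g⁻¹`) fixing `q` is the same as fixing `p`.
Step 3: the subgroup `S = {c | act c p = p}` acts by `lam c = dact c p`, a positive real number `< 1` iff attracting; `S → ℝ_{>0}`, `c ↦ ‖dact c p‖` is
a homomorphism, injective (if `‖dact c p‖ = 1` and `c ≠ 1` then `c` is hyperbolic with fixed points `p, q`; its derivative at the attracting point has norm `< 1`:
`1 - ‖act c x‖² = ‖dact c x‖ (1 - ‖x‖²)`... simplest: in the coordinate `y = (x-q)/(x-p)` of FC, `c` is the multiplication by a real `lam ≠ 1` and `dact c p = lam⁻¹`).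
The image is a discrete subgroup of `ℝ_{>0}` (finitely many `c` with `‖dact c p‖` in a compact interval: `y`-coordinate `lam` bounded means `act c 0` stays in a
compact part of the disc, `Fuchs.fin`), hence cyclic: take `κ` with the largest value `‖dact κ p‖ < 1` (exists: `g` or a power has such a value; finiteness)
and use the Archimedean property: for `c ∈ S` choose `n : ℤ` with `‖dact κ p‖ < ‖dact (c κ^n) p‖ ≤ 1`; then `c κ^n = 1`.
-/

namespace TN
open Metric Set Filter Topology DS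

variable {Γ : Type} [Group Γ] {F : Fuchs Γ}

/-- `‖1 - conj b p‖ = ‖p - b‖` on the circle -/
theorem FD_den {b p : ℂ} (hp : ‖p‖ = 1) : ‖1 - (starRingEnd ℂ) b * p‖ = ‖p - b‖ := by
  have h1 : (starRingEnd ℂ) p * p = 1 := by
    rw [mul_comm, Complex.mul_conj, Complex.normSq_eq_norm_sq, hp]
    norm_num
  have h2 : 1 - (starRingEnd ℂ) b * p = (starRingEnd ℂ) (p - b) * p := by
    rw [map_sub, sub_mul, h1]
  rw [h2, norm_mul, hp, mul_one, RCLike.norm_conj]

theorem FD_pos {h : Γ} {p : ℂ} (hp : ‖p‖ ≤ 1) : 0 < ‖1 - (starRingEnd ℂ) (F.b h) * p‖ :=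
  norm_pos_iff.2 (den_ne (F.hb h) hp)

theorem FD_dact (h : Γ) (p : ℂ) :
    ‖F.dact h p‖ = (1 - ‖F.b h‖ ^ 2) / ‖1 - (starRingEnd ℂ) (F.b h) * p‖ ^ 2 :=
  mobD_norm (F.hu h) (F.hb h)

theorem FD_prod {h : Γ} {p q : ℂ} (np : ‖p‖ = 1) (nq : ‖q‖ = 1) (ne : p ≠ q)
    (fp : F.act h p = p) (fq : F.act h q = q) :
    1 - ‖F.b h‖ ^ 2 =
      ‖1 - (starRingEnd ℂ) (F.b h) * p‖ * ‖1 - (starRingEnd ℂ) (F.b h) * q‖ := by
  have e3 := act_dist F h np.le nq.le
  rw [fp, fq] at e3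
  have hP := FD_pos (F := F) (h := h) np.le
  have hQ := FD_pos (F := F) (h := h) nq.le
  have hd : 0 < dist p q := dist_pos.2 ne
  rw [eq_div_iff (mul_pos hP hQ).ne'] at e3
  have : dist p q * (‖1 - (starRingEnd ℂ) (F.b h) * p‖ * ‖1 - (starRingEnd ℂ) (F.b h) * q‖) =
      dist p q * (1 - ‖F.b h‖ ^ 2) := by rw [e3]; ring
  exact (mul_left_cancel₀ hd.ne' this).symm

/-- the ratio of the distances to the fixed points is multiplied by the derivative -/
theorem FD_R {h : Γ} {p q x : ℂ} (np : ‖p‖ = 1) (nq : ‖q‖ = 1) (ne : p ≠ q)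
    (fp : F.act h p = p) (fq : F.act h q = q) (hx : ‖x‖ ≤ 1) :
    dist (F.act h x) p * dist x q = ‖F.dact h p‖ * dist x p * dist (F.act h x) q := by
  have e0 := FD_prod (F := F) np nq ne fp fq
  have e1 := act_dist F h hx np.le
  have e2 := act_dist F h hx nq.le
  rw [fp] at e1
  rw [fq] at e2
  have hP := FD_pos (F := F) (h := h) np.le
  have hQ := FD_pos (F := F) (h := h) nq.le
  have hu := FD_pos (F := F) (h := h) hx
  rw [e1, e2, FD_dact, e0]
  field_simp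

theorem FD_mul_one {h : Γ} {p q : ℂ} (np : ‖p‖ = 1) (nq : ‖q‖ = 1) (ne : p ≠ q)
    (fp : F.act h p = p) (fq : F.act h q = q) : ‖F.dact h p‖ * ‖F.dact h q‖ = 1 := by
  have e0 := FD_prod (F := F) np nq ne fp fq
  have hP := FD_pos (F := F) (h := h) np.le
  have hQ := FD_pos (F := F) (h := h) nq.le
  rw [FD_dact, FD_dact, e0]
  field_simp

/-- the stabiliser of a point -/
def FD_st (F : Fuchs Γ) (p : ℂ) (hp : ‖p‖ ≤ 1) : Subgroup Γ where
  carrier := {c | F.act c p = p}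
  mul_mem' := by
    intro a b (ha : F.act a p = p) (hb : F.act b p = p)
    show F.act (a * b) p = p
    rw [act_mul F a b hp, hb, ha]
  one_mem' := act_one F hp
  inv_mem' := by
    intro a (ha : F.act a p = p)
    show F.act a⁻¹ p = p
    have := act_inv_act F a hp
    rwa [ha] at this

theorem FD_mem {p : ℂ} (hp : ‖p‖ ≤ 1) {c : Γ} : c ∈ FD_st F p hp ↔ F.act c p = p := Iff.rfl

/-- the multiplier homomorphism -/
noncomputable def FD_L (F : Fuchs Γ) (p : ℂ) (hp : ‖p‖ ≤ 1) : FD_st F p hp →* ℝ where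
  toFun c := ‖F.dact c p‖
  map_one' := by
    show ‖F.dact 1 p‖ = 1
    rw [dact_one F hp, norm_one]
  map_mul' := by
    intro a b
    show ‖F.dact (a.1 * b.1) p‖ = ‖F.dact a.1 p‖ * ‖F.dact b.1 p‖
    rw [dact_mul F a.1 b.1 hp, (FD_mem hp).1 b.2, norm_mul]

theorem FD_L_pos {p : ℂ} (hp : ‖p‖ ≤ 1) (c : FD_st F p hp) : 0 < FD_L F p hp c :=
  norm_pos_iff.2 (dact_ne F c.1 hp)

/-- the multiplier at the attracting fixed point is less than one -/
theorem FD_lt {h : Γ} {p q : ℂ} (H : F.AR h p q) : ‖F.dact h p‖ < 1 := by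
  by_contra hge
  push Not at hge
  have hp : ‖p‖ ≤ 1 := H.np.le
  have hq : ‖q‖ ≤ 1 := H.nq.le
  set c : FD_st F p hp := ⟨h, H.fp⟩ with hc
  set c' : FD_st F q hq := ⟨h, H.fq⟩ with hc'
  have h1 : ∀ n : ℕ, dist (F.act (h ^ n) 0) q ≤ dist (F.act (h ^ n) 0) p := by
    intro n
    have fp : F.act (h ^ n) p = p := (c ^ n).2
    have fq : F.act (h ^ n) q = q := (c' ^ n).2
    have e := FD_R (F := F) H.np H.nq H.ne fp fq (x := 0) (by simp)
    rw [dist_zero_left, dist_zero_left, H.np, H.nq, mul_one, mul_one] at e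
    have e2 : ‖F.dact (h ^ n) p‖ = ‖F.dact h p‖ ^ n := by
      have := map_pow (FD_L F p hp) c n
      exact this
    rw [e, e2]
    exact le_mul_of_one_le_left dist_nonneg (one_le_pow₀ hge)
  have h0 := H.att 0 (by simp) (by
    intro h
    have := H.nq
    rw [← h] at this
    simp at this)
  have h2 : Tendsto (fun n : ℕ => dist (F.act (h ^ n) 0) q) atTop (𝓝 (dist p q)) :=
    h0.dist tendsto_const_nhds
  have h3 : Tendsto (fun n : ℕ => dist (F.act (h ^ n) 0) p) atTop (𝓝 (dist p p)) :=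
    h0.dist tendsto_const_nhds
  have h4 := le_of_tendsto_of_tendsto' h2 h3 h1
  rw [dist_self] at h4
  exact absurd (dist_pos.2 H.ne) (not_lt.2 h4)

/-- an element fixing `p` with multiplier one is trivial -/
theorem FD_one {p : ℂ} (hp : ‖p‖ ≤ 1) (c : FD_st F p hp) (h : FD_L F p hp c = 1) : c.1 = 1 := by
  by_contra hne
  obtain ⟨p', q', H⟩ := exists_AR F hne
  rcases AR.fixed H hp c.2 with e | e
  · subst e
    have := FD_lt H
    exact absurd h this.ne
  · subst e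
    have h1 := FD_lt (AR.inv H)
    have h2 : FD_L F p hp c⁻¹ = 1 := by
      rw [map_inv, h, inv_one]
    exact absurd h2 h1.ne

theorem FD_fix {g : Γ} {p q : ℂ} (h : F.AR g p q) {c : Γ} (hc : F.act c p = p) :
    F.act c q = q := by
  have hp : ‖p‖ ≤ 1 := h.np.le
  set a : FD_st F p hp := ⟨c, hc⟩ with ha
  set b : FD_st F p hp := ⟨g, h.fp⟩ with hb
  have h1 : FD_L F p hp (a * b * a⁻¹ * b⁻¹) = 1 := by
    rw [map_mul, map_mul, map_mul, map_inv, map_inv]
    have h2 := FD_L_pos hp a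
    have h3 := FD_L_pos hp b
    field_simp
  have h2 : c * g * c⁻¹ * g⁻¹ = 1 := FD_one hp _ h1
  have h3 : c * g * c⁻¹ = g := by rwa [mul_inv_eq_one] at h2
  have h4 := AR.conj h c
  rw [h3] at h4
  exact (AR.unique h4 h).2

theorem AR.fix_iff {g : Γ} {p q : ℂ} (h : F.AR g p q) (c : Γ) : F.act c p = p ↔ F.act c q = q :=
  ⟨fun hc => FD_fix h hc, fun hc => FD_fix (AR.inv h) hc⟩

/-- discreteness of the multipliers -/
theorem FD_finite {p q : ℂ} (np : ‖p‖ = 1) (nq : ‖q‖ = 1) (ne : p ≠ q) {m : ℝ} (hm : 0 < m) :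
    {c | F.act c p = p ∧ F.act c q = q ∧ m ≤ ‖F.dact c p‖ ∧ ‖F.dact c p‖ ≤ 1}.Finite := by
  have hd : 0 < dist p q := dist_pos.2 ne
  refine (F.fin (1 - m * dist p q ^ 2 / 8) ?_).subset ?_
  · have : 0 < m * dist p q ^ 2 / 8 := by positivity
    linarith
  rintro c ⟨fp, fq, h1, h2⟩
  have hP := FD_pos (F := F) (h := c) np.le
  have hQ := FD_pos (F := F) (h := c) nq.le
  have e0 := FD_prod (F := F) np nq ne fp fq
  have e1 := FD_dact (F := F) c p
  have e2 : ‖F.dact c p‖ * ‖1 - (starRingEnd ℂ) (F.b c) * p‖ =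
      ‖1 - (starRingEnd ℂ) (F.b c) * q‖ := by
    rw [e1, e0]; field_simp
  have e3 : 1 - ‖F.b c‖ ^ 2 = ‖F.dact c p‖ * ‖1 - (starRingEnd ℂ) (F.b c) * p‖ ^ 2 := by
    rw [e0, ← e2]; ring
  have htri : dist p q ≤ ‖1 - (starRingEnd ℂ) (F.b c) * p‖ * (1 + ‖F.dact c p‖) := by
    have : ‖1 - (starRingEnd ℂ) (F.b c) * p‖ * (1 + ‖F.dact c p‖) =
        ‖1 - (starRingEnd ℂ) (F.b c) * p‖ + ‖1 - (starRingEnd ℂ) (F.b c) * q‖ := by
      rw [← e2]; ring
    rw [this, FD_den np, FD_den nq, ← dist_eq_norm, ← dist_eq_norm]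
    exact dist_triangle_right p q (F.b c)
  have h3 : dist p q ≤ ‖1 - (starRingEnd ℂ) (F.b c) * p‖ * 2 :=
    htri.trans (mul_le_mul_of_nonneg_left (by linarith) hP.le)
  have h4 : dist p q ^ 2 ≤ (‖1 - (starRingEnd ℂ) (F.b c) * p‖ * 2) ^ 2 :=
    pow_le_pow_left₀ hd.le h3 2
  have h5 : m * dist p q ^ 2 ≤ 4 * (1 - ‖F.b c‖ ^ 2) := by
    rw [e3]
    calc m * dist p q ^ 2 ≤ ‖F.dact c p‖ * (‖1 - (starRingEnd ℂ) (F.b c) * p‖ * 2) ^ 2 :=
          mul_le_mul h1 h4 (by positivity) (norm_nonneg _)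
      _ = _ := by ring
  have h6 := F.hb c
  have h7 := norm_nonneg (F.b c)
  show ‖F.b c‖ ≤ 1 - m * dist p q ^ 2 / 8
  nlinarith

theorem AR.stab {g : Γ} {p q : ℂ} (h : F.AR g p q) :
    ∃ κ, F.AR κ p q ∧ ∀ c, F.act c p = p ↔ c ∈ Subgroup.zpowers κ := by
  have hp : ‖p‖ ≤ 1 := h.np.le
  have hg1 : ‖F.dact g p‖ < 1 := FD_lt h
  have hg0 : 0 < ‖F.dact g p‖ := norm_pos_iff.2 (dact_ne F g hp)
  set A : Set Γ := {c | F.act c p = p ∧ ‖F.dact g p‖ ≤ ‖F.dact c p‖ ∧ ‖F.dact c p‖ < 1} with hA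
  have hAf : A.Finite := by
    refine (FD_finite (F := F) h.np h.nq h.ne hg0).subset ?_
    rintro c ⟨h1, h2, h3⟩
    exact ⟨h1, FD_fix h h1, h2, h3.le⟩
  have hAn : A.Nonempty := ⟨g, h.fp, le_rfl, hg1⟩
  obtain ⟨κ, hκ, hmax⟩ := Set.exists_max_image A (fun c => ‖F.dact c p‖) hAf hAn
  have hκp : F.act κ p = p := hκ.1
  have hκ1 : ‖F.dact κ p‖ < 1 := hκ.2.2
  have hκ0 : 0 < ‖F.dact κ p‖ := norm_pos_iff.2 (dact_ne F κ hp)
  have hbig : ∀ c, F.act c p = p → ‖F.dact c p‖ < 1 → ‖F.dact c p‖ ≤ ‖F.dact κ p‖ := by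
    intro c hc h1
    rcases le_total ‖F.dact g p‖ ‖F.dact c p‖ with h2 | h2
    · exact hmax c ⟨hc, h2, h1⟩
    · exact h2.trans hκ.2.1
  refine ⟨κ, ?_, fun c => ⟨fun hc => ?_, fun hc => ?_⟩⟩
  · -- `κ` attracts to `p`
    have hne : κ ≠ 1 := by
      intro e
      rw [e, dact_one F hp, norm_one] at hκ1
      exact lt_irrefl _ hκ1
    obtain ⟨p', q', H⟩ := exists_AR F hne
    have hκq : F.act κ q = q := FD_fix h hκp
    rcases AR.fixed H hp hκp with e | e
    · rcases AR.fixed H h.nq.le hκq with e' | e'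
      · exact absurd (e.trans e'.symm) h.ne
      · rw [e, e']; exact H
    · rcases AR.fixed H h.nq.le hκq with e' | e'
      · exfalso
        rw [← e, ← e'] at H
        have h1 := FD_lt H
        have h2 := FD_mul_one (F := F) h.np h.nq h.ne hκp hκq
        have h3 : ‖F.dact κ p‖ * ‖F.dact κ q‖ < 1 := by
          calc ‖F.dact κ p‖ * ‖F.dact κ q‖ ≤ ‖F.dact κ p‖ * 1 :=
                mul_le_mul_of_nonneg_left h1.le hκ0.le
            _ < 1 := by rw [mul_one]; exact hκ1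
        exact absurd h2 h3.ne
      · exact absurd (e.trans e'.symm) h.ne
  · -- elements fixing `p` are powers of `κ`
    set a : FD_st F p hp := ⟨c, hc⟩ with ha
    set k : FD_st F p hp := ⟨κ, hκp⟩ with hk
    have hLk : FD_L F p hp k = ‖F.dact κ p‖ := rfl
    have hy : 1 < (FD_L F p hp k)⁻¹ := by
      rw [hLk]
      exact (one_lt_inv₀ hκ0).2 hκ1
    obtain ⟨n, hn1, hn2⟩ := exists_mem_Ico_zpow (FD_L_pos hp a) hy
    -- the element `a * k ^ n` has multiplier in `[1, 1 / L k)`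
    have hkp : 0 < FD_L F p hp k := FD_L_pos hp k
    have e1 : FD_L F p hp (a * k ^ n)⁻¹ = (FD_L F p hp a)⁻¹ * ((FD_L F p hp k)⁻¹) ^ n := by
      rw [map_inv, map_mul, map_zpow, mul_inv, inv_zpow]
    have hap := FD_L_pos hp a
    have h1 : FD_L F p hp (a * k ^ n)⁻¹ ≤ 1 := by
      rw [e1, inv_mul_le_iff₀ hap, mul_one]
      exact hn1
    have h2 : FD_L F p hp k < FD_L F p hp (a * k ^ n)⁻¹ := by
      rw [e1, lt_inv_mul_iff₀ hap]
      have h3 : (FD_L F p hp k)⁻¹ ^ (n + 1) = (FD_L F p hp k)⁻¹ ^ n * (FD_L F p hp k)⁻¹ := by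
        rw [zpow_add₀ (inv_pos.2 hkp).ne', zpow_one]
      rw [h3] at hn2
      calc FD_L F p hp a * FD_L F p hp k
          < (FD_L F p hp k)⁻¹ ^ n * (FD_L F p hp k)⁻¹ * FD_L F p hp k :=
            mul_lt_mul_of_pos_right hn2 hkp
        _ = (FD_L F p hp k)⁻¹ ^ n := by rw [mul_assoc, inv_mul_cancel₀ hkp.ne', mul_one]
    have h3 : FD_L F p hp (a * k ^ n)⁻¹ = 1 := by
      by_contra hne
      have h4 : FD_L F p hp (a * k ^ n)⁻¹ < 1 := lt_of_le_of_ne h1 hne
      have h5 := hbig ((a * k ^ n)⁻¹).1 ((a * k ^ n)⁻¹).2 h4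
      exact absurd h5 (not_le.2 h2)
    have h4 := FD_one hp _ h3
    have h5 : c * κ ^ n = 1 := by
      have h6 : (c * κ ^ n)⁻¹ = 1 := h4
      exact inv_eq_one.1 h6
    rw [Subgroup.mem_zpowers_iff]
    refine ⟨-n, ?_⟩
    rw [zpow_neg]
    exact (eq_inv_of_mul_eq_one_left h5).symm
  · -- powers of `κ` fix `p`
    have : Subgroup.zpowers κ ≤ FD_st F p hp := by
      rw [Subgroup.zpowers_le]
      exact hκp
    exact this hc

end TN
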