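import Pool.Agent.H36.DS.IB

/-!
JA: `add_index` with an arbitrary finite index type.
-/

namespace TN
open Metric Set Filter Topology DS

theorem add_index' {ι : Type} [Fintype ι] (O : ι → Set ℂ) (k : ι → ℂ) (n : ι → ℤ)
    (hO : ∀ i, IsOpen (O i)) (hb : ∀ i, Bornology.IsBounded (O i)) (hk : ∀ i, k i ∈ O i)
    (hd : ∀ i j, i ≠ j → Disjoint (closure (O i)) (closure (O j))) (f : ℂ → ℂ)
    (hf : ContinuousOn f (⋃ i, O i)ᶜ) (hf0 : ∀ z ∈ (⋃ i, O i)ᶜ, f z ≠ 0)
    (hlog : ∀ i, HasLog (fun z => f z / (z - k i) ^ (n i)) (frontier (O i)))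
    (N : ℤ) {c : ℂ} (hc : c ≠ 0) (hinf : Tendsto (fun z => f z / z ^ N) (cocompact ℂ) (𝓝 c)) :
    N = ∑ i, n i := by
  classical
  let e := Fintype.equivFin ι
  have hU : (⋃ i, O (e.symm i)) = ⋃ i, O i := e.symm.surjective.iUnion_comp O
  have h := add_index (fun i => O (e.symm i)) (fun i => k (e.symm i)) (fun i => n (e.symm i))
    (fun i => hO _) (fun i => hb _) (fun i => hk _)
    (fun i j hij => hd _ _ (fun h => hij (e.symm.injective h))) f (by rw [hU]; exact hf)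
    (by rw [hU]; exact hf0) (fun i => hlog _) N hc hinf
  rw [h]
  exact Equiv.sum_comp e.symm n

end TN
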