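import Pool.Agent.H12.TN.JS
import Pool.Agent.H12.TN.FF

/-!
JB (fixed points on the boundary of the strip).  Let `a ∈ Str`, `a.im = 0` or `a.im = π`, `ξ = omi a` (on the circle, `≠ p, q`),
`e.H ξ = ξ`, so `sm a = a`; write `S = sm p q e.H`.
`sa_strip`: by `om_bilip` at `ξ` (constants `c, C, δ`): for `ω ∈ Str` near `a`, `y = omi ω` is near `ξ` (`omi_cont`), `e.H y` is near `ξ`,
`dist (S ω) a = dist (om (e.H y)) (om ξ) ≤ C dist (e.H y) ξ ≤ C ε' dist y ξ ≤ (C ε'/c) dist ω a`.  For arbitrary `ω` near `a`: `S ω = S (clm ω)`,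
`clm a = a`, `dist (clm ω) a ≤ dist ω a` (`clm_lip`).
Isolation: `FF` (`SA.isolated`, `SA.isolated_inv`): the fixed points of `S` are in `Str` and correspond to those of `e.H` (`sm_fix`).
Type A (`SA e.H ξ`): `ε = 1/2`: for `0 < dist ω a < δ`, `(S ω - ω)/(ω - a) = -1 + (S ω - a)/(ω - a)` has negative real part
(norm of the last term `≤ 1/2`), so `- (S ω - ω)/(ω - a)` is in the slit plane: log on the sphere (`IC_log_slit`, `IC_log_neg`).
Type R (`SA e.Hi ξ`): apply `sa_strip` to `e.inv` (`Norm.inv`) with `ε = 1/10`: for `ω ∈ Str` near `a`, `S ω` is near `a` (continuity) and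
`sm p q e.Hi (S ω) = ω` (`sm_inv`), so `dist ω a ≤ (1/10) dist (S ω) a`.  Claim: for `0 < dist ω a = s < δ` the number
`S ω - ω` is not of the form `- i t` (if `a.im = 0`), resp. `i t` (if `a.im = π`) with `t > 0`, and not `0`: if `S ω = ω - i t` then
`im ω - t = im (S ω) ≥ 0`, so `im ω ≥ t > 0` and `ω ∈ Str` (near `a`, `im ω < π`), hence `dist (S ω) a ≥ 10 s` and `t ≥ 9 s`, but
`t ≤ im ω ≤ s`.  Same at the upper line.  So `(S ω - ω)/i` (resp. `-(S ω - ω)/i`) is in the slit plane on the sphere.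
`sa_act`: `e.H (act g x) = act g (e.H x)`; the Moebius map is bi-Lipschitz on the closed disc: by `act_dist`,
`(1-‖b‖)²... ` precisely `dist (act g x) (act g y)` is between `((1-‖b‖²)/4) dist x y` and `((1-‖b‖²)/(1-‖b‖)²) dist x y`.
-/

namespace TN
open Metric Set Filter Topology DS

variable {Γ : Type} [Group Γ] {F : Fuchs Γ} {p q : ℂ} {e : Elt Γ} {κ : Γ}

private theorem JB_log_slit {f : ℂ → ℂ} {S : Set ℂ} (hf : ContinuousOn f S)
    (h : ∀ z ∈ S, f z ∈ Complex.slitPlane) : HasLog f S := by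
  refine ⟨fun z => Complex.log (f z), ?_, fun z hz => ?_⟩
  · intro z hz
    exact (hf z hz).clog (h z hz)
  · exact (Complex.exp_log (Complex.slitPlane_ne_zero (h z hz))).symm

private theorem JB_log_cmul {f : ℂ → ℂ} {S : Set ℂ} {c : ℂ} (hc : c ≠ 0)
    (hf : HasLog (fun z => c * f z) S) : HasLog f S := by
  obtain ⟨L, h1, h2⟩ := hf
  refine ⟨fun z => L z - Complex.log c, h1.sub continuousOn_const, fun z hz => ?_⟩
  show f z = Complex.exp (L z - Complex.log c)
  rw [Complex.exp_sub, ← h2 z hz, Complex.exp_log hc]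
  field_simp

private theorem JB_Str {a : ℂ} (ha : a.im = 0 ∨ a.im = Real.pi) : a ∈ Str := by
  rcases ha with h | h
  · exact ⟨h.ge, by rw [h]; exact Real.pi_pos.le⟩
  · exact ⟨by rw [h]; exact Real.pi_pos.le, h.le⟩

theorem sa_strip (he : Norm F e) (hκ : F.AR κ p q) (hc : e.θ κ = κ) {a : ℂ}
    (ha : a.im = 0 ∨ a.im = Real.pi) (hs : SA e.H (omi p q a)) :
    ∀ ε > 0, ∃ δ > 0, ∀ ω : ℂ, dist ω a < δ → dist (sm p q e.H ω) a ≤ ε * dist ω a := by
  intro ε hε
  have hp := hκ.np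
  have hq := hκ.nq
  have hpq := hκ.ne
  have haS : a ∈ Str := JB_Str ha
  set ξ : ℂ := omi p q a with hξ
  have hξD : ξ ∈ Dpq p q := omi_mem hp hq hpq haS
  have hoξ : om p q ξ = a := om_omi hp hq hpq haS
  obtain ⟨c, hc0, C, hC0, δ0, hδ0, hb⟩ := om_bilip hp hq hpq hξD
  rw [hoξ] at hb
  obtain ⟨δ1, hδ1, h1⟩ := hs.2 (ε * c / C) (by positivity)
  obtain ⟨δ2, hδ2, h2⟩ := hs.2 1 one_pos
  have hcont := omi_cont hp hq hpq a haS
  rw [Metric.continuousWithinAt_iff] at hcont
  obtain ⟨δ3, hδ3, h3⟩ := hcont (min δ0 (min δ1 δ2)) (by positivity)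
  refine ⟨δ3, hδ3, fun ω hω => ?_⟩
  have hcl : dist (clm ω) a ≤ dist ω a := by
    have := clm_lip ω a
    rwa [clm_id haS] at this
  have hy := h3 (clm_mem ω) (lt_of_le_of_lt hcl hω)
  set y : ℂ := omi p q (clm ω) with hydef
  have hyD : y ∈ Dpq p q := omi_mem hp hq hpq (clm_mem ω)
  have hyc : y ∈ closedBall (0:ℂ) 1 := by simpa using hyD.1
  have hoy : om p q y = clm ω := om_omi hp hq hpq (clm_mem ω)
  have hy0 : dist y ξ < δ0 := lt_of_lt_of_le hy (min_le_left _ _)
  have hy1 : dist y ξ < δ1 := lt_of_lt_of_le hy ((min_le_right _ _).trans (min_le_left _ _))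
  have hy2 : dist y ξ < δ2 := lt_of_lt_of_le hy ((min_le_right _ _).trans (min_le_right _ _))
  have g1 := h1 y hyc hy1
  have g2 := h2 y hyc hy2
  have hHD := (norm_Dpq he hκ hc hyD).1
  have g3 := (hb (e.H y) hHD (by linarith)).2
  have g4 := (hb y hyD hy0).1
  rw [hoy] at g4
  show dist (om p q (e.H y)) a ≤ ε * dist ω a
  calc dist (om p q (e.H y)) a ≤ C * dist (e.H y) ξ := g3
    _ ≤ C * (ε * c / C * dist y ξ) := mul_le_mul_of_nonneg_left g1 hC0.le
    _ = ε * (c * dist y ξ) := by field_simp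
    _ ≤ ε * dist (clm ω) a := mul_le_mul_of_nonneg_left g4 hε.le
    _ ≤ ε * dist ω a := mul_le_mul_of_nonneg_left hcl hε.le

theorem typeA (he : Norm F e) (hκ : F.AR κ p q) (hc : e.θ κ = κ) {a : ℂ}
    (ha : a.im = 0 ∨ a.im = Real.pi) (hs : SA e.H (omi p q a)) :
    ∃ δ > 0, (∀ ω : ℂ, 0 < dist ω a → dist ω a < δ → sm p q e.H ω ≠ ω) ∧
      ∀ s : ℝ, 0 < s → s < δ → HasLog (fun ω => (sm p q e.H ω - ω) / (ω - a) ^ (1:ℤ)) (sphere a s) := by
  obtain ⟨δ, hδ, h⟩ := sa_strip he hκ hc ha hs (1 / 2) (by norm_num)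
  refine ⟨δ, hδ, ?_, ?_⟩
  · intro ω h0 h1 h2
    have h3 := h ω h1
    rw [h2] at h3
    linarith
  · intro s hs0 hsδ
    apply JB_log_cmul (c := -1) (by norm_num)
    have hne : ∀ z ∈ sphere a s, z - a ≠ 0 := by
      intro z hz h1
      rw [mem_sphere, dist_eq_norm, h1, norm_zero] at hz
      linarith
    apply JB_log_slit
    · simp only [zpow_one]
      refine continuousOn_const.mul (ContinuousOn.div ?_ ?_ hne)
      · exact ((sm_cont he hκ hc).sub continuous_id).continuousOn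
      · fun_prop
    · intro z hz
      simp only [zpow_one]
      have h1 := hne z hz
      have h2 : dist z a = s := hz
      have h3 := h z (by rw [h2]; exact hsδ)
      rw [dist_eq_norm, dist_eq_norm] at h3
      have h4 : ‖(sm p q e.H z - a) / (z - a)‖ ≤ 1 / 2 := by
        rw [norm_div, div_le_iff₀ (norm_pos_iff.2 h1)]
        exact h3
      have h5 : -1 * ((sm p q e.H z - z) / (z - a)) = 1 - (sm p q e.H z - a) / (z - a) := by
        field_simp
        ring
      rw [h5, Complex.mem_slitPlane_iff]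
      left
      have h6 := Complex.re_le_norm ((sm p q e.H z - a) / (z - a))
      simp only [Complex.sub_re, Complex.one_re]
      linarith

theorem typeR (he : Norm F e) (hκ : F.AR κ p q) (hc : e.θ κ = κ) {a : ℂ}
    (ha : a.im = 0 ∨ a.im = Real.pi) (hs : SA e.Hi (omi p q a)) :
    ∃ δ > 0, (∀ ω : ℂ, 0 < dist ω a → dist ω a < δ → sm p q e.H ω ≠ ω) ∧
      ∀ s : ℝ, 0 < s → s < δ → HasLog (fun ω => (sm p q e.H ω - ω) / (ω - a) ^ (0:ℤ)) (sphere a s) := by
  have hp := hκ.np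
  have hq := hκ.nq
  have hpq := hκ.ne
  have haS : a ∈ Str := JB_Str ha
  have hξn : ‖omi p q a‖ = 1 := omi_sphere hp hq hpq ha
  have hξc : omi p q a ∈ closedBall (0:ℂ) 1 := by simpa using hξn.le
  have hci : e.inv.θ κ = κ := by
    show e.θ.symm κ = κ
    rw [MulEquiv.symm_apply_eq, hc]
  obtain ⟨δ1, hδ1, h1⟩ := sa_strip he.inv hκ hci ha (show SA e.inv.H (omi p q a) from hs)
    (1 / 10) (by norm_num)
  have hfa : e.H (omi p q a) = omi p q a := by
    have := he.right _ hξc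
    rwa [hs.1] at this
  have hSa : sm p q e.H a = a := (sm_fix he hκ hc).2 ⟨haS, hfa⟩
  have hcont := (sm_cont he hκ hc).continuousAt (x := a)
  rw [Metric.continuousAt_iff] at hcont
  obtain ⟨δ2, hδ2, h2⟩ := hcont δ1 hδ1
  rw [hSa] at h2
  have hkey : ∀ ω ∈ Str, dist ω a < δ2 → dist ω a ≤ 1 / 10 * dist (sm p q e.H ω) a := by
    intro ω hω hd
    have h3 := h1 (sm p q e.H ω) (h2 hd)
    have h4 : sm p q e.inv.H (sm p q e.H ω) = ω := sm_inv he hκ hc hω
    rwa [h4] at h3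
  -- the sign `c = I` (lower line), `c = - I` (upper line)
  have hsl : ∃ c : ℂ, c ≠ 0 ∧ ∀ ω, 0 < dist ω a → dist ω a < min δ2 Real.pi →
      c * (sm p q e.H ω - ω) ∈ Complex.slitPlane := by
    have hfin : ∀ ω, 0 < dist ω a → dist ω a < min δ2 Real.pi → ω ∈ Str →
        ∀ t : ℝ, 0 ≤ t → t ≤ dist ω a → dist (sm p q e.H ω) ω ≤ t → False := by
      intro ω h0 hd hS t ht0 ht1 ht2
      have h5 := hkey ω hS (lt_of_lt_of_le hd (min_le_left _ _))
      have h6 := dist_triangle (sm p q e.H ω) ω a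
      linarith
    rcases ha with ha | ha
    · refine ⟨-Complex.I, neg_ne_zero.2 Complex.I_ne_zero, fun ω h0 hd => ?_⟩
      by_contra hcon
      rw [Complex.mem_slitPlane_iff] at hcon
      push Not at hcon
      obtain ⟨h3, h4⟩ := hcon
      simp only [Complex.mul_re, Complex.mul_im, Complex.neg_re, Complex.neg_im, Complex.I_re,
        Complex.I_im, Complex.sub_re, Complex.sub_im] at h3 h4
      have hSm := sm_mem he hκ hc ω
      have him : |ω.im - a.im| ≤ dist ω a := by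
        rw [dist_eq_norm, ← Complex.sub_im]
        exact Complex.abs_im_le_norm _
      rw [ha, sub_zero] at him
      have him1 := abs_le.1 him
      have hdpi := lt_of_lt_of_le hd (min_le_right _ _)
      have hre : (sm p q e.H ω).re = ω.re := by linarith
      have ht : (sm p q e.H ω).im ≤ ω.im := by linarith
      refine hfin ω h0 hd ⟨?_, ?_⟩ (ω.im - (sm p q e.H ω).im) (by linarith) ?_ ?_
      · linarith [hSm.1]
      · linarith
      · linarith [hSm.1]
      · rw [dist_eq_norm]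
        have h7 : sm p q e.H ω - ω = ((-(ω.im - (sm p q e.H ω).im) : ℝ) : ℂ) * Complex.I := by
          apply Complex.ext
          · simp [hre]
          · simp
        rw [h7, norm_mul, Complex.norm_I, mul_one, Complex.norm_real, Real.norm_eq_abs, abs_neg,
          abs_of_nonneg (by linarith)]
    · refine ⟨Complex.I, Complex.I_ne_zero, fun ω h0 hd => ?_⟩
      by_contra hcon
      rw [Complex.mem_slitPlane_iff] at hcon
      push Not at hcon
      obtain ⟨h3, h4⟩ := hcon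
      simp only [Complex.mul_re, Complex.mul_im, Complex.I_re,
        Complex.I_im, Complex.sub_re, Complex.sub_im] at h3 h4
      have hSm := sm_mem he hκ hc ω
      have him : |ω.im - a.im| ≤ dist ω a := by
        rw [dist_eq_norm, ← Complex.sub_im]
        exact Complex.abs_im_le_norm _
      rw [ha] at him
      have him1 := abs_le.1 him
      have hdpi := lt_of_lt_of_le hd (min_le_right _ _)
      have hre : (sm p q e.H ω).re = ω.re := by linarith
      have ht : ω.im ≤ (sm p q e.H ω).im := by linarith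
      refine hfin ω h0 hd ⟨?_, ?_⟩ ((sm p q e.H ω).im - ω.im) (by linarith) ?_ ?_
      · linarith
      · linarith [hSm.2]
      · linarith [hSm.2]
      · rw [dist_eq_norm]
        have h7 : sm p q e.H ω - ω = (((sm p q e.H ω).im - ω.im : ℝ) : ℂ) * Complex.I := by
          apply Complex.ext
          · simp [hre]
          · simp
        rw [h7, norm_mul, Complex.norm_I, mul_one, Complex.norm_real, Real.norm_eq_abs,
          abs_of_nonneg (by linarith)]
  obtain ⟨c, hc0, hsl⟩ := hsl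
  refine ⟨min δ2 Real.pi, lt_min hδ2 Real.pi_pos, ?_, ?_⟩
  · intro ω h0 hd h3
    have h4 := hsl ω h0 hd
    rw [h3, sub_self, mul_zero] at h4
    exact Complex.slitPlane_ne_zero h4 rfl
  · intro s hs0 hsδ
    apply JB_log_cmul hc0
    apply JB_log_slit
    · simp only [zpow_zero, div_one]
      exact (continuous_const.mul ((sm_cont he hκ hc).sub continuous_id)).continuousOn
    · intro z hz
      simp only [zpow_zero, div_one]
      have h2 : dist z a = s := hz
      exact hsl z (by rw [h2]; exact hs0) (by rw [h2]; exact hsδ)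

private theorem JB_lip (F : Fuchs Γ) (g : Γ) : ∃ K : ℝ, 0 < K ∧ ∀ x y : ℂ, ‖x‖ ≤ 1 → ‖y‖ ≤ 1 →
    dist (F.act g x) (F.act g y) ≤ K * dist x y := by
  have hb := F.hb g
  have hb0 : 0 < 1 - ‖F.b g‖ := by linarith
  have hb1 : 0 < 1 - ‖F.b g‖ ^ 2 := by nlinarith [norm_nonneg (F.b g)]
  have hlow : ∀ x : ℂ, ‖x‖ ≤ 1 → 1 - ‖F.b g‖ ≤ ‖1 - (starRingEnd ℂ) (F.b g) * x‖ := by
    intro x hx
    have h1 := norm_sub_norm_le 1 ((starRingEnd ℂ) (F.b g) * x)
    rw [norm_one, norm_mul, Complex.norm_conj] at h1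
    have h2 : ‖F.b g‖ * ‖x‖ ≤ ‖F.b g‖ := mul_le_of_le_one_right (norm_nonneg _) hx
    linarith
  refine ⟨(1 - ‖F.b g‖ ^ 2) / ((1 - ‖F.b g‖) * (1 - ‖F.b g‖)), by positivity, fun x y hx hy => ?_⟩
  rw [act_dist F g hx hy, div_mul_eq_mul_div]
  have h1 := hlow x hx
  have h2 := hlow y hy
  exact div_le_div_of_nonneg_left (by positivity) (by positivity)
    (mul_le_mul h1 h2 hb0.le (hb0.le.trans h1))

theorem sa_act (he : Norm F e) {g : Γ} (hg : e.θ g = g) {ξ : ℂ} (hξ : ‖ξ‖ = 1) (hs : SA e.H ξ) :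
    SA e.H (F.act g ξ) := by
  have hξc : ξ ∈ closedBall (0:ℂ) 1 := by simpa using hξ.le
  refine ⟨?_, ?_⟩
  · rw [he.equi g ξ hξc, hg, hs.1]
  · intro ε hε
    obtain ⟨K1, hK1, hL1⟩ := JB_lip F g
    obtain ⟨K2, hK2, hL2⟩ := JB_lip F g⁻¹
    obtain ⟨δ, hδ, h1⟩ := hs.2 (ε / (K1 * K2)) (by positivity)
    refine ⟨δ / K2, by positivity, fun x hx hd => ?_⟩
    have hx1 : ‖x‖ ≤ 1 := by simpa using hx
    have hy1 : ‖F.act g⁻¹ x‖ ≤ 1 := act_le F g⁻¹ hx1
    have hyc : F.act g⁻¹ x ∈ closedBall (0:ℂ) 1 := by simpa using hy1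
    have hHy : ‖e.H (F.act g⁻¹ x)‖ ≤ 1 := by
      have := he.mapC hyc
      simpa using this
    have h2 := hL2 x (F.act g ξ) hx1 (act_le F g hξ.le)
    rw [act_inv_act F g hξ.le] at h2
    have h3 : dist (F.act g⁻¹ x) ξ < δ := by
      rw [lt_div_iff₀ hK2] at hd
      linarith
    have h4 := h1 _ hyc h3
    have h5 : e.H x = F.act g (e.H (F.act g⁻¹ x)) := by
      have h6 := he.equi g _ hyc
      rw [act_act_inv F g hx1, hg] at h6
      exact h6
    rw [h5]
    calc dist (F.act g (e.H (F.act g⁻¹ x))) (F.act g ξ) ≤ K1 * dist (e.H (F.act g⁻¹ x)) ξ :=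
          hL1 _ _ hHy hξ.le
      _ ≤ K1 * (ε / (K1 * K2) * dist (F.act g⁻¹ x) ξ) := mul_le_mul_of_nonneg_left h4 hK1.le
      _ ≤ K1 * (ε / (K1 * K2) * (K2 * dist x (F.act g ξ))) := by gcongr
      _ = ε * dist x (F.act g ξ) := by field_simp

end TN
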