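import Pool.Agent.H12.TN.JW
import Pool.Agent.H12.TN.CP

/-!
JD (logarithms of differences in the punctured plane).  With `a = f ω`, `b = g ω`, `v = 2πi (a - b)/T`:
`ew a - ew b = ew b (exp v - 1)`, `v = (2πi/T)(a - b)`, `|im v| = 2π |re (a - b)|/T < π/2`, so
`(ew a - ew b)/(a - b) = ew b * (2πi/T) * ((exp v - 1)/v)`, the last factor has positive real part (`expq` in CP): the logarithm is
`2πi b/T + log (2πi/T) + log ((exp v - 1)/v)`.
`hole_log`: `(ew (Fh ω) - ew ω)/(ew ω - ew k)^n = [(Fh ω - ω)/(ω - k)^n] * D₁ / D₂^n` with the two difference quotients `D₁`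
(of `Fh ω`, `ω`) and `D₂` (of `ω`, `k`).
`centre_log` (the central hole): on the circle `‖w‖ = exp (-2πy₁/T)`, i.e. `im ω = y₁` (`ew_norm`): `f (ew ω) / (ew ω)^(1 + N w)
= (exp v - 1) / (ew ω)^(N w)`, `v = 2πi (Fh ω - ω)/T`, `exp v - 1 = (2πi/T) (Fh ω - ω) ((exp v - 1)/v)`; with the logarithm `L` of
`Fh ω - ω` the exponent is `L ω - N w (2πi ω/T) + log (2πi/T) + log ((exp v - 1)/v)`, it is continuous and `T`-periodic:
`T = N l`, `L (ω + N l) = L ω + 2πi w N` (induction on `N`), `v` is `l`-periodic.  Apply `ew_log` with `S = sphere 0 (exp (-(2πy₁/T)))`.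
`f_inf`: `‖f z + z‖ ≤ 1` (`ew_norm`, `im (Fh ω) ≥ 0`, `ew_surj`), so `f z / z → -1`.
-/

namespace TN
open Metric Set Filter Topology DS

theorem JD_im {T : ℝ} (hT : 0 < T) {x : ℂ} (hx : |x.re| < T / 4) :
    |(2 * Real.pi * Complex.I * x / T : ℂ).im| < Real.pi / 2 := by
  have e : (2 * Real.pi * Complex.I * x / T : ℂ) = ((2 * Real.pi / T : ℝ) : ℂ) * (Complex.I * x) := by
    push_cast; ring
  rw [e, Complex.im_ofReal_mul]
  have e2 : (Complex.I * x).im = x.re := by simp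
  rw [e2, abs_mul, abs_of_pos (by positivity)]
  calc 2 * Real.pi / T * |x.re| < 2 * Real.pi / T * (T / 4) := mul_lt_mul_of_pos_left hx (by positivity)
    _ = Real.pi / 2 := by field_simp; ring

theorem JD_c {T : ℝ} (hT : 0 < T) : (2 * Real.pi * Complex.I / T : ℂ) ≠ 0 := by
  have h1 : (T : ℂ) ≠ 0 := by exact_mod_cast hT.ne'
  have h2 : (Real.pi : ℂ) ≠ 0 := by exact_mod_cast Real.pi_ne_zero
  exact div_ne_zero (mul_ne_zero (mul_ne_zero two_ne_zero h2) Complex.I_ne_zero) h1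

/-- the factor `(exp v - 1) / v`, `v = 2πi x / T` -/
noncomputable def JD_q (T : ℝ) (x : ℂ) : ℂ :=
  (Complex.exp (2 * Real.pi * Complex.I * x / T) - 1) / (2 * Real.pi * Complex.I * x / T)

theorem JD_v {T : ℝ} (hT : 0 < T) {x : ℂ} (hx : x ≠ 0) : (2 * Real.pi * Complex.I * x / T : ℂ) ≠ 0 := by
  have e : (2 * Real.pi * Complex.I * x / T : ℂ) = 2 * Real.pi * Complex.I / T * x := by ring
  rw [e]
  exact mul_ne_zero (JD_c hT) hx

theorem JD_q_re {T : ℝ} (hT : 0 < T) {x : ℂ} (hx : x ≠ 0) (hr : |x.re| < T / 4) : 0 < (JD_q T x).re :=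
  expq (JD_v hT hx) (JD_im hT hr)

theorem JD_q_mul {T : ℝ} (hT : 0 < T) {x : ℂ} (hx : x ≠ 0) :
    Complex.exp (2 * Real.pi * Complex.I * x / T) - 1 = 2 * Real.pi * Complex.I / T * x * JD_q T x := by
  have h1 := JD_v hT hx
  unfold JD_q
  have e : (2 * Real.pi * Complex.I / T : ℂ) * x = 2 * Real.pi * Complex.I * x / T := by ring
  rw [e, mul_div_cancel₀ _ h1]

theorem JD_q_log {T : ℝ} (hT : 0 < T) {x : ℂ} (hx : x ≠ 0) (hr : |x.re| < T / 4) :
    Complex.exp (Complex.log (JD_q T x)) = JD_q T x := by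
  apply Complex.exp_log
  intro h0
  have := JD_q_re hT hx hr
  rw [h0] at this
  simp at this

theorem JD_q_cont {T : ℝ} (hT : 0 < T) {X : Set ℂ} {u : ℂ → ℂ} (hu : ContinuousOn u X)
    (hne : ∀ ω ∈ X, u ω ≠ 0) (hre : ∀ ω ∈ X, |(u ω).re| < T / 4) :
    ContinuousOn (fun ω => Complex.log (JD_q T (u ω))) X := by
  have h1 : ContinuousOn (fun ω => (2 * Real.pi * Complex.I * u ω / T : ℂ)) X :=
    (continuousOn_const.mul hu).div_const _
  apply ContinuousOn.clog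
  · unfold JD_q
    exact (h1.cexp.sub continuousOn_const).div h1 (fun ω hω => JD_v hT (hne ω hω))
  · intro ω hω
    exact Or.inl (JD_q_re hT (hne ω hω) (hre ω hω))

theorem JD_ew {T : ℝ} (x y : ℂ) : ew T x - ew T y =
    ew T y * (Complex.exp (2 * Real.pi * Complex.I * (x - y) / T) - 1) := by
  have h1 : ew T x = ew T y * ew T (x - y) := by rw [← ew_add]; congr 1; ring
  rw [h1]
  have h2 : ew T (x - y) = Complex.exp (2 * Real.pi * Complex.I * (x - y) / T) := rfl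
  rw [h2]; ring

theorem ew_diff_log {T : ℝ} (hT : 0 < T) {X : Set ℂ} {f g : ℂ → ℂ} (hf : ContinuousOn f X)
    (hg : ContinuousOn g X) (hne : ∀ ω ∈ X, f ω ≠ g ω)
    (hre : ∀ ω ∈ X, |(f ω - g ω).re| < T / 4) :
    HasLog (fun ω => (ew T (f ω) - ew T (g ω)) / (f ω - g ω)) X := by
  have hne' : ∀ ω ∈ X, f ω - g ω ≠ 0 := fun ω hω => sub_ne_zero.2 (hne ω hω)
  refine ⟨fun ω => 2 * Real.pi * Complex.I * g ω / T + Complex.log (2 * Real.pi * Complex.I / T) +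
    Complex.log (JD_q T (f ω - g ω)), ?_, ?_⟩
  · exact (((continuousOn_const.mul hg).div_const _).add continuousOn_const).add
      (JD_q_cont hT (hf.sub hg) hne' hre)
  · intro ω hω
    have h0 := hne' ω hω
    simp only
    rw [Complex.exp_add, Complex.exp_add, Complex.exp_log (JD_c hT), JD_q_log hT h0 (hre ω hω),
      JD_ew, JD_q_mul hT h0]
    have h2 : Complex.exp (2 * Real.pi * Complex.I * g ω / T) = ew T (g ω) := rfl
    rw [h2]
    field_simp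

theorem hole_log {T : ℝ} (hT : 0 < T) {X : Set ℂ} {Fh : ℂ → ℂ} (hF : Continuous Fh) {k : ℂ} {n : ℤ}
    (hne : ∀ ω ∈ X, Fh ω ≠ ω) (hk : ∀ ω ∈ X, ω ≠ k) (h1 : ∀ ω ∈ X, |(Fh ω - ω).re| < T / 4)
    (h2 : ∀ ω ∈ X, |(ω - k).re| < T / 4) (h : HasLog (fun ω => (Fh ω - ω) / (ω - k) ^ n) X) :
    HasLog (fun ω => (ew T (Fh ω) - ew T ω) / (ew T ω - ew T k) ^ n) X := by
  obtain ⟨L0, hL0, e0⟩ := h
  obtain ⟨L1, hL1, e1⟩ := ew_diff_log hT (X := X) hF.continuousOn continuousOn_id hne h1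
  obtain ⟨L2, hL2, e2⟩ := ew_diff_log hT (X := X) continuousOn_id (continuousOn_const (c := k)) hk h2
  refine ⟨fun ω => L0 ω + L1 ω - n * L2 ω, (hL0.add hL1).sub (continuousOn_const.mul hL2), ?_⟩
  intro ω hω
  have a0 := e0 ω hω
  have a1 := e1 ω hω
  have a2 := e2 ω hω
  simp only [id] at a0 a1 a2 ⊢
  have b1 : Fh ω - ω ≠ 0 := sub_ne_zero.2 (hne ω hω)
  have b2 : ω - k ≠ 0 := sub_ne_zero.2 (hk ω hω)
  have b3 : ew T ω - ew T k ≠ 0 := by
    intro h0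
    rw [h0, zero_div] at a2
    exact Complex.exp_ne_zero _ a2.symm
  rw [Complex.exp_sub, Complex.exp_add, Complex.exp_int_mul, ← a0, ← a1, ← a2, div_zpow]
  have c1 : (ω - k) ^ n ≠ 0 := zpow_ne_zero _ b2
  have c2 : (ew T ω - ew T k) ^ n ≠ 0 := zpow_ne_zero _ b3
  field_simp

theorem JD_per {l : ℝ} {L : ℂ → ℂ} {y₁ : ℝ} {w : ℤ}
    (hLp : ∀ ω : ℂ, ω.im = y₁ → L (ω + l) = L ω + 2 * Real.pi * w * Complex.I) (m : ℕ) :
    ∀ ω : ℂ, ω.im = y₁ → L (ω + m * l) = L ω + m * (2 * Real.pi * w * Complex.I) := by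
  induction m with
  | zero => intro ω _; simp
  | succ m ih =>
    intro ω hω
    have e : ω + ((m + 1 : ℕ) : ℂ) * l = (ω + m * l) + l := by push_cast; ring
    have him : (ω + m * l : ℂ).im = y₁ := by
      rw [Complex.add_im, hω]
      simp
    rw [e, hLp _ him, ih ω hω]
    push_cast; ring

theorem JD_perF {l : ℝ} {Fh : ℂ → ℂ} (hp : ∀ ω, Fh (ω + l) = Fh ω + l) (m : ℕ) :
    ∀ ω : ℂ, Fh (ω + m * l) = Fh ω + m * l := by
  induction m with
  | zero => intro ω; simp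
  | succ m ih =>
    intro ω
    have e : ω + ((m + 1 : ℕ) : ℂ) * l = (ω + m * l) + l := by push_cast; ring
    rw [e, hp, ih ω]
    push_cast; ring

theorem centre_log {l : ℝ} (hl : 0 < l) {N : ℕ} (hN : 0 < N) {Fh : ℂ → ℂ} (hF : Continuous Fh)
    (hp : ∀ ω, Fh (ω + l) = Fh ω + l) (h1 : ∀ ω, |(Fh ω - ω).re| < N * l / 4) {y₁ : ℝ} {w : ℤ}
    {L : ℂ → ℂ} (hL : ContinuousOn L {ω | ω.im = y₁})
    (hLe : ∀ ω : ℂ, ω.im = y₁ → Fh ω - ω = Complex.exp (L ω))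
    (hLp : ∀ ω : ℂ, ω.im = y₁ → L (ω + l) = L ω + 2 * Real.pi * w * Complex.I) {f : ℂ → ℂ}
    (hf : ∀ ω, f (ew (N * l) ω) = ew (N * l) (Fh ω) - ew (N * l) ω) :
    HasLog (fun z => f z / (z - 0) ^ (1 + N * w))
      (sphere 0 (Real.exp (-(2 * Real.pi * y₁ / (N * l))))) := by
  have hT : (0:ℝ) < N * l := by positivity
  have hTC : ((N : ℂ) * l) ≠ 0 := by exact_mod_cast hT.ne'
  have hmem : ∀ ω, ew (N * l) ω ∈ sphere (0:ℂ) (Real.exp (-(2 * Real.pi * y₁ / (N * l)))) → ω.im = y₁ := by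
    intro ω hω
    rw [mem_sphere_zero_iff_norm, ew_norm, Real.exp_eq_exp] at hω
    have h2 : 2 * Real.pi * ω.im / (N * l) = 2 * Real.pi * y₁ / (N * l) := neg_injective hω
    rw [div_left_inj' hT.ne'] at h2
    exact mul_left_cancel₀ (by positivity) h2
  have hX : ew (N * l) ⁻¹' sphere (0:ℂ) (Real.exp (-(2 * Real.pi * y₁ / (N * l)))) ⊆ {ω | ω.im = y₁} := hmem
  have hne : ∀ ω ∈ {ω : ℂ | ω.im = y₁}, Fh ω - ω ≠ 0 := by
    intro ω hω
    rw [hLe ω hω]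
    exact Complex.exp_ne_zero _
  refine ew_log hT (L := fun ω => L ω - ((N * w : ℤ) : ℂ) * (2 * Real.pi * Complex.I * ω / ((N * l : ℝ) : ℂ)) +
    Complex.log (2 * Real.pi * Complex.I / ((N * l : ℝ) : ℂ)) + Complex.log (JD_q (N * l) (Fh ω - ω)))
    ?_ ?_ ?_ ?_
  · intro z hz h0
    rw [h0, mem_sphere_zero_iff_norm, norm_zero] at hz
    exact (Real.exp_pos _).ne hz
  · apply ContinuousOn.mono _ hX
    refine ((hL.sub ?_).add continuousOn_const).add ?_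
    · exact continuousOn_const.mul ((continuousOn_const.mul continuousOn_id).div_const _)
    · exact JD_q_cont hT (hF.continuousOn.sub continuousOn_id) hne (fun ω _ => h1 ω)
  · intro ω hω
    have him := hmem ω hω
    have e1 := JD_per hLp N ω him
    have e2 := JD_perF hp N ω
    have e3 : ω + ((N * l : ℝ) : ℂ) = ω + N * l := by push_cast; ring
    rw [e3, e1, e2]
    have e4 : Fh ω + N * l - (ω + N * l) = Fh ω - ω := by ring
    rw [e4]
    have e5 : ((N * w : ℤ) : ℂ) * (2 * Real.pi * Complex.I * (ω + N * l) / ((N * l : ℝ) : ℂ)) =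
      ((N * w : ℤ) : ℂ) * (2 * Real.pi * Complex.I * ω / ((N * l : ℝ) : ℂ)) +
        N * (2 * Real.pi * w * Complex.I) := by
      have : ((N * l : ℝ) : ℂ) = N * l := by push_cast; ring
      have hN0 : (N : ℂ) ≠ 0 := left_ne_zero_of_mul hTC
      have hl0 : (l : ℂ) ≠ 0 := right_ne_zero_of_mul hTC
      rw [this]
      push_cast
      field_simp
    rw [e5]; ring
  · intro ω hω
    have him := hmem ω hω
    have h0 := hne ω him
    have hr : |(Fh ω - ω).re| < (N * l : ℝ) / 4 := h1 ω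
    rw [hf ω, JD_ew, JD_q_mul hT h0]
    rw [Complex.exp_add, Complex.exp_add, Complex.exp_sub, ← hLe ω him, Complex.exp_log (JD_c hT),
      JD_q_log hT h0 hr, Complex.exp_int_mul]
    have h2 : Complex.exp (2 * Real.pi * Complex.I * ω / ((N * l : ℝ) : ℂ)) = ew (N * l) ω := rfl
    rw [h2, sub_zero, zpow_add₀ (ew_ne _ _), zpow_one]
    have h3 := ew_ne (N * l) ω
    have h4 : (ew (N * l) ω) ^ (N * w : ℤ) ≠ 0 := zpow_ne_zero _ h3
    field_simp

theorem f_inf {T : ℝ} (hT : 0 < T) {Fh : ℂ → ℂ} (him : ∀ ω, 0 ≤ (Fh ω).im) {f : ℂ → ℂ}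
    (hf : ∀ ω, f (ew T ω) = ew T (Fh ω) - ew T ω) :
    Tendsto (fun z => f z / z ^ (1:ℤ)) (cocompact ℂ) (𝓝 (-1)) := by
  rw [tendsto_iff_norm_sub_tendsto_zero]
  have hlim : Tendsto (fun z : ℂ => ‖z‖⁻¹) (cocompact ℂ) (𝓝 0) :=
    tendsto_inv_atTop_zero.comp (tendsto_norm_cocompact_atTop (E := ℂ))
  refine squeeze_zero' (Eventually.of_forall fun z => norm_nonneg _) ?_ hlim
  filter_upwards [(tendsto_norm_cocompact_atTop (E := ℂ)).eventually (eventually_gt_atTop 0)] with z hz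
  have hz0 : z ≠ 0 := norm_pos_iff.1 hz
  obtain ⟨ω, rfl⟩ := ew_surj hT hz0
  rw [hf, zpow_one]
  have e : (ew T (Fh ω) - ew T ω) / ew T ω - -1 = ew T (Fh ω) / ew T ω := by
    field_simp; ring
  rw [e, norm_div, div_eq_mul_inv]
  have h1 : ‖ew T (Fh ω)‖ ≤ 1 := by
    rw [ew_norm, Real.exp_le_one_iff, neg_nonpos]
    have := him ω
    positivity
  calc ‖ew T (Fh ω)‖ * ‖ew T ω‖⁻¹ ≤ 1 * ‖ew T ω‖⁻¹ :=
        mul_le_mul_of_nonneg_right h1 (inv_nonneg.2 (norm_nonneg _))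
    _ = _ := one_mul _

end TN
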