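import Pool.Agent.H12.TN.JW

/-!
JH (pushing a hole to the punctured plane).  `closure O` is compact (closed, bounded), so `ew T '' closure O` is compact, hence closed and
contains `closure (ew T '' O)`; the other inclusion is `image_closure_subset_closure_image`.  `ew T '' O` is open (`ew_open`) and bounded.
`ew T` is injective on `closure O` by `ew_eq_iff` and `hd`.  The frontier of `ew T '' O` is
`ew T '' closure O \ ew T '' O`, contained in `ew T '' frontier O`.  Let `r w` be the unique point of `closure O` with
`ew T (r w) = w`, for `w ∈ ew T '' closure O`; `r` is continuous there (continuous injection of a compact space is an embedding; or: for a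
closed `C`, `r ⁻¹' C ∩ ew T '' closure O = ew T '' (C ∩ closure O)` is closed).  If `L` is a logarithm of `f ∘ ew T` on `frontier O` then
`L ∘ r` is one of `f` on the frontier of the image (`r` maps it to `frontier O`).
-/

namespace TN
open Metric Set Filter Topology DS

theorem hole_push {T : ℝ} (hT : 0 < T) {O : Set ℂ} (hO : IsOpen O) (hb : Bornology.IsBounded O)
    (hd : ∀ z : ℤ, z ≠ 0 → ∀ ω ∈ closure O, ω + z * T ∉ closure O) :
    IsOpen (ew T '' O) ∧ Bornology.IsBounded (ew T '' O) ∧
      closure (ew T '' O) = ew T '' closure O ∧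
      ∀ f : ℂ → ℂ, HasLog (fun ω => f (ew T ω)) (frontier O) →
        HasLog f (frontier (ew T '' O)) := by
  have hC : IsCompact (closure O) := hb.isCompact_closure
  have hopen := ew_open hT hO
  have hcl : closure (ew T '' O) = ew T '' closure O :=
    (image_closure_of_isCompact hC (ew_cont T).continuousOn).symm
  have hinj : InjOn (ew T) (closure O) := by
    intro ω hω ω' hω' h
    obtain ⟨z, hz⟩ := (ew_eq_iff hT).1 h
    by_cases hz0 : z = 0
    · rw [hz, hz0]; simp
    · exact absurd (hz ▸ hω') (hd z hz0 ω hω)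
  refine ⟨hopen, (hC.image (ew_cont T)).isBounded.subset (image_mono subset_closure), hcl, ?_⟩
  rintro f ⟨L, hLc, hL⟩
  have hr1 : ∀ w ∈ ew T '' closure O, Function.invFunOn (ew T) (closure O) w ∈ closure O :=
    fun w hw => Function.invFunOn_mem hw
  have hr2 : ∀ w ∈ ew T '' closure O, ew T (Function.invFunOn (ew T) (closure O) w) = w :=
    fun w hw => Function.invFunOn_eq hw
  have hrc : ContinuousOn (Function.invFunOn (ew T) (closure O)) (ew T '' closure O) := by
    rw [continuousOn_iff_isClosed]
    intro t ht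
    refine ⟨ew T '' (closure O ∩ t), ((hC.inter_right ht).image (ew_cont T)).isClosed, ?_⟩
    ext w
    constructor
    · rintro ⟨h1, h2⟩
      exact ⟨⟨_, ⟨hr1 w h2, h1⟩, hr2 w h2⟩, h2⟩
    · rintro ⟨⟨ω, ⟨h1, h2⟩, rfl⟩, h3⟩
      refine ⟨?_, h3⟩
      have := hinj (hr1 _ h3) h1 (hr2 _ h3)
      show Function.invFunOn (ew T) (closure O) (ew T ω) ∈ t
      rw [this]
      exact h2
  have hfr : ∀ w ∈ frontier (ew T '' O), w ∈ ew T '' closure O ∧
      Function.invFunOn (ew T) (closure O) w ∈ frontier O := by
    intro w hw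
    rw [hopen.frontier_eq, hcl] at hw
    refine ⟨hw.1, ?_⟩
    rw [hO.frontier_eq]
    refine ⟨hr1 w hw.1, fun h => hw.2 ⟨_, h, hr2 w hw.1⟩⟩
  refine ⟨fun w => L (Function.invFunOn (ew T) (closure O) w), ?_, ?_⟩
  · exact hLc.comp (hrc.mono fun w hw => (hfr w hw).1) fun w hw => (hfr w hw).2
  · intro w hw
    have h1 := hL _ (hfr w hw).2
    have h2 := hr2 w (hfr w hw).1
    rw [← h1]
    show f w = f (ew T (Function.invFunOn (ew T) (closure O) w))
    rw [h2]

end TN
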