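import Pool.Agent.H12.TN.JA
import Pool.Agent.H12.TN.JH
import Pool.Agent.H12.TN.JD

/-!
JP (periodic index theorem).  Choose `M' ≥ M` bounding also `|(ω - k i).re|` on all `closure (O i)` (bounded sets, `ι` finite), `N ≥ 1`
with `N l > 4 M' + 4`, `T = N l`.  There is `f` with `f (ew T ω) = ew T (Fh ω) - ew T ω` for all `ω` (`Fh (ω + z T) = Fh ω + z T`,
`ew_eq_iff`; choose a preimage; `f 0` arbitrary).  Apply `add_index'` with the index type `Option (ι × Fin N)`:
* `none`: `ball 0 r`, `r = exp (-(2πy₁/T))`, centre `0`, exponent `1 + N w`, log by `centre_log` (the frontier of the ball is the sphere);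
* `some (i, j)`: `ew T '' ((fun ω => ω + j l) '' O i)`, centre `ew T (k i + j l)`, exponent `n i`; the translated hole
  `O' = (· + j l) '' O i` is open, bounded, its closure (frontier) is the translate of the closure (frontier) (homeomorphism), it satisfies
  the hypothesis of `hole_push` (`hd` with `i = j`), and `(Fh ω - ω)/(ω - (k i + j l))^n` has a log on its frontier (periodicity of `Fh ω - ω`):
  `hole_log`, `hole_push`.  (`Fh ω ≠ ω` and `ω ≠ k` on the frontier: `k i + j l` is in the open set; a fixed point of `Fh` on the frontier of `O i`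
  has, by `hz`, a translate in some `O i'`: this contradicts `hd` (`closure (O i)` meets a translate of `O i'`) unless `i' = i`, `z = 0`, and
  then the point is in `O i`, not in the frontier.)
Disjoint closures: `closure = ew T '' closure`; `ω + j l ≡ ω' + j' l` mod `T` gives `ω' = ω + z l` with `z = j - j' + N z'`, so by `hd`
`i = i'` and `z = 0`, so `j = j'` (`0 ≤ j, j' < N`).  The central closed ball: `‖ew T ω‖ ≤ r` iff `y₁ ≤ im ω` (`ew_norm`), excluded by `hy`.
`f` is continuous and nonzero off the holes: a point `z` there has `‖z‖ ≥ r > 0`, `z = ew T ω`, `im ω ≤ y₁`; `ew_contOn` with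
`S = (⋃ holes)ᶜ`; if `f z = 0` then `Fh ω = ω + z' T` (`ew_eq_iff`), `|z'| T ≤ M < T`, `z' = 0`, `Fh ω = ω`, and by `hz` `ω + z l ∈ O i`; with
`j = -z mod N` the point is in the hole `(i, j)`.
`f_inf` gives the behaviour at infinity with exponent `1`.  So `1 = 1 + N w + N ∑ n i`.
-/

namespace TN
open Metric Set Filter Topology DS

theorem JP_per {l : ℝ} {Fh : ℂ → ℂ} (hp : ∀ ω, Fh (ω + l) = Fh ω + l) (z : ℤ) (ω : ℂ) :
    Fh (ω + z * l) = Fh ω + z * l := by
  induction z using Int.induction_on generalizing ω with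
  | zero => simp
  | succ i ih =>
    have h1 : ω + ((i + 1 : ℤ) : ℂ) * l = (ω + (i : ℤ) * l) + l := by push_cast; ring
    rw [h1, hp, ih]
    push_cast; ring
  | pred i ih =>
    have h1 : ω + (-(i : ℤ) : ℤ) * (l:ℂ) = (ω + ((-(i : ℤ) - 1 : ℤ) : ℂ) * l) + l := by
      push_cast; ring
    have h2 := ih ω
    rw [h1, hp] at h2
    have h3 := add_right_cancel (h2.trans (by push_cast; ring :
      Fh ω + (-(i : ℤ) : ℤ) * (l:ℂ) = (Fh ω + ((-(i : ℤ) - 1 : ℤ) : ℂ) * l) + l))
    exact h3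

theorem JP_perT {l : ℝ} {N : ℕ} {Fh : ℂ → ℂ} (hp : ∀ ω, Fh (ω + l) = Fh ω + l) (z : ℤ) (ω : ℂ) :
    Fh (ω + z * ((N * l : ℝ) : ℂ)) = Fh ω + z * ((N * l : ℝ) : ℂ) := by
  have h := JP_per hp (z * N) ω
  have e : ((z * N : ℤ) : ℂ) * (l:ℂ) = z * ((N * l : ℝ) : ℂ) := by push_cast; ring
  rwa [e] at h

/-- the map induced in the punctured plane -/
theorem JP_f {T : ℝ} (hT : 0 < T) {Fh : ℂ → ℂ} (hp : ∀ (z : ℤ) ω, Fh (ω + z * T) = Fh ω + z * T) :
    ∃ f : ℂ → ℂ, ∀ ω, f (ew T ω) = ew T (Fh ω) - ew T ω := by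
  classical
  refine ⟨fun w => if h : ∃ ω, ew T ω = w then ew T (Fh h.choose) - w else 0, fun ω => ?_⟩
  have hex : ∃ ω', ew T ω' = ew T ω := ⟨ω, rfl⟩
  simp only [dif_pos hex]
  obtain ⟨z, hz⟩ := (ew_eq_iff hT).1 hex.choose_spec
  have h1 : Fh ω = Fh hex.choose + z * T := by
    conv_lhs => rw [hz]
    exact hp z _
  have h2 : ew T (Fh hex.choose) = ew T (Fh ω) := (ew_eq_iff hT).2 ⟨z, h1⟩
  rw [h2]

theorem JP_closure (a : ℂ) (S : Set ℂ) :
    closure ((fun ω => ω + a) '' S) = (fun ω => ω + a) '' closure S :=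
  ((Homeomorph.addRight a).image_closure S).symm

theorem JP_frontier (a : ℂ) (S : Set ℂ) :
    frontier ((fun ω => ω + a) '' S) = (fun ω => ω + a) '' frontier S :=
  ((Homeomorph.addRight a).image_frontier S).symm

theorem JP_open (a : ℂ) {S : Set ℂ} (h : IsOpen S) : IsOpen ((fun ω => ω + a) '' S) :=
  (Homeomorph.addRight a).isOpenMap S h

theorem JP_bdd (a : ℂ) {S : Set ℂ} (h : Bornology.IsBounded S) :
    Bornology.IsBounded ((fun ω => ω + a) '' S) := by
  obtain ⟨R, hR⟩ := h.exists_norm_le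
  refine isBounded_iff_forall_norm_le.2 ⟨R + ‖a‖, ?_⟩
  rintro _ ⟨x, hx, rfl⟩
  exact (norm_add_le _ _).trans (by linarith [hR x hx])

/-- an integer multiple of a large period is small only if the integer is zero -/
theorem JP_small {T x : ℝ} (hT : 0 < T) {z : ℤ} (hx : |x| < T) (h : x = z * T) : z = 0 := by
  rw [h, abs_mul, abs_of_pos hT] at hx
  have h1 : |(z:ℝ)| < 1 := by
    by_contra hn
    push Not at hn
    nlinarith
  exact Int.abs_lt_one_iff.1 (by exact_mod_cast h1)

theorem pai {l : ℝ} (hl : 0 < l) {Fh : ℂ → ℂ} (hF : Continuous Fh)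
    (hp : ∀ ω, Fh (ω + l) = Fh ω + l) {M : ℝ} (hM : ∀ ω, |(Fh ω - ω).re| ≤ M)
    (him : ∀ ω, 0 ≤ (Fh ω).im) {y₁ : ℝ} {ι : Type} [Fintype ι] (O : ι → Set ℂ) (k : ι → ℂ)
    (n : ι → ℤ) (hO : ∀ i, IsOpen (O i)) (hb : ∀ i, Bornology.IsBounded (O i))
    (hk : ∀ i, k i ∈ O i) (hy : ∀ i, ∀ ω ∈ closure (O i), ω.im < y₁)
    (hd : ∀ i j, ∀ z : ℤ, (i ≠ j ∨ z ≠ 0) → ∀ ω ∈ closure (O i), ω + z * l ∉ closure (O j))
    (hz : ∀ ω : ℂ, ω.im ≤ y₁ → Fh ω = ω → ∃ i, ∃ z : ℤ, ω + z * l ∈ O i)
    (hlog : ∀ i, HasLog (fun ω => (Fh ω - ω) / (ω - k i) ^ (n i)) (frontier (O i)))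
    (w : ℤ) {L : ℂ → ℂ} (hL : ContinuousOn L {ω | ω.im = y₁})
    (hLe : ∀ ω : ℂ, ω.im = y₁ → Fh ω - ω = Complex.exp (L ω))
    (hLp : ∀ ω : ℂ, ω.im = y₁ → L (ω + l) = L ω + 2 * Real.pi * w * Complex.I) :
    w + ∑ i, n i = 0 := by
  classical
  -- the bound `M'`
  obtain ⟨M', hMM, hM'⟩ : ∃ M', M ≤ M' ∧ ∀ i, ∀ ω ∈ closure (O i), |(ω - k i).re| ≤ M' := by
    have h1 : ∀ i, ∃ R : ℝ, ∀ ω ∈ closure (O i), |(ω - k i).re| ≤ R := by
      intro i
      obtain ⟨R, hR⟩ := (hb i).closure.exists_norm_le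
      refine ⟨R + ‖k i‖, fun ω hω => ?_⟩
      exact (Complex.abs_re_le_norm _).trans ((norm_sub_le _ _).trans (by linarith [hR ω hω]))
    choose R hR using h1
    obtain ⟨B, hB⟩ := (Set.finite_range R).bddAbove
    refine ⟨max M B, le_max_left _ _, fun i ω hω => (hR i ω hω).trans ?_⟩
    exact (hB ⟨i, rfl⟩).trans (le_max_right _ _)
  have hM0 : 0 ≤ M := (abs_nonneg _).trans (hM 0)
  obtain ⟨N, hN⟩ : ∃ N : ℕ, (4 * M' + 4) / l < N := exists_nat_gt _
  rw [div_lt_iff₀ hl] at hN
  have hN0 : 0 < N := by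
    rcases Nat.eq_zero_or_pos N with h | h
    · rw [h, Nat.cast_zero, zero_mul] at hN
      linarith
    · exact h
  obtain ⟨T, hTdef⟩ : ∃ T : ℝ, T = N * l := ⟨_, rfl⟩
  have hT : 0 < T := by rw [hTdef]; positivity
  rw [← hTdef] at hN
  have hpT : ∀ (z : ℤ) ω, Fh (ω + z * T) = Fh ω + z * T := by
    intro z ω
    rw [hTdef]
    exact JP_perT hp z ω
  obtain ⟨f, hf⟩ := JP_f hT hpT
  have hMT : ∀ ω, |(Fh ω - ω).re| < T / 4 := fun ω => by linarith [hM ω]
  -- periodicity in the form of hd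
  have hcast : ∀ (z : ℤ), ((z * N : ℤ) : ℂ) * l = z * T := by
    intro z
    rw [hTdef]; push_cast; ring
  -- radius of the central hole
  obtain ⟨r, hr⟩ : ∃ r : ℝ, r = Real.exp (-(2 * Real.pi * y₁ / T)) := ⟨_, rfl⟩
  have hr0 : 0 < r := hr ▸ Real.exp_pos _
  have him_iff : ∀ ω : ℂ, ‖ew T ω‖ ≤ r → y₁ ≤ ω.im := by
    intro ω h
    rw [ew_norm, hr, Real.exp_le_exp, neg_le_neg_iff, div_le_div_iff_of_pos_right hT] at h
    exact le_of_mul_le_mul_left h (by positivity)
  have him_iff' : ∀ ω : ℂ, r ≤ ‖ew T ω‖ → ω.im ≤ y₁ := by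
    intro ω h
    rw [ew_norm, hr, Real.exp_le_exp, neg_le_neg_iff, div_le_div_iff_of_pos_right hT] at h
    exact le_of_mul_le_mul_left h (by positivity)
  -- the translated holes
  have hpush : ∀ (i : ι) (j : ℂ), IsOpen (ew T '' ((fun ω => ω + j) '' O i)) ∧
      Bornology.IsBounded (ew T '' ((fun ω => ω + j) '' O i)) ∧
      closure (ew T '' ((fun ω => ω + j) '' O i)) = ew T '' ((fun ω => ω + j) '' closure (O i)) ∧
      ∀ f : ℂ → ℂ, HasLog (fun ω => f (ew T ω)) ((fun ω => ω + j) '' frontier (O i)) →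
        HasLog f (frontier (ew T '' ((fun ω => ω + j) '' O i))) := by
    intro i j
    have h := hole_push hT (JP_open j (hO i)) (JP_bdd j (hb i)) (by
      intro z hz0 ω hω
      rw [JP_closure] at hω ⊢
      rintro ⟨ω₂, hω₂, h2⟩
      obtain ⟨ω₁, hω₁, rfl⟩ := hω
      have h3 : ω₂ = ω₁ + ((z * N : ℤ) : ℂ) * l := by
        rw [hcast]
        simp only at h2
        linear_combination h2
      refine hd i i (z * N) (Or.inr ?_) ω₁ hω₁ (h3 ▸ hω₂)
      exact mul_ne_zero hz0 (by exact_mod_cast hN0.ne'))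
    rw [JP_closure, JP_frontier] at h
    exact h
  -- the index type
  let O' : Option (ι × Fin N) → Set ℂ := fun o => match o with
    | none => ball 0 r
    | some (i, j) => ew T '' ((fun ω => ω + ((j : ℕ) : ℂ) * l) '' O i)
  let k' : Option (ι × Fin N) → ℂ := fun o => match o with
    | none => 0
    | some (i, j) => ew T (k i + ((j : ℕ) : ℂ) * l)
  let n' : Option (ι × Fin N) → ℤ := fun o => match o with
    | none => 1 + N * w
    | some (i, _) => n i
  have hcl : ∀ (i : ι) (j : Fin N), closure (O' (some (i, j))) =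
      ew T '' ((fun ω => ω + ((j : ℕ) : ℂ) * l) '' closure (O i)) := fun i j => (hpush i _).2.2.1
  have hmain := add_index' O' k' n' ?_ ?_ ?_ ?_ f ?_ ?_ ?_ 1 (c := -1) (by norm_num) (f_inf hT him hf)
  · -- conclusion
    rw [Fintype.sum_option, Fintype.sum_prod_type] at hmain
    have h1 : ∀ i : ι, ∑ j : Fin N, n' (some (i, j)) = N * n i := by
      intro i
      show ∑ _j : Fin N, n i = N * n i
      rw [Finset.sum_const, Finset.card_univ, Fintype.card_fin, nsmul_eq_mul]
    simp only [h1] at hmain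
    rw [← Finset.mul_sum] at hmain
    have h2 : n' none = 1 + N * w := rfl
    rw [h2] at hmain
    have h3 : (N : ℤ) * (w + ∑ i, n i) = 0 := by linear_combination -hmain
    rcases mul_eq_zero.1 h3 with h4 | h4
    · exact absurd h4 (by exact_mod_cast hN0.ne')
    · exact h4
  · -- open
    rintro (_ | ⟨i, j⟩)
    · exact isOpen_ball
    · exact (hpush i _).1
  · rintro (_ | ⟨i, j⟩)
    · exact isBounded_ball
    · exact (hpush i _).2.1
  · rintro (_ | ⟨i, j⟩)
    · exact mem_ball_self hr0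
    · exact ⟨_, ⟨k i, hk i, rfl⟩, rfl⟩
  · -- disjoint closures
    have hns : ∀ (i : ι) (j : Fin N), Disjoint (closure (O' none)) (closure (O' (some (i, j)))) := by
      intro i j
      rw [Set.disjoint_left]
      intro x hx1 hx2
      have hx1' : ‖x‖ ≤ r := by
        have : x ∈ closedBall (0:ℂ) r := closure_ball_subset_closedBall hx1
        simpa using this
      rw [hcl] at hx2
      obtain ⟨_, ⟨ω, hω, rfl⟩, rfl⟩ := hx2
      have h1 := him_iff _ hx1'
      have h2 := hy i ω hω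
      have h3 : (ω + ((j : ℕ) : ℂ) * l).im = ω.im := by
        simp
      rw [h3] at h1
      linarith
    rintro (_ | ⟨i, j⟩) (_ | ⟨i', j'⟩) hne
    · exact absurd rfl hne
    · exact hns i' j'
    · exact (hns i j).symm
    · rw [Set.disjoint_left]
      intro x hx1 hx2
      rw [hcl] at hx1 hx2
      obtain ⟨_, ⟨ω, hω, rfl⟩, rfl⟩ := hx1
      obtain ⟨_, ⟨ω', hω', rfl⟩, h2⟩ := hx2
      obtain ⟨z, hz1⟩ := (ew_eq_iff hT).1 h2.symm
      simp only at hz1
      have h3 : ω' = ω + (((j : ℕ) : ℤ) - ((j' : ℕ) : ℤ) + z * N : ℤ) * (l:ℂ) := by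
        have := hcast z
        push_cast at this ⊢
        linear_combination hz1 - this
      have h4 := fun hh => hd i i' (((j : ℕ) : ℤ) - ((j' : ℕ) : ℤ) + z * N) hh ω hω (h3 ▸ hω')
      have h5 : i = i' := by
        by_contra hh
        exact h4 (Or.inl hh)
      have h6 : ((j : ℕ) : ℤ) - ((j' : ℕ) : ℤ) + z * N = 0 := by
        by_contra hh
        exact h4 (Or.inr hh)
      apply hne
      have h7 : (j : ℕ) = (j' : ℕ) := by
        have hj := j.isLt
        have hj' := j'.isLt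
        have hz0 : z = 0 := by
          by_contra hz0
          rcases lt_or_gt_of_ne hz0 with hz' | hz'
          · have : z * N ≤ -1 * N := mul_le_mul_of_nonneg_right (by omega) (by positivity)
            omega
          · have : 1 * N ≤ z * N := mul_le_mul_of_nonneg_right (by omega) (by positivity)
            omega
        rw [hz0] at h6
        omega
      rw [h5, Fin.ext h7]
  · -- continuity
    refine ew_contOn hT (G := fun ω => ew T (Fh ω) - ew T ω) ?_ ?_ ?_
    · intro x hx h0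
      apply hx
      rw [Set.mem_iUnion]
      refine ⟨none, ?_⟩
      rw [h0]
      exact mem_ball_self hr0
    · exact ((((ew_cont T).comp hF).sub (ew_cont T))).continuousOn
    · intro ω _
      exact hf ω
  · -- nonvanishing
    intro x hx h0
    have hx0 : x ∉ ball (0:ℂ) r := fun h => hx (Set.mem_iUnion.2 ⟨none, h⟩)
    have hxr : r ≤ ‖x‖ := by
      by_contra hh
      push Not at hh
      exact hx0 (by simpa using hh)
    have hxne : x ≠ 0 := by
      rintro rfl
      rw [norm_zero] at hxr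
      linarith
    obtain ⟨ω, rfl⟩ := ew_surj hT hxne
    have him' := him_iff' ω hxr
    rw [hf, sub_eq_zero] at h0
    obtain ⟨z, hz1⟩ := (ew_eq_iff hT).1 h0
    have hz0 : -z = 0 := by
      apply JP_small hT (x := (Fh ω - ω).re) (lt_of_lt_of_le (hMT ω) (by linarith))
      have h2 : Fh ω - ω = ((-(z:ℝ) * T : ℝ) : ℂ) := by
        push_cast
        linear_combination (-1 : ℂ) * hz1
      rw [h2, Complex.ofReal_re]
      push_cast; ring
    have hz0' : z = 0 := by omega
    rw [hz0', Int.cast_zero, zero_mul, add_zero] at hz1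
    obtain ⟨i, z₁, hi⟩ := hz ω him' hz1.symm
    apply hx
    rw [Set.mem_iUnion]
    have hNz : (N : ℤ) ≠ 0 := by exact_mod_cast hN0.ne'
    have hm0 := Int.emod_nonneg (-z₁) hNz
    have hm1 := Int.emod_lt_of_pos (-z₁) (by exact_mod_cast hN0 : (0:ℤ) < N)
    have hm2 := Int.emod_add_mul_ediv (-z₁) N
    obtain ⟨j, hj⟩ : ∃ j : ℕ, (j : ℤ) = (-z₁) % N := ⟨((-z₁) % N).toNat, Int.toNat_of_nonneg hm0⟩
    have hjN : j < N := by omega
    refine ⟨some (i, ⟨j, hjN⟩), (ω + z₁ * l) + (j : ℂ) * l, ⟨ω + z₁ * l, hi, rfl⟩, ?_⟩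
    symm
    rw [ew_eq_iff hT]
    refine ⟨-((-z₁) / N), ?_⟩
    rw [← hcast]
    rw [← hj] at hm2
    have hm3 : (z₁ : ℂ) + j = ((-(-z₁ / N) * N : ℤ) : ℂ) := by
      have : z₁ + (j : ℤ) = -(-z₁ / N) * N := by linear_combination hm2
      rw [← this]
      push_cast; ring
    rw [← hm3]
    ring
  · -- logarithms
    rintro (_ | ⟨i, j⟩)
    · show HasLog (fun z => f z / (z - 0) ^ (1 + N * w)) (frontier (ball 0 r))
      rw [frontier_ball _ hr0.ne']
      have h := centre_log hl hN0 hF hp (by rw [← hTdef]; exact hMT) hL hLe hLp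
        (f := f) (by rw [← hTdef]; exact hf)
      rw [← hTdef, ← hr] at h
      exact h
    · show HasLog (fun z => f z / (z - ew T (k i + ((j : ℕ) : ℂ) * l)) ^ (n i))
        (frontier (ew T '' ((fun ω => ω + ((j : ℕ) : ℂ) * l) '' O i)))
      obtain ⟨a, ha⟩ : ∃ a : ℤ, a = ((j : ℕ) : ℤ) := ⟨_, rfl⟩
      have ha' : ((j : ℕ) : ℂ) = (a : ℂ) := by rw [ha]; push_cast; rfl
      rw [ha']
      apply (hpush i _).2.2.2
      have hfr : ∀ ω ∈ frontier (O i), ω ∈ closure (O i) ∧ ω ∉ O i := by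
        intro ω hω
        rw [(hO i).frontier_eq] at hω
        exact hω
      -- the difference is invariant
      have hdiff : ∀ ω, Fh (ω + a * l) - (ω + a * l) = Fh ω - ω := by
        intro ω
        rw [JP_per hp]
        ring
      have h := hole_log (T := T) hT (X := (fun ω => ω + (a : ℂ) * l) '' frontier (O i)) hF
        (k := k i + a * l) (n := n i) ?_ ?_ ?_ ?_ ?_
      · obtain ⟨L', hL', hL''⟩ := h
        refine ⟨L', hL', fun ω hω => ?_⟩
        rw [← hL'' ω hω]
        simp only [hf]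
      · rintro _ ⟨ω, hω, rfl⟩ h0
        have h1 := hdiff ω
        simp only at h0
        rw [h0, sub_self] at h1
        have h2 : Fh ω = ω := (sub_eq_zero.1 h1.symm)
        obtain ⟨hω1, hω2⟩ := hfr ω hω
        obtain ⟨i', z, hi'⟩ := hz ω (hy i ω hω1).le h2
        by_cases hc : i ≠ i' ∨ z ≠ 0
        · exact hd i i' z hc ω hω1 (subset_closure hi')
        · push Not at hc
          rw [hc.2, Int.cast_zero, zero_mul, add_zero, ← hc.1] at hi'
          exact hω2 hi'
      · rintro _ ⟨ω, hω, rfl⟩ h0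
        simp only [add_left_inj] at h0
        exact (hfr ω hω).2 (h0 ▸ hk i)
      · intro ω _
        exact hMT ω
      · rintro _ ⟨ω, hω, rfl⟩
        have h1 := hM' i ω (hfr ω hω).1
        have h2 : (ω + (a : ℂ) * l) - (k i + a * l) = ω - k i := by ring
        simp only [h2]
        linarith
      · obtain ⟨L', hL', hL''⟩ := hlog i
        refine ⟨fun ω => L' (ω - a * l), ?_, ?_⟩
        · apply hL'.comp (by fun_prop)
          rintro _ ⟨ω, hω, rfl⟩
          simpa using hω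
        · rintro _ ⟨ω, hω, rfl⟩
          have h1 := hL'' ω hω
          simp only at h1 ⊢
          rw [hdiff, add_sub_cancel_right, ← h1]
          congr 2
          ring

end TN
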