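import Pool.Agent.H12.TN.CP
import Pool.Agent.H12.TN.FN

/-!
JS (the strip map).  `clm` = vertical clamp onto the strip, `sm p q H = om ∘ H ∘ omi ∘ clm`.
`norm_fix`: `AR.norm` for `κ` (`θ κ = κ`) and `AR.unique`.  `norm_Dpq`: `Norm.mapC`, `Norm.inj`, `norm_fix`.
`sm_cont`: `omi_cont`, `om_cont`, `Norm.cont`, `clm` continuous (`clm_lip`).
`sm_add`: for `ω ∈ Str`, `x = omi ω`: `omi (ω + l) = act κ x` (`om_act_zpow` with `z = 1`, `omi_om`), `e.H (act κ x) = act κ (e.H x)` (`equi`, `hc`).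
`sm_bdd`: `ω ↦ (sm ω - ω).re` depends only on `clm ω` (same real part), is `l`-periodic and continuous: bounded by its maximum on the
compact set `[0, l] × [0, π]`; every real number is `r + z l` with `0 ≤ r < l`.
`sm_fix`: if `sm ω = ω` then `ω ∈ Str` (`om_mem`), `clm ω = ω`, apply `omi`.  `sm_inv`: `sm_om` twice.
-/

namespace TN
open Metric Set Filter Topology DS

/-- vertical clamp onto the strip -/
noncomputable def clm (ω : ℂ) : ℂ := ⟨ω.re, max 0 (min ω.im Real.pi)⟩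

/-- the map in the strip coordinate, extended to the plane by the clamp -/
noncomputable def sm (p q : ℂ) (H : ℂ → ℂ) (ω : ℂ) : ℂ := om p q (H (omi p q (clm ω)))

theorem clm_mem (ω : ℂ) : clm ω ∈ Str :=
  ⟨le_max_left _ _, max_le Real.pi_pos.le (min_le_right _ _)⟩

theorem clm_id {ω : ℂ} (h : ω ∈ Str) : clm ω = ω := by
  apply Complex.ext
  · rfl
  · show max 0 (min ω.im Real.pi) = ω.im
    rw [min_eq_left h.2, max_eq_right h.1]

theorem JS_real (a b : ℝ) :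
    (max 0 (min a Real.pi) - max 0 (min b Real.pi)) ^ 2 ≤ (a - b) ^ 2 := by
  have key : ∀ a b : ℝ, a ≤ b → 0 ≤ max 0 (min b Real.pi) - max 0 (min a Real.pi) ∧
      max 0 (min b Real.pi) - max 0 (min a Real.pi) ≤ b - a := by
    intro a b hab
    have hp := Real.pi_pos
    rcases le_total a Real.pi with h1 | h1 <;> rcases le_total b Real.pi with h2 | h2 <;>
      rcases le_total a 0 with h3 | h3 <;> rcases le_total b 0 with h4 | h4
    all_goals
      simp only [h1, h2, h3, h4, min_eq_left, min_eq_right, max_eq_left, max_eq_right, hp.le]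
      constructor <;> linarith
  rcases le_total a b with h | h
  · obtain ⟨h1, h2⟩ := key a b h
    nlinarith
  · obtain ⟨h1, h2⟩ := key b a h
    nlinarith

theorem clm_lip (ω ω' : ℂ) : dist (clm ω) (clm ω') ≤ dist ω ω' := by
  rw [Complex.dist_eq_re_im, Complex.dist_eq_re_im]
  apply Real.sqrt_le_sqrt
  have h1 := JS_real ω.im ω'.im
  have h2 : (clm ω).re = ω.re := rfl
  have h3 : (clm ω').re = ω'.re := rfl
  have h4 : (clm ω).im = max 0 (min ω.im Real.pi) := rfl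
  have h5 : (clm ω').im = max 0 (min ω'.im Real.pi) := rfl
  rw [h2, h3, h4, h5]
  linarith

theorem JS_clm_cont : Continuous clm := by
  have h : LipschitzWith 1 clm := by
    refine LipschitzWith.of_dist_le_mul fun a b => ?_
    rw [NNReal.coe_one, one_mul]
    exact clm_lip a b
  exact h.continuous

theorem clm_add (ω : ℂ) (r : ℝ) : clm (ω + r) = clm ω + r := by
  apply Complex.ext
  · show (ω + r).re = (clm ω + r).re
    rw [Complex.add_re, Complex.add_re]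
    rfl
  · show max 0 (min (ω + r).im Real.pi) = (clm ω + r).im
    rw [Complex.add_im, Complex.add_im, Complex.ofReal_im, add_zero, add_zero]
    rfl

theorem sm_clm (p q : ℂ) (H : ℂ → ℂ) (ω : ℂ) : sm p q H (clm ω) = sm p q H ω := by
  unfold sm
  rw [clm_id (clm_mem ω)]

variable {Γ : Type} [Group Γ] {F : Fuchs Γ} {p q : ℂ} {e : Elt Γ} {κ : Γ}

theorem norm_fix (he : Norm F e) (hκ : F.AR κ p q) (hc : e.θ κ = κ) : e.H p = p ∧ e.H q = q := by
  have h1 := AR.norm hκ he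
  rw [hc] at h1
  obtain ⟨h2, h3⟩ := AR.unique hκ h1
  exact ⟨h2.symm, h3.symm⟩

theorem norm_fixi (he : Norm F e) (hκ : F.AR κ p q) (hc : e.θ κ = κ) :
    e.Hi p = p ∧ e.Hi q = q := by
  obtain ⟨h1, h2⟩ := norm_fix he hκ hc
  have hp : p ∈ closedBall (0:ℂ) 1 := by simpa using hκ.np.le
  have hq : q ∈ closedBall (0:ℂ) 1 := by simpa using hκ.nq.le
  have h3 := he.left p hp
  have h4 := he.left q hq
  rw [h1] at h3
  rw [h2] at h4
  exact ⟨h3, h4⟩

theorem norm_Dpq (he : Norm F e) (hκ : F.AR κ p q) (hc : e.θ κ = κ) {x : ℂ} (hx : x ∈ Dpq p q) :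
    e.H x ∈ Dpq p q ∧ e.Hi x ∈ Dpq p q := by
  obtain ⟨h1, h2⟩ := norm_fix he hκ hc
  obtain ⟨h3, h4⟩ := norm_fixi he hκ hc
  obtain ⟨hx1, hx2, hx3⟩ := hx
  have hxc : x ∈ closedBall (0:ℂ) 1 := by simpa using hx1
  refine ⟨⟨?_, ?_, ?_⟩, ⟨?_, ?_, ?_⟩⟩
  · exact mem_closedBall_zero_iff.1 (he.mapC hxc)
  · intro h
    apply hx2
    have h5 := he.left x hxc
    rw [h, h3] at h5
    exact h5.symm
  · intro h
    apply hx3
    have h5 := he.left x hxc
    rw [h, h4] at h5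
    exact h5.symm
  · exact mem_closedBall_zero_iff.1 (he.mapCi hxc)
  · intro h
    apply hx2
    have h5 := he.right x hxc
    rw [h, h1] at h5
    exact h5.symm
  · intro h
    apply hx3
    have h5 := he.right x hxc
    rw [h, h2] at h5
    exact h5.symm

theorem JS_mem (he : Norm F e) (hκ : F.AR κ p q) (hc : e.θ κ = κ) (ω : ℂ) :
    e.H (omi p q (clm ω)) ∈ Dpq p q :=
  (norm_Dpq he hκ hc (omi_mem hκ.np hκ.nq hκ.ne (clm_mem ω))).1

theorem sm_cont (he : Norm F e) (hκ : F.AR κ p q) (hc : e.θ κ = κ) : Continuous (sm p q e.H) := by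
  have h2 : Continuous fun ω => omi p q (clm ω) :=
    (omi_cont hκ.np hκ.nq hκ.ne).comp_continuous JS_clm_cont clm_mem
  have h3 : Continuous fun ω => e.H (omi p q (clm ω)) :=
    he.cont.comp_continuous h2 fun ω =>
      mem_closedBall_zero_iff.2 (omi_mem hκ.np hκ.nq hκ.ne (clm_mem ω)).1
  exact (om_cont hκ.np hκ.nq hκ.ne).comp_continuous h3 (JS_mem he hκ hc)

theorem sm_mem (he : Norm F e) (hκ : F.AR κ p q) (hc : e.θ κ = κ) (ω : ℂ) :
    sm p q e.H ω ∈ Str :=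
  om_mem hκ.np hκ.nq hκ.ne (JS_mem he hκ hc ω)

theorem sm_om (he : Norm F e) (hκ : F.AR κ p q) (hc : e.θ κ = κ) {x : ℂ} (hx : x ∈ Dpq p q) :
    sm p q e.H (om p q x) = om p q (e.H x) := by
  have _ := he
  have _ := hc
  unfold sm
  rw [clm_id (om_mem hκ.np hκ.nq hκ.ne hx), omi_om hκ.np hκ.nq hκ.ne hx]

theorem sm_add (he : Norm F e) (hκ : F.AR κ p q) (hc : e.θ κ = κ) {l : ℝ}
    (hl : ∀ x ∈ ball (0:ℂ) 1, om p q (F.act κ x) = om p q x + l) (ω : ℂ) :
    sm p q e.H (ω + l) = sm p q e.H ω + l := by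
  have hx := omi_mem hκ.np hκ.nq hκ.ne (clm_mem ω)
  obtain ⟨x, hxdef⟩ : ∃ x, x = omi p q (clm ω) := ⟨_, rfl⟩
  rw [← hxdef] at hx
  have hz : ∀ y ∈ Dpq p q, F.act κ y ∈ Dpq p q ∧ om p q (F.act κ y) = om p q y + l := by
    intro y hy
    have h1 := (om_act_zpow hκ hl).2 1 y hy
    rw [zpow_one, Int.cast_one, one_mul] at h1
    exact h1
  have h1 : om p q x = clm ω := by rw [hxdef, om_omi hκ.np hκ.nq hκ.ne (clm_mem ω)]
  have h2 : omi p q (clm (ω + l)) = F.act κ x := by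
    rw [clm_add, ← h1, ← (hz x hx).2, omi_om hκ.np hκ.nq hκ.ne (hz x hx).1]
  have h3 : e.H (F.act κ x) = F.act κ (e.H x) := by
    rw [he.equi κ x (mem_closedBall_zero_iff.2 hx.1), hc]
  unfold sm
  rw [h2, h3, ← hxdef, (hz _ (norm_Dpq he hκ hc hx).1).2]

theorem sm_bdd (he : Norm F e) (hκ : F.AR κ p q) (hc : e.θ κ = κ) {l : ℝ}
    (hl : ∀ x ∈ ball (0:ℂ) 1, om p q (F.act κ x) = om p q x + l) :
    ∃ M : ℝ, ∀ ω, |(sm p q e.H ω - ω).re| ≤ M := by
  have hl0 := (om_act_zpow hκ hl).1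
  have hcont : Continuous fun ω => (sm p q e.H ω - ω).re :=
    Complex.continuous_re.comp ((sm_cont he hκ hc).sub continuous_id)
  have hK : IsCompact (Icc (0:ℝ) l ×ℂ Icc (0:ℝ) Real.pi) := isCompact_Icc.reProdIm isCompact_Icc
  obtain ⟨M, hM⟩ := hK.exists_bound_of_continuousOn hcont.continuousOn
  refine ⟨M, fun ω => ?_⟩
  have hper : Function.Periodic (fun ω => (sm p q e.H ω - ω).re) (l : ℂ) := by
    intro ω
    simp only
    rw [sm_add he hκ hc hl]
    congr 1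
    ring
  have h1 : (sm p q e.H ω - ω).re = (sm p q e.H (clm ω) - clm ω).re := by
    rw [sm_clm, Complex.sub_re, Complex.sub_re]
    rfl
  have h2 := hper.sub_zsmul_eq (x := clm ω) ⌊ω.re / l⌋
  rw [h1, ← h2]
  refine hM _ ?_
  rw [Complex.mem_reProdIm]
  have h3 : (clm ω - ⌊ω.re / l⌋ • (l : ℂ)).re = ω.re - ⌊ω.re / l⌋ * l := by
    rw [Complex.sub_re, zsmul_eq_mul]
    have h4 : ((⌊ω.re / l⌋ : ℤ) : ℂ) = (((⌊ω.re / l⌋ : ℤ) : ℝ) : ℂ) := by push_cast; rfl
    rw [h4, ← Complex.ofReal_mul, Complex.ofReal_re]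
    rfl
  have h5 : (clm ω - ⌊ω.re / l⌋ • (l : ℂ)).im = (clm ω).im := by
    rw [Complex.sub_im, zsmul_eq_mul]
    have h4 : ((⌊ω.re / l⌋ : ℤ) : ℂ) = (((⌊ω.re / l⌋ : ℤ) : ℝ) : ℂ) := by push_cast; rfl
    rw [h4, ← Complex.ofReal_mul, Complex.ofReal_im, sub_zero]
  rw [h3, h5]
  exact ⟨⟨Int.sub_floor_div_mul_nonneg _ hl0, (Int.sub_floor_div_mul_lt _ hl0).le⟩, clm_mem ω⟩

theorem sm_fix (he : Norm F e) (hκ : F.AR κ p q) (hc : e.θ κ = κ) {ω : ℂ} :
    sm p q e.H ω = ω ↔ ω ∈ Str ∧ e.H (omi p q ω) = omi p q ω := by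
  constructor
  · intro h
    have hS : ω ∈ Str := by
      have := sm_mem he hκ hc ω
      rwa [h] at this
    refine ⟨hS, ?_⟩
    have h1 := JS_mem he hκ hc ω
    unfold sm at h
    rw [clm_id hS] at h h1
    have h2 := omi_om hκ.np hκ.nq hκ.ne h1
    rw [h] at h2
    exact h2.symm
  · rintro ⟨hS, h⟩
    unfold sm
    rw [clm_id hS, h, om_omi hκ.np hκ.nq hκ.ne hS]

theorem sm_inv (he : Norm F e) (hκ : F.AR κ p q) (hc : e.θ κ = κ) {ω : ℂ} (hω : ω ∈ Str) :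
    sm p q e.Hi (sm p q e.H ω) = ω := by
  have hx := omi_mem hκ.np hκ.nq hκ.ne hω
  have h1 := JS_mem he hκ hc ω
  have h2 : sm p q e.H ω = om p q (e.H (omi p q ω)) := by
    unfold sm
    rw [clm_id hω]
  rw [clm_id hω] at h1
  rw [h2]
  unfold sm
  rw [clm_id (om_mem hκ.np hκ.nq hκ.ne h1), omi_om hκ.np hκ.nq hκ.ne h1,
    he.left _ (mem_closedBall_zero_iff.2 hx.1), om_omi hκ.np hκ.nq hκ.ne hω]

end TN
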