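import Pool.Agent.H12.TN.Defs

/-!
JW (the covering `ω ↦ exp (2πiω/T)` of the punctured plane).
`ew_eq_iff`: `Complex.exp_eq_exp_iff_exists_int`.  `ew_surj`: `ω = T log w / (2πi)`.
`ew_map`: the map has the nonzero strict derivative `(2πi/T) ew`: `HasStrictDerivAt.map_nhds_eq`.
`ew_contOn`: let `w ∈ S`, `w = ew ω`.  `𝓝[S] w = map (ew T) (𝓝[ew T ⁻¹' S] ω)` by `ew_map` and `Filter.map_inf_principal_preimage`-like
(`map m (f ⊓ 𝓟 (m ⁻¹' s)) = map m f ⊓ 𝓟 s`); `f ∘ ew T` agrees with `G` on `ew T ⁻¹' S`.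
`ew_log`: `L` is invariant under all `z * T` on the (invariant) set `ew T ⁻¹' S` (induction), so it takes the same value at two
points with the same image; define `M w = L ω` for a chosen `ω` with `ew T ω = w`; `M (ew T ω) = L ω`; `ew_contOn`.
-/

namespace TN
open Metric Set Filter Topology DS

/-- the covering of the punctured plane -/
noncomputable def ew (T : ℝ) (ω : ℂ) : ℂ := Complex.exp (2 * Real.pi * Complex.I * ω / T)

theorem ew_cont (T : ℝ) : Continuous (ew T) := by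
  unfold ew
  fun_prop

theorem ew_ne (T : ℝ) (ω : ℂ) : ew T ω ≠ 0 := Complex.exp_ne_zero _

theorem ew_add (T : ℝ) (ω ω' : ℂ) : ew T (ω + ω') = ew T ω * ew T ω' := by
  unfold ew
  rw [← Complex.exp_add]
  congr 1
  ring

theorem ew_norm (T : ℝ) (ω : ℂ) : ‖ew T ω‖ = Real.exp (-(2 * Real.pi * ω.im / T)) := by
  unfold ew
  rw [Complex.norm_exp]
  congr 1
  have h : 2 * (Real.pi : ℂ) * Complex.I * ω / T = ((2 * Real.pi / T : ℝ) : ℂ) * (Complex.I * ω) := by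
    push_cast
    ring
  rw [h, Complex.re_ofReal_mul]
  simp only [Complex.mul_re, Complex.I_re, Complex.I_im, zero_mul, one_mul, zero_sub]
  ring

theorem ew_eq_iff {T : ℝ} (hT : 0 < T) {ω ω' : ℂ} :
    ew T ω = ew T ω' ↔ ∃ z : ℤ, ω' = ω + z * T := by
  have hT' : (T : ℂ) ≠ 0 := by exact_mod_cast hT.ne'
  have hpi : (2 * (Real.pi : ℂ) * Complex.I) ≠ 0 := Complex.two_pi_I_ne_zero
  unfold ew
  rw [eq_comm, Complex.exp_eq_exp_iff_exists_int]
  constructor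
  · rintro ⟨n, hn⟩
    refine ⟨n, ?_⟩
    have h1 : 2 * (Real.pi : ℂ) * Complex.I * ω' = 2 * Real.pi * Complex.I * (ω + n * T) := by
      have h2 := congrArg (fun z => z * (T : ℂ)) hn
      simp only [div_mul_cancel₀ _ hT', add_mul] at h2
      rw [h2]
      ring
    exact mul_left_cancel₀ hpi h1
  · rintro ⟨n, rfl⟩
    refine ⟨n, ?_⟩
    field_simp

theorem ew_surj {T : ℝ} (hT : 0 < T) {w : ℂ} (hw : w ≠ 0) : ∃ ω, ew T ω = w := by
  have hT' : (T : ℂ) ≠ 0 := by exact_mod_cast hT.ne'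
  have hpi : (2 * (Real.pi : ℂ) * Complex.I) ≠ 0 := Complex.two_pi_I_ne_zero
  refine ⟨T * Complex.log w / (2 * Real.pi * Complex.I), ?_⟩
  unfold ew
  have h : 2 * (Real.pi : ℂ) * Complex.I * (T * Complex.log w / (2 * Real.pi * Complex.I)) / T
      = Complex.log w := by
    field_simp
  rw [h, Complex.exp_log hw]

theorem ew_map {T : ℝ} (hT : 0 < T) (ω : ℂ) : map (ew T) (𝓝 ω) = 𝓝 (ew T ω) := by
  have hT' : (T : ℂ) ≠ 0 := by exact_mod_cast hT.ne'
  have hpi : (2 * (Real.pi : ℂ) * Complex.I) ≠ 0 := Complex.two_pi_I_ne_zero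
  have h1 : HasStrictDerivAt (fun x : ℂ => 2 * (Real.pi : ℂ) * Complex.I * x / T)
      (2 * Real.pi * Complex.I * 1 / T) ω :=
    ((hasStrictDerivAt_id ω).const_mul (2 * (Real.pi : ℂ) * Complex.I)).div_const (T : ℂ)
  have h2 := h1.cexp
  have h3 : HasStrictDerivAt (ew T) (Complex.exp (2 * Real.pi * Complex.I * ω / T) *
      (2 * Real.pi * Complex.I * 1 / T)) ω := h2
  refine h3.map_nhds_eq ?_
  refine mul_ne_zero (Complex.exp_ne_zero _) ?_
  rw [mul_one]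
  exact div_ne_zero hpi hT'

theorem ew_open {T : ℝ} (hT : 0 < T) {O : Set ℂ} (hO : IsOpen O) : IsOpen (ew T '' O) := by
  have h : IsOpenMap (ew T) := by
    rw [isOpenMap_iff_nhds_le]
    intro ω
    rw [ew_map hT]
  exact h O hO

theorem ew_contOn {T : ℝ} (hT : 0 < T) {S : Set ℂ} (hS : ∀ w ∈ S, w ≠ 0) {f G : ℂ → ℂ}
    (hG : ContinuousOn G (ew T ⁻¹' S)) (h : ∀ ω, ew T ω ∈ S → f (ew T ω) = G ω) :
    ContinuousOn f S := by
  intro w hw
  obtain ⟨ω, rfl⟩ := ew_surj hT (hS w hw)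
  have h1 : 𝓝[S] (ew T ω) = map (ew T) (𝓝[ew T ⁻¹' S] ω) := by
    unfold nhdsWithin
    rw [← ew_map hT ω]
    ext A
    simp only [mem_map, mem_inf_principal]
    rfl
  show Tendsto f (𝓝[S] (ew T ω)) (𝓝 (f (ew T ω)))
  rw [h1, tendsto_map'_iff, h ω hw]
  refine Tendsto.congr' ?_ (hG ω hw)
  filter_upwards [self_mem_nhdsWithin] with x hx
  exact (h x hx).symm

theorem JW_per {T : ℝ} {S : Set ℂ} {L : ℂ → ℂ}
    (hinv : ∀ (ω : ℂ) (z : ℤ), ew T (ω + z * T) = ew T ω)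
    (hp : ∀ ω, ew T ω ∈ S → L (ω + T) = L ω) (n : ℕ) :
    ∀ ω, ew T ω ∈ S → L (ω + n * T) = L ω := by
  induction n with
  | zero => intro ω _; simp
  | succ n ih =>
    intro ω hω
    have h1 := hp (ω + n * T) (by
      have := hinv ω (n : ℤ)
      rw [Int.cast_natCast] at this
      rw [this]; exact hω)
    rw [ih ω hω] at h1
    rw [← h1]
    congr 1
    push_cast
    ring

theorem ew_log {T : ℝ} (hT : 0 < T) {S : Set ℂ} (hS : ∀ w ∈ S, w ≠ 0) {f L : ℂ → ℂ}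
    (hL : ContinuousOn L (ew T ⁻¹' S)) (hp : ∀ ω, ew T ω ∈ S → L (ω + T) = L ω)
    (h : ∀ ω, ew T ω ∈ S → f (ew T ω) = Complex.exp (L ω)) : HasLog f S := by
  classical
  have hinv : ∀ (ω : ℂ) (z : ℤ), ew T (ω + z * T) = ew T ω := fun ω z =>
    ((ew_eq_iff hT).2 ⟨z, rfl⟩).symm
  have hper : ∀ ω ω', ew T ω ∈ S → ew T ω = ew T ω' → L ω = L ω' := by
    intro ω ω' hω he
    obtain ⟨z, rfl⟩ := (ew_eq_iff hT).1 he
    rcases Int.eq_nat_or_neg z with ⟨n, rfl | rfl⟩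
    · rw [Int.cast_natCast, JW_per hinv hp n ω hω]
    · have h1 := JW_per hinv hp n (ω + (-(n : ℤ) : ℤ) * T) (by rw [hinv]; exact hω)
      rw [← h1]
      congr 1
      push_cast
      ring
  choose! g hg using fun (w : ℂ) (hw : w ≠ 0) => ew_surj hT hw
  have key : ∀ ω, ew T ω ∈ S → L (g (ew T ω)) = L ω := by
    intro ω hω
    have h1 : ew T (g (ew T ω)) = ew T ω := hg _ (ew_ne T ω)
    exact hper _ _ (by rw [h1]; exact hω) h1
  refine ⟨fun w => L (g w), ?_, ?_⟩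
  · exact ew_contOn hT hS hL key
  · intro w hw
    have h1 := hg w (hS w hw)
    have h2 := h (g w) (by rw [h1]; exact hw)
    rw [h1] at h2
    exact h2

end TN
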