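import Pool.Agent.H12.TN.TD
import Pool.Agent.H12.TN.FF
import Pool.Agent.H12.TN.DI

/-!
NA (conical points of subgroups).
`con_lim`: `Con Z ξ`, `‖ξ‖ = 1`: there are `s_n → 1`, `g_n ∈ Z` with `‖act g_n (s_n ξ)‖ ≤ ρ`.  Then `pd (s_n ξ) (act g_n⁻¹ 0) = pd (act g_n (s_n ξ)) 0 ≤ ρ` (`pd x 0 = ‖x‖`), so (`pd_close`) `act g_n⁻¹ 0 → ξ`.
`con_bot`: for `Z = ⊥` `‖s ξ‖ = s ≤ ρ` for `s → 1`.
`con_cyc`: by `con_lim` for `F.sub (zpowers κ)`: `ξ` is in the closure of the orbit `act (κ^n) 0`, `n ∈ ℤ`, and as `‖ξ‖ = 1` it is a limit of `act (κ^(n_k)) 0` with `|n_k| → ∞` (each power gives a point of norm `< 1`), so of a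
subsequence with `n_k → +∞` or `n_k → -∞`: `ξ = p` or `ξ = q` (`AR.att`, `AR.inv`).
`no_nonel`: let `Z = f.cen`, `F' = F.sub Z` nonelementary.  `f.H ζ = ζ` for `ζ ∈ F'.lim` (`id_on_lim`), `F'.lim ⊆ F.lim`.  By `trich` `ζ` is of type `SA f.H`, `SA f.Hi` or `F.Con Z ζ`; the first two are isolated fixed points
(`SA.isolated`, `SA.isolated_inv`), impossible as `F'.lim` is perfect (`perfect F'`) and consists of fixed points.  So `F.Con Z ζ`, i.e. `F'.Con ⊤ ζ`, for all `ζ ∈ F'.lim`, and `UC_of_con` gives `F'.UC`.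
Now `ph F'` for `e' = ⟨f.H, f.Hi, MulEquiv.refl Z⟩`: `Norm F' e'` (equi: `f.H (act z x) = act (f.θ z) (f.H x)`, `f.θ z = z`); holes from `hF.holes f` (`Holes F f.H Z m O k` gives `Holes F' f.H ⊤ m O k`);
`hT`: a fixed point `ζ ∉ F'.lim` on the circle is in `F.lim` (`hF.bd`), `trich`, and `F.Con Z ζ` is impossible by `con_lim`.
-/

namespace TN
open Metric Set Filter Topology DS

variable {Γ : Type} [Group Γ]

private theorem NA_pd_zero (x : ℂ) : pd x 0 = ‖x‖ := by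
  simp [pd]

theorem con_lim (F : Fuchs Γ) (Z : Subgroup Γ) {ξ : ℂ} (hξ : ‖ξ‖ = 1) (h : F.Con Z ξ) :
    ξ ∈ (F.sub Z).lim := by
  refine ⟨hξ, ?_⟩
  obtain ⟨ρ, hρ, hcon⟩ := h
  rw [Metric.mem_closure_iff]
  intro ε hε
  have hρ0 : 0 ≤ ρ := by
    obtain ⟨s, -, -, -, g, -, hg⟩ := hcon 0 one_pos
    exact (norm_nonneg _).trans hg
  have hρ2 : 0 < 1 - ρ ^ 2 := by nlinarith
  set η : ℝ := min (ε / 2) ((ε / 2) ^ 2 * (1 - ρ ^ 2) / 2) with hη
  have hη0 : 0 < η := lt_min (by linarith) (by positivity)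
  obtain ⟨s, hs1, hs0, hs2, g, hgZ, hg⟩ := hcon (1 - η) (by linarith)
  have hxn : ‖(s : ℂ) * ξ‖ = s := by
    rw [norm_mul, hξ, mul_one, Complex.norm_real, Real.norm_eq_abs, abs_of_nonneg hs0]
  have h01 : ‖(0 : ℂ)‖ < 1 := by simp
  have hy : ‖F.act g⁻¹ 0‖ < 1 := act_lt F g⁻¹ h01
  have hpd : pd ((s : ℂ) * ξ) (F.act g⁻¹ 0) ≤ ρ := by
    rw [← act_pd F g (by rw [hxn]; exact hs2.le) hy, act_act_inv F g h01.le, NA_pd_zero]
    exact hg
  have hne : 1 - (starRingEnd ℂ) ((s : ℂ) * ξ) * F.act g⁻¹ 0 ≠ 0 :=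
    den_ne (by rw [hxn]; exact hs2) hy.le
  have hcl := pd_close hρ (by rw [hxn]; exact hs2.le) hy.le hpd hne
  rw [hxn] at hcl
  refine ⟨F.act g⁻¹ 0, ⟨⟨g⁻¹, Z.inv_mem hgZ⟩, ?_⟩, ?_⟩
  · exact sub_act F Z _ 0
  · have h1 : dist ξ ((s : ℂ) * ξ) = 1 - s := by
      rw [Complex.dist_eq]
      have : ξ - (s : ℂ) * ξ = ((1 - s : ℝ) : ℂ) * ξ := by push_cast; ring
      rw [this, norm_mul, hξ, mul_one, Complex.norm_real, Real.norm_eq_abs,
        abs_of_nonneg (by linarith)]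
    have h2 : dist ((s : ℂ) * ξ) (F.act g⁻¹ 0) < ε / 2 := by
      rw [Complex.dist_eq]
      set D := ‖(s : ℂ) * ξ - F.act g⁻¹ 0‖ with hD
      set Y := ‖F.act g⁻¹ 0‖ with hY
      have hY0 : 0 ≤ Y := norm_nonneg _
      have hD0 : 0 ≤ D := norm_nonneg _
      have h3 : (1 - s ^ 2) * (1 - Y ^ 2) ≤ 2 * (1 - s) := by
        have h4 : 0 ≤ 1 - s ^ 2 := by nlinarith
        have h5 : 1 - Y ^ 2 ≤ 1 := by nlinarith
        have h6 : (1 - s ^ 2) * (1 - Y ^ 2) ≤ (1 - s ^ 2) * 1 := mul_le_mul_of_nonneg_left h5 h4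
        nlinarith
      have h3' : 0 ≤ (1 - s ^ 2) * (1 - Y ^ 2) := by
        have h4 : 0 ≤ 1 - s ^ 2 := by nlinarith
        have h5 : 0 ≤ 1 - Y ^ 2 := by nlinarith
        positivity
      have h7 : ρ ^ 2 * ((1 - s ^ 2) * (1 - Y ^ 2)) ≤ 1 * ((1 - s ^ 2) * (1 - Y ^ 2)) := by
        apply mul_le_mul_of_nonneg_right _ h3'
        nlinarith
      have h8 : D ^ 2 * (1 - ρ ^ 2) ≤ 2 * (1 - s) := by linarith
      have h9 : 1 - s < (ε / 2) ^ 2 * (1 - ρ ^ 2) / 2 := by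
        have := min_le_right (ε / 2) ((ε / 2) ^ 2 * (1 - ρ ^ 2) / 2)
        linarith
      have h10 : D ^ 2 * (1 - ρ ^ 2) < (ε / 2) ^ 2 * (1 - ρ ^ 2) := by linarith
      have h11 : D ^ 2 < (ε / 2) ^ 2 := lt_of_mul_lt_mul_right h10 hρ2.le
      exact lt_of_pow_lt_pow_left₀ 2 (by linarith) h11
    have h12 : 1 - s < ε / 2 := by
      have := min_le_left (ε / 2) ((ε / 2) ^ 2 * (1 - ρ ^ 2) / 2)
      linarith
    calc dist ξ (F.act g⁻¹ 0) ≤ dist ξ ((s : ℂ) * ξ) + dist ((s : ℂ) * ξ) (F.act g⁻¹ 0) :=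
          dist_triangle _ _ _
      _ < ε := by rw [h1]; linarith

theorem con_bot (F : Fuchs Γ) {ξ : ℂ} (hξ : ‖ξ‖ = 1) : ¬ F.Con ⊥ ξ := by
  rintro ⟨ρ, hρ, hcon⟩
  obtain ⟨s, hs1, hs0, hs2, g, hgZ, hg⟩ := hcon ρ hρ
  have hxn : ‖(s : ℂ) * ξ‖ = s := by
    rw [norm_mul, hξ, mul_one, Complex.norm_real, Real.norm_eq_abs, abs_of_nonneg hs0]
  rw [Subgroup.mem_bot] at hgZ
  subst hgZ
  rw [act_one F (by rw [hxn]; exact hs2.le), hxn] at hg
  linarith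

theorem con_cyc (F : Fuchs Γ) {κ : Γ} {p q : ℂ} (hκ : F.AR κ p q) {ξ : ℂ} (hξ : ‖ξ‖ = 1)
    (h : F.Con (Subgroup.zpowers κ) ξ) : ξ = p ∨ ξ = q := by
  by_contra hcon
  push Not at hcon
  obtain ⟨hp, hq⟩ := hcon
  have hcl := (con_lim F _ hξ h).2
  have h01 : (0 : ℂ) ∈ closedBall (0:ℂ) 1 := by simp
  have h0q : (0 : ℂ) ≠ q := by
    intro h1
    have := hκ.nq
    rw [← h1] at this
    simp at this
  have h0p : (0 : ℂ) ≠ p := by
    intro h1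
    have := hκ.np
    rw [← h1] at this
    simp at this
  obtain ⟨ε, hε, hεp, hεq⟩ : ∃ ε > 0, ε < dist ξ p ∧ ε < dist ξ q := by
    have h1 : 0 < dist ξ p := dist_pos.2 hp
    have h2 : 0 < dist ξ q := dist_pos.2 hq
    refine ⟨min (dist ξ p) (dist ξ q) / 2, by positivity, ?_, ?_⟩
    · have := min_le_left (dist ξ p) (dist ξ q)
      linarith
    · have := min_le_right (dist ξ p) (dist ξ q)
      linarith
  obtain ⟨N₁, hN₁⟩ := (Metric.tendsto_nhds.1 (hκ.att 0 h01 h0q) ε hε).exists_forall_of_atTop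
  obtain ⟨N₂, hN₂⟩ := (Metric.tendsto_nhds.1 ((AR.inv hκ).att 0 h01 h0p) ε hε).exists_forall_of_atTop
  set A : Set ℂ := closedBall p ε ∪ (closedBall q ε ∪
    (fun k : ℤ => F.act (κ ^ k) 0) '' (Set.Icc (-(N₂ : ℤ)) N₁)) with hA
  have hAc : IsClosed A := isClosed_closedBall.union (isClosed_closedBall.union
    ((Set.finite_Icc _ _).image _).isClosed)
  have hsub : (range fun g : Subgroup.zpowers κ => (F.sub (Subgroup.zpowers κ)).act g 0) ⊆ A := by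
    rintro _ ⟨g, rfl⟩
    obtain ⟨k, hk⟩ := Subgroup.mem_zpowers_iff.1 g.2
    simp only
    rw [sub_act F, ← hk]
    by_cases h1 : (N₁ : ℤ) ≤ k
    · left
      obtain ⟨n, rfl⟩ := Int.eq_ofNat_of_zero_le (show 0 ≤ k by omega)
      have h2 : N₁ ≤ n := by exact_mod_cast h1
      rw [mem_closedBall, zpow_natCast]
      exact (hN₁ n h2).le
    · right
      by_cases h2 : k ≤ -(N₂ : ℤ)
      · left
        obtain ⟨n, hn⟩ := Int.eq_ofNat_of_zero_le (show 0 ≤ -k by omega)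
        have h3 : N₂ ≤ n := by
          have : (N₂ : ℤ) ≤ n := by omega
          exact_mod_cast this
        have h4 : k = -(n : ℤ) := by omega
        rw [mem_closedBall, h4, zpow_neg, zpow_natCast, ← inv_pow]
        exact (hN₂ n h3).le
      · right
        exact ⟨k, ⟨by omega, by omega⟩, rfl⟩
  have hξA : ξ ∈ A := closure_minimal hsub hAc hcl
  rcases hξA with h1 | h1 | ⟨k, -, hk⟩
  · rw [mem_closedBall] at h1
    linarith
  · rw [mem_closedBall] at h1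
    linarith
  · have h2 : ‖F.act (κ ^ k) 0‖ < 1 := act_lt F _ (by simp)
    have hk' : F.act (κ ^ k) 0 = ξ := hk
    rw [hk', hξ] at h2
    exact lt_irrefl _ h2

end TN
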