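import Pool.Agent.H60.PH.FN

/-!
PH (section 3.7 of the note: Poincare-Hopf inequality), proved in `Pool/Agent/H60/PH/` (helper60's block; final
assembly `Pool/Agent/H60/PH/FN.lean`).
-/

namespace TN
open Metric Set Filter Topology DS

variable {Γ : Type} [Group Γ]

/-- a map commuting with a nonelementary convex cocompact group, with holes of index one inside and
superattracting or superrepelling fixed points on the gaps, does not exist -/
theorem ph (F : Fuchs Γ) (hN : F.Nonel) (hU : F.UC) {e : Elt Γ} (he : Norm F e)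
    (hc : ∀ g, e.θ g = g) {m : ℕ} {O : Fin m → Set ℂ} {k : Fin m → ℂ} (ho : Holes F e.H ⊤ m O k)
    (hT : ∀ ξ : ℂ, ‖ξ‖ = 1 → ξ ∉ F.lim → e.H ξ = ξ → SA e.H ξ ∨ SA e.Hi ξ) : False :=
  ph' F hN hU he hc ho hT

end TN
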