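import Pool.Agent.H12.TN.NA
import Pool.Agent.H12.TN.PH

/-!
NB: see the header of NA, `no_nonel`.
-/

namespace TN
open Metric Set Filter Topology DS

variable {Γ : Type} [Group Γ]

/-- the centraliser of an element of the family is not nonelementary -/
theorem no_nonel (F : Fuchs Γ) (hU : F.UC) {𝓗 : Set (Elt Γ)} (hF : Fam F 𝓗) {f : Elt Γ}
    (hf : f ∈ 𝓗) : ¬ (F.sub f.cen).Nonel := by
  intro hnonel
  have he : Norm F f := hF.norm f hf
  have hact : ∀ (g : f.cen) (x : ℂ), (F.sub f.cen).act g x = F.act (g : Γ) x := fun g x => rfl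
  have hacts : ∀ (g : f.cen), (F.sub f.cen).act g = F.act (g : Γ) := fun g => rfl
  have hid := id_on_lim F he hnonel
  have hsub : (F.sub f.cen).lim ⊆ F.lim := by
    rintro ξ ⟨h1, h2⟩
    refine ⟨h1, closure_mono ?_ h2⟩
    rintro _ ⟨g, rfl⟩
    exact ⟨(g : Γ), rfl⟩
  have hball : ∀ η ∈ (F.sub f.cen).lim, η ∈ closedBall (0 : ℂ) 1 := by
    intro η hη
    rw [mem_closedBall, dist_zero_right]
    exact hη.1.le
  have hcon : ∀ ζ ∈ (F.sub f.cen).lim, F.Con f.cen ζ := by
    intro ζ hζ
    rcases trich F hU he (hsub hζ) (hid ζ hζ) with h | h | h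
    · exfalso
      obtain ⟨δ, hδ, hiso⟩ := SA.isolated h
      obtain ⟨η, hη, hne, hd⟩ := perfect (F.sub f.cen) hnonel hζ hδ
      exact hne (hiso η (hball η hη) hd (hid η hη))
    · exfalso
      obtain ⟨δ, hδ, hiso⟩ := SA.isolated_inv F he h
      obtain ⟨η, hη, hne, hd⟩ := perfect (F.sub f.cen) hnonel hζ hδ
      exact hne (hiso η (hball η hη) hd (hid η hη))
    · exact h
  have hUC : (F.sub f.cen).UC := by
    apply UC_of_con
    intro ζ hζ
    obtain ⟨ρ, hρ, h1⟩ := hcon ζ hζ
    refine ⟨ρ, hρ, fun r hr => ?_⟩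
    obtain ⟨s, hs1, hs2, hs3, g, hg, hle⟩ := h1 r hr
    exact ⟨s, hs1, hs2, hs3, ⟨g, hg⟩, Subgroup.mem_top _, hle⟩
  obtain ⟨m, O, k, ho⟩ := hF.holes f hf
  have hN' : Norm (F.sub f.cen) (⟨f.H, f.Hi, MulEquiv.refl f.cen⟩ : Elt f.cen) :=
    { cont := he.cont
      conti := he.conti
      mapB := he.mapB
      mapBi := he.mapBi
      mapS := he.mapS
      mapSi := he.mapSi
      left := he.left
      right := he.right
      equi := by
        intro g x hx
        have h1 := he.equi (g : Γ) x hx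
        have h2 : f.θ (g : Γ) = g := g.2
        rw [h2] at h1
        exact h1
      orient := he.orient }
  refine ph (F.sub f.cen) hnonel hUC hN' (fun g => rfl) (m := m) (O := O) (k := k) ?_ ?_
  · refine ⟨ho.opn, ho.mem, ho.sub, ?_, ?_, ho.log⟩
    · intro i j g _ hg
      rw [hacts]
      apply ho.disj i j (g : Γ) g.2
      rcases hg with hg | hg
      · left
        intro h
        exact hg (Subtype.ext h)
      · right
        exact hg
    · intro x hx hfx
      obtain ⟨g, hg, i, hi⟩ := ho.fix x hx hfx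
      exact ⟨⟨g, hg⟩, Subgroup.mem_top _, i, hi⟩
  · intro ξ hξ hnot hfix
    rcases trich F hU he (hF.bd f hf ξ hξ hfix) hfix with h | h | h
    · exact Or.inl h
    · exact Or.inr h
    · exact absurd (con_lim F f.cen hξ h) hnot

end TN
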