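import Pool.Agent.H12.TN.Defs

/-!
RB (rotation theory).  `h` is a continuous strictly increasing function with `h (t+1) = h t + 1`, without periodic point modulo 1.
Make it a `CircleDeg1Lift` `f`, which is a unit (`h` is a bijection with an increasing inverse).  `τ = translationNumber f` is
irrational (`CircleDeg1Lift.translationNumber_eq_rat_iff`: otherwise there are `n > 0`, `m`, `x` with `h^[n] x = x + m`).
`CircleDeg1Lift.semiconj_of_isUnit_of_translationNumber_eq` for `f` and the translation by `τ` gives a monotone `φ` with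
`φ (t+1) = φ t + 1`, `φ (h t) = φ t + τ`.  Its range contains all `φ 0 + n τ + m` (`n : ℕ`, `m : ℤ`), a dense set as `τ` is irrational
(the additive submonoid generated by `τ`, `1`, `-1` is dense: e.g. fractional parts of `n τ`), so `φ` is continuous
(`Monotone.continuous_of_denseRange`).
The numbers `n τ + m` (`n ≥ 1`, `m : ℤ`) are dense, so choose recursively `a i ≥ 1`, `b i` with `0 < ε i < min (1/(i+2)) (ε (i-1))`,
`ε i = a i * τ + b i`.  `φ (h^[a] t + b) = φ t + a τ + b`.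
-/

namespace TN
open Metric Set Filter Topology DS

/-- an irrational rotation system: `φ` semiconjugates the maps `t ↦ h^[a i] t + b i` to the translations by `ε i` -/
structure Rot (h φ : ℝ → ℝ) (a : ℕ → ℕ) (b : ℕ → ℤ) (ε : ℕ → ℝ) : Prop where
  φc : Continuous φ
  φm : Monotone φ
  φ1 : ∀ t, φ (t + 1) = φ t + 1
  apos : ∀ i, 1 ≤ a i
  εpos : ∀ i, 0 < ε i
  εlt : ∀ i, ε i < 1
  εanti : StrictAnti ε
  εlim : Tendsto ε atTop (𝓝 0)
  φh : ∀ i t, φ (h^[a i] t + b i) = φ t + ε i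

theorem rb_small {τ : ℝ} (hτ : ∀ n : ℕ, 1 ≤ n → ∀ m : ℤ, (n : ℝ) * τ ≠ m) (δ : ℝ) (hδ : 0 < δ) :
    ∃ p : ℕ × ℤ, 1 ≤ p.1 ∧ 0 < (p.1 : ℝ) * τ + p.2 ∧ (p.1 : ℝ) * τ + p.2 < δ := by
  obtain ⟨n, hn⟩ := exists_nat_one_div_lt hδ
  obtain ⟨j, k, hk0, hkn, hle⟩ := Real.exists_int_int_abs_mul_sub_le τ (Nat.succ_pos n)
  obtain ⟨k', rfl⟩ : ∃ k' : ℕ, k = k' := ⟨k.toNat, by omega⟩
  have hk1 : 1 ≤ k' := by omega
  have hlt : |((k' : ℕ) : ℝ) * τ - j| < δ := by
    refine lt_of_le_of_lt ?_ hn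
    have h2 : |(((k' : ℕ) : ℤ) : ℝ) * τ - j| ≤ 1 / (((n + 1 : ℕ) : ℝ) + 1) := hle
    rw [Int.cast_natCast] at h2
    refine h2.trans ?_
    push_cast
    apply one_div_le_one_div_of_le <;> nlinarith [Nat.cast_nonneg (α := ℝ) n]
  have hne : ((k' : ℕ) : ℝ) * τ - j ≠ 0 := fun h => hτ k' hk1 j (by linarith)
  rcases lt_or_gt_of_ne hne with hneg | hpos
  · set x : ℝ := j - (k' : ℝ) * τ with hx
    have hx0 : 0 < x := by rw [hx]; linarith
    have hxδ : x < δ := by
      have h2 := abs_lt.1 hlt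
      rw [hx]; linarith [h2.1]
    by_cases hx1 : x < 1
    · set N : ℕ := ⌊1 / x⌋₊ with hN
      have h1 : (N : ℝ) ≤ 1 / x := Nat.floor_le (by positivity)
      have h2 : 1 / x < N + 1 := Nat.lt_floor_add_one _
      have hN1 : 1 ≤ N := by
        rw [hN]
        apply Nat.le_floor
        rw [Nat.cast_one, le_div_iff₀ hx0]
        linarith
      have h3 : (N : ℝ) * x ≤ 1 := by rwa [le_div_iff₀ hx0] at h1
      have h4 : 1 < ((N : ℝ) + 1) * x := by rwa [div_lt_iff₀ hx0] at h2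
      have h5 : (N : ℝ) * x ≠ 1 := by
        intro h
        apply hτ (N * k') (Nat.mul_pos hN1 hk1) (N * j - 1)
        push_cast
        rw [hx] at h
        linarith
      refine ⟨(N * k', 1 - N * j), Nat.mul_pos hN1 hk1, ?_, ?_⟩
      · have : (((N * k' : ℕ)) : ℝ) * τ + ((1 - N * j : ℤ) : ℝ) = 1 - N * x := by
          push_cast
          rw [hx]
          ring
        show 0 < (((N * k' : ℕ)) : ℝ) * τ + ((1 - N * j : ℤ) : ℝ)
        rw [this]
        have := lt_of_le_of_ne h3 h5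
        linarith
      · have : (((N * k' : ℕ)) : ℝ) * τ + ((1 - N * j : ℤ) : ℝ) = 1 - N * x := by
          push_cast
          rw [hx]
          ring
        show (((N * k' : ℕ)) : ℝ) * τ + ((1 - N * j : ℤ) : ℝ) < δ
        rw [this]
        linarith
    · push Not at hx1
      -- `δ > 1`: shift by an integer
      refine ⟨(k', - ⌊(k' : ℝ) * τ⌋), hk1, ?_, ?_⟩
      · show 0 < (k' : ℝ) * τ + ((-⌊(k' : ℝ) * τ⌋ : ℤ) : ℝ)
        push_cast
        have h1 := Int.floor_le ((k' : ℝ) * τ)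
        have h2 : (k' : ℝ) * τ ≠ ⌊(k' : ℝ) * τ⌋ := hτ k' hk1 _
        have h3 := lt_of_le_of_ne h1 (Ne.symm h2)
        linarith
      · show (k' : ℝ) * τ + ((-⌊(k' : ℝ) * τ⌋ : ℤ) : ℝ) < δ
        push_cast
        have h1 := Int.lt_floor_add_one ((k' : ℝ) * τ)
        linarith
  · refine ⟨(k', -j), hk1, ?_, ?_⟩
    · show 0 < (k' : ℝ) * τ + ((-j : ℤ) : ℝ)
      push_cast
      linarith
    · show (k' : ℝ) * τ + ((-j : ℤ) : ℝ) < δ
      push_cast
      have h2 := abs_lt.1 hlt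
      linarith [h2.2]

theorem rb_dense {τ : ℝ} (hτ : ∀ n : ℕ, 1 ≤ n → ∀ m : ℤ, (n : ℝ) * τ ≠ m) (c d : ℝ) (hcd : c < d) :
    ∃ (n : ℕ) (m : ℤ), c < (n : ℝ) * τ + m ∧ (n : ℝ) * τ + m < d := by
  obtain ⟨⟨a, b⟩, ha, h0, h1⟩ := rb_small hτ (d - c) (by linarith)
  simp only at ha h0 h1
  set s : ℝ := (a : ℝ) * τ + b with hs
  have hm : ((⌊c⌋ : ℤ) : ℝ) ≤ c := Int.floor_le c
  set k : ℕ := ⌊(c - ⌊c⌋) / s⌋₊ with hk
  have hnn : 0 ≤ (c - ⌊c⌋) / s := div_nonneg (by linarith) h0.le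
  have h2 : (k : ℝ) ≤ (c - ⌊c⌋) / s := Nat.floor_le hnn
  have h3 : (c - ⌊c⌋) / s < k + 1 := Nat.lt_floor_add_one _
  rw [le_div_iff₀ h0] at h2
  rw [div_lt_iff₀ h0] at h3
  have he : (((k + 1) * a : ℕ) : ℝ) * τ + (((k + 1) * b + ⌊c⌋ : ℤ) : ℝ) = (k + 1) * s + ⌊c⌋ := by
    push_cast
    rw [hs]
    ring
  refine ⟨(k + 1) * a, (k + 1) * b + ⌊c⌋, ?_, ?_⟩
  · rw [he]; linarith
  · rw [he]; linarith

theorem exists_rot {h : ℝ → ℝ} (hc : Continuous h) (hm : StrictMono h) (h1 : ∀ t, h (t + 1) = h t + 1)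
    (hp : ∀ n : ℕ, 1 ≤ n → ∀ m : ℤ, ∀ t, h^[n] t ≠ t + m) :
    ∃ φ a b ε, Rot h φ a b ε := by
  let f : CircleDeg1Lift := ⟨⟨h, hm.monotone⟩, h1⟩
  have hfh : (f : ℝ → ℝ) = h := rfl
  have hfc : Continuous f := hc
  have hsurj : Function.Surjective f := f.continuous_iff_surjective.1 hfc
  have hu : IsUnit f := CircleDeg1Lift.isUnit_iff_bijective.2 ⟨hm.injective, hsurj⟩
  set τ : ℝ := f.translationNumber with hτdef
  have hτ : ∀ n : ℕ, 1 ≤ n → ∀ m : ℤ, (n : ℝ) * τ ≠ m := by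
    intro n hn m he
    have hn0 : (n : ℝ) ≠ 0 := by positivity
    have h2 : f.translationNumber = m / n := by
      rw [eq_div_iff hn0, mul_comm]
      exact he
    obtain ⟨x, hx⟩ := (f.translationNumber_eq_rat_iff hfc (Nat.lt_of_lt_of_le Nat.zero_lt_one hn)).1 h2
    rw [CircleDeg1Lift.coe_pow, hfh] at hx
    exact hp n hn m x hx
  have htr : (((CircleDeg1Lift.translate (Multiplicative.ofAdd τ)) : CircleDeg1Liftˣ) :
      CircleDeg1Lift).translationNumber = τ := CircleDeg1Lift.translationNumber_translate τ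
  obtain ⟨F, hF⟩ := CircleDeg1Lift.semiconj_of_isUnit_of_translationNumber_eq hu
    (Units.isUnit (CircleDeg1Lift.translate (Multiplicative.ofAdd τ))) htr.symm
  have hF1 : ∀ t, F (h t) = F t + τ := by
    intro t
    have h2 := hF t
    rw [CircleDeg1Lift.translate_apply] at h2
    rw [add_comm]
    exact h2
  have hFn : ∀ (n : ℕ) t, F (h^[n] t) = F t + n * τ := by
    intro n
    induction n with
    | zero => intro t; simp
    | succ n ih =>
      intro t
      rw [Function.iterate_succ_apply, ih, hF1]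
      push_cast
      ring
  have hFc : Continuous F := by
    apply F.monotone.continuous_of_denseRange
    apply dense_of_exists_between
    intro c d hcd
    obtain ⟨n, m, hc1, hd1⟩ := rb_dense hτ (c - F 0) (d - F 0) (by linarith)
    refine ⟨F (h^[n] 0 + m), ⟨_, rfl⟩, ?_, ?_⟩
    · rw [CircleDeg1Lift.map_add_int, hFn]; linarith
    · rw [CircleDeg1Lift.map_add_int, hFn]; linarith
  let T := {p : ℕ × ℤ // 1 ≤ p.1 ∧ 0 < (p.1 : ℝ) * τ + p.2 ∧ (p.1 : ℝ) * τ + p.2 < 1}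
  let v : T → ℝ := fun p => (p.1.1 : ℝ) * τ + p.1.2
  have hv0 : ∀ p, 0 < v p := fun p => p.2.2.1
  have hv1 : ∀ p, v p < 1 := fun p => p.2.2.2
  have step : ∀ (i : ℕ) (p : T), ∃ q : T, v q < 1 / ((i : ℝ) + 2) ∧ v q < v p := by
    intro i p
    obtain ⟨q, hq1, hq2, hq3⟩ := rb_small hτ (min (1 / ((i : ℝ) + 2)) (v p))
      (lt_min (by positivity) (hv0 p))
    have h2 := lt_of_lt_of_le hq3 (min_le_left _ _)
    have h3 := lt_of_lt_of_le hq3 (min_le_right _ _)
    exact ⟨⟨q, hq1, hq2, h3.trans (hv1 p)⟩, h2, h3⟩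
  choose nx hnx1 hnx2 using step
  obtain ⟨p0, hp01, hp02, hp03⟩ := rb_small hτ 1 one_pos
  let x : ℕ → T := fun n => Nat.rec ⟨p0, hp01, hp02, hp03⟩ (fun i p => nx i p) n
  have hxs : ∀ i, x (i + 1) = nx i (x i) := fun i => rfl
  refine ⟨F, fun i => (x i).1.1, fun i => (x i).1.2, fun i => v (x i), ?_⟩
  refine ⟨hFc, F.monotone, F.map_add_one, fun i => (x i).2.1, fun i => hv0 _, fun i => hv1 _, ?_, ?_, ?_⟩
  · apply strictAnti_nat_of_succ_lt
    intro i
    rw [hxs]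
    exact hnx2 i _
  · refine squeeze_zero (fun i => (hv0 _).le) (g := fun i : ℕ => 1 / ((i : ℝ) + 1)) ?_
      tendsto_one_div_add_atTop_nhds_zero_nat
    intro i
    cases i with
    | zero =>
      have := hv1 (x 0)
      simpa using this.le
    | succ i =>
      rw [hxs]
      have := hnx1 i (x i)
      push_cast
      have he : (i : ℝ) + 1 + 1 = i + 2 := by ring
      rw [he]
      exact this.le
  · intro i t
    show F (h^[(x i).1.1] t + ((x i).1.2 : ℝ)) = F t + v (x i)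
    rw [CircleDeg1Lift.map_add_int, hFn]
    simp only [v]
    ring

end TN
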