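import Pool.Agent.H12.TN.RB

/-!
RC (fibres of the semiconjugacy).  `φ` is continuous, monotone, `φ (t+1) = φ t + 1` (so `φ (t + n) = φ t + n` for integers and
`φ → ± ∞`, `φ` is onto).  `top φ t` = the largest `s` with `φ s = φ t` (the fibre is a closed bounded set: it is contained in
`[t - 1, t + 1]`), `bot φ t` the smallest.  `Cset φ` = the points where `φ` is not locally constant.
`mem_top`: to the right of `top φ t` the values are larger.  `C_fibre`: a point of `Cset` in the fibre `[bot, top]` is an end point, since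
`φ` is constant on the fibre.  `C_perfect`: if `t ∈ Cset`, then `t = top φ t` or `t = bot φ t`; in the first case, for `s > t`, there is a value
`v` with `φ t < v < φ s`, `v = φ u` and `top φ u ∈ Cset`, `t < top φ u < s`; different `v` give different points, so there are infinitely many points of `Cset` within `δ` of `t`
and one of them is not in `S`.  In the second case the same on the left.
`h_lim`: `h^[a i] t + b i` has `φ`-value `φ t + ε i > φ t` so it is `> top φ t`; for `s > top φ t` it is `< s` as soon as `ε i < φ s - φ t`.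
`exists_seq`: values `v n = φ 0 + (1 - 1/(n+1))/2`, points `x n = top φ u` with `φ u = v n`.
-/

namespace TN
open Metric Set Filter Topology DS

/-- the right end of the fibre of `t` -/
noncomputable def top (φ : ℝ → ℝ) (t : ℝ) : ℝ := sSup {s | φ s = φ t}

/-- the left end of the fibre of `t` -/
noncomputable def bot (φ : ℝ → ℝ) (t : ℝ) : ℝ := sInf {s | φ s = φ t}

/-- the points where `φ` is not locally constant -/
def Cset (φ : ℝ → ℝ) : Set ℝ := {t | ∀ δ > 0, ∃ s, |s - t| < δ ∧ φ s ≠ φ t}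

variable {φ : ℝ → ℝ}

theorem phi_int (h1 : ∀ t, φ (t + 1) = φ t + 1) (t : ℝ) (n : ℤ) : φ (t + n) = φ t + n := by
  induction n with
  | zero => simp
  | succ n ih =>
    have e1 : t + ((n + 1 : ℤ) : ℝ) = (t + ((n : ℤ) : ℝ)) + 1 := by push_cast; ring
    rw [e1, h1, ih]
    push_cast
    ring
  | pred n ih =>
    have e1 : t + ((-(n : ℤ) : ℤ) : ℝ) = (t + ((-(n : ℤ) - 1 : ℤ) : ℝ)) + 1 := by push_cast; ring
    rw [e1, h1] at ih
    have e2 : φ (t + ((-(n : ℤ) - 1 : ℤ) : ℝ)) = φ t + ((-(n : ℤ) : ℤ) : ℝ) - 1 := by linarith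
    rw [e2]
    push_cast
    ring

theorem RC_bdd (hm : Monotone φ) (h1 : ∀ t, φ (t + 1) = φ t + 1) (t : ℝ) :
    BddAbove {s | φ s = φ t} := by
  refine ⟨t + 1, ?_⟩
  rintro s (hs : φ s = φ t)
  by_contra h
  push Not at h
  have := hm h.le
  rw [h1, hs] at this
  linarith

theorem RC_bddb (hm : Monotone φ) (h1 : ∀ t, φ (t + 1) = φ t + 1) (t : ℝ) :
    BddBelow {s | φ s = φ t} := by
  refine ⟨t - 1, ?_⟩
  rintro s (hs : φ s = φ t)
  by_contra h
  push Not at h
  have h2 := hm h.le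
  have h3 := h1 (t - 1)
  rw [sub_add_cancel] at h3
  rw [hs] at h2
  linarith

theorem phi_top (hc : Continuous φ) (hm : Monotone φ) (h1 : ∀ t, φ (t + 1) = φ t + 1) (t : ℝ) :
    φ (top φ t) = φ t ∧ t ≤ top φ t ∧ ∀ s, top φ t < s → φ t < φ s := by
  have hne : {s | φ s = φ t}.Nonempty := ⟨t, rfl⟩
  have hcl : IsClosed {s | φ s = φ t} := isClosed_eq hc continuous_const
  have hb := RC_bdd hm h1 t
  have hmem : top φ t ∈ {s | φ s = φ t} := hcl.csSup_mem hne hb
  have hle : t ≤ top φ t := le_csSup hb rfl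
  refine ⟨hmem, hle, fun s hs => ?_⟩
  refine lt_of_le_of_ne (hm (hle.trans hs.le)) fun h => ?_
  exact absurd (le_csSup hb (show s ∈ {s | φ s = φ t} from h.symm)) (not_le.2 hs)

theorem phi_bot (hc : Continuous φ) (hm : Monotone φ) (h1 : ∀ t, φ (t + 1) = φ t + 1) (t : ℝ) :
    φ (bot φ t) = φ t ∧ bot φ t ≤ t ∧ ∀ s, s < bot φ t → φ s < φ t := by
  have hne : {s | φ s = φ t}.Nonempty := ⟨t, rfl⟩
  have hcl : IsClosed {s | φ s = φ t} := isClosed_eq hc continuous_const
  have hb := RC_bddb hm h1 t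
  have hmem : bot φ t ∈ {s | φ s = φ t} := hcl.csInf_mem hne hb
  have hle : bot φ t ≤ t := csInf_le hb rfl
  refine ⟨hmem, hle, fun s hs => ?_⟩
  refine lt_of_le_of_ne (hm (hs.le.trans hle)) fun h => ?_
  exact absurd (csInf_le hb (show s ∈ {s | φ s = φ t} from h)) (not_le.2 hs)

theorem top_congr {s t : ℝ} (h : φ s = φ t) : top φ s = top φ t ∧ bot φ s = bot φ t := by
  unfold top bot
  rw [h]
  exact ⟨rfl, rfl⟩

/-- (monotonicity is needed: otherwise the fibres can be unbounded) -/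
theorem top_int (hm : Monotone φ) (h1 : ∀ t, φ (t + 1) = φ t + 1) (t : ℝ) (n : ℤ) :
    top φ (t + n) = top φ t + n := by
  unfold top
  apply le_antisymm
  · refine csSup_le ⟨t + n, rfl⟩ ?_
    rintro s (hs : φ s = φ (t + n))
    have h2 : s - n ∈ {s | φ s = φ t} := by
      show φ (s - n) = φ t
      have h3 := phi_int h1 (s - n) n
      rw [sub_add_cancel, hs, phi_int h1] at h3
      linarith
    have := le_csSup (RC_bdd hm h1 t) h2
    linarith
  · rw [← le_sub_iff_add_le]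
    refine csSup_le ⟨t, rfl⟩ ?_
    rintro s (hs : φ s = φ t)
    rw [le_sub_iff_add_le]
    refine le_csSup (RC_bdd hm h1 (t + n)) ?_
    show φ (s + n) = φ (t + n)
    rw [phi_int h1, phi_int h1, hs]

theorem top_C (hc : Continuous φ) (hm : Monotone φ) (h1 : ∀ t, φ (t + 1) = φ t + 1) (t : ℝ) :
    top φ t ∈ Cset φ := by
  intro δ hδ
  obtain ⟨e1, _, e3⟩ := phi_top hc hm h1 t
  refine ⟨top φ t + δ / 2, ?_, ?_⟩
  · rw [add_sub_cancel_left, abs_of_pos (by linarith)]
    linarith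
  · rw [e1]
    exact (e3 _ (by linarith)).ne'

theorem C_int (h1 : ∀ t, φ (t + 1) = φ t + 1) {t : ℝ} (n : ℤ) (h : t ∈ Cset φ) :
    t + n ∈ Cset φ := by
  intro δ hδ
  obtain ⟨s, hs1, hs2⟩ := h δ hδ
  refine ⟨s + n, by rwa [add_sub_add_right_eq_sub], ?_⟩
  rw [phi_int h1, phi_int h1]
  intro h
  exact hs2 (by linarith)

/-- a point of `Cset` in a fibre is an end point -/
theorem C_fibre (hm : Monotone φ) {l r t : ℝ} (h : φ l = φ r) (hl : l < t) (hr : t < r) :
    t ∉ Cset φ := by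
  intro ht
  obtain ⟨s, hs1, hs2⟩ := ht (min (t - l) (r - t)) (lt_min (by linarith) (by linarith))
  rw [lt_min_iff] at hs1
  have h2 := abs_lt.1 hs1.1
  have h3 := abs_lt.1 hs1.2
  have e1 : φ l ≤ φ s := hm (by linarith)
  have e2 : φ s ≤ φ r := hm (by linarith)
  have e3 : φ l ≤ φ t := hm hl.le
  have e4 : φ t ≤ φ r := hm hr.le
  exact hs2 (by linarith)

theorem RC_val (hc : Continuous φ) (hm : Monotone φ) (h1 : ∀ t, φ (t + 1) = φ t + 1) {α β v : ℝ}
    (hab : α ≤ β) (hα : φ α ≤ v) (hβ : v ≤ φ β) : ∃ x ∈ Cset φ, φ x = v := by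
  obtain ⟨u, _, hu⟩ := intermediate_value_Icc hab hc.continuousOn ⟨hα, hβ⟩
  exact ⟨top φ u, top_C hc hm h1 u, by rw [(phi_top hc hm h1 u).1, hu]⟩

theorem RC_inf (hc : Continuous φ) (hm : Monotone φ) (h1 : ∀ t, φ (t + 1) = φ t + 1) {α β : ℝ}
    (hab : φ α < φ β) {S : Set ℝ} (hS : ∀ a b : ℝ, (S ∩ Icc a b).Finite) :
    ∃ s ∈ Cset φ, s ∉ S ∧ α < s ∧ s < β := by
  by_contra hcon
  push Not at hcon
  have hlt : α < β := by
    by_contra h
    push Not at h
    exact absurd (hm h) (not_le.2 hab)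
  have hsub : Ioo (φ α) (φ β) ⊆ φ '' (S ∩ Icc α β) := by
    rintro v ⟨hv1, hv2⟩
    obtain ⟨x, hx, hxv⟩ := RC_val hc hm h1 hlt.le hv1.le hv2.le
    have h2 : α < x := by
      by_contra h
      push Not at h
      have := hm h
      rw [hxv] at this
      linarith
    have h3 : x < β := by
      by_contra h
      push Not at h
      have := hm h
      rw [hxv] at this
      linarith
    refine ⟨x, ⟨?_, h2.le, h3.le⟩, hxv⟩
    by_contra hxS
    exact absurd h3 (not_lt.2 (hcon x hx hxS h2))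
  exact (Ioo_infinite hab) (((hS α β).image φ).subset hsub)

theorem C_perfect (hc : Continuous φ) (hm : Monotone φ) (h1 : ∀ t, φ (t + 1) = φ t + 1) {t : ℝ}
    (ht : t ∈ Cset φ) {S : Set ℝ} (hS : ∀ a b : ℝ, (S ∩ Icc a b).Finite) {δ : ℝ} (hδ : 0 < δ) :
    ∃ s ∈ Cset φ, s ∉ S ∧ |s - t| < δ := by
  obtain ⟨a1, a2, a3⟩ := phi_top hc hm h1 t
  obtain ⟨b1, b2, b3⟩ := phi_bot hc hm h1 t
  by_cases h : t < top φ t
  · have hb : ¬ bot φ t < t := fun h' => C_fibre hm (b1.trans a1.symm) h' h ht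
    have hb' : bot φ t = t := le_antisymm b2 (not_lt.1 hb)
    have h2 : φ (t - δ) < φ t := b3 _ (by rw [hb']; linarith)
    obtain ⟨s, hs, hsS, h3, h4⟩ := RC_inf hc hm h1 h2 hS
    refine ⟨s, hs, hsS, ?_⟩
    rw [abs_lt]
    constructor <;> linarith
  · have ht' : top φ t = t := le_antisymm (not_lt.1 h) a2
    have h2 : φ t < φ (t + δ) := a3 _ (by rw [ht']; linarith)
    obtain ⟨s, hs, hsS, h3, h4⟩ := RC_inf hc hm h1 h2 hS
    refine ⟨s, hs, hsS, ?_⟩
    rw [abs_lt]
    constructor <;> linarith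

/-- a strictly increasing sequence in `Cset` in less than one period -/
theorem exists_seq (hc : Continuous φ) (hm : Monotone φ) (h1 : ∀ t, φ (t + 1) = φ t + 1) :
    ∃ x : ℕ → ℝ, StrictMono x ∧ (∀ n, x n ∈ Cset φ) ∧ ∀ n, x n < x 0 + 1 := by
  have hv : ∀ n : ℕ, ∃ x ∈ Cset φ, φ x = φ 0 + (1 - 1 / ((n : ℝ) + 1)) / 2 := by
    intro n
    have hn : (0 : ℝ) < (n : ℝ) + 1 := by positivity
    have h2 : 1 / ((n : ℝ) + 1) ≤ 1 := by
      rw [div_le_one hn]
      have : (0 : ℝ) ≤ n := Nat.cast_nonneg n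
      linarith
    have h3 : 0 < 1 / ((n : ℝ) + 1) := by positivity
    refine RC_val hc hm h1 (zero_le_one (α := ℝ)) (by linarith) ?_
    have h4 := h1 0
    rw [zero_add] at h4
    rw [h4]
    linarith
  choose x hxC hx using hv
  have hlt : ∀ {m n : ℕ}, m < n → (1 : ℝ) / ((n : ℝ) + 1) < 1 / ((m : ℝ) + 1) := by
    intro m n hmn
    have h2 : (m : ℝ) < n := by exact_mod_cast hmn
    have h3 : (0 : ℝ) < (m : ℝ) + 1 := by positivity
    exact one_div_lt_one_div_of_lt h3 (by linarith)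
  refine ⟨x, ?_, hxC, ?_⟩
  · intro m n hmn
    by_contra h
    push Not at h
    have h2 := hm h
    rw [hx, hx] at h2
    have := hlt hmn
    linarith
  · intro n
    by_contra h
    push Not at h
    have h2 := hm h
    rw [h1, hx, hx] at h2
    have h3 : (0 : ℝ) < 1 / ((n : ℝ) + 1) := by positivity
    simp only [Nat.cast_zero, zero_add, div_one, sub_self, zero_div, add_zero] at h2
    linarith

theorem h_lim {h : ℝ → ℝ} {a : ℕ → ℕ} {b : ℕ → ℤ} {ε : ℕ → ℝ} (R : Rot h φ a b ε) (t : ℝ) :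
    Tendsto (fun i => h^[a i] t + b i) atTop (𝓝 (top φ t)) := by
  obtain ⟨a1, a2, a3⟩ := phi_top R.φc R.φm R.φ1 t
  rw [tendsto_order]
  refine ⟨fun s hs => ?_, fun s hs => ?_⟩
  · refine Eventually.of_forall fun i => hs.trans_le ?_
    by_contra h
    push Not at h
    have h2 := R.φm h.le
    rw [R.φh, a1] at h2
    have := R.εpos i
    linarith
  · have h2 := a3 s hs
    have h3 : ∀ᶠ i in atTop, ε i < φ s - φ t :=
      R.εlim.eventually_lt_const (by linarith)
    filter_upwards [h3] with i hi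
    by_contra h
    push Not at h
    have h4 := R.φm h
    rw [R.φh] at h4
    linarith

end TN
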