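import Pool.Agent.H12.TN.RF

/-!
RD (points where `φ` is not locally constant are limit points).  Let `t ∈ Cset φ`, `π t ∉ F.lim`.  As `F.lim` is closed and `π` continuous, there is `δ > 0` with
`π s ∉ F.lim` for `|s - t| ≤ δ`; `t ∈ Cset` gives `s` with `|s - t| < δ`, `φ s ≠ φ t`.  Let `x < y` be the two points `s`, `t`: `φ x < φ y`, and
`[x, y]` contains no point of `π ⁻¹' F.lim`.  Choose `i` with `ε i < φ y - φ x` and let `k u = h^[a i] u + b i`, an increasing homeomorphism of `ℝ` with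
`φ (k u) = φ u + ε i`, preserving `π ⁻¹' F.lim` (`Frame.lim_iff`).  `x < k x < y`.
Every real `u` lies in some interval `[k^j x, k^(j+1) x]`, `j ∈ ℤ`.  To avoid negative powers: let `u₀` be a point with `π u₀ ∈ F.lim` (`meet`).  Subtracting an integer
(`π (u₀ - n) = act (κ^(-n)) (π u₀) ∈ F.lim`) we may assume `u₀ > x`... (choose `n` with `x < u₀ - n`... any integer translate larger than `x`).
The sequence `k^[j] x` is increasing and tends to infinity (`φ (k^[j] x) = φ x + j ε i`), so there is `j` with `k^[j] x ≤ u₀ < k^[j+1] x`, and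
`u₀ = k^[j] u₁` with `x ≤ u₁ < k x < y` (`k^[j]` is an increasing bijection).  Then `π u₁ ∈ F.lim`: contradiction.
-/

namespace TN
open Metric Set Filter Topology DS

variable {Γ : Type} [Group Γ] {F : Fuchs Γ} {e : Elt Γ} {κ : Γ} {π : ℝ → ℂ} {h : ℝ → ℝ}
  {φ : ℝ → ℝ} {a : ℕ → ℕ} {b : ℕ → ℤ} {ε : ℕ → ℝ}

theorem RD_closed (F : Fuchs Γ) : IsClosed F.lim := by
  have h : F.lim = {ξ : ℂ | ‖ξ‖ = 1} ∩ closure (range fun g => F.act g 0) := rfl
  rw [h]
  exact (isClosed_eq continuous_norm continuous_const).inter isClosed_closure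

theorem RD_shift (fr : Frame F e κ π h) (he : Norm F e) (u : ℝ) (m : ℤ) :
    π (u + m) ∈ F.lim ↔ π u ∈ F.lim := by
  obtain ⟨t, rfl⟩ := fr.hs u
  have h1 := fr.lim_iff he (le_refl 1) m t
  have h2 := fr.lim_iff he (le_refl 1) 0 t
  simp only [Function.iterate_one, Int.cast_zero, add_zero] at h1 h2
  rw [h1, h2]

theorem C_lim (fr : Frame F e κ π h) (he : Norm F e) (R : Rot h φ a b ε) {t : ℝ}
    (ht : t ∈ Cset φ) : π t ∈ F.lim := by
  by_contra hcon
  have hopen : IsOpen (π ⁻¹' (F.lim)ᶜ) := (RD_closed F).isOpen_compl.preimage fr.πc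
  obtain ⟨δ, hδ, hball⟩ := Metric.isOpen_iff.1 hopen t hcon
  obtain ⟨s, hs1, hs2⟩ := ht δ hδ
  -- the interval `[x, y]`
  obtain ⟨x, y, hxy, hφ, hI⟩ : ∃ x y : ℝ, x < y ∧ φ x < φ y ∧ ∀ u, x ≤ u → u ≤ y → π u ∉ F.lim := by
    have hb : ∀ u, |u - t| < δ → π u ∉ F.lim := fun u hu => hball (by
      rw [Metric.mem_ball, Real.dist_eq]; exact hu)
    have h2 := abs_lt.1 hs1
    rcases lt_trichotomy s t with h | h | h
    · refine ⟨s, t, h, lt_of_le_of_ne (R.φm h.le) hs2, fun u h3 h4 => hb u ?_⟩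
      rw [abs_lt]; constructor <;> linarith
    · exact absurd (by rw [h]) hs2
    · refine ⟨t, s, h, lt_of_le_of_ne (R.φm h.le) hs2.symm, fun u h3 h4 => hb u ?_⟩
      rw [abs_lt]; constructor <;> linarith
  obtain ⟨i, hi⟩ : ∃ i, ε i < φ y - φ x :=
    (R.εlim.eventually_lt_const (show (0 : ℝ) < φ y - φ x by linarith)).exists
  set k : ℝ → ℝ := fun u => h^[a i] u + b i with hk
  have hkφ : ∀ u, φ (k u) = φ u + ε i := fun u => R.φh i u
  have hkm : StrictMono k := fun u v huv => by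
    have := (fr.hm.iterate (a i)) huv
    simp only [hk]; linarith
  have hks : Function.Surjective k := fun v => by
    obtain ⟨u, hu⟩ := (fr.hs.iterate (a i)) (v - b i)
    exact ⟨u, by simp only [hk]; rw [hu]; ring⟩
  have hkl : ∀ u, π (k u) ∈ F.lim ↔ π u ∈ F.lim := fun u => fr.lim_iff he (R.apos i) (b i) u
  have hkx : k x < y := by
    by_contra hle
    push Not at hle
    have := R.φm hle
    rw [hkφ] at this
    linarith
  -- no limit points in `[x, k^j x)`
  have hj : ∀ j : ℕ, ∀ u, x ≤ u → u < k^[j] x → π u ∉ F.lim := by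
    intro j
    induction j with
    | zero => intro u h1 h2; simp only [Function.iterate_zero, id] at h2; linarith
    | succ j ih =>
      intro u h1 h2
      rw [Function.iterate_succ_apply'] at h2
      by_cases huy : u ≤ y
      · exact hI u h1 huy
      · obtain ⟨u', rfl⟩ := hks u
        rw [hkl]
        have h3 : x < u' := hkm.lt_iff_lt.1 (by linarith)
        exact ih u' h3.le (hkm.lt_iff_lt.1 h2)
  obtain ⟨u0, hu0⟩ := fr.meet
  obtain ⟨n, hn⟩ := exists_nat_gt (x - u0)
  have hu : π (u0 + ((n : ℤ) : ℝ)) ∈ F.lim := (RD_shift fr he u0 n).2 hu0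
  have hφj : ∀ j : ℕ, φ (k^[j] x) = φ x + j * ε i := by
    intro j
    induction j with
    | zero => simp
    | succ j ih =>
      rw [Function.iterate_succ_apply', hkφ, ih]; push_cast; ring
  obtain ⟨j, hj2⟩ := exists_nat_gt ((φ (u0 + ((n : ℤ) : ℝ)) - φ x) / ε i)
  rw [div_lt_iff₀ (R.εpos i)] at hj2
  refine hj j _ ?_ ?_ hu
  · push_cast; linarith
  · by_contra hle
    push Not at hle
    have := R.φm hle
    rw [hφj] at this
    linarith

end TN
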