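import Pool.Agent.H12.TN.RD

/-!
RE (an element outside the stabiliser maps `π (Cset)` into one fibre).  Let `e_i = e.tw F κ (a i) (b i)`, `g_i = e_i.θ c`, so `e_i.H (act c x) = act g_i (e_i.H x)`, and
`k_i t = h^[a i] t + b i`, `e_i.H (π t) = π (k_i t)`.
(1) `i ↦ g_i` is injective: let `AR c p' q'`; by `AR.norm`, `AR g_i (e_i.H p') (e_i.H q')`.  If `g_i = g_j` then (`AR.unique`) `e_i.H` and `e_j.H` agree at `p'` and `q'`, one of
which is `π s` (`fixR`): `π (k_i s) = π (k_j s)`, so `k_j s = k_i s + n`, `φ s + ε j = φ s + ε i + n`, and `|ε i - ε j| < 1` gives `n = 0`, `ε i = ε j`, `i = j`.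
(2) `conv`: a subsequence `g_(ψ k)` converges to `p` locally uniformly off `q`.
(3) Claim: if `π (top φ t) ≠ q` and `act c (π t) = π s` then `π (top φ s) = p`.  Indeed `e_i.H (act c (π t)) = act g_i (e_i.H (π t)) = act g_i (π (k_i t))`, and
`k_i t → top φ t` (`h_lim`), so by `conv_seq` the right side tends to `p`; the left side is `π (k_i s) → π (top φ s)`.
(4) Let `S` be the set of `t ∈ Cset` with `π (top φ t) = q` or `act c (π t) ∉ range π`.  `S ∩ [α, β]` is finite: `π` is finite-to-one on bounded intervals (`inj`); if `act c (π t) ∉ range π`,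
`t ∈ Cset`, then `act c (π t)` is in the finite set `fin` (`C_lim`, `lim_inv`), and `act c` is injective; if `π (top φ t) = q` then `top φ t` is in a locally finite set (bounded interval
`[α, β + 1]`: `top φ t ≤ t + 1`), and for `t ∈ Cset`, `t` is `top φ t` or `bot φ t` (`C_fibre`; if both ends coincide nothing to do), `bot φ t = bot φ (top φ t)`.
(5) `Cset` is not contained in `S` (`C_perfect`); let `t₀ ∈ Cset ∖ S`, `act c (π t₀) = π s₀`, `r = top φ s₀`, `l = bot φ s₀`, `π r = p`.  For every `t ∈ Cset ∖ S`: `act c (π t) = π s`, `π (top φ s) = p = π r`,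
so `r = top φ s + n`, `κ^n = 1`, `π s = π (s + n)` (`Frame.pow`), `s + n ∈ [bot φ (s+n), top φ (s+n)] = [l, r]` (`top_int`: `top φ (s+n) = r`, and `φ (bot) = φ (top)`: same fibre as `r`).
So `act c (π t) ∈ π '' [l, r]`, a compact set.
(6) for `t ∈ Cset` arbitrary take `t_n → t`, `t_n ∈ Cset ∖ S` (`C_perfect`): the compact set is closed.
(7) `l < r`: otherwise `act c (π t)` is the same point for all `t ∈ Cset`, but `act c`, and `π` on an interval of length `< 1`, are injective (case `κ^n = 1`, `n ≠ 0` is excluded by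
`|t - s| < 1`), and `Cset` has two points at distance `< 1` (`C_perfect`).
-/

namespace TN
open Metric Set Filter Topology DS

variable {Γ : Type} [Group Γ] {F : Fuchs Γ} {e : Elt Γ} {κ : Γ} {π : ℝ → ℂ} {h : ℝ → ℝ}
  {φ : ℝ → ℝ} {a : ℕ → ℕ} {b : ℕ → ℤ} {ε : ℕ → ℝ}

theorem RE_norm (fr : Frame F e κ π h) (t : ℝ) : π t ∈ closedBall (0:ℂ) 1 := by
  rw [mem_closedBall_zero_iff, fr.πn t]

/-- `π` is finite-to-one on bounded intervals -/
theorem RE_fin (fr : Frame F e κ π h) (ξ : ℂ) (α β : ℝ) : {t | t ∈ Icc α β ∧ π t = ξ}.Finite := by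
  by_cases hne : {t | t ∈ Icc α β ∧ π t = ξ}.Nonempty
  · obtain ⟨t₀, ht₀, hξ⟩ := hne
    obtain ⟨N, hN⟩ := exists_nat_gt (β - α)
    apply ((Set.finite_Icc (-(N : ℤ)) N).image (fun n : ℤ => t₀ + (n : ℝ))).subset
    rintro t ⟨ht, hπ⟩
    obtain ⟨n, hn, -⟩ := fr.inj t₀ t (by rw [hξ, hπ])
    refine ⟨n, ?_, hn.symm⟩
    have h1 : (n : ℝ) ≤ N := by
      have : (n : ℝ) = t - t₀ := by rw [hn]; ring
      rw [this]; linarith [ht.2, ht₀.1]
    have h2 : -(N : ℝ) ≤ n := by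
      have : (n : ℝ) = t - t₀ := by rw [hn]; ring
      rw [this]; linarith [ht.1, ht₀.2]
    constructor
    · exact_mod_cast h2
    · exact_mod_cast h1
  · rw [Set.not_nonempty_iff_eq_empty] at hne
    rw [hne]
    exact Set.finite_empty

theorem RE_end (R : Rot h φ a b ε) {t : ℝ} (ht : t ∈ Cset φ) : t = top φ t ∨ t = bot φ t := by
  obtain ⟨t1, t2, -⟩ := phi_top R.φc R.φm R.φ1 t
  obtain ⟨b1, b2, -⟩ := phi_bot R.φc R.φm R.φ1 t
  by_contra hno
  push Not at hno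
  exact C_fibre R.φm (b1.trans t1.symm) (lt_of_le_of_ne b2 (fun h => hno.2 h.symm))
    (lt_of_le_of_ne t2 hno.1) ht

theorem RE_top_le (R : Rot h φ a b ε) (t : ℝ) : top φ t ≤ t + 1 := by
  obtain ⟨t1, t2, -⟩ := phi_top R.φc R.φm R.φ1 t
  by_contra hlt
  push Not at hlt
  have := R.φm hlt.le
  rw [R.φ1, t1] at this
  linarith

theorem RE_top_int (R : Rot h φ a b ε) (t : ℝ) (n : ℤ) : top φ (t + n) = top φ t + n := by
  obtain ⟨t1, t2, t3⟩ := phi_top R.φc R.φm R.φ1 t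
  obtain ⟨u1, u2, u3⟩ := phi_top R.φc R.φm R.φ1 (t + n)
  have e0 := phi_int R.φ1 t n
  have e1 : φ (top φ t + n) = φ t + n := by rw [phi_int R.φ1, t1]
  apply le_antisymm
  · by_contra hlt
    push Not at hlt
    have h1 := t3 (top φ (t + n) + ((-n : ℤ) : ℝ)) (by push_cast; linarith)
    rw [phi_int R.φ1, u1, e0] at h1
    push_cast at h1
    linarith
  · by_contra hlt
    push Not at hlt
    have h1 := u3 _ hlt
    rw [e1, e0] at h1
    exact lt_irrefl _ h1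

/-- the exceptional set -/
def RE_S (F : Fuchs Γ) (π : ℝ → ℂ) (φ : ℝ → ℝ) (c : Γ) (q : ℂ) : Set ℝ :=
  {t | t ∈ Cset φ ∧ (π (top φ t) = q ∨ F.act c (π t) ∉ range π)}

theorem RE_S_fin (fr : Frame F e κ π h) (he : Norm F e) (R : Rot h φ a b ε) (c : Γ) (q : ℂ) (α β : ℝ) :
    (RE_S F π φ c q ∩ Icc α β).Finite := by
  have h1 : (⋃ ξ ∈ {ξ | ξ ∈ F.lim ∧ ξ ∉ range π}, {t | t ∈ Icc α β ∧ π t = F.act c⁻¹ ξ}).Finite :=
    fr.fin.biUnion (fun ξ _ => RE_fin fr _ α β)
  have h2 := RE_fin fr q α β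
  have h3 := (RE_fin fr q α (β + 1)).image (bot φ)
  apply ((h1.union h2).union h3).subset
  rintro t ⟨⟨htC, hor⟩, htI⟩
  rcases hor with hq | hr
  · rcases RE_end R htC with ht | ht
    · left; right
      rw [← ht] at hq
      exact ⟨htI, hq⟩
    · right
      obtain ⟨t1, t2, -⟩ := phi_top R.φc R.φm R.φ1 t
      refine ⟨top φ t, ⟨⟨htI.1.trans t2, (RE_top_le R t).trans (by linarith [htI.2])⟩, hq⟩, ?_⟩
      rw [(top_congr t1).2, ← ht]
  · left; left
    have hlim : F.act c (π t) ∈ F.lim := lim_inv F c (C_lim fr he R htC)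
    rw [Set.mem_iUnion₂]
    exact ⟨F.act c (π t), ⟨hlim, hr⟩, htI, (act_inv_act F c (fr.πn t).le).symm⟩

theorem RE_inj (fr : Frame F e κ π h) (he : Norm F e) (R : Rot h φ a b ε) {c : Γ}
    (hc : c ∉ Subgroup.zpowers κ) : Function.Injective (fun i => (e.tw F κ (a i) (b i)).θ c) := by
  have hc1 : c ≠ 1 := by
    rintro rfl
    exact hc (Subgroup.one_mem _)
  obtain ⟨p', q', hAR⟩ := exists_AR F hc1
  intro i j hij
  simp only at hij
  have h1 := AR.norm hAR (he.tw (κ := κ) (a i) (b i))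
  have h2 := AR.norm hAR (he.tw (κ := κ) (a j) (b j))
  rw [hij] at h1
  obtain ⟨u1, u2⟩ := AR.unique h1 h2
  have key : ∃ s, π (h^[a i] s + b i) = π (h^[a j] s + b j) := by
    rcases fr.fixR c hc p' q' hAR with ⟨s, hs⟩ | ⟨s, hs⟩
    · refine ⟨s, ?_⟩
      rw [← fr.tw_H he (R.apos i), ← fr.tw_H he (R.apos j), hs, u1]
    · refine ⟨s, ?_⟩
      rw [← fr.tw_H he (R.apos i), ← fr.tw_H he (R.apos j), hs, u2]
  obtain ⟨s, hs⟩ := key
  obtain ⟨n, hn, -⟩ := fr.inj _ _ hs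
  have e1 := R.φh j s
  rw [hn, phi_int R.φ1, R.φh i s] at e1
  have e2 : (n : ℝ) = ε j - ε i := by linarith
  have e3 : (n : ℝ) < 1 := by rw [e2]; linarith [R.εlt j, R.εpos i]
  have e4 : (-1 : ℝ) < n := by rw [e2]; linarith [R.εlt i, R.εpos j]
  have e5 : n = 0 := by
    have a1 : n < 1 := by exact_mod_cast e3
    have a2 : -1 < n := by exact_mod_cast e4
    omega
  rw [e5] at e2
  have e6 : ε i = ε j := by
    have : ((0 : ℤ) : ℝ) = 0 := Int.cast_zero
    rw [this] at e2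
    linarith
  exact R.εanti.injective e6

theorem incl (fr : Frame F e κ π h) (he : Norm F e) (R : Rot h φ a b ε) {c : Γ}
    (hc : c ∉ Subgroup.zpowers κ) :
    ∃ l r : ℝ, l < r ∧ φ l = φ r ∧ ∀ t ∈ Cset φ, F.act c (π t) ∈ π '' Icc l r := by
  have hinj := RE_inj fr he R hc
  obtain ⟨ψ, hψ, p, -, q, -, -, -, h3, -⟩ := conv F (g := fun i => (e.tw F κ (a i) (b i)).θ c) (by
    intro x
    apply Set.Subsingleton.finite
    intro i hi j hj
    exact hinj (hi.trans hj.symm))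
  have hk : ∀ t, Tendsto (fun i => h^[a (ψ i)] t + b (ψ i)) atTop (𝓝 (top φ t)) := fun t =>
    (h_lim R t).comp hψ.tendsto_atTop
  -- (3)
  have claim : ∀ t s, π (top φ t) ≠ q → F.act c (π t) = π s → π (top φ s) = p := by
    intro t s hq hs
    have e1 : ∀ i, π (h^[a (ψ i)] s + b (ψ i)) =
        F.act ((e.tw F κ (a (ψ i)) (b (ψ i))).θ c) (π (h^[a (ψ i)] t + b (ψ i))) := by
      intro i
      rw [← fr.tw_H he (R.apos (ψ i)), ← fr.tw_H he (R.apos (ψ i)), ← hs]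
      exact (he.tw (κ := κ) (a (ψ i)) (b (ψ i))).equi c (π t) (RE_norm fr t)
    have e2 : Tendsto (fun i => π (h^[a (ψ i)] s + b (ψ i))) atTop (𝓝 (π (top φ s))) :=
      (fr.πc.tendsto _).comp (hk s)
    have e3 : Tendsto (fun i => F.act ((e.tw F κ (a (ψ i)) (b (ψ i))).θ c) (π (h^[a (ψ i)] t + b (ψ i))))
        atTop (𝓝 p) :=
      conv_seq F (g := fun i => (e.tw F κ (a (ψ i)) (b (ψ i))).θ c) h3 (fun i => RE_norm fr _)
        ((fr.πc.tendsto _).comp (hk t)) hq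
    simp only [e1] at e2
    exact tendsto_nhds_unique e2 e3
  have hSfin := RE_S_fin fr he R c q
  have hC0 : top φ 0 ∈ Cset φ := top_C R.φc R.φm R.φ1 0
  obtain ⟨t₀, ht₀, ht₀S, -⟩ := C_perfect R.φc R.φm R.φ1 hC0 hSfin one_pos
  have hnotS : ∀ t ∈ Cset φ, t ∉ RE_S F π φ c q → π (top φ t) ≠ q ∧ ∃ s, F.act c (π t) = π s := by
    intro t ht hS
    constructor
    · intro hq
      exact hS ⟨ht, Or.inl hq⟩
    · by_contra hno
      apply hS
      refine ⟨ht, Or.inr ?_⟩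
      rintro ⟨s, hs⟩
      exact hno ⟨s, hs.symm⟩
  obtain ⟨hq₀, s₀, hs₀⟩ := hnotS t₀ ht₀ ht₀S
  have hr := claim t₀ s₀ hq₀ hs₀
  obtain ⟨T1, T2, -⟩ := phi_top R.φc R.φm R.φ1 s₀
  obtain ⟨B1, B2, -⟩ := phi_bot R.φc R.φm R.φ1 s₀
  have hgood : ∀ t ∈ Cset φ, t ∉ RE_S F π φ c q → F.act c (π t) ∈ π '' Icc (bot φ s₀) (top φ s₀) := by
    intro t ht hS
    obtain ⟨hq, s, hs⟩ := hnotS t ht hS
    have h5 := claim t s hq hs
    obtain ⟨n, hn, hκ⟩ := fr.inj (top φ s) (top φ s₀) (by rw [h5, hr])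
    refine ⟨s + n, ?_, ?_⟩
    · have h6 : top φ (s + n) = top φ s₀ := by rw [RE_top_int R, hn]
      obtain ⟨U1, U2, -⟩ := phi_top R.φc R.φm R.φ1 (s + n)
      obtain ⟨V1, V2, -⟩ := phi_bot R.φc R.φm R.φ1 (s + n)
      have h7 : φ (s + n) = φ s₀ := by rw [← U1, h6, T1]
      rw [(top_congr h7).2] at V2
      rw [h6] at U2
      exact ⟨V2, U2⟩
    · rw [fr.pow, hκ, act_one F (fr.πn s).le, hs]
  have hcont : Continuous (fun t => F.act c (π t)) :=
    (act_cont F c).comp_continuous fr.πc (RE_norm fr)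
  have hcomp : IsCompact (π '' Icc (bot φ s₀) (top φ s₀)) := isCompact_Icc.image fr.πc
  have hcl : IsClosed ((fun t => F.act c (π t)) ⁻¹' (π '' Icc (bot φ s₀) (top φ s₀))) :=
    hcomp.isClosed.preimage hcont
  have hall : ∀ t ∈ Cset φ, F.act c (π t) ∈ π '' Icc (bot φ s₀) (top φ s₀) := by
    intro t ht
    have : t ∈ closure ((fun t => F.act c (π t)) ⁻¹' (π '' Icc (bot φ s₀) (top φ s₀))) := by
      rw [Metric.mem_closure_iff]
      intro δ hδ
      obtain ⟨s, hs, hsS, hst⟩ := C_perfect R.φc R.φm R.φ1 ht hSfin hδ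
      refine ⟨s, hgood s hs hsS, ?_⟩
      rw [dist_comm, Real.dist_eq]
      exact hst
    rw [hcl.closure_eq] at this
    exact this
  refine ⟨bot φ s₀, top φ s₀, ?_, B1.trans T1.symm, hall⟩
  apply lt_of_le_of_ne (B2.trans T2)
  intro heq
  obtain ⟨t₁, ht₁, ht₁S, ht₁d⟩ := C_perfect R.φc R.φm R.φ1 hC0 (S := {top φ 0})
    (fun α β => (Set.finite_singleton _).subset inter_subset_left) one_pos
  have h8 := hall _ hC0
  have h9 := hall _ ht₁
  rw [← heq, Icc_self, image_singleton, mem_singleton_iff] at h8 h9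
  have h10 : π t₁ = π (top φ 0) := act_inj F c (RE_norm fr _) (RE_norm fr _) (h9.trans h8.symm)
  obtain ⟨n, hn, -⟩ := fr.inj _ _ h10
  have h11 : |(n : ℝ)| < 1 := by
    have : (n : ℝ) = -(t₁ - top φ 0) := by rw [hn]; ring
    rw [this, abs_neg]
    exact ht₁d
  have h12 : n = 0 := by
    have : |n| < 1 := by exact_mod_cast h11
    exact Int.abs_lt_one_iff.1 this
  rw [h12] at hn
  apply ht₁S
  rw [mem_singleton_iff, hn]
  simp

end TN
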