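import Pool.Agent.H12.TN.FN
import Pool.Agent.H12.TN.RC

/-!
RF (frames).  `Frame F e κ π h`: `π : ℝ → circle` is a parametrisation of an `e`-invariant part of the circle, `h` the lift of `e`, and `t ↦ t + 1` the lift of
`κ` (case A: `κ = 1`, `π` the universal covering of the circle; case B: `κ ≠ 1`, `π` a homeomorphism onto the open arc opposite to a gap).
`e.tw F κ n m` is the map `κ^m ∘ e^n` (`n ≥ 1`).
`tw_H`: `e.H^[n] (π t) = π (h^[n] t)`, `act κ^m (π t) = π (t + m)` for integers `m` (from `πκ`; for negative `m` apply the inverse).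
`tw_theta`: `e^n` has `θ κ = κ` and conjugation by `κ^m` fixes `κ`.  The others: `FN`.
-/

namespace TN
open Metric Set Filter Topology DS

variable {Γ : Type} [Group Γ]

structure Frame (F : Fuchs Γ) (e : Elt Γ) (κ : Γ) (π : ℝ → ℂ) (h : ℝ → ℝ) : Prop where
  πc : Continuous π
  πn : ∀ t, ‖π t‖ = 1
  hc : Continuous h
  hm : StrictMono h
  hs : Function.Surjective h
  h1 : ∀ t, h (t + 1) = h t + 1
  πh : ∀ t, e.H (π t) = π (h t)
  πκ : ∀ t, π (t + 1) = F.act κ (π t)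
  comm : e.θ κ = κ
  inj : ∀ s t, π s = π t → ∃ n : ℤ, t = s + n ∧ κ ^ n = 1
  fin : {ξ | ξ ∈ F.lim ∧ ξ ∉ range π}.Finite
  meet : ∃ t, π t ∈ F.lim
  fixR : ∀ c, c ∉ Subgroup.zpowers κ → ∀ a b, F.AR c a b → a ∈ range π ∨ b ∈ range π

/-- `κ^m ∘ e^n`, `n ≥ 1` -/
noncomputable def Elt.tw (F : Fuchs Γ) (e : Elt Γ) (κ : Γ) (n : ℕ) (m : ℤ) : Elt Γ :=
  (e.iter (n - 1)).lmul F (κ ^ m)

variable {F : Fuchs Γ} {e : Elt Γ} {κ : Γ} {π : ℝ → ℂ} {h : ℝ → ℝ}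

theorem RF_pred (fr : Frame F e κ π h) (t : ℝ) : π t = F.act κ⁻¹ (π (t + 1)) := by
  rw [fr.πκ, act_inv_act F κ (fr.πn t).le]

theorem Frame.pow (fr : Frame F e κ π h) (t : ℝ) (m : ℤ) : π (t + m) = F.act (κ ^ m) (π t) := by
  induction m with
  | zero =>
    rw [Int.cast_zero, add_zero, zpow_zero, act_one F (fr.πn t).le]
  | succ n ih =>
    have e1 : t + (((n : ℤ) + 1 : ℤ) : ℝ) = (t + ((n : ℤ) : ℝ)) + 1 := by push_cast; ring
    rw [e1, fr.πκ, ih, ← act_mul F _ _ (fr.πn t).le, add_comm (n : ℤ) 1, zpow_one_add]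
  | pred n ih =>
    have e1 : (t + ((-(n : ℤ) - 1 : ℤ) : ℝ)) + 1 = t + ((-(n : ℤ) : ℤ) : ℝ) := by push_cast; ring
    rw [RF_pred fr (t + ((-(n : ℤ) - 1 : ℤ) : ℝ)), e1, ih, ← act_mul F _ _ (fr.πn t).le,
      sub_eq_neg_add, zpow_add, zpow_neg_one]

theorem Frame.int (fr : Frame F e κ π h) (n : ℕ) (t : ℝ) (m : ℤ) :
    h^[n] (t + m) = h^[n] t + m := by
  induction n generalizing t with
  | zero => rfl
  | succ n ih =>
    rw [Function.iterate_succ_apply, Function.iterate_succ_apply, phi_int fr.h1, ih]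

theorem RF_iter (fr : Frame F e κ π h) (n : ℕ) (t : ℝ) : e.H^[n] (π t) = π (h^[n] t) := by
  induction n generalizing t with
  | zero => rfl
  | succ n ih =>
    rw [Function.iterate_succ_apply, Function.iterate_succ_apply, fr.πh, ih]

theorem Frame.tw_H (fr : Frame F e κ π h) (he : Norm F e) {n : ℕ} (hn : 1 ≤ n) (m : ℤ) (t : ℝ) :
    (e.tw F κ n m).H (π t) = π (h^[n] t + m) := by
  have _ := he
  have h1 : (e.tw F κ n m).H (π t) = F.act (κ ^ m) ((e.iter (n - 1)).H (π t)) := rfl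
  rw [h1, Elt.iter_H, Nat.sub_add_cancel hn, RF_iter fr, Frame.pow fr]

theorem Norm.tw (he : Norm F e) (n : ℕ) (m : ℤ) : Norm F (e.tw F κ n m) :=
  (he.iter (n - 1)).lmul (κ ^ m)

theorem Frame.tw_theta (fr : Frame F e κ π h) (n : ℕ) (m : ℤ) : (e.tw F κ n m).θ κ = κ := by
  have h1 : (e.tw F κ n m).θ κ = κ ^ m * (e.iter (n - 1)).θ κ * (κ ^ m)⁻¹ := rfl
  rw [h1, Elt.iter_theta e fr.comm]
  have h2 : κ ^ m * κ = κ * κ ^ m := (Commute.zpow_self κ m).eq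
  rw [h2, mul_inv_cancel_right]

theorem Fam.tw {𝓗 : Set (Elt Γ)} (hF : Fam F 𝓗) (he : e ∈ 𝓗) (n : ℕ) (m : ℤ) :
    e.tw F κ n m ∈ 𝓗 :=
  hF.lmul _ (Elt.iter_mem hF he _) _

/-- the increasing homeomorphism `t ↦ h^[n] t + m` preserves `π ⁻¹' F.lim` -/
theorem Frame.lim_iff (fr : Frame F e κ π h) (he : Norm F e) {n : ℕ} (hn : 1 ≤ n) (m : ℤ) (t : ℝ) :
    π (h^[n] t + m) ∈ F.lim ↔ π t ∈ F.lim := by
  rw [← Frame.tw_H fr he hn m t]
  exact (Norm.tw he n m).lim_iff (fr.πn t)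

end TN
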