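import Pool.Agent.H12.TN.FN

/-!
TA (a conical sequence).  `r n = 1 - 2^(-n)`.  `exists_conical`: (UC) gives `ρ` and, for each `n`, some `d n` with `‖act (d n) (r n ξ)‖ ≤ ρ`; replace `ρ` by `max ρ 0`.
Fields of `Conic`:
* `K`: with `b = F.b (d n)`, `r = r n`, `D = ‖1 - conj b (r ξ)‖`: `act_norm` gives `1 - ρ² ≤ (1-‖b‖²)(1-r²)/D²`.  `1 - r ≤ D` (as `‖b‖ ≤ 1`), so
`(1-r)² (1-ρ²) ≤ (1-‖b‖²)(1-r²) ≤ 2 (1-‖b‖²)(1-r)`, `1 - r ≤ 2 (1-‖b‖²)/(1-ρ²)`, then `D² ≤ 2 (1-‖b‖²)(1-r)/(1-ρ²) ≤ (2 (1-‖b‖²)/(1-ρ²))²`, and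
`‖1 - conj b ξ‖ ≤ D + (1 - r) ≤ 2 D ≤ 4 (1-‖b‖²)/(1-ρ²)`: `K = 4/(1-ρ²)`.
* `fin`: `g = d (n+1) * (d n)⁻¹` maps `y = act (d n) (r n ξ)`, `‖y‖ ≤ ρ`, to `act (d (n+1)) (r n ξ)`, at `pd`-distance `pd (r n) (r (n+1)) ≤ 1/2` from
`act (d (n+1)) (r (n+1) ξ)`, of norm `≤ ρ`; so (`norm_le_of_pd`) its norm is `≤ s < 1`, `s` independent of `n`; `proper`.
(`pd (r ξ) (r' ξ) = (r' - r)/(1 - r r') ≤ 1/2` for `r = 1 - 2^(-n)`, `r' = 1 - 2^(-n-1)`.)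
* `b1`: `1 - ρ² ≤ (1-‖b‖²)(1-r²)/D²` and `D ≥ 1 - ‖b‖` give `(1-‖b‖)² (1 - ρ²) ≤ (1 - r²)(1-‖b‖²)`, so `(1-‖b‖)(1-ρ²) ≤ 2 (1 - r²) → 0`.
* `C`: for `g` in the finite set, `‖b (d (n+1))‖ = ‖act (d (n+1)) 0‖ = ‖act g (act (d n) 0)‖` and `act_norm` gives
`1 - ‖b (d (n+1))‖² ≥ (1 - ‖F.b g‖²)(1 - ‖b (d n)‖²)/4`; `C` = maximum of `4/(1-‖F.b g‖²)`.
`sep`: `act_dist` with `y = 0`: `dist (act (d n) ξ) (act (d n) 0) = (1-‖b‖²)/‖1 - conj b ξ‖ ≥ 1/K`.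
-/

namespace TN
open Metric Set Filter Topology DS

variable {Γ : Type} [Group Γ]

/-- `d n` maps the points `(1 - 2^(-n)) ξ` of the radius into a compact part of the disc -/
structure Conic (F : Fuchs Γ) (ξ : ℂ) (d : ℕ → Γ) (ρ K C : ℝ) : Prop where
  ρ0 : 0 ≤ ρ
  ρ1 : ρ < 1
  K1 : 1 ≤ K
  C1 : 1 ≤ C
  bd : ∀ n, ‖F.act (d n) ((1 - 2⁻¹ ^ n : ℝ) * ξ)‖ ≤ ρ
  hK : ∀ n, ‖1 - (starRingEnd ℂ) (F.b (d n)) * ξ‖ ≤ K * (1 - ‖F.b (d n)‖ ^ 2)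
  b1 : Tendsto (fun n => ‖F.b (d n)‖) atTop (𝓝 1)
  hC : ∀ n, 1 - ‖F.b (d n)‖ ^ 2 ≤ C * (1 - ‖F.b (d (n + 1))‖ ^ 2)
  fin : (range fun n => d (n + 1) * (d n)⁻¹).Finite

theorem TA_den {b ξ : ℂ} {r : ℝ} (hb : ‖b‖ < 1) (hξ : ‖ξ‖ = 1) (hr0 : 0 ≤ r) (hr1 : r < 1) :
    1 - r ≤ ‖1 - (starRingEnd ℂ) b * (r * ξ)‖ ∧ 1 - ‖b‖ ≤ ‖1 - (starRingEnd ℂ) b * (r * ξ)‖ ∧
      ‖1 - (starRingEnd ℂ) b * ξ‖ ≤ ‖1 - (starRingEnd ℂ) b * (r * ξ)‖ + (1 - r) := by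
  have hnb := norm_nonneg b
  have h1 : ‖(starRingEnd ℂ) b * ((r : ℂ) * ξ)‖ = ‖b‖ * r := by
    rw [norm_mul, norm_mul, RCLike.norm_conj, hξ, mul_one, Complex.norm_real, Real.norm_eq_abs,
      abs_of_nonneg hr0]
  have h2 : ‖(1:ℂ)‖ - ‖(starRingEnd ℂ) b * ((r : ℂ) * ξ)‖ ≤
      ‖1 - (starRingEnd ℂ) b * ((r : ℂ) * ξ)‖ := norm_sub_norm_le _ _
  rw [norm_one, h1] at h2
  have h3 : ‖b‖ * r ≤ r := mul_le_of_le_one_left hr0 hb.le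
  have h4 : ‖b‖ * r ≤ ‖b‖ := mul_le_of_le_one_right hnb hr1.le
  refine ⟨by linarith, by linarith, ?_⟩
  have h5 : 1 - (starRingEnd ℂ) b * ξ = (1 - (starRingEnd ℂ) b * ((r : ℂ) * ξ))
      - (starRingEnd ℂ) b * (((1 - r : ℝ) : ℂ) * ξ) := by
    push_cast; ring
  have h6 : ‖(starRingEnd ℂ) b * (((1 - r : ℝ) : ℂ) * ξ)‖ ≤ 1 - r := by
    rw [norm_mul, norm_mul, RCLike.norm_conj, hξ, mul_one, Complex.norm_real, Real.norm_eq_abs,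
      abs_of_nonneg (by linarith : (0:ℝ) ≤ 1 - r)]
    exact mul_le_of_le_one_left (by linarith) hb.le
  rw [h5]
  exact (norm_sub_le _ _).trans (by linarith)

theorem TA_bd (F : Fuchs Γ) {g : Γ} {ξ : ℂ} {r ρ : ℝ} (hξ : ‖ξ‖ = 1) (hr0 : 0 ≤ r) (hr1 : r < 1)
    (hρ0 : 0 ≤ ρ) (hρ1 : ρ < 1) (h : ‖F.act g (r * ξ)‖ ≤ ρ) :
    ‖1 - (starRingEnd ℂ) (F.b g) * ξ‖ ≤ 4 / (1 - ρ ^ 2) * (1 - ‖F.b g‖ ^ 2) ∧
      1 - ‖F.b g‖ ≤ 4 / (1 - ρ ^ 2) * (1 - r) := by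
  have hb := F.hb g
  have hnb := norm_nonneg (F.b g)
  obtain ⟨h1, h2, h3⟩ := TA_den hb hξ hr0 hr1
  have hx : ‖(r : ℂ) * ξ‖ = r := by
    rw [norm_mul, hξ, mul_one, Complex.norm_real, Real.norm_eq_abs, abs_of_nonneg hr0]
  have h4 := act_norm F g (x := (r : ℂ) * ξ) (by rw [hx]; exact hr1.le)
  rw [hx] at h4
  set D := ‖1 - (starRingEnd ℂ) (F.b g) * ((r : ℂ) * ξ)‖ with hD
  set E := ‖1 - (starRingEnd ℂ) (F.b g) * ξ‖ with hE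
  set β := ‖F.b g‖ with hβ
  have hD0 : 0 < D := by linarith
  have hκ : 0 < 1 - ρ ^ 2 := by nlinarith
  have hna := norm_nonneg (F.act g ((r : ℂ) * ξ))
  have h5 : 1 - ρ ^ 2 ≤ 1 - ‖F.act g ((r : ℂ) * ξ)‖ ^ 2 := by nlinarith
  have h6 : (1 - ρ ^ 2) * D ^ 2 ≤ (1 - β ^ 2) * (1 - r ^ 2) := by
    rw [h4, le_div_iff₀ (by positivity)] at h5
    exact h5
  have hB : 0 < 1 - β ^ 2 := by nlinarith
  have hr' : 0 < 1 - r := by linarith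
  -- `(1 - r) κ ≤ 2 B`
  have h7 : (1 - r) * (1 - ρ ^ 2) ≤ 2 * (1 - β ^ 2) := by
    have e1 : (1 - ρ ^ 2) * (1 - r) ^ 2 ≤ (1 - ρ ^ 2) * D ^ 2 :=
      mul_le_mul_of_nonneg_left (pow_le_pow_left₀ hr'.le h1 2) hκ.le
    have e2 : (1 - β ^ 2) * (1 - r ^ 2) ≤ 2 * (1 - β ^ 2) * (1 - r) := by
      have : 1 - r ^ 2 ≤ 2 * (1 - r) := by nlinarith only [hr', hr1]
      have := mul_le_mul_of_nonneg_left this hB.le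
      linarith
    have e3 : (1 - r) * (1 - ρ ^ 2) * (1 - r) ≤ 2 * (1 - β ^ 2) * (1 - r) := by linarith
    exact le_of_mul_le_mul_right e3 hr'
  have h8 : (1 - ρ ^ 2) * D ≤ 2 * (1 - β ^ 2) := by
    have e1 : (1 - ρ ^ 2) * D ^ 2 ≤ 2 * (1 - β ^ 2) * (1 - r) := by
      have : 1 - r ^ 2 ≤ 2 * (1 - r) := by nlinarith only [hr', hr1]
      have := mul_le_mul_of_nonneg_left this hB.le
      linarith
    have e2 : (1 - ρ ^ 2) * ((1 - ρ ^ 2) * D ^ 2) ≤ (1 - ρ ^ 2) * (2 * (1 - β ^ 2) * (1 - r)) :=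
      mul_le_mul_of_nonneg_left e1 hκ.le
    have e3 : (2 * (1 - β ^ 2)) * ((1 - r) * (1 - ρ ^ 2)) ≤ (2 * (1 - β ^ 2)) * (2 * (1 - β ^ 2)) :=
      mul_le_mul_of_nonneg_left h7 (by linarith)
    have e4 : ((1 - ρ ^ 2) * D) ^ 2 ≤ (2 * (1 - β ^ 2)) ^ 2 := by linarith
    exact le_of_sq_le_sq e4 (by linarith)
  constructor
  · rw [div_mul_eq_mul_div, le_div_iff₀ hκ]
    have e1 : E ≤ 2 * D := by linarith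
    have e2 := mul_le_mul_of_nonneg_right e1 hκ.le
    linarith
  · rw [div_mul_eq_mul_div, le_div_iff₀ hκ]
    have hb' : 0 < 1 - β := by linarith
    have e1 : (1 - ρ ^ 2) * (1 - β) ^ 2 ≤ (1 - ρ ^ 2) * D ^ 2 :=
      mul_le_mul_of_nonneg_left (pow_le_pow_left₀ hb'.le h2 2) hκ.le
    have e2 : (1 - β ^ 2) * (1 - r ^ 2) ≤ (1 - β) * (4 * (1 - r)) := by
      have f1 : 1 - β ^ 2 ≤ (1 - β) * 2 := by nlinarith only [hb', hb]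
      have f2 : 1 - r ^ 2 ≤ 2 * (1 - r) := by nlinarith only [hr', hr1]
      have f3 : 0 ≤ 1 - r ^ 2 := by nlinarith only [hr', hr1, hr0]
      calc (1 - β ^ 2) * (1 - r ^ 2) ≤ ((1 - β) * 2) * (2 * (1 - r)) :=
            mul_le_mul f1 f2 f3 (by linarith)
        _ = (1 - β) * (4 * (1 - r)) := by ring
    have e3 : (1 - β) * ((1 - β) * (1 - ρ ^ 2)) ≤ (1 - β) * (4 * (1 - r)) := by linarith
    exact le_of_mul_le_mul_left e3 hb'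

theorem TA_pd {ξ : ℂ} (hξ : ‖ξ‖ = 1) (n : ℕ) :
    pd ((1 - 2⁻¹ ^ (n + 1) : ℝ) * ξ) ((1 - 2⁻¹ ^ n : ℝ) * ξ) ≤ 1 / 2 := by
  have ht0 : (0:ℝ) < 2⁻¹ ^ n := by positivity
  have ht1 : (2⁻¹ : ℝ) ^ n ≤ 1 := pow_le_one₀ (by norm_num) (by norm_num)
  have hp : (2⁻¹ : ℝ) ^ (n + 1) = 2⁻¹ ^ n / 2 := by rw [pow_succ]; ring
  rw [hp]
  generalize (2⁻¹ : ℝ) ^ n = t at ht0 ht1
  have hss : (starRingEnd ℂ) ξ * ξ = 1 := by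
    rw [Complex.conj_mul', hξ]; norm_num
  unfold pd
  have e1 : ((1 - t / 2 : ℝ) : ℂ) * ξ - ((1 - t : ℝ) : ℂ) * ξ = ((t / 2 : ℝ) : ℂ) * ξ := by
    push_cast; ring
  have e2 : 1 - (starRingEnd ℂ) (((1 - t / 2 : ℝ) : ℂ) * ξ) * (((1 - t : ℝ) : ℂ) * ξ)
      = ((t * (3 - t) / 2 : ℝ) : ℂ) := by
    rw [map_mul, Complex.conj_ofReal]
    push_cast
    linear_combination (-(1 - (t:ℂ) / 2) * (1 - t)) * hss
  rw [e1, e2, norm_mul, hξ, mul_one, Complex.norm_real, Complex.norm_real, Real.norm_eq_abs,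
    Real.norm_eq_abs, abs_of_pos (by positivity)]
  have h3 : 0 < t * (3 - t) / 2 := by
    have : 0 < 3 - t := by linarith
    positivity
  rw [abs_of_pos h3, div_le_iff₀ h3]
  nlinarith

theorem TA_C (F : Fuchs Γ) (g h : Γ) :
    1 - ‖F.b h‖ ^ 2 ≤ 4 / (1 - ‖F.b g‖ ^ 2) * (1 - ‖F.b (g * h)‖ ^ 2) := by
  have hx : ‖F.act h 0‖ ≤ 1 := by rw [norm_act_zero]; exact (F.hb h).le
  have h1 := act_norm F g hx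
  rw [← act_mul F g h (by simp), norm_act_zero, norm_act_zero] at h1
  have hb := F.hb g
  have hnb := norm_nonneg (F.b g)
  have hB : 0 < 1 - ‖F.b g‖ ^ 2 := by nlinarith
  have hH : 0 < 1 - ‖F.b h‖ ^ 2 := by nlinarith [F.hb h, norm_nonneg (F.b h)]
  have hD : 0 < ‖1 - (starRingEnd ℂ) (F.b g) * F.act h 0‖ := norm_pos_iff.2 (den_ne hb hx)
  have hD2 : ‖1 - (starRingEnd ℂ) (F.b g) * F.act h 0‖ ≤ 2 := by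
    have h2 := norm_sub_le (1:ℂ) ((starRingEnd ℂ) (F.b g) * F.act h 0)
    have h3 := MB_norm_lt hb hx
    rw [norm_one] at h2
    linarith
  rw [h1, ← mul_div_assoc, le_div_iff₀ (by positivity)]
  have e1 : 4 / (1 - ‖F.b g‖ ^ 2) * ((1 - ‖F.b g‖ ^ 2) * (1 - ‖F.b h‖ ^ 2))
      = 4 * (1 - ‖F.b h‖ ^ 2) := by
    field_simp
  rw [e1]
  have h4 : ‖1 - (starRingEnd ℂ) (F.b g) * F.act h 0‖ ^ 2 ≤ 4 := by nlinarith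
  nlinarith [mul_le_mul_of_nonneg_left h4 hH.le]

theorem exists_conical (F : Fuchs Γ) (hU : F.UC) {ξ : ℂ} (hξ : ξ ∈ F.lim) :
    ∃ d ρ K C, Conic F ξ d ρ K C := by
  obtain ⟨ρ', hρ', hU⟩ := hU
  have hξ1 : ‖ξ‖ = 1 := hξ.1
  have ht0 : ∀ n : ℕ, (0:ℝ) < 2⁻¹ ^ n := fun n => by positivity
  have ht1 : ∀ n : ℕ, (2⁻¹ : ℝ) ^ n ≤ 1 := fun n => pow_le_one₀ (by norm_num) (by norm_num)
  have hr0 : ∀ n : ℕ, (0:ℝ) ≤ 1 - 2⁻¹ ^ n := fun n => by linarith [ht1 n]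
  have hr1 : ∀ n : ℕ, (1 - 2⁻¹ ^ n : ℝ) < 1 := fun n => by linarith [ht0 n]
  choose d hd using fun n : ℕ => hU ξ hξ (1 - 2⁻¹ ^ n) (hr0 n) (hr1 n)
  obtain ⟨ρ, hρ⟩ : ∃ ρ, ρ = max ρ' 0 := ⟨_, rfl⟩
  have hρ0 : 0 ≤ ρ := hρ ▸ le_max_right _ _
  have hρ1 : ρ < 1 := hρ ▸ max_lt hρ' one_pos
  have hd' : ∀ n, ‖F.act (d n) ((1 - 2⁻¹ ^ n : ℝ) * ξ)‖ ≤ ρ := fun n =>
    (hd n).trans (hρ ▸ le_max_left _ _)
  have hκ : 0 < 1 - ρ ^ 2 := by nlinarith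
  have hxn : ∀ n : ℕ, ‖((1 - 2⁻¹ ^ n : ℝ) : ℂ) * ξ‖ < 1 := by
    intro n
    rw [norm_mul, hξ1, mul_one, Complex.norm_real, Real.norm_eq_abs, abs_of_nonneg (hr0 n)]
    exact hr1 n
  have hfin : (range fun n => d (n + 1) * (d n)⁻¹).Finite := by
    obtain ⟨s, hs, H⟩ := norm_le_of_pd (ρ := ρ) (r := 1 / 2) hρ1 (by norm_num)
    refine (proper F (max_lt hρ1 hs)).subset ?_
    rintro _ ⟨n, rfl⟩
    refine ⟨F.act (d n) ((1 - 2⁻¹ ^ n : ℝ) * ξ), (hd' n).trans (le_max_left _ _), ?_⟩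
    have h1 : F.act (d (n + 1) * (d n)⁻¹) (F.act (d n) ((1 - 2⁻¹ ^ n : ℝ) * ξ))
        = F.act (d (n + 1)) ((1 - 2⁻¹ ^ n : ℝ) * ξ) := by
      rw [act_mul F _ _ ((hd' n).trans hρ1.le), act_inv_act F _ (hxn n).le]
    rw [h1]
    refine (H _ _ (hd' (n + 1)) ?_ ?_).trans (le_max_right _ _)
    · exact mob_ball (F.hu _) (F.hb _) (hxn n)
    · rw [act_pd F _ (hxn (n + 1)).le (hxn n)]
      exact TA_pd hξ1 n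
  obtain ⟨C, hC⟩ := (hfin.image fun g => 4 / (1 - ‖F.b g‖ ^ 2)).bddAbove
  refine ⟨d, ρ, 4 / (1 - ρ ^ 2), max C 1, ⟨hρ0, hρ1, ?_, le_max_right _ _, hd', ?_, ?_, ?_, hfin⟩⟩
  · rw [le_div_iff₀ hκ]
    nlinarith
  · intro n
    exact (TA_bd F hξ1 (hr0 n) (hr1 n) hρ0 hρ1 (hd' n)).1
  · have h1 : ∀ n, 1 - 4 / (1 - ρ ^ 2) * 2⁻¹ ^ n ≤ ‖F.b (d n)‖ := by
      intro n
      have := (TA_bd F hξ1 (hr0 n) (hr1 n) hρ0 hρ1 (hd' n)).2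
      rw [sub_sub_cancel] at this
      linarith
    have h2 : Tendsto (fun n : ℕ => 1 - 4 / (1 - ρ ^ 2) * (2⁻¹ : ℝ) ^ n) atTop (𝓝 1) := by
      have h3 := (tendsto_pow_atTop_nhds_zero_of_lt_one (r := (2⁻¹ : ℝ)) (by norm_num)
        (by norm_num)).const_mul (4 / (1 - ρ ^ 2))
      simpa using h3.const_sub 1
    exact tendsto_of_tendsto_of_tendsto_of_le_of_le h2 tendsto_const_nhds h1
      (fun n => (F.hb (d n)).le)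
  · intro n
    have h1 := TA_C F (d (n + 1) * (d n)⁻¹) (d n)
    rw [inv_mul_cancel_right] at h1
    have h2 : 4 / (1 - ‖F.b (d (n + 1) * (d n)⁻¹)‖ ^ 2) ≤ max C 1 :=
      (hC ⟨_, ⟨n, rfl⟩, rfl⟩).trans (le_max_left _ _)
    have h3 : 0 ≤ 1 - ‖F.b (d (n + 1))‖ ^ 2 := by
      nlinarith [F.hb (d (n + 1)), norm_nonneg (F.b (d (n + 1)))]
    exact h1.trans (mul_le_mul_of_nonneg_right h2 h3)

theorem Conic.sep {F : Fuchs Γ} {ξ : ℂ} {d : ℕ → Γ} {ρ K C : ℝ} (h : Conic F ξ d ρ K C)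
    (hξ : ‖ξ‖ = 1) (n : ℕ) : K⁻¹ ≤ dist (F.act (d n) ξ) (F.act (d n) 0) := by
  have hK : 0 < K := lt_of_lt_of_le one_pos h.K1
  rw [act_dist F _ hξ.le (by simp), dist_zero_right, hξ, mul_one, mul_zero, sub_zero, norm_one,
    mul_one]
  have hD : 0 < ‖1 - (starRingEnd ℂ) (F.b (d n)) * ξ‖ := norm_pos_iff.2 (den_ne (F.hb _) hξ.le)
  rw [inv_eq_one_div, div_le_div_iff₀ hK hD, one_mul, mul_comm _ K]
  exact h.hK n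

/-- if `d n * (θ (d n))⁻¹` takes a value infinitely often then `ξ` is conical for the centraliser -/
theorem Conic.con {F : Fuchs Γ} {e : Elt Γ} {ξ : ℂ} {d : ℕ → Γ} {ρ K C : ℝ}
    (h : Conic F ξ d ρ K C) (hξ : ‖ξ‖ = 1) {a : Γ} (ha : {n | d n * (e.θ (d n))⁻¹ = a}.Infinite) :
    F.Con e.cen ξ := by
  obtain ⟨n0, hn0⟩ := ha.nonempty
  have ht0 : ∀ n : ℕ, (0:ℝ) < 2⁻¹ ^ n := fun n => by positivity
  have ht1 : ∀ n : ℕ, (2⁻¹ : ℝ) ^ n ≤ 1 := fun n => pow_le_one₀ (by norm_num) (by norm_num)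
  obtain ⟨s, hs, H⟩ := norm_le_of_pd (ρ := ‖F.b (d n0)⁻¹‖) (r := ρ) (F.hb _) h.ρ1
  refine ⟨s, hs, ?_⟩
  intro r hr
  obtain ⟨N, hN⟩ := exists_pow_lt_of_lt_one (show (0:ℝ) < 1 - r by linarith)
    (show (2⁻¹ : ℝ) < 1 by norm_num)
  obtain ⟨n, hn, hNn⟩ := ha.exists_gt N
  have h1 : (2⁻¹ : ℝ) ^ n ≤ 2⁻¹ ^ N :=
    pow_le_pow_of_le_one (by norm_num) (by norm_num) hNn.le
  refine ⟨1 - 2⁻¹ ^ n, by linarith, by linarith [ht1 n], by linarith [ht0 n], (d n0)⁻¹ * d n,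
    ?_, ?_⟩
  · show e.θ ((d n0)⁻¹ * d n) = (d n0)⁻¹ * d n
    have e1 : e.θ (d n) = a⁻¹ * d n := by
      rw [← (hn : d n * (e.θ (d n))⁻¹ = a)]; group
    have e2 : e.θ (d n0) = a⁻¹ * d n0 := by
      rw [← (hn0 : d n0 * (e.θ (d n0))⁻¹ = a)]; group
    rw [map_mul, map_inv, e1, e2]
    group
  · have hx : ‖((1 - 2⁻¹ ^ n : ℝ) : ℂ) * ξ‖ < 1 := by
      rw [norm_mul, hξ, mul_one, Complex.norm_real, Real.norm_eq_abs,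
        abs_of_nonneg (by linarith [ht1 n])]
      linarith [ht0 n]
    rw [act_mul F _ _ hx.le]
    have hy := h.bd n
    have hy1 : ‖F.act (d n) ((1 - 2⁻¹ ^ n : ℝ) * ξ)‖ < 1 := lt_of_le_of_lt hy h.ρ1
    refine H (F.act (d n0)⁻¹ 0) _ (norm_act_zero F _).le ?_ ?_
    · exact mob_ball (F.hu _) (F.hb _) hy1
    · rw [act_pd F _ (by simp) hy1]
      unfold pd
      simpa using hy

end TN
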