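import Pool.Agent.H12.TN.TA

/-!
TB (dichotomy).  `Typ F H d ξ r n`: the map `H_n = act (d n) ∘ H ∘ act (d n)⁻¹` maps the complement of the ball of radius `r` about `act (d n) 0` into the ball of radius `r`
about `act (d n) ξ`.
`dichotomy`: assume the contrary for a sequence of `n` (frequently not) : there is a strictly increasing sequence `n_k` with neither.  Let `ε_k = d n_k * (e.θ (d n_k))⁻¹`;
`act (d n) (e.H (act (d n)⁻¹ x)) = act (ε n) (e.H x)` (`equi` for `(d n)⁻¹`), and `act (d n) (e.Hi (act (d n)⁻¹ x)) = e.Hi (act (ε n)⁻¹ x)`.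
Pass to subsequences: `act (d n) ξ → ξ'`, `act (d n) 0 → η'`, `‖ξ'‖ = ‖η'‖ = 1`, `ξ' ≠ η'` (`Conic.sep`), and `conv` for `ε`: `ε → p` off `q`, `ε⁻¹ → q` off `p`.
* `act ε (e.H (act d ξ)) = act d ξ → ξ'`, and `e.H (act d ξ) → e.H ξ'`: so `e.H ξ' ≠ q` implies `ξ' = p` (`conv_seq`).
* `act ε (e.H (act d 0)) = act d (e.H 0)`, at constant `pd`-distance `pd 0 (e.H 0) < 1` from `act d 0`, of norm tending to one, so it tends to `η'` (`pd_close`); so
`e.H η' ≠ q` implies `η' = p`.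
Since `ξ' ≠ η'` one of `e.H ξ'`, `e.H η'` is `q`, and not both.
Case `e.H η' = q`: `p = ξ'`.  For `x` in the closed disc, `r ≤ dist x (act d 0)`, for large index `r/2 ≤ dist x η'`, so `δ ≤ dist (e.H x) q` for a constant `δ > 0` (uniform
continuity of `e.Hi` on the closed disc), so `act ε (e.H x)` is `r/2`-close to `p = ξ'`, hence `r`-close to `act d ξ`: first alternative, contradiction.
Case `e.H ξ' = q`: `p = η'`.  For such `x`, `act ε⁻¹ x` is close to `q` uniformly, so `e.Hi (act ε⁻¹ x)` is close to `e.Hi q = ξ'`: second alternative, contradiction.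
`exclusive`: for `r ≤ K⁻¹ / 3`, `r ≤ 1/3`, `n` large (`‖act (d n) 0‖ ≥ 1/2`): apply the first to `x = 0` (`r ≤ dist 0 (act (d n) 0)`): `y = H_n 0` is `r`-close to `act (d n) ξ`, so at distance
`≥ K⁻¹ - r > r` from `act (d n) 0`; the second applied to `y` gives that `0` is `r`-close to `act (d n) ξ`, of norm one: contradiction.
`step`: with `β = d (n+1) * (d n)⁻¹`, `H_(n+1) = act β ∘ H_n ∘ act β⁻¹`; `β` is in a finite set so `act β`, `act β⁻¹` are Lipschitz with a common constant `L ≥ 1` on the closed disc (`act_dist`);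
`Typ H (r/L) n` implies `Typ H r (n+1)`.
`eventually`: let `r` be small, `r' = r / L`.  For large `n`: `Typ H r' n` or `Typ Hi r' n` (dichotomy); `Typ H r' n → Typ H r (n+1) → ¬ Typ Hi r (n+1) → ¬ Typ Hi r' (n+1)` (`Typ.mono`: `Typ r' → Typ r` for `r' ≤ r`)
`→ Typ H r' (n+1)`.  So if `Typ H r' n` for one large `n` then for all larger ones; otherwise `Typ Hi r' n` for all large `n`.  The alternative does not depend on `r` (small `r` implies larger `r`, and `exclusive`).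
-/

namespace TN
open Metric Set Filter Topology DS

variable {Γ : Type} [Group Γ]

def Typ (F : Fuchs Γ) (H : ℂ → ℂ) (d : ℕ → Γ) (ξ : ℂ) (r : ℝ) (n : ℕ) : Prop :=
  ∀ x ∈ closedBall (0:ℂ) 1, r ≤ dist x (F.act (d n) 0) →
    dist (F.act (d n) (H (F.act (d n)⁻¹ x))) (F.act (d n) ξ) < r

theorem Typ.mono {F : Fuchs Γ} {H : ℂ → ℂ} {d : ℕ → Γ} {ξ : ℂ} {r r' : ℝ} {n : ℕ}
    (h : Typ F H d ξ r' n) (hr : r' ≤ r) : Typ F H d ξ r n :=
  fun x hx hxr => (h x hx (hr.trans hxr)).trans_le hr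

theorem TB_key {F : Fuchs Γ} {e : Elt Γ} (he : Norm F e) (g : Γ) {x : ℂ}
    (hx : x ∈ closedBall (0:ℂ) 1) :
    F.act g (e.H (F.act g⁻¹ x)) = F.act (g * (e.θ g)⁻¹) (e.H x) := by
  have hHx : ‖e.H x‖ ≤ 1 := by simpa using he.mapC hx
  rw [he.equi g⁻¹ x hx, map_inv, act_mul F _ _ hHx]

theorem TB_key2 {F : Fuchs Γ} {e : Elt Γ} (he : Norm F e) (g : Γ) {x : ℂ}
    (hx : x ∈ closedBall (0:ℂ) 1) :
    F.act g (e.H x) = F.act (g * (e.θ g)⁻¹) (e.H (F.act g x)) := by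
  have hx1 : ‖x‖ ≤ 1 := by simpa using hx
  have hgx : F.act g x ∈ closedBall (0:ℂ) 1 := by simpa using act_le F g hx1
  rw [← TB_key he g hgx, act_inv_act F g hx1]

theorem TB_keyi {F : Fuchs Γ} {e : Elt Γ} (he : Norm F e) (g : Γ) {x : ℂ}
    (hx : x ∈ closedBall (0:ℂ) 1) :
    F.act g (e.Hi (F.act g⁻¹ x)) = e.Hi (F.act (g * (e.θ g)⁻¹)⁻¹ x) := by
  have hx1 : ‖x‖ ≤ 1 := by simpa using hx
  have hax : F.act (g * (e.θ g)⁻¹)⁻¹ x ∈ closedBall (0:ℂ) 1 := by simpa using act_le F _ hx1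
  have hgx : F.act g⁻¹ x ∈ closedBall (0:ℂ) 1 := by simpa using act_le F _ hx1
  set y := e.Hi (F.act (g * (e.θ g)⁻¹)⁻¹ x) with hy
  have hyC : y ∈ closedBall (0:ℂ) 1 := he.mapCi hax
  have hy1 : ‖y‖ ≤ 1 := by simpa using hyC
  have h1 : e.H y = F.act (g * (e.θ g)⁻¹)⁻¹ x := he.right _ hax
  have h2 := TB_key he g hyC
  rw [h1, act_act_inv F _ hx1] at h2
  have hgy : F.act g⁻¹ y ∈ closedBall (0:ℂ) 1 := by simpa using act_le F _ hy1
  have hHgy : ‖e.H (F.act g⁻¹ y)‖ ≤ 1 := by simpa using he.mapC hgy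
  have h3 : F.act g⁻¹ x = e.H (F.act g⁻¹ y) := by
    rw [← h2, act_inv_act F g hHgy]
  rw [h3, he.left _ hgy, act_act_inv F g hy1]

/-- all points of the open disc have the same limit on the circle -/
theorem TB_same {F : Fuchs Γ} {g : ℕ → Γ} {η x : ℂ} (hx : ‖x‖ < 1)
    (hb : Tendsto (fun n => ‖F.b (g n)‖) atTop (𝓝 1))
    (h0 : Tendsto (fun n => F.act (g n) 0) atTop (𝓝 η)) :
    Tendsto (fun n => F.act (g n) x) atTop (𝓝 η) := by
  have h1 : ∀ n, dist (F.act (g n) x) (F.act (g n) 0) ≤ (1 - ‖F.b (g n)‖ ^ 2) * (‖x‖ / (1 - ‖x‖)) := by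
    intro n
    have hbn := F.hb (g n)
    rw [act_dist F (g n) hx.le (by simp), mul_zero, sub_zero, norm_one, mul_one, dist_zero_right,
      mul_div_assoc]
    have h2 : 1 - ‖x‖ ≤ ‖1 - (starRingEnd ℂ) (F.b (g n)) * x‖ := by
      have h3 := norm_sub_norm_le (1 : ℂ) ((starRingEnd ℂ) (F.b (g n)) * x)
      rw [norm_one, norm_mul, RCLike.norm_conj] at h3
      have h4 : ‖F.b (g n)‖ * ‖x‖ ≤ ‖x‖ := mul_le_of_le_one_left (norm_nonneg _) hbn.le
      linarith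
    have h5 : 0 ≤ 1 - ‖F.b (g n)‖ ^ 2 := by
      have := pow_le_one₀ (n := 2) (norm_nonneg (F.b (g n))) hbn.le
      linarith
    exact mul_le_mul_of_nonneg_left
      (div_le_div_of_nonneg_left (norm_nonneg _) (by linarith) h2) h5
  have h2 : Tendsto (fun n => (1 - ‖F.b (g n)‖ ^ 2) * (‖x‖ / (1 - ‖x‖))) atTop (𝓝 0) := by
    have := ((hb.pow 2).const_sub 1).mul_const (‖x‖ / (1 - ‖x‖))
    simpa using this
  have h3 : Tendsto (fun n => dist (F.act (g n) x) (F.act (g n) 0)) atTop (𝓝 0) :=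
    squeeze_zero (fun _ => dist_nonneg) h1 h2
  exact (tendsto_iff_of_dist h3).2 h0

theorem dichotomy {F : Fuchs Γ} {e : Elt Γ} (he : Norm F e) {ξ : ℂ} (hξ : ‖ξ‖ = 1)
    (hf : e.H ξ = ξ) {d : ℕ → Γ} {ρ K C : ℝ} (h : Conic F ξ d ρ K C)
    (hfin : ∀ a, {n | d n * (e.θ (d n))⁻¹ = a}.Finite) {r : ℝ} (hr : 0 < r) :
    ∀ᶠ n in atTop, Typ F e.H d ξ r n ∨ Typ F e.Hi d ξ r n := by
  by_contra hcon
  rw [not_eventually] at hcon
  obtain ⟨φ₀, hφ₀, hno⟩ := extraction_of_frequently_atTop hcon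
  have hg : ∀ a, {n | d (φ₀ n) * (e.θ (d (φ₀ n)))⁻¹ = a}.Finite := fun a =>
    (hfin a).preimage (hφ₀.injective.injOn)
  obtain ⟨φ₁, hφ₁, p, hp, q, hq, _, _, hu, hui⟩ := conv F hg
  have hmem : ∀ n, ((F.act (d (φ₀ (φ₁ n))) ξ, F.act (d (φ₀ (φ₁ n))) 0) : ℂ × ℂ) ∈
      closedBall (0:ℂ) 1 ×ˢ closedBall (0:ℂ) 1 := fun n =>
    ⟨by simpa using act_le F _ hξ.le, by simpa using act_le F (d (φ₀ (φ₁ n))) (x := 0) (by simp)⟩
  obtain ⟨⟨ξ', η'⟩, _, φ₂, hφ₂, hlim⟩ :=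
    ((isCompact_closedBall (0:ℂ) 1).prod (isCompact_closedBall (0:ℂ) 1)).tendsto_subseq hmem
  set ψ : ℕ → ℕ := fun n => φ₀ (φ₁ (φ₂ n)) with hψ
  have hψm : StrictMono ψ := hφ₀.comp (hφ₁.comp hφ₂)
  have l1 : Tendsto (fun n => F.act (d (ψ n)) ξ) atTop (𝓝 ξ') := hlim.fst_nhds
  have l2 : Tendsto (fun n => F.act (d (ψ n)) 0) atTop (𝓝 η') := hlim.snd_nhds
  have hb : Tendsto (fun n => ‖F.b (d (ψ n))‖) atTop (𝓝 1) := h.b1.comp hψm.tendsto_atTop
  have nξ : ‖ξ'‖ = 1 := by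
    have h1 := l1.norm
    have h2 : (fun n => ‖F.act (d (ψ n)) ξ‖) = fun _ => (1:ℝ) := funext fun n => act_eq F _ hξ
    rw [h2] at h1
    exact (tendsto_nhds_unique h1 tendsto_const_nhds)
  have nη : ‖η'‖ = 1 := by
    have h1 := l2.norm
    have h2 : (fun n => ‖F.act (d (ψ n)) 0‖) = fun n => ‖F.b (d (ψ n))‖ :=
      funext fun n => norm_act_zero F _
    rw [h2] at h1
    exact (tendsto_nhds_unique h1 hb)
  have hK : 0 < K⁻¹ := inv_pos.2 (lt_of_lt_of_le one_pos h.K1)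
  have hne : ξ' ≠ η' := by
    intro heq
    have h1 : K⁻¹ ≤ dist ξ' η' :=
      ge_of_tendsto' (l1.dist l2) fun n => h.sep hξ (ψ n)
    rw [heq, dist_self] at h1
    linarith
  have hξC : ξ' ∈ closedBall (0:ℂ) 1 := by simp [nξ]
  have hηC : η' ∈ closedBall (0:ℂ) 1 := by simp [nη]
  have hqC : q ∈ closedBall (0:ℂ) 1 := by simp [lim_sphere F hq]
  -- uniform convergence along the subsequence
  have hu' : ∀ η > 0, ∀ ε > 0, ∀ᶠ n in atTop, ∀ x ∈ closedBall (0:ℂ) 1, η ≤ dist x q →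
      dist (F.act (d (ψ n) * (e.θ (d (ψ n)))⁻¹) x) p < ε := fun η hη ε hε =>
    hφ₂.tendsto_atTop.eventually (hu η hη ε hε)
  have hui' : ∀ η > 0, ∀ ε > 0, ∀ᶠ n in atTop, ∀ x ∈ closedBall (0:ℂ) 1, η ≤ dist x p →
      dist (F.act (d (ψ n) * (e.θ (d (ψ n)))⁻¹)⁻¹ x) q < ε := fun η hη ε hε =>
    hφ₂.tendsto_atTop.eventually (hui η hη ε hε)
  have hDξ : ∀ n, F.act (d (ψ n)) ξ ∈ closedBall (0:ℂ) 1 := fun n => by
    simpa using act_le F _ hξ.le
  have hD0 : ∀ n, F.act (d (ψ n)) 0 ∈ closedBall (0:ℂ) 1 := fun n => by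
    simpa using act_le F (d (ψ n)) (x := 0) (by simp)
  have hHc : ∀ {y : ℕ → ℂ} {z : ℂ}, (∀ n, y n ∈ closedBall (0:ℂ) 1) → z ∈ closedBall (0:ℂ) 1 →
      Tendsto y atTop (𝓝 z) → Tendsto (fun n => e.H (y n)) atTop (𝓝 (e.H z)) := by
    intro y z hy hz hyz
    exact (he.cont z hz).tendsto.comp (tendsto_nhdsWithin_iff.2
      ⟨hyz, Eventually.of_forall hy⟩)
  have a1 : e.H ξ' ≠ q → ξ' = p := by
    intro hne'
    have t1 : Tendsto (fun n => e.H (F.act (d (ψ n)) ξ)) atTop (𝓝 (e.H ξ')) := hHc hDξ hξC l1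
    have t2 := conv_seq F (g := fun n => d (ψ n) * (e.θ (d (ψ n)))⁻¹) hu'
      (fun n => he.mapC (hDξ n)) t1 hne'
    have t3 : ∀ n, F.act (d (ψ n) * (e.θ (d (ψ n)))⁻¹) (e.H (F.act (d (ψ n)) ξ)) =
        F.act (d (ψ n)) ξ := by
      intro n
      rw [← TB_key2 he _ (by simp [hξ]), hf]
    exact tendsto_nhds_unique l1 (t2.congr t3)
  have h0C : (0:ℂ) ∈ closedBall (0:ℂ) 1 := by simp
  have nH0 : ‖e.H 0‖ < 1 := by
    have := he.mapB (x := 0) (by simp)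
    simpa using this
  have a2 : e.H η' ≠ q → η' = p := by
    intro hne'
    have t1 : Tendsto (fun n => e.H (F.act (d (ψ n)) 0)) atTop (𝓝 (e.H η')) := hHc hD0 hηC l2
    have t2 := conv_seq F (g := fun n => d (ψ n) * (e.θ (d (ψ n)))⁻¹) hu'
      (fun n => he.mapC (hD0 n)) t1 hne'
    have t3 : ∀ n, F.act (d (ψ n) * (e.θ (d (ψ n)))⁻¹) (e.H (F.act (d (ψ n)) 0)) =
        F.act (d (ψ n)) (e.H 0) := by
      intro n
      rw [← TB_key2 he _ h0C]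
    have t4 : Tendsto (fun n => F.act (d (ψ n)) (e.H 0)) atTop (𝓝 η') := TB_same nH0 hb l2
    exact tendsto_nhds_unique t4 (t2.congr t3)
  have hinj : e.H ξ' = e.H η' → False := fun heq => hne (he.inj hξC hηC heq)
  -- continuity of the inverse at `q`
  have hδ : ∃ δ > 0, ∀ a ∈ closedBall (0:ℂ) 1, dist a q < δ → dist (e.Hi a) (e.Hi q) < r / 2 := by
    have hc := he.conti q hqC
    rw [Metric.continuousWithinAt_iff] at hc
    obtain ⟨δ, hδ, H⟩ := hc (r / 2) (by linarith)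
    exact ⟨δ, hδ, fun a ha hd => H ha hd⟩
  obtain ⟨δ, hδ0, hδ⟩ := hδ
  have e1 : ∀ᶠ n in atTop, dist (F.act (d (ψ n)) ξ) ξ' < r / 2 :=
    (Metric.tendsto_nhds.1 l1) (r / 2) (by linarith)
  have e2 : ∀ᶠ n in atTop, dist (F.act (d (ψ n)) 0) η' < r / 2 :=
    (Metric.tendsto_nhds.1 l2) (r / 2) (by linarith)
  by_cases hc : e.H η' = q
  · have hpξ : ξ' = p := a1 fun h' => hinj (h'.trans hc.symm)
    have hHiq : e.Hi q = η' := by rw [← hc, he.left _ hηC]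
    obtain ⟨n, h1, h2, h3⟩ := (e1.and (e2.and (hu' δ hδ0 (r / 2) (by linarith)))).exists
    refine hno (φ₁ (φ₂ n)) (Or.inl ?_)
    intro x hx hxr
    change r ≤ dist x (F.act (d (ψ n)) 0) at hxr
    change dist (F.act (d (ψ n)) (e.H (F.act (d (ψ n))⁻¹ x))) (F.act (d (ψ n)) ξ) < r
    rw [TB_key he _ hx]
    have h4 : r / 2 ≤ dist x η' := by
      have := dist_triangle x η' (F.act (d (ψ n)) 0)
      rw [dist_comm η'] at this
      linarith
    have h5 : δ ≤ dist (e.H x) q := by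
      by_contra hlt
      push Not at hlt
      have := hδ _ (he.mapC hx) hlt
      rw [he.left _ hx, hHiq] at this
      linarith
    have h6 := h3 (e.H x) (he.mapC hx) h5
    rw [← hpξ] at h6
    calc dist (F.act (d (ψ n) * (e.θ (d (ψ n)))⁻¹) (e.H x)) (F.act (d (ψ n)) ξ)
        ≤ dist (F.act (d (ψ n) * (e.θ (d (ψ n)))⁻¹) (e.H x)) ξ' +
          dist (F.act (d (ψ n)) ξ) ξ' := dist_triangle_right _ _ _
      _ < r := by linarith
  · have hpη : η' = p := a2 hc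
    have hHξ : e.H ξ' = q := by
      by_contra h'
      exact hne ((a1 h').trans hpη.symm)
    have hHiq : e.Hi q = ξ' := by rw [← hHξ, he.left _ hξC]
    obtain ⟨n, h1, h2, h3⟩ := (e1.and (e2.and (hui' (r / 2) (by linarith) δ hδ0))).exists
    refine hno (φ₁ (φ₂ n)) (Or.inr ?_)
    intro x hx hxr
    change r ≤ dist x (F.act (d (ψ n)) 0) at hxr
    change dist (F.act (d (ψ n)) (e.Hi (F.act (d (ψ n))⁻¹ x))) (F.act (d (ψ n)) ξ) < r
    rw [TB_keyi he _ hx]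
    have hx1 : ‖x‖ ≤ 1 := by simpa using hx
    have h4 : r / 2 ≤ dist x p := by
      have := dist_triangle x η' (F.act (d (ψ n)) 0)
      rw [dist_comm η'] at this
      rw [← hpη]
      linarith
    have h5 := h3 x hx h4
    have h6 := hδ _ (by simpa using act_le F _ hx1) h5
    rw [hHiq] at h6
    calc dist (e.Hi (F.act (d (ψ n) * (e.θ (d (ψ n)))⁻¹)⁻¹ x)) (F.act (d (ψ n)) ξ)
        ≤ dist (e.Hi (F.act (d (ψ n) * (e.θ (d (ψ n)))⁻¹)⁻¹ x)) ξ' +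
          dist (F.act (d (ψ n)) ξ) ξ' := dist_triangle_right _ _ _
      _ < r := by linarith

theorem Typ.exclusive {F : Fuchs Γ} {e : Elt Γ} (he : Norm F e) {ξ : ℂ} (hξ : ‖ξ‖ = 1)
    {d : ℕ → Γ} {ρ K C : ℝ} (h : Conic F ξ d ρ K C) {r : ℝ} (hr : 0 < r) (hrK : 3 * r ≤ K⁻¹) :
    ∀ᶠ n in atTop, Typ F e.H d ξ r n → ¬ Typ F e.Hi d ξ r n := by
  have hK1 : K⁻¹ ≤ 1 := inv_le_one_of_one_le₀ h.K1
  have h1 : ∀ᶠ n in atTop, 1 / 2 < ‖F.b (d n)‖ := h.b1.eventually_const_lt (by norm_num)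
  filter_upwards [h1] with n hn t1 t2
  have h0C : (0:ℂ) ∈ closedBall (0:ℂ) 1 := by simp
  have h2 : r ≤ dist 0 (F.act (d n) 0) := by
    rw [dist_zero_left, norm_act_zero]
    linarith
  have h3 := t1 0 h0C h2
  have hd0 : F.act (d n)⁻¹ 0 ∈ closedBall (0:ℂ) 1 := by
    simpa using act_le F (d n)⁻¹ (x := 0) (by simp)
  have hH : e.H (F.act (d n)⁻¹ 0) ∈ closedBall (0:ℂ) 1 := he.mapC hd0
  have hH1 : ‖e.H (F.act (d n)⁻¹ 0)‖ ≤ 1 := by simpa using hH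
  set y := F.act (d n) (e.H (F.act (d n)⁻¹ 0)) with hy
  have hyC : y ∈ closedBall (0:ℂ) 1 := by simpa using act_le F (d n) hH1
  have h4 := h.sep hξ n
  have h5 : r ≤ dist y (F.act (d n) 0) := by
    have h6 := dist_triangle (F.act (d n) ξ) y (F.act (d n) 0)
    rw [dist_comm (F.act (d n) ξ) y] at h6
    linarith
  have h7 := t2 y hyC h5
  rw [hy, act_inv_act F _ hH1, he.left _ hd0, act_act_inv F _ (by simp), dist_zero_left,
    act_eq F _ hξ] at h7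
  linarith

theorem TB_lip {F : Fuchs Γ} (g : Γ) {x y : ℂ} (hx : ‖x‖ ≤ 1) (hy : ‖y‖ ≤ 1) :
    dist (F.act g x) (F.act g y) ≤ 2 / (1 - ‖F.b g‖) * dist x y := by
  have hb := F.hb g
  have hb0 : 0 < 1 - ‖F.b g‖ := by linarith
  have hden : ∀ {z : ℂ}, ‖z‖ ≤ 1 → 1 - ‖F.b g‖ ≤ ‖1 - (starRingEnd ℂ) (F.b g) * z‖ := by
    intro z hz
    have h3 := norm_sub_norm_le (1 : ℂ) ((starRingEnd ℂ) (F.b g) * z)
    rw [norm_one, norm_mul, RCLike.norm_conj] at h3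
    have h4 : ‖F.b g‖ * ‖z‖ ≤ ‖F.b g‖ := mul_le_of_le_one_right (norm_nonneg _) hz
    linarith
  rw [act_dist F g hx hy]
  have h1 : (1 - ‖F.b g‖) * (1 - ‖F.b g‖) ≤
      ‖1 - (starRingEnd ℂ) (F.b g) * x‖ * ‖1 - (starRingEnd ℂ) (F.b g) * y‖ :=
    mul_le_mul (hden hx) (hden hy) hb0.le (norm_nonneg _)
  have h2 : 0 ≤ (1 - ‖F.b g‖ ^ 2) * dist x y := by
    have := pow_le_one₀ (n := 2) (norm_nonneg (F.b g)) hb.le
    exact mul_nonneg (by linarith) dist_nonneg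
  refine (div_le_div_of_nonneg_left h2 (mul_pos hb0 hb0) h1).trans ?_
  rw [div_mul_eq_mul_div, div_le_div_iff₀ (mul_pos hb0 hb0) hb0]
  have h3 : (1 - ‖F.b g‖ ^ 2) ≤ 2 * (1 - ‖F.b g‖) := by
    nlinarith [norm_nonneg (F.b g)]
  have h4 : (1 - ‖F.b g‖ ^ 2) * (dist x y * (1 - ‖F.b g‖)) ≤
      2 * (1 - ‖F.b g‖) * (dist x y * (1 - ‖F.b g‖)) :=
    mul_le_mul_of_nonneg_right h3 (mul_nonneg dist_nonneg hb0.le)
  linarith [h4]

theorem Typ.step {F : Fuchs Γ} {e : Elt Γ} (he : Norm F e) {ξ : ℂ} (hξ : ‖ξ‖ = 1)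
    {d : ℕ → Γ} {ρ K C : ℝ} (h : Conic F ξ d ρ K C) :
    ∃ L : ℝ, 1 ≤ L ∧ ∀ r > 0, ∀ n, Typ F e.H d ξ (r / L) n → Typ F e.H d ξ r (n + 1) := by
  obtain ⟨M, hM⟩ := (h.fin.image fun g => 2 / (1 - ‖F.b g‖)).bddAbove
  refine ⟨max M 1, le_max_right _ _, fun r hr n ht x hx hxr => ?_⟩
  set L := max M 1 with hL
  have hL1 : 1 ≤ L := le_max_right _ _
  have hL0 : 0 < L := by linarith
  set β := d (n + 1) * (d n)⁻¹ with hβ
  have hβL : 2 / (1 - ‖F.b β‖) ≤ L :=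
    (hM ⟨β, ⟨n, rfl⟩, rfl⟩).trans (le_max_left _ _)
  have hlip : ∀ {x y : ℂ}, ‖x‖ ≤ 1 → ‖y‖ ≤ 1 → dist (F.act β x) (F.act β y) ≤ L * dist x y :=
    fun hx hy => (TB_lip β hx hy).trans (mul_le_mul_of_nonneg_right hβL dist_nonneg)
  have hx1 : ‖x‖ ≤ 1 := by simpa using hx
  have hd : d (n + 1) = β * d n := by rw [hβ]; group
  have hdi : (d n)⁻¹ * β⁻¹ = (d (n + 1))⁻¹ := by rw [hβ]; group
  set x' := F.act β⁻¹ x with hx'
  have hx'1 : ‖x'‖ ≤ 1 := act_le F _ hx1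
  have hx'C : x' ∈ closedBall (0:ℂ) 1 := by simpa using hx'1
  have hxx' : F.act β x' = x := act_act_inv F _ hx1
  have h01 : ‖F.act (d n) 0‖ ≤ 1 := act_le F _ (by simp)
  have h1 : r ≤ L * dist x' (F.act (d n) 0) := by
    rw [hd, act_mul F _ _ (by simp), ← hxx'] at hxr
    exact hxr.trans (hlip hx'1 h01)
  have h2 : r / L ≤ dist x' (F.act (d n) 0) := by
    rw [div_le_iff₀ hL0, mul_comm]
    exact h1
  have h3 := ht x' hx'C h2
  have e1 : F.act (d n)⁻¹ x' = F.act (d (n + 1))⁻¹ x := by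
    rw [hx', ← act_mul F _ _ hx1, hdi]
  rw [e1] at h3
  have hz : F.act (d (n + 1))⁻¹ x ∈ closedBall (0:ℂ) 1 := by simpa using act_le F _ hx1
  have hHz : ‖e.H (F.act (d (n + 1))⁻¹ x)‖ ≤ 1 := by simpa using he.mapC hz
  rw [hd, act_mul F β (d n) hξ.le, act_mul F β (d n) (by rw [← hd]; exact hHz), ← hd]
  refine (hlip (act_le F _ hHz) (act_le F _ hξ.le)).trans_lt ?_
  rw [← lt_div_iff₀' hL0]
  exact h3

theorem eventually_typ {F : Fuchs Γ} {e : Elt Γ} (he : Norm F e) {ξ : ℂ} (hξ : ‖ξ‖ = 1)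
    (hf : e.H ξ = ξ) {d : ℕ → Γ} {ρ K C : ℝ} (h : Conic F ξ d ρ K C)
    (hfin : ∀ a, {n | d n * (e.θ (d n))⁻¹ = a}.Finite) :
    (∀ r > 0, ∀ᶠ n in atTop, Typ F e.H d ξ r n) ∨ (∀ r > 0, ∀ᶠ n in atTop, Typ F e.Hi d ξ r n) := by
  obtain ⟨L, hL1, hstep⟩ := Typ.step he hξ h
  have hL0 : 0 < L := by linarith
  have hK0 : 0 < K⁻¹ := inv_pos.2 (lt_of_lt_of_le one_pos h.K1)
  set r₀ := K⁻¹ / 3 with hr₀
  have hr₀0 : 0 < r₀ := by positivity
  have hr₀K : 3 * r₀ ≤ K⁻¹ := by rw [hr₀]; linarith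
  set r' := r₀ / L with hr'
  have hr'0 : 0 < r' := by positivity
  have hr'r : r' ≤ r₀ := div_le_self hr₀0.le hL1
  have hr'K : 3 * r' ≤ K⁻¹ := by linarith
  have ev := ((dichotomy he hξ hf h hfin hr'0).and
    ((Typ.exclusive he hξ h hr₀0 hr₀K).and (Typ.exclusive he hξ h hr'0 hr'K)))
  obtain ⟨N, hN⟩ := eventually_atTop.1 ev
  have hprop : ∀ n ≥ N, Typ F e.H d ξ r' n → Typ F e.H d ξ r' (n + 1) := by
    intro n hn ht
    have h1 : Typ F e.H d ξ r₀ (n + 1) := hstep r₀ hr₀0 n ht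
    have h2 := (hN (n + 1) (by omega)).2.1 h1
    rcases (hN (n + 1) (by omega)).1 with h3 | h3
    · exact h3
    · exact absurd (h3.mono hr'r) h2
  by_cases hex : ∃ n₀ ≥ N, Typ F e.H d ξ r' n₀
  · left
    obtain ⟨n₀, hn₀, ht₀⟩ := hex
    have hall : ∀ n ≥ n₀, Typ F e.H d ξ r' n := by
      intro n hn
      induction n, hn using Nat.le_induction with
      | base => exact ht₀
      | succ n hn ih => exact hprop n (hn₀.trans hn) ih
    intro r hr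
    rcases le_total r' r with hle | hle
    · exact eventually_atTop.2 ⟨n₀, fun n hn => (hall n hn).mono hle⟩
    · filter_upwards [dichotomy he hξ hf h hfin hr, eventually_ge_atTop n₀] with n h1 h2
      rcases h1 with h1 | h1
      · exact h1
      · exact absurd (h1.mono hle) ((hN n (hn₀.trans h2)).2.2 (hall n h2))
  · right
    push Not at hex
    have hall : ∀ n ≥ N, Typ F e.Hi d ξ r' n := fun n hn =>
      ((hN n hn).1).resolve_left (hex n hn)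
    intro r hr
    rcases le_total r' r with hle | hle
    · exact eventually_atTop.2 ⟨N, fun n hn => (hall n hn).mono hle⟩
    · filter_upwards [dichotomy he hξ hf h hfin hr, eventually_ge_atTop N] with n h1 h2
      rcases h1 with h1 | h1
      · exact absurd (h1.mono hle) (hex n h2)
      · exact h1

end TN
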