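import Pool.Agent.H12.TN.TB

/-!
TD (superattracting points).  `SA_of_typ`: put `b_n = F.b (d n)`, `δ_n = 1 - ‖b_n‖² → 0`, `δ_n ≤ C δ_(n+1)`.  Let `r > 0` be small:
`r K ≤ 1/4`.  Put `M = 1/(2r) - K ≥ 1/(4r)`.  For large `n ≥ N`: `Typ F H d ξ r n`.
(1) if `x` is in the closed disc, `1/2 ≤ ‖x‖`, `dist x ξ ≤ M δ_n`, `n ≥ N`, then `‖1 - conj b_n x‖ ≤ ‖1 - conj b_n ξ‖ + dist x ξ ≤ (K + M) δ_n`, so by `act_dist`
`dist (act (d n) x) (act (d n) 0) = δ_n ‖x‖ / ‖1 - conj b_n x‖ ≥ 1/(2 (K+M)) = r`.  By `Typ` at `act (d n) x`: `dist (act (d n) (H x)) (act (d n) ξ) < r`.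
(2) `H x` is in the closed disc and by `act_dist` `dist (H x) ξ = dist (act (d n) (H x)) (act (d n) ξ) ‖1 - conj b_n (H x)‖ ‖1 - conj b_n ξ‖ / δ_n ≤ r K ‖1 - conj b_n (H x)‖ ≤
r K (K δ_n + dist (H x) ξ)`, hence `dist (H x) ξ ≤ 2 r K² δ_n`.
(3) given `x ≠ ξ` with `dist x ξ ≤ M δ_N`, `1/2 ≤ ‖x‖`, let `n ≥ N` be the largest index with `dist x ξ ≤ M δ_n` (exists as `δ_n → 0`); then `M δ_(n+1) < dist x ξ`, so
`δ_n < C dist x ξ / M ≤ 4 r C dist x ξ` and `dist (H x) ξ ≤ 8 r² K² C dist x ξ`.  Given `ε` choose `r` with `8 r² K² C ≤ ε`.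
`trich`: `exists_conical`; if some value of `d n * (θ (d n))⁻¹` is taken infinitely often: `Conic.con`.  Otherwise `eventually_typ` and `SA_of_typ` for `e.H` resp. `e.Hi`
(`e.Hi ξ = ξ`).
-/

namespace TN
open Metric Set Filter Topology DS

variable {Γ : Type} [Group Γ]

theorem TD_conj {b x y : ℂ} (hb : ‖b‖ ≤ 1) :
    ‖1 - (starRingEnd ℂ) b * x‖ ≤ ‖1 - (starRingEnd ℂ) b * y‖ + dist x y := by
  have e : 1 - (starRingEnd ℂ) b * x = (1 - (starRingEnd ℂ) b * y) - (starRingEnd ℂ) b * (x - y) := by ring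
  rw [e]
  calc _ ≤ ‖1 - (starRingEnd ℂ) b * y‖ + ‖(starRingEnd ℂ) b * (x - y)‖ := norm_sub_le _ _
    _ ≤ _ := by
      rw [norm_mul, RCLike.norm_conj, dist_eq_norm]
      have := mul_le_mul_of_nonneg_right hb (norm_nonneg (x - y))
      linarith

theorem TD_pos {b x : ℂ} (hb : ‖b‖ < 1) (hx : ‖x‖ ≤ 1) : 0 < ‖1 - (starRingEnd ℂ) b * x‖ := by
  rw [norm_pos_iff]
  intro h0
  have h1 : (starRingEnd ℂ) b * x = 1 := by linear_combination -h0
  have h2 : ‖(starRingEnd ℂ) b * x‖ = 1 := by rw [h1]; simp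
  rw [norm_mul, RCLike.norm_conj] at h2
  nlinarith [norm_nonneg b, norm_nonneg x]

/-- the basic estimate -/
theorem TD_est {F : Fuchs Γ} {H : ℂ → ℂ} (hH : MapsTo H (closedBall 0 1) (closedBall 0 1))
    {ξ : ℂ} (hξ : ‖ξ‖ = 1) {d : ℕ → Γ} {ρ K C : ℝ} (h : Conic F ξ d ρ K C) {r : ℝ} (hr : 0 < r)
    (hrK : r * K ≤ 1 / 4) {n : ℕ} (ht : Typ F H d ξ r n) {x : ℂ} (hx : ‖x‖ ≤ 1) (hx2 : 1 / 2 ≤ ‖x‖)
    (hd : dist x ξ ≤ 1 / (4 * r) * (1 - ‖F.b (d n)‖ ^ 2)) :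
    dist (H x) ξ ≤ 2 * r * K ^ 2 * (1 - ‖F.b (d n)‖ ^ 2) := by
  set b := F.b (d n) with hbd
  have hb : ‖b‖ < 1 := F.hb (d n)
  set δ := 1 - ‖b‖ ^ 2 with hδd
  have hδ : 0 < δ := by rw [hδd]; nlinarith [norm_nonneg b]
  have hK : 1 ≤ K := h.K1
  have hKn : ‖1 - (starRingEnd ℂ) b * ξ‖ ≤ K * δ := h.hK n
  have hxx := TD_pos hb hx
  have hξξ := TD_pos hb hξ.le
  have hHx : ‖H x‖ ≤ 1 := by
    have := hH (x := x) (by rwa [mem_closedBall_zero_iff])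
    rwa [mem_closedBall_zero_iff] at this
  have hHH := TD_pos hb hHx
  have h1 : ‖1 - (starRingEnd ℂ) b * x‖ ≤ (K + 1 / (4 * r)) * δ := by
    have := TD_conj (x := x) (y := ξ) hb.le
    linarith
  have h2 : K + 1 / (4 * r) ≤ 1 / (2 * r) := by
    have : K ≤ 1 / (4 * r) := by rw [le_div_iff₀ (by positivity)]; linarith
    have e : 1 / (2 * r) = 1 / (4 * r) + 1 / (4 * r) := by field_simp; ring
    linarith
  have h3 : r ≤ dist (F.act (d n) x) (F.act (d n) 0) := by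
    rw [act_dist F (d n) hx (by simp), ← hbd]
    have e : (1 - ‖b‖ ^ 2) * dist x 0 / (‖1 - (starRingEnd ℂ) b * x‖ * ‖1 - (starRingEnd ℂ) b * 0‖) =
      δ * ‖x‖ / ‖1 - (starRingEnd ℂ) b * x‖ := by simp [hδd]
    rw [e, le_div_iff₀ hxx]
    have h4 : ‖1 - (starRingEnd ℂ) b * x‖ ≤ 1 / (2 * r) * δ :=
      h1.trans (mul_le_mul_of_nonneg_right h2 hδ.le)
    calc r * ‖1 - (starRingEnd ℂ) b * x‖ ≤ r * (1 / (2 * r) * δ) := mul_le_mul_of_nonneg_left h4 hr.le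
      _ = δ * (1 / 2) := by field_simp
      _ ≤ δ * ‖x‖ := mul_le_mul_of_nonneg_left hx2 hδ.le
  have h4 := ht (F.act (d n) x) (by rw [mem_closedBall_zero_iff]; exact act_le F _ hx) h3
  rw [act_inv_act F (d n) hx, act_dist F (d n) hHx hξ.le, ← hbd, div_lt_iff₀ (by positivity)] at h4
  have h5 : δ * dist (H x) ξ ≤ r * (‖1 - (starRingEnd ℂ) b * H x‖ * (K * δ)) := by
    refine h4.le.trans (mul_le_mul_of_nonneg_left (mul_le_mul_of_nonneg_left hKn hHH.le) hr.le)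
  have h6 : dist (H x) ξ ≤ r * K * ‖1 - (starRingEnd ℂ) b * H x‖ := by
    have : δ * dist (H x) ξ ≤ δ * (r * K * ‖1 - (starRingEnd ℂ) b * H x‖) := by
      refine h5.trans (le_of_eq ?_)
      ring
    exact le_of_mul_le_mul_left this hδ
  have h7 : ‖1 - (starRingEnd ℂ) b * H x‖ ≤ K * δ + dist (H x) ξ := by
    have := TD_conj (x := H x) (y := ξ) hb.le
    linarith
  have h8 : r * K * ‖1 - (starRingEnd ℂ) b * H x‖ ≤ r * K * (K * δ + dist (H x) ξ) :=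
    mul_le_mul_of_nonneg_left h7 (by positivity)
  have h9 : r * K * dist (H x) ξ ≤ 1 / 4 * dist (H x) ξ := mul_le_mul_of_nonneg_right hrK dist_nonneg
  have h10 : r * K * (K * δ + dist (H x) ξ) = r * K ^ 2 * δ + r * K * dist (H x) ξ := by ring
  have h11 : 2 * r * K ^ 2 * δ = 2 * (r * K ^ 2 * δ) := by ring
  have h12 : 0 ≤ r * K ^ 2 * δ := by positivity
  rw [h11]
  linarith [dist_nonneg (x := H x) (y := ξ)]

theorem SA_of_typ {F : Fuchs Γ} {H : ℂ → ℂ} (hH : MapsTo H (closedBall 0 1) (closedBall 0 1))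
    {ξ : ℂ} (hξ : ‖ξ‖ = 1) (hf : H ξ = ξ) {d : ℕ → Γ} {ρ K C : ℝ} (h : Conic F ξ d ρ K C)
    (ht : ∀ r > 0, ∀ᶠ n in atTop, Typ F H d ξ r n) : SA H ξ := by
  refine ⟨hf, ?_⟩
  intro ε hε
  have hK : 1 ≤ K := h.K1
  have hC : 1 ≤ C := h.C1
  set r : ℝ := min (1 / (4 * K)) (ε / (8 * K ^ 2 * C)) with hrd
  have hr : 0 < r := lt_min (by positivity) (by positivity)
  have hr1 : r ≤ 1 / (4 * K) := min_le_left _ _
  have hr2 : r ≤ ε / (8 * K ^ 2 * C) := min_le_right _ _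
  have hrK : r * K ≤ 1 / 4 := by
    calc r * K ≤ 1 / (4 * K) * K := mul_le_mul_of_nonneg_right hr1 (by positivity)
      _ = 1 / 4 := by field_simp
  have hrle : r ≤ 1 := by nlinarith
  have hrε : 8 * r ^ 2 * K ^ 2 * C ≤ ε := by
    rw [le_div_iff₀ (by positivity)] at hr2
    have h1 : r ^ 2 ≤ r := by nlinarith
    calc 8 * r ^ 2 * K ^ 2 * C = r ^ 2 * (8 * K ^ 2 * C) := by ring
      _ ≤ r * (8 * K ^ 2 * C) := mul_le_mul_of_nonneg_right h1 (by positivity)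
      _ ≤ ε := hr2
  obtain ⟨N, hN⟩ := eventually_atTop.1 (ht r hr)
  have hδpos : ∀ n, 0 < 1 - ‖F.b (d n)‖ ^ 2 := by
    intro n
    have := F.hb (d n)
    nlinarith [norm_nonneg (F.b (d n))]
  have hδlim : Tendsto (fun n => 1 / (4 * r) * (1 - ‖F.b (d n)‖ ^ 2)) atTop (𝓝 0) := by
    have h1 := ((h.b1.pow 2).const_sub 1).const_mul (1 / (4 * r))
    simpa using h1
  refine ⟨min (1 / (4 * r) * (1 - ‖F.b (d N)‖ ^ 2)) (1 / 2),
    lt_min (mul_pos (by positivity) (hδpos N)) (by norm_num), ?_⟩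
  intro x hx hxd
  rw [mem_closedBall_zero_iff] at hx
  by_cases hxξ : x = ξ
  · rw [hxξ, hf]; simp
  · have hpos : 0 < dist x ξ := dist_pos.2 hxξ
    have hx2 : 1 / 2 ≤ ‖x‖ := by
      have h1 : dist x ξ < 1 / 2 := lt_of_lt_of_le hxd (min_le_right _ _)
      have h2 : ‖ξ‖ ≤ ‖x‖ + dist x ξ := by
        rw [dist_eq_norm]
        calc ‖ξ‖ = ‖x - (x - ξ)‖ := by ring_nf
          _ ≤ _ := norm_sub_le _ _
      rw [hξ] at h2
      linarith
    have hex : ∃ j, 1 / (4 * r) * (1 - ‖F.b (d (N + j))‖ ^ 2) < dist x ξ := by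
      obtain ⟨j, hj⟩ := ((hδlim.eventually (gt_mem_nhds hpos)).and (eventually_ge_atTop N)).exists
      exact ⟨j - N, by rw [Nat.add_sub_cancel' hj.2]; exact hj.1⟩
    classical
    have hm0 : Nat.find hex ≠ 0 := by
      intro h0
      have := Nat.find_spec hex
      rw [h0, add_zero] at this
      exact absurd (lt_of_lt_of_le hxd (min_le_left _ _)) (not_lt.2 this.le)
    obtain ⟨j, hj⟩ := Nat.exists_eq_succ_of_ne_zero hm0
    have hlast : dist x ξ ≤ 1 / (4 * r) * (1 - ‖F.b (d (N + j))‖ ^ 2) := by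
      have := Nat.find_min hex (m := j) (by omega)
      exact not_lt.1 this
    have hnext : 1 / (4 * r) * (1 - ‖F.b (d (N + j + 1))‖ ^ 2) < dist x ξ := by
      have := Nat.find_spec hex
      rw [hj] at this
      exact this
    have h1 := TD_est hH hξ h hr hrK (hN (N + j) (by omega)) hx hx2 hlast
    have h2 := h.hC (N + j)
    have h3 : 1 - ‖F.b (d (N + j + 1))‖ ^ 2 ≤ 4 * r * dist x ξ := by
      have : 1 - ‖F.b (d (N + j + 1))‖ ^ 2 = 4 * r * (1 / (4 * r) * (1 - ‖F.b (d (N + j + 1))‖ ^ 2)) := by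
        field_simp
      rw [this]
      exact mul_le_mul_of_nonneg_left hnext.le (by positivity)
    have h4 : 1 - ‖F.b (d (N + j))‖ ^ 2 ≤ C * (4 * r * dist x ξ) :=
      h2.trans (mul_le_mul_of_nonneg_left h3 (by positivity))
    calc dist (H x) ξ ≤ 2 * r * K ^ 2 * (1 - ‖F.b (d (N + j))‖ ^ 2) := h1
      _ ≤ 2 * r * K ^ 2 * (C * (4 * r * dist x ξ)) := mul_le_mul_of_nonneg_left h4 (by positivity)
      _ = 8 * r ^ 2 * K ^ 2 * C * dist x ξ := by ring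
      _ ≤ ε * dist x ξ := mul_le_mul_of_nonneg_right hrε dist_nonneg

theorem trich (F : Fuchs Γ) (hU : F.UC) {e : Elt Γ} (he : Norm F e) {ξ : ℂ} (hξ : ξ ∈ F.lim)
    (hf : e.H ξ = ξ) : SA e.H ξ ∨ SA e.Hi ξ ∨ F.Con e.cen ξ := by
  obtain ⟨d, ρ, K, C, h⟩ := exists_conical F hU hξ
  by_cases hfin : ∀ a, {n | d n * (e.θ (d n))⁻¹ = a}.Finite
  · rcases eventually_typ he hξ.1 hf h hfin with ht | ht
    · exact Or.inl (SA_of_typ he.mapC hξ.1 hf h ht)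
    · refine Or.inr (Or.inl (SA_of_typ he.mapCi hξ.1 ?_ h ht))
      have := he.left ξ (by rw [mem_closedBall_zero_iff]; exact hξ.1.le)
      rwa [hf] at this
  · push Not at hfin
    obtain ⟨a, ha⟩ := hfin
    exact Or.inr (Or.inr (Conic.con h hξ.1 ha))

end TN
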